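import Pool.Agent.Lib.MP_410da7_agV.SpecE

/-!
# MP_410da7_ag, version 3, block E: the Nullstellensatz for valuation rings
-/

set_option autoImplicit false

namespace Pool.Agent.Lib.MP_410da7_agV

open MvPolynomial Module

namespace eV1Aux

variable {L Λ : Type} [Field L] [Field Λ] [Algebra L Λ] {a b : ℕ}

/-- The values of polynomials in elements of `V` are in `V`. -/
theorem mem {σ : Type} (V : ValuationSubring Λ) (hL : ∀ c : L, algebraMap L Λ c ∈ V) (f : σ → Λ)
    (hf : ∀ i, f i ∈ V) (p : MvPolynomial σ L) : aeval f p ∈ V := by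
  induction p using MvPolynomial.induction_on with
  | C c =>
    rw [aeval_C]
    exact hL c
  | add p q hp hq =>
    rw [map_add]
    exact add_mem hp hq
  | mul_X p i hp =>
    rw [map_mul, aeval_X]
    exact mul_mem hp (hf i)

/-- The ideal generated by the `1 / B_j`. -/
theorem exI (A : Fin a → Λ) (B : Fin b → Λ)
    (h : ¬ ∃ p : Fin b → MvPolynomial (Fin a ⊕ Fin b) L,
      ∑ i, (B i)⁻¹ * aeval (Sum.elim A fun j => (B j)⁻¹) (p i) = 1) :
    ∃ V : ValuationSubring Λ,
      (∀ q : MvPolynomial (Fin a ⊕ Fin b) L, aeval (Sum.elim A fun j => (B j)⁻¹) q ∈ V) ∧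
      ∀ i, (B i)⁻¹ ∈ V.nonunits := by
  classical
  let φ : MvPolynomial (Fin a ⊕ Fin b) L →ₐ[L] Λ := aeval (Sum.elim A fun j => (B j)⁻¹)
  let R : Subring Λ := φ.range.toSubring
  have hR : ∀ q, φ q ∈ R := fun q => ⟨q, rfl⟩
  let I : Ideal R :=
    { carrier := {x | ∃ p : Fin b → MvPolynomial (Fin a ⊕ Fin b) L, (x : Λ) = ∑ i, (B i)⁻¹ * φ (p i)}
      zero_mem' := ⟨0, by simp⟩
      add_mem' := by
        rintro x y ⟨p, hp⟩ ⟨q, hq⟩
        refine ⟨p + q, ?_⟩
        rw [Subring.coe_add, hp, hq, ← Finset.sum_add_distrib]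
        refine Finset.sum_congr rfl fun i _ => ?_
        rw [Pi.add_apply, map_add, mul_add]
      smul_mem' := by
        rintro ⟨r, q, hq⟩ x ⟨p, hp⟩
        refine ⟨fun i => q * p i, ?_⟩
        have h1 : ((⟨r, q, hq⟩ : R) • x : Λ) = r * x := rfl
        show r * (x : Λ) = _
        rw [hp, Finset.mul_sum]
        refine Finset.sum_congr rfl fun i _ => ?_
        rw [map_mul, ← hq]
        show φ q * _ = _
        ring }
  have hI : I ≠ ⊤ := by
    rw [Ne, Ideal.eq_top_iff_one]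
    rintro ⟨p, hp⟩
    exact h ⟨p, hp.symm⟩
  obtain ⟨V, hRV, hIV⟩ := Ideal.image_subset_nonunits_valuationSubring I hI
  refine ⟨V, fun q => hRV (hR q), fun j => ?_⟩
  have h1 : (B j)⁻¹ ∈ R := by
    have h2 := hR (X (Sum.inr j))
    have h3 : φ (X (Sum.inr j)) = (B j)⁻¹ := by
      show aeval _ _ = _
      rw [aeval_X, Sum.elim_inr]
    rwa [h3] at h2
  refine hIV ⟨⟨(B j)⁻¹, h1⟩, ⟨Pi.single j 1, ?_⟩, rfl⟩
  show (B j)⁻¹ = _
  rw [Finset.sum_eq_single j]
  · rw [Pi.single_eq_same, map_one, mul_one]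
  · intro i _ hij
    rw [Pi.single_eq_of_ne hij, map_zero, mul_zero]
  · intro hj
    exact absurd (Finset.mem_univ j) hj

end eV1Aux

open eV1Aux in
theorem eV1 : EV1Stmt := by
  intro L Λ _ _ _ a b A B hB
  constructor
  · intro hV
    by_contra h
    obtain ⟨V, h1, h2⟩ := exI A B h
    refine hV ⟨V, fun c => ?_, fun i => ?_, fun i hi => ?_⟩
    · have h3 := h1 (C c)
      rwa [aeval_C] at h3
    · have h3 := h1 (X (Sum.inl i))
      rwa [aeval_X, Sum.elim_inl] at h3
    · exact ((V.inv_mem_nonunits_iff).1 (h2 i)).resolve_left (hB i) hi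
  · rintro ⟨p, hp⟩ ⟨V, hL, hA, hBV⟩
    have hBn : ∀ i, V.valuation (B i)⁻¹ < 1 := fun i =>
      (ValuationSubring.mem_nonunits_iff V).1 ((V.inv_mem_nonunits_iff).2 (Or.inr (hBV i)))
    have hBi : ∀ i, (B i)⁻¹ ∈ V := fun i => (V.valuation_le_one_iff _).1 (hBn i).le
    have h1 : V.valuation (∑ i, (B i)⁻¹ * aeval (Sum.elim A fun j => (B j)⁻¹) (p i)) < 1 := by
      refine V.valuation.map_sum_lt one_ne_zero fun i _ => ?_
      rw [map_mul]
      have h2 : V.valuation (aeval (Sum.elim A fun j => (B j)⁻¹) (p i)) ≤ 1 := by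
        rw [V.valuation_le_one_iff]
        refine mem V hL _ (fun j => ?_) (p i)
        cases j with
        | inl j => exact hA j
        | inr j => exact hBi j
      exact mul_lt_one_of_lt_of_le (hBn i) h2
    rw [hp, map_one] at h1
    exact lt_irrefl _ h1

end Pool.Agent.Lib.MP_410da7_agV
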