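import Pool.Agent.Lib.MP_410da7_agV.SpecE
import Pool.Agent.Lib.MP_410da7_agA.E5
import Pool.Agent.Lib.MP_410da7_agA.E6Aux

/-! # MP_410da7_ag, C46 version 3, EV2: lifting the pattern of a valuation ring -/

set_option autoImplicit false

namespace Pool.Agent.Lib.MP_410da7_agV

open MvPolynomial Module
open Pool.Agent.Lib.MP_410da7_agA

namespace eV2Aux

open e6Aux

/-- one pattern -/
theorem pat (h1 : EV1Stmt) (L Λ : Type) [Field L] [Field Λ] [Algebra L Λ] (A B : Finset Λ)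
    (hB : ∀ g ∈ B, g ≠ 0) :
    ∃ CL : Finset L, ∀ (k Λ' : Type) [Field k] [Field Λ'] [Algebra k Λ']
      (s : Spz L Λ k Λ') (q : ℕ) (E : Finset Λ), A ⊆ E → B ⊆ E → s.Ok q CL E →
      ∀ V' : ValuationSubring Λ', (∀ c : k, algebraMap k Λ' c ∈ V') →
        (∀ g ∈ A, s.v g ∈ V') → (∀ g ∈ B, s.v g ∉ V') →
        ∃ V : ValuationSubring Λ, (∀ c : L, algebraMap L Λ c ∈ V) ∧ (∀ g ∈ A, g ∈ V) ∧
          ∀ g ∈ B, g ∉ V := by
  classical
  by_cases h : ∃ V : ValuationSubring Λ, (∀ c : L, algebraMap L Λ c ∈ V) ∧ (∀ g ∈ A, g ∈ V) ∧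
      ∀ g ∈ B, g ∉ V
  · exact ⟨∅, fun k Λ' _ _ _ s q E _ _ _ V' _ _ _ => h⟩
  let A' : Fin A.card → Λ := fun i => (A.equivFin.symm i : Λ)
  let B' : Fin B.card → Λ := fun i => (B.equivFin.symm i : Λ)
  have hA' : ∀ i, A' i ∈ A := fun i => (A.equivFin.symm i).2
  have hB' : ∀ i, B' i ∈ B := fun i => (B.equivFin.symm i).2
  have hAs : ∀ g ∈ A, ∃ i, A' i = g := fun g hg =>
    ⟨A.equivFin ⟨g, hg⟩, by simp only [A', Equiv.symm_apply_apply]⟩
  have hBs : ∀ g ∈ B, ∃ i, B' i = g := fun g hg =>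
    ⟨B.equivFin ⟨g, hg⟩, by simp only [B', Equiv.symm_apply_apply]⟩
  have h2 : ¬ ∃ V : ValuationSubring Λ, (∀ c : L, algebraMap L Λ c ∈ V) ∧ (∀ i, A' i ∈ V) ∧
      ∀ i, B' i ∉ V := by
    rintro ⟨V, h3, h4, h5⟩
    refine h ⟨V, h3, fun g hg => ?_, fun g hg => ?_⟩
    · obtain ⟨i, rfl⟩ := hAs g hg
      exact h4 i
    · obtain ⟨i, rfl⟩ := hBs g hg
      exact h5 i
  obtain ⟨P, hP⟩ := (h1 L Λ _ _ A' B' fun i => hB _ (hB' i)).1 h2
  refine ⟨Finset.univ.biUnion fun i => cf (P i), ?_⟩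
  intro k Λ' _ _ _ s q E hAE hBE hok V' hV' hAV hBV
  exfalso
  have uB : ∀ i, Un s (B' i) := fun i => un_of hok (hBE (hB' i)) (hB _ (hB' i))
  have hAO : ∀ i, A' i ∈ s.O := fun i => (hok.hE _ (hAE (hA' i))).1
  have hPI : ∀ i, s.In (P i) := fun i => in_of fun a ha =>
    (hok.hC a (Finset.mem_biUnion.2 ⟨i, Finset.mem_univ i, ha⟩)).1
  have hpt : ∀ l, (Sum.elim A' (fun j => (B' j)⁻¹) : Fin A.card ⊕ Fin B.card → Λ) l ∈ s.O := by
    rintro (i | i)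
    · exact hAO i
    · exact (uB i).inv
  have hval := fun i => v_aeval e5 (hPI i) hpt
  have hpt' : (fun l => s.v ((Sum.elim A' (fun j => (B' j)⁻¹) : Fin A.card ⊕ Fin B.card → Λ) l)) =
      Sum.elim (fun i => s.v (A' i)) (fun j => (s.v (B' j))⁻¹) := by
    funext l
    rcases l with i | i
    · rfl
    · exact (uB i).v_inv
  refine (h1 k Λ' _ _ (fun i => s.v (A' i)) (fun i => s.v (B' i)) fun i => (uB i).vne).2
    ⟨fun i => s.red (P i), ?_⟩ ⟨V', hV', fun i => hAV _ (hA' i), fun i => hBV _ (hB' i)⟩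
  have h3 : s.v (∑ i, (B' i)⁻¹ * aeval (Sum.elim A' fun j => (B' j)⁻¹) (P i)) = 1 := by
    rw [hP, v_one]
  rw [v_sum _ _ fun i _ => s.O.mul_mem (uB i).inv (hval i).1] at h3
  rw [← h3]
  refine Finset.sum_congr rfl fun i _ => ?_
  rw [v_mul (uB i).inv (hval i).1, (uB i).v_inv, (hval i).2, hpt']

end eV2Aux

open eV2Aux e6Aux in
theorem eV2 (hev1 : EV1Stmt) : EV2Stmt := by
  classical
  intro L Λ _ _ _ G hG
  choose CL hCL using fun A : Finset Λ => pat hev1 L Λ (G ∩ A) (G \ A) fun g hg =>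
    hG g (Finset.mem_sdiff.1 hg).1
  refine ⟨G.powerset.biUnion CL, G, ?_⟩
  intro k Λ' _ _ _ s q hok V' hV'
  set A : Finset Λ := G.filter fun g => s.v g ∈ V' with hA
  have hAG : A ⊆ G := Finset.filter_subset _ _
  have hok' : s.Ok q (CL A) G := ok_mono hok
    (fun a ha => Finset.mem_biUnion.2 ⟨A, Finset.mem_powerset.2 hAG, ha⟩) (Finset.Subset.refl G)
  obtain ⟨V, h1, h2, h3⟩ := hCL A k Λ' s q G Finset.inter_subset_left Finset.sdiff_subset hok'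
    V' hV' (fun g hg => (Finset.mem_filter.1 (Finset.mem_inter.1 hg).2).2) (fun g hg h => by
      obtain ⟨h4, h5⟩ := Finset.mem_sdiff.1 hg
      exact h5 (Finset.mem_filter.2 ⟨h4, h⟩))
  refine ⟨V, h1, fun g hg => ?_⟩
  constructor
  · intro h
    by_contra h4
    exact h3 g (Finset.mem_sdiff.2 ⟨hg, fun h5 => h4 (Finset.mem_filter.1 h5).2⟩) h
  · intro h
    exact h2 g (Finset.mem_inter.2 ⟨hg, Finset.mem_filter.2 ⟨hg, h⟩⟩)

end Pool.Agent.Lib.MP_410da7_agV
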