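import Pool.Agent.Lib.MP_410da7_agV.SpecF

/-!
# C46 v3, GV3: a rank one valuation ring at infinity
-/

set_option autoImplicit false

namespace Pool.Agent.Lib.MP_410da7_agV

open MvPolynomial
open Pool.Agent.Lib.MP_410da7_agA (mx)

namespace gV3Aux

section

variable {Ω Γ : Type} [Field Ω] [LinearOrderedCommGroupWithZero Γ]

/-- A vanishing sum has two terms of the same value. -/
lemma two_terms (v : Valuation Ω Γ) (s : Finset ℕ) (f : ℕ → Ω) (hs : s.Nonempty)
    (hf : ∀ i ∈ s, f i ≠ 0) (h : ∑ i ∈ s, f i = 0) :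
    ∃ i ∈ s, ∃ j ∈ s, i < j ∧ v (f i) = v (f j) := by
  obtain ⟨i₀, hi₀, hmax⟩ := s.exists_max_image (fun i => v (f i)) hs
  by_contra hcon
  push Not at hcon
  have h1 : ∀ j ∈ s.erase i₀, v (f j) < v (f i₀) := by
    intro j hj
    obtain ⟨hne, hjs⟩ := Finset.mem_erase.mp hj
    refine lt_of_le_of_ne (hmax j hjs) ?_
    rcases lt_or_gt_of_ne hne with h' | h'
    · exact hcon j hjs i₀ hi₀ h'
    · exact fun h'' => hcon i₀ hi₀ j hjs h' h''.symm
  have h2 : v (∑ j ∈ s.erase i₀, f j) < v (f i₀) :=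
    v.map_sum_lt ((v.ne_zero_iff).mpr (hf _ hi₀)) h1
  have h3 : f i₀ + ∑ j ∈ s.erase i₀, f j = 0 := by rw [Finset.add_sum_erase _ _ hi₀, h]
  have h4 := v.map_add_eq_of_lt_left h2
  rw [h3, map_zero] at h4
  exact ((v.ne_zero_iff).mpr (hf _ hi₀)) h4.symm

/-- The value of a polynomial at an element of value greater than one. -/
lemma poly_val {k₁ : Type} [Field k₁] [Algebra k₁ Ω] (v : Valuation Ω Γ)
    (hk : ∀ c : k₁, c ≠ 0 → v (algebraMap k₁ Ω c) = 1) (τ : Ω) (hτ : 1 < v τ)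
    (q : Polynomial k₁) (hq : q ≠ 0) : v (Polynomial.aeval τ q) = v τ ^ q.natDegree := by
  have h0 : v τ ≠ 0 := (lt_trans zero_lt_one hτ).ne'
  have h1 : Polynomial.aeval τ q = ∑ i ∈ Finset.range q.natDegree,
      algebraMap k₁ Ω (q.coeff i) * τ ^ i +
      algebraMap k₁ Ω (q.coeff q.natDegree) * τ ^ q.natDegree := by
    rw [Polynomial.aeval_eq_sum_range, Finset.sum_range_succ]
    simp only [Algebra.smul_def]
  have h2 : v (algebraMap k₁ Ω (q.coeff q.natDegree) * τ ^ q.natDegree) =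
      v τ ^ q.natDegree := by
    rw [map_mul, hk _ (by rwa [Polynomial.coeff_natDegree, Ne, Polynomial.leadingCoeff_eq_zero]),
      one_mul, map_pow]
  have h3 : v (∑ i ∈ Finset.range q.natDegree, algebraMap k₁ Ω (q.coeff i) * τ ^ i) <
      v (algebraMap k₁ Ω (q.coeff q.natDegree) * τ ^ q.natDegree) := by
    apply v.map_sum_lt
    · rw [h2]
      exact pow_ne_zero _ h0
    · intro i hi
      rw [h2, map_mul, map_pow]
      by_cases hc : q.coeff i = 0
      · rw [hc, map_zero, map_zero, zero_mul]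
        exact pow_pos (zero_lt_iff.mpr h0) _
      · rw [hk _ hc, one_mul]
        exact pow_lt_pow_right₀ hτ (Finset.mem_range.mp hi)
  rw [h1, v.map_add_eq_of_lt_right h3, h2]

/-- Commensurable values: rank one. -/
lemma rank_aux (v : Valuation Ω Γ) (τ : Ω) (hτ : 1 < v τ)
    (h : ∀ z : Ω, z ≠ 0 → ∃ (m : ℕ) (n : ℤ), 0 < m ∧ v z ^ m = v τ ^ n) (x y : Ω)
    (hx : v x < 1) (hy : y ≠ 0) : ∃ K : ℕ, v (x ^ K) ≤ v y := by
  by_cases hx0 : x = 0
  · exact ⟨1, by rw [hx0, pow_one, map_zero]; exact zero_le'⟩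
  obtain ⟨m, n, hm, h1⟩ := h x hx0
  obtain ⟨m', n', hm', h2⟩ := h y hy
  have h0 : v τ ≠ 0 := (lt_trans zero_lt_one hτ).ne'
  have hn : n < 0 := by
    by_contra hcon
    push Not at hcon
    have h3 : v x ^ m < 1 := pow_lt_one₀ zero_le' hx hm.ne'
    rw [h1] at h3
    exact absurd h3 (not_lt.mpr (one_le_zpow₀ hτ.le hcon))
  -- `K = |n'| m`
  refine ⟨n'.natAbs * m, ?_⟩
  have h4 : (v (x ^ (n'.natAbs * m))) ^ (m * m') ≤ (v y) ^ (m * m') := by
    have e1 : (v (x ^ (n'.natAbs * m))) ^ (m * m') = v τ ^ (n * (n'.natAbs * m * m' : ℕ)) := by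
      rw [map_pow, ← pow_mul, show n'.natAbs * m * (m * m') = m * (n'.natAbs * m * m') by ring,
        pow_mul, h1, ← zpow_natCast, ← zpow_mul]
    have e2 : (v y) ^ (m * m') = v τ ^ (n' * (m : ℕ)) := by
      rw [mul_comm m m', pow_mul, h2, ← zpow_natCast, ← zpow_mul]
    rw [e1, e2]
    apply zpow_le_zpow_right₀ hτ.le
    have h5 : (1 : ℤ) ≤ m' := by exact_mod_cast hm'
    have h6 : (1 : ℤ) ≤ m := by exact_mod_cast hm
    have h7 : -(n'.natAbs : ℤ) ≤ n' := by omega
    have h8 : (0 : ℤ) ≤ (n'.natAbs : ℤ) := by omega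
    push_cast
    have h9 : n * (|n'| * m * m') ≤ -(|n'| * m * m') := by
      have : 0 ≤ |n'| * m * m' := by positivity
      nlinarith
    have h10 : |n'| * m * m' ≥ |n'| * m := by
      have : 0 ≤ |n'| * (m : ℤ) := by positivity
      nlinarith
    have h11 : -(|n'| * (m : ℤ)) ≤ n' * m := by
      have := neg_abs_le n'
      nlinarith
    linarith
  exact le_of_pow_le_pow_left₀ (Nat.mul_pos hm hm').ne' zero_le' h4

end

open scoped IntermediateField.algebraAdjoinAdjoin in
/-- A transcendental element `τ`: a valuation ring of rank one with `τ` outside. -/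
lemma exists_ring (k Ω : Type) [Field k] [Field Ω] [Algebra k Ω] (τ : Ω)
    (hτ : Transcendental k τ) :
    ∃ 𝒱 : ValuationSubring Ω, (∀ c : k, algebraMap k Ω c ∈ 𝒱) ∧ RankOne 𝒱 ∧ τ ∉ 𝒱 := by
  have hind : AlgebraicIndepOn k id ({τ} : Set Ω) := by
    have := (algebraicIndependent_singleton_iff (R := k) (x := fun i : ({τ} : Set Ω) => (i : Ω))
      ⟨τ, rfl⟩).mpr hτ
    exact this
  obtain ⟨B, hB, hbasis⟩ := exists_isTranscendenceBasis_superset hind
  have hτB : τ ∈ B := hB rfl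
  let T : Set Ω := B \ {τ}
  let k₁ : IntermediateField k Ω := IntermediateField.adjoin k T
  have htr0 : Transcendental (Algebra.adjoin k T) τ := by
    have h1 := hbasis.1.transcendental_adjoin (s := {b : B | (b : Ω) ≠ τ}) (i := ⟨τ, hτB⟩)
      (by simp)
    have h2 : (Subtype.val '' {b : B | (b : Ω) ≠ τ}) = T := by
      ext z
      constructor
      · rintro ⟨b, hb, rfl⟩
        exact ⟨b.2, hb⟩
      · rintro ⟨hz, hz'⟩
        exact ⟨⟨z, hz⟩, hz', rfl⟩
    rw [h2] at h1
    exact h1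
  have htr : Transcendental k₁ τ := by
    intro halg
    exact htr0 ((IsFractionRing.isAlgebraic_iff (Algebra.adjoin k T) k₁ Ω).mpr halg)
  have hnotin : τ ∉ (integralClosure k₁ Ω).toSubring := fun h =>
    htr (isAlgebraic_iff_isIntegral.mpr h)
  obtain ⟨𝒱, h𝒱, hsv⟩ := Subring.exists_le_valuationSubring_of_isIntegrallyClosedIn hnotin
  have hk₁ : ∀ c : k₁, (c : Ω) ∈ 𝒱 := fun c =>
    h𝒱 (show (c : Ω) ∈ integralClosure k₁ Ω from isIntegral_algebraMap (R := k₁) (x := c))
  have hval : ∀ c : k₁, c ≠ 0 → 𝒱.valuation (algebraMap k₁ Ω c) = 1 := by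
    intro c hc
    have h1 : 𝒱.valuation (c : Ω) ≤ 1 := (𝒱.valuation_le_one_iff _).mpr (hk₁ c)
    have h2 : 𝒱.valuation ((c⁻¹ : k₁) : Ω) ≤ 1 := (𝒱.valuation_le_one_iff _).mpr (hk₁ c⁻¹)
    have h3 : 𝒱.valuation (c : Ω) * 𝒱.valuation ((c⁻¹ : k₁) : Ω) = 1 := by
      rw [← map_mul]
      have : (c : Ω) * ((c⁻¹ : k₁) : Ω) = 1 := by
        have h4 : c * c⁻¹ = 1 := mul_inv_cancel₀ hc
        have := congrArg (fun z : k₁ => (z : Ω)) h4
        simpa using this
      rw [this, map_one]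
    apply le_antisymm h1
    by_contra hcon
    push Not at hcon
    have : 𝒱.valuation (c : Ω) * 𝒱.valuation ((c⁻¹ : k₁) : Ω) < 1 := by
      calc 𝒱.valuation (c : Ω) * 𝒱.valuation ((c⁻¹ : k₁) : Ω)
          ≤ 𝒱.valuation (c : Ω) * 1 := by gcongr
        _ < 1 := by rw [mul_one]; exact hcon
    exact absurd h3 this.ne
  have hvτ : 1 < 𝒱.valuation τ := by
    by_contra hcon
    push Not at hcon
    exact hsv ((𝒱.valuation_le_one_iff _).mp hcon)
  have h0 : 𝒱.valuation τ ≠ 0 := (lt_trans zero_lt_one hvτ).ne'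
  -- values of the elements of `k(B)`
  have hF : ∀ c ∈ IntermediateField.adjoin k B, c ≠ 0 → ∃ n : ℤ,
      𝒱.valuation c = 𝒱.valuation τ ^ n := by
    intro c hc hc0
    have hle : IntermediateField.adjoin k B ≤
        (IntermediateField.adjoin k₁ ({τ} : Set Ω)).restrictScalars k := by
      rw [IntermediateField.adjoin_le_iff]
      intro b hb
      by_cases hbτ : b = τ
      · rw [hbτ]
        exact IntermediateField.mem_adjoin_simple_self k₁ τ
      · have hbk : b ∈ k₁ := IntermediateField.subset_adjoin k T ⟨hb, hbτ⟩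
        exact (IntermediateField.adjoin k₁ ({τ} : Set Ω)).algebraMap_mem ⟨b, hbk⟩
    have hc' : c ∈ IntermediateField.adjoin k₁ ({τ} : Set Ω) := hle hc
    obtain ⟨r, s, hrs⟩ := (IntermediateField.mem_adjoin_simple_iff k₁ c).mp hc'
    have hr0 : r ≠ 0 := by
      rintro rfl
      rw [map_zero, zero_div] at hrs
      exact hc0 hrs
    have hs0 : s ≠ 0 := by
      rintro rfl
      rw [map_zero, div_zero] at hrs
      exact hc0 hrs
    refine ⟨(r.natDegree : ℤ) - s.natDegree, ?_⟩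
    rw [hrs, map_div₀, poly_val _ hval τ hvτ r hr0, poly_val _ hval τ hvτ s hs0,
      zpow_sub₀ h0, zpow_natCast, zpow_natCast]
  have hall : ∀ z : Ω, z ≠ 0 → ∃ (m : ℕ) (n : ℤ), 0 < m ∧
      𝒱.valuation z ^ m = 𝒱.valuation τ ^ n := by
    intro z hz
    have halg : Algebra.IsAlgebraic (IntermediateField.adjoin k B) Ω := by
      have := hbasis.isAlgebraic_field
      rwa [Subtype.range_coe] at this
    obtain ⟨p, hp0, hp⟩ := halg.isAlgebraic z
    rw [Polynomial.aeval_eq_sum_range] at hp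
    have hp' : ∑ i ∈ p.support, (p.coeff i : Ω) * z ^ i = 0 := by
      rw [← hp]
      symm
      have : p.support ⊆ Finset.range (p.natDegree + 1) := Polynomial.supp_subset_range_natDegree_succ
      rw [← Finset.sum_subset this]
      · rfl
      · intro i _ hi
        rw [Polynomial.notMem_support_iff.mp hi, zero_smul]
    have hvz : 𝒱.valuation z ≠ 0 := (𝒱.valuation.ne_zero_iff).mpr hz
    obtain ⟨i, hi, j, hj, hij, heq⟩ := two_terms 𝒱.valuation p.support
      (fun i => (p.coeff i : Ω) * z ^ i)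
      (Finset.nonempty_iff_ne_empty.mpr (fun h => hp0 (Polynomial.support_eq_empty.mp h)))
      (fun i hi => mul_ne_zero (by
        have := Polynomial.mem_support_iff.mp hi
        exact fun h => this (Subtype.ext h)) (pow_ne_zero _ hz)) hp'
    have hci : ((p.coeff i : IntermediateField.adjoin k B) : Ω) ≠ 0 := fun h =>
      (Polynomial.mem_support_iff.mp hi) (Subtype.ext h)
    have hcj : ((p.coeff j : IntermediateField.adjoin k B) : Ω) ≠ 0 := fun h =>
      (Polynomial.mem_support_iff.mp hj) (Subtype.ext h)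
    obtain ⟨a, ha⟩ := hF _ (p.coeff i).2 hci
    obtain ⟨b, hb⟩ := hF _ (p.coeff j).2 hcj
    refine ⟨j - i, a - b, by omega, ?_⟩
    simp only [map_mul, map_pow] at heq
    rw [ha, hb] at heq
    have e1 : 𝒱.valuation z ^ j = 𝒱.valuation z ^ i * 𝒱.valuation z ^ (j - i) := by
      rw [← pow_add]
      congr 1
      omega
    rw [e1] at heq
    have e2 : 𝒱.valuation τ ^ a = 𝒱.valuation τ ^ b * 𝒱.valuation z ^ (j - i) := by
      have hne : 𝒱.valuation z ^ i ≠ 0 := pow_ne_zero _ hvz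
      apply mul_right_cancel₀ hne
      rw [heq, mul_assoc, mul_comm (𝒱.valuation z ^ i)]
    rw [zpow_sub₀ h0, e2, mul_div_assoc, mul_comm, div_mul_cancel₀ _ (zpow_ne_zero _ h0)]
  refine ⟨𝒱, fun c => ?_, fun x y hx hy => rank_aux _ τ hvτ hall x y hx hy, hsv⟩
  have := hk₁ (algebraMap k k₁ c)
  exact this

end gV3Aux

open gV3Aux in
theorem gV3 : GV3Stmt := by
  intro k V _ _ 𝔓 hP hle hne
  have : IsDomain (MvPolynomial V k ⧸ 𝔓) := Ideal.Quotient.isDomain 𝔓
  let S := MvPolynomial V k ⧸ 𝔓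
  let K := FractionRing S
  let Ω := AlgebraicClosure K
  let φ : S →ₐ[k] Ω := (IsScalarTower.toAlgHom k K Ω).comp (IsScalarTower.toAlgHom k S K)
  have hφ : Function.Injective φ :=
    (FaithfulSMul.algebraMap_injective K Ω).comp (IsFractionRing.injective S K)
  let π : MvPolynomial V k →ₐ[k] S := Ideal.Quotient.mkₐ k 𝔓
  have hπ : ∀ p, π p = 0 ↔ p ∈ 𝔓 := fun p => Ideal.Quotient.eq_zero_iff_mem
  let s : V → Ω := fun v => φ (π (X v))
  have hs : ∀ p, aeval s p = φ (π p) := by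
    intro p
    have h1 : (aeval s : MvPolynomial V k →ₐ[k] Ω) = φ.comp π := by
      apply MvPolynomial.algHom_ext
      intro v
      simp [s]
    rw [h1]
    rfl
  have hker : ∀ p, p ∈ 𝔓 ↔ aeval s p = 0 := by
    intro p
    rw [hs, ← hπ]
    constructor
    · intro h
      rw [h, map_zero]
    · intro h
      exact hφ (by rw [h, map_zero])
  -- a variable outside 𝔓
  obtain ⟨v, hv⟩ : ∃ v, (X v : MvPolynomial V k) ∉ 𝔓 := by
    by_contra hcon
    push Not at hcon
    apply hne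
    apply le_antisymm hle
    intro p hp
    have h1 : constantCoeff p = 0 := hp
    have h2 : π p = 0 := by
      have h3 : π = (Algebra.ofId k S).comp (aeval (fun _ : V => (0 : k))) := by
        apply MvPolynomial.algHom_ext
        intro w
        rw [AlgHom.comp_apply, aeval_X, map_zero]
        exact (hπ _).mpr (hcon w)
      rw [h3, AlgHom.comp_apply]
      have h4 : aeval (fun _ : V => (0 : k)) p = constantCoeff p := by
        rw [MvPolynomial.aeval_zero']
        rfl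
      rw [h4, h1, map_zero]
    exact (hπ p).mp h2
  have hx0 : π (X v) ≠ 0 := fun h => hv ((hπ _).mp h)
  have hnint : ¬ IsIntegral k (s v) := by
    intro hint
    have h1 : IsIntegral k (π (X v)) := (isIntegral_algHom_iff φ hφ).mp hint
    have h2 : IsUnit (π (X v)) := h1.isUnit hx0
    have h3 : ∀ a ∈ 𝔓, (constantCoeff : MvPolynomial V k →+* k) a = 0 := fun a ha => hle ha
    have h4 := h2.map (Ideal.Quotient.lift 𝔓 (constantCoeff : MvPolynomial V k →+* k) h3)
    have h5 : Ideal.Quotient.lift 𝔓 (constantCoeff : MvPolynomial V k →+* k) h3 (π (X v)) = 0 := by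
      change Ideal.Quotient.lift 𝔓 _ h3 (Ideal.Quotient.mk 𝔓 (X v)) = 0
      rw [Ideal.Quotient.lift_mk]
      simp
    rw [h5] at h4
    exact not_isUnit_zero h4
  have htr : Transcendental k (s v) := fun h => hnint (isAlgebraic_iff_isIntegral.mp h)
  obtain ⟨𝒱, h𝒱, hrk, hsv⟩ := exists_ring k Ω (s v) htr
  exact ⟨Ω, inferInstance, inferInstance, inferInstance, s, 𝒱, hker, h𝒱, hrk, v, hsv⟩

end Pool.Agent.Lib.MP_410da7_agV
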