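import Pool.Agent.Lib.MP_410da7_agV.SpecF
import Pool.Agent.Lib.MP_410da7_agA.F2
import Pool.Agent.Lib.MP_410da7_agA.FF8

/-!
# MP_410da7_ag, version 3: NC1

`L((m+1) Q) = L(m Q) + z L(m Q)` for some `m`.
-/

set_option autoImplicit false

namespace Pool.Agent.Lib.MP_410da7_agV

open MvPolynomial Module
open Pool.Agent.Lib.MP_410da7_agA (Curve ptDiv mx ext push FixedBy f2 ff8)

namespace nC1Aux

variable {k Λ : Type} [Field k] [Field Λ] [Algebra k Λ]

/-- The multiple `m Q`. -/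
abbrev mq {α : Type} (m : ℕ) (Q : α → ℤ) : α → ℤ := ((m : ℕ) : ℤ) • Q

lemma mem_iff (C : Curve k Λ) {D : C.pt → ℤ} {y : Λ} (hy : y ≠ 0) :
    y ∈ C.L D ↔ ∀ w, -D w ≤ C.ord w y := by
  have h0 : ∀ w, C.exp w y ≠ 0 := fun w h => hy ((map_eq_zero (C.exp w)).1 h)
  constructor
  · intro h w
    by_contra h1
    have h2 : (C.exp w y).coeff (C.exp w y).order = 0 := h w _ (by
      have h3 : C.ord w y = (C.exp w y).order := rfl
      omega)
    exact h0 w (HahnSeries.coeff_order_eq_zero.1 h2)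
  · intro h w i hi
    refine HahnSeries.coeff_eq_zero_of_lt_order (lt_of_lt_of_le hi ?_)
    exact h w

lemma ord_mul (C : Curve k Λ) (w : C.pt) {x y : Λ} (hx : x ≠ 0) (hy : y ≠ 0) :
    C.ord w (x * y) = C.ord w x + C.ord w y := by
  have h0 : C.exp w x ≠ 0 := fun h => hx ((map_eq_zero (C.exp w)).1 h)
  have h1 : C.exp w y ≠ 0 := fun h => hy ((map_eq_zero (C.exp w)).1 h)
  unfold Curve.ord
  rw [map_mul, HahnSeries.order_mul h0 h1]

lemma mul_mem (C : Curve k Λ) {D E : C.pt → ℤ} {x y : Λ} (hx : x ∈ C.L D) (hy : y ∈ C.L E) :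
    x * y ∈ C.L (D + E) := by
  by_cases h0 : x = 0
  · rw [h0, zero_mul]
    exact Submodule.zero_mem _
  by_cases h1 : y = 0
  · rw [h1, mul_zero]
    exact Submodule.zero_mem _
  rw [mem_iff C (mul_ne_zero h0 h1)]
  intro w
  have h2 := (mem_iff C h0).1 hx w
  have h3 := (mem_iff C h1).1 hy w
  rw [ord_mul C w h0 h1, Pi.add_apply]
  omega

lemma mono (C : Curve k Λ) {D D' : C.pt → ℤ} (h : ∀ w, D w ≤ D' w) : C.L D ≤ C.L D' := by
  intro y hy w i hi
  exact hy w i (by have := h w; omega)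

/-- Cancelling the factor `z`. -/
lemma cancel (C : Curve k Λ) {Q : C.pt → ℤ} {z : Λ} (hQ : ∀ w, 0 ≤ Q w)
    (hz : ∀ w, 0 < Q w → z ≠ 0 ∧ C.ord w z = - Q w) (m : ℕ) {u : Λ}
    (h1 : u ∈ C.L (mq (m + 1) Q)) (h2 : u * z ∈ C.L (mq (m + 1) Q)) : u ∈ C.L (mq m Q) := by
  by_cases h0 : u = 0
  · rw [h0]
    exact Submodule.zero_mem _
  rw [mem_iff C h0] at h1 ⊢
  intro w
  rcases (hQ w).eq_or_lt with hw | hw
  · have h3 := h1 w
    simp only [mq, Pi.smul_apply, smul_eq_mul] at h3 ⊢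
    rw [← hw] at h3 ⊢
    simpa using h3
  · obtain ⟨hz0, hzw⟩ := hz w hw
    have h3 := (mem_iff C (mul_ne_zero h0 hz0)).1 h2 w
    rw [ord_mul C w h0 hz0, hzw] at h3
    simp only [mq, Pi.smul_apply, smul_eq_mul, Nat.cast_add, Nat.cast_one] at h3 ⊢
    have h4 : ((m : ℤ) + 1) * Q w = m * Q w + Q w := by ring
    rw [h4] at h3
    omega

/-- The kernel has dimension at most `dim L(m Q)`. -/
lemma step (C : Curve k Λ) {Q : C.pt → ℤ} {z : Λ} (hQ : ∀ w, 0 ≤ Q w) (hzL : z ∈ C.L Q)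
    (hz : ∀ w, 0 < Q w → z ≠ 0 ∧ C.ord w z = - Q w)
    (hfd : ∀ m : ℕ, FiniteDimensional k (C.L (mq m Q))) (m : ℕ)
    (hm : finrank k (C.L (mq (m + 2) Q)) + finrank k (C.L (mq m Q)) ≤
      finrank k (C.L (mq (m + 1) Q)) + finrank k (C.L (mq (m + 1) Q))) :
    ∀ y ∈ C.L (mq (m + 2) Q), ∃ u ∈ C.L (mq (m + 1) Q), ∃ u' ∈ C.L (mq (m + 1) Q),
      y = u + u' * z := by
  have i1 := hfd (m + 1)
  have i2 := hfd (m + 2)
  have i3 := hfd m
  let V := C.L (mq (m + 1) Q)
  let f : (V × V) →ₗ[k] Λ :=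
    LinearMap.coprod V.subtype ((LinearMap.mulRight k z).comp V.subtype)
  have hf : ∀ p : V × V, f p = (p.1 : Λ) + (p.2 : Λ) * z := fun p => by
    simp [f, LinearMap.coprod_apply, LinearMap.mulRight_apply]
  have h1 := LinearMap.finrank_range_add_finrank_ker f
  have h2 : finrank k (LinearMap.ker f) ≤ finrank k (C.L (mq m Q)) := by
    have hker : ∀ x : LinearMap.ker f, (x.1.2 : Λ) ∈ C.L (mq m Q) := by
      intro x
      have h3 : f x.1 = 0 := x.2
      rw [hf] at h3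
      refine cancel C hQ hz m x.1.2.2 ?_
      have h4 : (x.1.2 : Λ) * z = -(x.1.1 : Λ) := by linear_combination h3
      rw [h4]
      exact Submodule.neg_mem _ x.1.1.2
    let g : LinearMap.ker f →ₗ[k] C.L (mq m Q) :=
      LinearMap.codRestrict (C.L (mq m Q))
        (V.subtype.comp ((LinearMap.snd k V V).comp (LinearMap.ker f).subtype)) hker
    apply LinearMap.finrank_le_finrank_of_injective (f := g)
    intro x y hxy
    have h3 : (x.1.2 : Λ) = y.1.2 := congrArg (fun z : C.L (mq m Q) => (z : Λ)) hxy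
    have h4 : f x.1 = 0 := x.2
    have h5 : f y.1 = 0 := y.2
    rw [hf] at h4 h5
    have h6 : (x.1.1 : Λ) = y.1.1 := by
      rw [h3] at h4
      linear_combination h4 - h5
    exact Subtype.ext (Prod.ext (Subtype.ext h6) (Subtype.ext h3))
  have h3 : finrank k (V × V) = finrank k V + finrank k V := Module.finrank_prod
  have h4 : LinearMap.range f ≤ C.L (mq (m + 2) Q) := by
    rintro _ ⟨p, rfl⟩
    rw [hf]
    refine Submodule.add_mem _ ?_ ?_
    · refine mono C (fun w => ?_) p.1.2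
      simp only [mq, Pi.smul_apply, smul_eq_mul, Nat.cast_add, Nat.cast_one, Nat.cast_ofNat]
      have := hQ w
      nlinarith
    · have h5 := mul_mem C p.2.2 hzL
      have h6 : mq (m + 1) Q + Q = mq (m + 2) Q := by
        funext w
        simp only [mq, Pi.add_apply, Pi.smul_apply, smul_eq_mul, Nat.cast_add, Nat.cast_one,
          Nat.cast_ofNat]
        ring
      rwa [h6] at h5
  have h5 : LinearMap.range f = C.L (mq (m + 2) Q) := by
    refine Submodule.eq_of_le_of_finrank_le h4 ?_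
    have h6 : finrank k V = finrank k (C.L (mq (m + 1) Q)) := rfl
    omega
  intro y hy
  rw [← h5] at hy
  obtain ⟨p, hp⟩ := hy
  exact ⟨p.1, p.1.2, p.2, p.2.2, by rw [← hp, hf]⟩

/-- A nonincreasing sequence of integers which is bounded below is constant somewhere. -/
lemma const_somewhere (c : ℕ → ℤ) (B : ℤ) (h1 : ∀ m, c (m + 1) ≤ c m) (h2 : ∀ m, B ≤ c m) :
    ∃ m, c (m + 1) = c m := by
  by_contra h
  push Not at h
  have h3 : ∀ m : ℕ, c m ≤ c 0 - m := by
    intro m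
    induction m with
    | zero => simp
    | succ m ih =>
      have h4 := h1 m
      have h5 := h m
      push_cast
      omega
  have h6 := h3 (c 0 - B + 1).toNat
  have h7 := h2 (c 0 - B + 1).toNat
  have h8 := h2 0
  have h9 : (((c 0 - B + 1).toNat : ℕ) : ℤ) = c 0 - B + 1 := Int.toNat_of_nonneg (by omega)
  rw [h9] at h6
  omega

end nC1Aux

open nC1Aux in
theorem nC1 : NC1Stmt := by
  classical
  intro k Λ _ _ _ C w₀ Q z γ hQ hfin hzL hz hγ
  have hmfin : ∀ m : ℕ, {w | mq m Q w ≠ 0}.Finite := fun m =>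
    hfin.subset fun w hw h => hw (by simp [mq, h])
  have hfd : ∀ m : ℕ, FiniteDimensional k (C.L (mq m Q)) := fun m =>
    f2 k Λ C w₀ _ ((hmfin m).subset fun w hw => (ne_of_gt (show 0 < mq m Q w from hw)))
  have hsum : ∀ m : ℕ, ∑ᶠ w, mq m Q w = m * ∑ᶠ w, Q w := by
    intro m
    have h := mul_finsum Q (m : ℤ)
    rw [h]
    rfl
  have hstep : ∀ m : ℕ, (finrank k (C.L (mq (m + 1) Q)) : ℤ) ≤
      finrank k (C.L (mq m Q)) + ∑ᶠ w, Q w := by
    intro m
    have hle : ∀ w, mq m Q w ≤ mq (m + 1) Q w := by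
      intro w
      simp only [mq, Pi.smul_apply, smul_eq_mul, Nat.cast_add, Nat.cast_one]
      have := hQ w
      nlinarith
    have h1 := ff8 k Λ C (mq m Q) (mq (m + 1) Q) hle
      (hfin.subset fun w hw h => hw (by simp [mq, h])) (hfd (m + 1))
    have h2 : ∀ w, mq (m + 1) Q w - mq m Q w = Q w := by
      intro w
      simp only [mq, Pi.smul_apply, smul_eq_mul, Nat.cast_add, Nat.cast_one]
      ring
    simp only [h2] at h1
    exact h1
  obtain ⟨m, hm⟩ := const_somewhere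
    (fun m => (finrank k (C.L (mq m Q)) : ℤ) - m * ∑ᶠ w, Q w) (-γ)
    (fun m => by
      have h1 := hstep m
      push_cast
      linarith)
    (fun m => by
      have h1 := hγ (mq m Q) (hmfin m)
      rw [hsum] at h1
      linarith)
  have h2 := hstep (m + 1)
  refine ⟨m + 1, step C hQ hzL hz hfd m ?_⟩
  push_cast at hm
  have h3 : (finrank k (C.L (mq (m + 2) Q)) : ℤ) + finrank k (C.L (mq m Q)) ≤
      finrank k (C.L (mq (m + 1) Q)) + finrank k (C.L (mq (m + 1) Q)) := by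
    have h4 : (finrank k (C.L (mq (m + 2) Q)) : ℤ) ≤
      finrank k (C.L (mq (m + 1) Q)) + ∑ᶠ w, Q w := h2
    linarith
  exact_mod_cast h3

end Pool.Agent.Lib.MP_410da7_agV
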