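import Pool.Agent.Lib.MP_410da7_agV.SpecE
import Pool.Agent.Lib.MP_410da7_agA.FF6

/-! # MP_410da7_ag, C46 version 3, EV6: the valuation ring of a point of a curve -/

set_option autoImplicit false

namespace Pool.Agent.Lib.MP_410da7_agV

open Pool.Agent.Lib.MP_410da7_agA

theorem eV6 : EV6Stmt := by
  intro k Λ _ _ _ C w
  refine ⟨ff6Aux.vr C w, fun c => ?_, fun y => ff6Aux.mem_vr C w y⟩
  rw [ff6Aux.mem_vr, ff6Aux.ord_alg]

end Pool.Agent.Lib.MP_410da7_agV
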