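import Pool.Agent.Lib.MP_410da7_agV.SpecF
import Pool.Agent.Lib.MP_410da7_agA.SpecE

/-!
# MP_410da7_ag, version 3: the certificate and its specialization to characteristic p (block E)

The certificate `Cert` is a finite list of identities together with finitely many statements about all
the valuation subrings `V ⊇ k` of `Λ`. A statement of the form `no V ⊇ k contains all the A_i and none of
the B_j` is equivalent to one identity (`EV1`), so it specializes to characteristic `p` (`EV2`).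
-/

set_option autoImplicit false

namespace Pool.Agent.Lib.MP_410da7_agV

open MvPolynomial Module
open Pool.Agent.Lib.MP_410da7_agA (Curve ptDiv mx ext push FixedBy Spz)

/-! ## The certificate -/

section

variable {k Λ : Type} [Field k] [Field Λ] [Algebra k Λ] {N r : ℕ}

open Classical in
/-- The chart `x_b ≠ 0` at `V`: `b = 0` if `x_{b₀}` is regular, `b = b₀` otherwise. -/
noncomputable def bV (y : Ix N r → Λ) (b₀ : Fin (N + 1)) (V : ValuationSubring Λ) : Ix N r :=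
  if y (Sum.inl b₀) ∈ V then Sum.inl 0 else Sum.inl b₀

open Classical in
/-- The chart `f_c ≠ 0` at `V`. -/
noncomputable def cV (y : Ix N r → Λ) (c₀ : Fin (r + 1)) (V : ValuationSubring Λ) : Ix N r :=
  if y (Sum.inr c₀) ∈ V then Sum.inr 0 else Sum.inr c₀

/-- `x_b^{e.1} f_c^{e.2}`. -/
noncomputable def nrm (y : Ix N r → Λ) (b c : Ix N r) (e : ℕ × ℕ) : Λ := y b ^ e.1 * y c ^ e.2

/-- The function which compares the form with coefficient `α` with the generator of the log canonical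
bundle (and `x_b f_c` for `H`):
`α Δ_J^{m₀} x_b^{(N+1-ρ d.1) m₀ - e₀} f_c^{(r+1-ρ d.2) m₀ - e₀} (∏ a_i(y)/x_b^{e_i.1} f_c^{e_i.2})^{m₀}`. -/
noncomputable def tau {κ ρ : ℕ} {d : ℕ × ℕ} (S : System k N r κ ρ d) (m₀ e₀ : ℕ) (y : Ix N r → Λ)
    (b c : Ix N r) (α : Λ) (T : LogRel S.F) (J : Fin ρ → Fin κ) : Λ :=
  α * minor S.F S.I₀ y J ^ m₀ * y b ^ (((N : ℤ) + 1 - ρ * d.1) * m₀ - e₀) *
    y c ^ (((r : ℤ) + 1 - ρ * d.2) * m₀ - e₀) *
    (∏ i, aeval y (T.a i) / nrm y b c (T.e i)) ^ m₀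

/-- The local data at `V`: `χ(y)/(...)` is a unit, `tau` has no zero, `∏ ζ_i^{λ_i} x_b` has no pole
(`ζ_i = a_i(y)/(...)`). At the places where the `x_l` are regular (`b = 0`) one can take the trivial
relation (`s = 0`). -/
structure LocAt {κ ρ : ℕ} {d : ℕ × ℕ} (S : System k N r κ ρ d) (m₀ e₀ : ℕ) (y : Ix N r → Λ)
    (b c : Ix N r) (α : Λ) (T : LogRel S.F) (J : Fin ρ → Fin κ) (V : ValuationSubring Λ) :
    Prop where
  J0 : minor S.F S.I₀ y J ≠ 0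
  χV : (aeval y T.χ / nrm y b c T.e₁)⁻¹ ∈ V
  τV : (tau S m₀ e₀ y b c α T J)⁻¹ ∈ V
  ζV : (∏ i, (aeval y (T.a i) / nrm y b c (T.e i)) ^ T.lam i) * y b ∈ V

/-- THE CERTIFICATE. -/
structure Cert {κ ρ : ℕ} {d : ℕ × ℕ} (S : System k N r κ ρ d) (n m₀ e₀ : ℕ) (y : Ix N r → Λ)
    (b₀ : Fin (N + 1)) (c₀ : Fin (r + 1)) (α : Λ) : Prop where
  dim : N + r = n + ρ
  yx : y (Sum.inl 0) = 1
  yf : y (Sum.inr 0) = 1
  yF : ∀ j, aeval y (S.F j) = 0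
  g0 : aeval y S.g ≠ 0
  J0 : minor S.F S.I₀ y S.J₀ ≠ 0
  b0 : y (Sum.inl b₀) ≠ 0
  c0 : y (Sum.inr c₀) ≠ 0
  fin : ∃ l : Ix N r, (l = Sum.inl b₀ ∨ l = Sum.inr c₀) ∧ Transcendental k (y l) ∧
    FiniteDimensional (IntermediateField.adjoin k {y l}) Λ
  m0 : 1 ≤ m₀
  e0 : 1 ≤ e₀
  α0 : α ≠ 0
  reg : ∀ V : ValuationSubring Λ, (∀ c : k, algebraMap k Λ c ∈ V) →
    (∀ l, y (Sum.inl l) / y (bV y b₀ V) ∈ V) ∧ ∀ l, y (Sum.inr l) / y (cV y c₀ V) ∈ V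
  loc : ∃ (t : ℕ) (T : Fin t → LogRel S.F), (∀ i, aeval y (T i).χ ≠ 0) ∧
    (∀ i j, aeval y ((T i).a j) ≠ 0) ∧
    ∀ V : ValuationSubring Λ, (∀ c : k, algebraMap k Λ c ∈ V) →
      ∃ (i : Fin t) (J : Fin ρ → Fin κ), LocAt S m₀ e₀ y (bV y b₀ V) (cV y c₀ V) α (T i) J V

/-- A certificate whose polynomials are fixed by `x ↦ x^q`. -/
structure CertQ (q : ℕ) {κ ρ : ℕ} {d : ℕ × ℕ} (S : System k N r κ ρ d) (n m₀ e₀ : ℕ)
    (y : Ix N r → Λ) (b₀ : Fin (N + 1)) (c₀ : Fin (r + 1)) (α : Λ) : Prop where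
  cert : Cert S n m₀ e₀ y b₀ c₀ α
  F_fix : ∀ j, FixedBy q (S.F j)
  g_fix : FixedBy q S.g
  loc : ∃ (t : ℕ) (T : Fin t → LogRel S.F), (∀ i j, FixedBy q ((T i).a j)) ∧
    (∀ i, FixedBy q (T i).χ) ∧ (∀ i, aeval y (T i).χ ≠ 0) ∧
    (∀ i j, aeval y ((T i).a j) ≠ 0) ∧
    ∀ V : ValuationSubring Λ, (∀ c : k, algebraMap k Λ c ∈ V) →
      ∃ (i : Fin t) (J : Fin ρ → Fin κ), LocAt S m₀ e₀ y (bV y b₀ V) (cV y c₀ V) α (T i) J V

end

/-! ## Transport -/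

/-- EV1. The Nullstellensatz for valuation rings.
PROOF. `R` = the subalgebra of `Λ` generated over `L` by the `A_i` and the `1/B_j`. If the ideal of `R`
generated by the `1/B_j` is not the unit ideal there is a valuation subring `V ⊇ R` in which the elements
of this ideal are not units (`Ideal.image_subset_nonunits_valuationSubring`, see
`MP_410da7_agA/NF.lean`), so `A_i ∈ V`, `B_j ∉ V`. Otherwise `1 = ∑ (1/B_i) r_i`, `r_i ∈ R` is a polynomial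
in the generators. Conversely the identity is impossible in such a `V`: all the terms are in the
maximal ideal. -/
def EV1Stmt : Prop :=
  ∀ (L Λ : Type) [Field L] [Field Λ] [Algebra L Λ] (a b : ℕ) (A : Fin a → Λ) (B : Fin b → Λ),
    (∀ i, B i ≠ 0) →
    ((¬ ∃ V : ValuationSubring Λ, (∀ c : L, algebraMap L Λ c ∈ V) ∧ (∀ i, A i ∈ V) ∧
      ∀ i, B i ∉ V) ↔
      ∃ p : Fin b → MvPolynomial (Fin a ⊕ Fin b) L,
        ∑ i, (B i)⁻¹ * aeval (Sum.elim A fun j => (B j)⁻¹) (p i) = 1)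

/-- EV2. Lifting of the pattern of a valuation ring.
PROOF. For every subset `A ⊆ G` with complement `B` (finitely many): if no `V ⊇ L` has `A ⊆ V`,
`B ∩ V = ∅`, then EV1 gives polynomials `p`; put their coefficients into `CL`. `E = G`. Given `V'` let
`A = {g ∈ G : s.v g ∈ V'}`. If some `V ⊇ L` has this pattern we are done; otherwise the identity
specializes (`s.v` is a ring homomorphism on `O`, `s.v (g⁻¹) = (s.v g)⁻¹` and `g⁻¹ ∈ O` for `g ∈ E`; E5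
for the `p_i`): by EV1 (easy direction) over `k` the pattern is impossible for `V'`. -/
def EV2Stmt : Prop :=
  ∀ (L Λ : Type) [Field L] [Field Λ] [Algebra L Λ] (G : Finset Λ), (∀ g ∈ G, g ≠ 0) →
    ∃ (CL : Finset L) (E : Finset Λ), ∀ (k Λ' : Type) [Field k] [Field Λ'] [Algebra k Λ']
      (s : Spz L Λ k Λ') (q : ℕ), s.Ok q CL E →
      ∀ V' : ValuationSubring Λ', (∀ c : k, algebraMap k Λ' c ∈ V') →
        ∃ V : ValuationSubring Λ, (∀ c : L, algebraMap L Λ c ∈ V) ∧ ∀ g ∈ G, (g ∈ V ↔ s.v g ∈ V')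

/-- EV3. Transport of the certificate.
PROOF. As E6b, E6c (`MP_410da7_agA/E6b.lean`, `E6c.lean`), simpler. `S'`: `F' = s.red F`, `g' = s.red g`,
`A' = s.red A`, the same `I₀`, `J₀`; `T' i`: `s.red` of the polynomials of `T i`, the same numbers (`rel`:
write `X_0 χ - (∏ a^λ) q = ∑ w_j F_j` and put the coefficients of the `w_j` into `CL`); bihomogeneity: the
coefficients of `s.red G` are `s.c` of those of `G`. `G` (for EV2) = all the nonzero elements of the form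
`y_l`, `y_l / y_{l'}` (`l'` one of the four indices `x_0, x_{b₀}, f_0, f_{c₀}`), and the elements of the three
conditions of `LocAt` for all `i`, `J` (with `minor J ≠ 0`) and the four charts `(b, c)`; `E` contains
`G`, the `y_l`, `α`, `χ(y)`, `a_j(y)`, the minors, `g(y)`. `s.v` commutes with products, powers, inverses
of the nonzero elements of `E` (their inverses are in `O`), so `s.v` of an element of `G` is the
corresponding element over `k`. Given `V'`, EV2 gives `V`; `bV`, `cV` are the same (`y_{b₀} ∈ V` iff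
`s.v y_{b₀} ∈ V'`); apply `reg`, `loc` at `V` and translate back. `FixedBy`: `Ok.frob`. -/
def EV3Stmt : Prop :=
  ∀ (L Λ : Type) [Field L] [Field Λ] [Algebra L Λ] (N r κ ρ n m₀ e₀ : ℕ) (d : ℕ × ℕ)
    (S : System L N r κ ρ d) (y : Ix N r → Λ) (b₀ : Fin (N + 1)) (c₀ : Fin (r + 1)) (α : Λ),
    Cert S n m₀ e₀ y b₀ c₀ α →
    ∃ (CL : Finset L) (E : Finset Λ), (∀ l, y l ∈ E) ∧
      (∀ j, ∀ m ∈ (S.F j).support, coeff m (S.F j) ∈ CL) ∧
      ∀ (k Λ' : Type) [Field k] [Field Λ'] [Algebra k Λ'] (s : Spz L Λ k Λ') (q : ℕ),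
      s.Ok q CL E →
      (∃ l : Ix N r, (l = Sum.inl b₀ ∨ l = Sum.inr c₀) ∧ Transcendental k (s.v (y l)) ∧
        FiniteDimensional (IntermediateField.adjoin k {s.v (y l)}) Λ') →
      ∃ S' : System k N r κ ρ d, (∀ j, S'.F j = s.red (S.F j)) ∧
        CertQ q S' n m₀ e₀ (fun l => s.v (y l)) b₀ c₀ (s.v α)

/-! ## Numerical consequences on a curve -/

/-- EV6. The valuation ring of a point.
PROOF. `{y : 0 ≤ ord_w y}` is the preimage under `exp w` of the power series (`k⟦t⟧` in `k((t))`):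
`HahnSeries.order` is additive on products of nonzero elements, `ord 0 = 0`. -/
def EV6Stmt : Prop :=
  ∀ (k Λ : Type) [Field k] [Field Λ] [Algebra k Λ] (C : Curve k Λ) (w : C.pt),
    ∃ V : ValuationSubring Λ, (∀ c : k, algebraMap k Λ c ∈ V) ∧ ∀ y : Λ, y ∈ V ↔ 0 ≤ C.ord w y

/-- EV7. The local inequalities. `P = max(0, - ord x_{b₀})`, `Q = max(0, - ord f_{c₀})` at `w`.
PROOF. EV6: `V`. `b = bV`, `c = cV`: `ord y_b = - P` (`b = 0`: `y_b = 1` and `ord x_{b₀} ≥ 0`; `b = b₀`: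
`ord x_{b₀} < 0`), `ord y_c = - Q`. `reg`: `s_l = y_l / y_b` resp. `y_l / y_c` is in `V`, so
`ord y_l ≥ - P` resp. `- Q`, or `y_l = 0`. `loc`: `T`, `J`. For a bihomogeneous `G` of bidegree `e`:
`G(y) / nrm e = G(s) ∈ V`. So `μ'_j = ord (a_j(y)/nrm) ≥ 0` and all coefficients of `a_j(y)` of degree
`< μ'_j - dv(e_j)` vanish; `χV` and `χ(s) ∈ V` give `ord χ(y) = - dv(e₁)`; `ζV`: `∑ λ_j μ'_j ≥ P`; `τV`:
`ord tau ≤ 0`: `ord α + m₀ ord minor_J - ((N+1-ρ d.1) m₀ - e₀) P - ((r+1-ρ d.2) m₀ - e₀) Q + m₀ ∑ μ'_j ≤ 0`.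
`μ = ∑ μ'_j` if `P > 0`, `μ = 0` if `P = 0` (the inequality becomes weaker). -/
def EV7Stmt : Prop :=
  ∀ (k Λ : Type) [Field k] [Field Λ] [Algebra k Λ] (C : Curve k Λ)
    (q N r κ ρ n m₀ e₀ : ℕ) (d : ℕ × ℕ) (S : System k N r κ ρ d) (y : Ix N r → Λ)
    (b₀ : Fin (N + 1)) (c₀ : Fin (r + 1)) (α : Λ), CertQ q S n m₀ e₀ y b₀ c₀ α →
    ∀ (P Q : C.pt → ℤ) (w : C.pt), P w = max 0 (-(C.ord w (y (Sum.inl b₀)))) →
    Q w = max 0 (-(C.ord w (y (Sum.inr c₀)))) →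
    (∀ l, ∀ i : ℤ, i < - dv P Q (wt l) w → (C.exp w (y l)).coeff i = 0) ∧
    ∃ (J : Fin ρ → Fin κ) (μ : ℤ), minor S.F S.I₀ y J ≠ 0 ∧ 0 ≤ μ ∧ (P w = 0 → μ = 0) ∧
      m₀ * (C.ord w (minor S.F S.I₀ y J) + ρ * dv P Q d w + μ) ≤
        m₀ * ((N + 1) * P w + (r + 1) * Q w) - C.ord w α - e₀ * (P w + Q w) ∧
      (0 < P w → ∃ (T : LogRel S.F) (μ' : Fin T.s → ℕ), (∀ i, FixedBy q (T.a i)) ∧
        FixedBy q T.χ ∧ ∑ i, (μ' i : ℤ) ≤ μ ∧ aeval y T.χ ≠ 0 ∧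
        C.ord w (aeval y T.χ) = - dv P Q T.e₁ w ∧
        (∀ i, ∀ j < (μ' i : ℤ) - dv P Q (T.e i) w, C.cf w j (aeval y (T.a i)) = 0) ∧
        P w ≤ ∑ i, (T.lam i : ℤ) * μ' i)

/-- EV8. The numerical data of FV16.
PROOF. As EL7c (`MP_410da7_agA/L/EL7c.lean`). Choose `J_w`, `μ_w` by EV7,
`ℓ_w = ord minor_{J_w} + ρ dv(d)_w - ∑_i dv(wt(I₀ i))_w`, but choose `J_w` among finitely many so that `ℓ`
has finite support (if `P_w = Q_w = 0` and no nonzero minor has a zero or pole at `w` then `ℓ_w = 0`).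
Summing EV7 over `w` (`C.sum α`):
`m₀ (∑ ℓ + ∑_i ∑ dv(wt(I₀ i)) + ∑ μ) ≤ m₀ ((N+1) ∑P + (r+1) ∑Q) - e₀ (∑P + ∑Q)`. Let `a'` be the
difference; `m₀ a' ≥ e₀ (∑P + ∑Q) ≥ 1`, so `a' ≥ 1`; and
`(n+2) m₀ (∑P + ∑Q) < (B+1) e₀ (∑P + ∑Q) ≤ (B+1) m₀ a'`. -/
def EV8Stmt : Prop :=
  ∀ (k Λ : Type) [Field k] [Field Λ] [Algebra k Λ] (C : Curve k Λ)
    (q N r κ ρ n m₀ e₀ B : ℕ) (d : ℕ × ℕ) (S : System k N r κ ρ d) (y : Ix N r → Λ)
    (b₀ : Fin (N + 1)) (c₀ : Fin (r + 1)) (α : Λ), CertQ q S n m₀ e₀ y b₀ c₀ α →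
    (n + 2) * m₀ < (B + 1) * e₀ →
    (∃ w, C.ord w (y (Sum.inl b₀)) < 0 ∨ C.ord w (y (Sum.inr c₀)) < 0) →
    ∀ P Q : C.pt → ℤ, (∀ w, P w = max 0 (-(C.ord w (y (Sum.inl b₀))))) →
    (∀ w, Q w = max 0 (-(C.ord w (y (Sum.inr c₀))))) →
    ∃ (ℓ μ : C.pt → ℤ) (a' : ℤ), PtData C S y P Q ℓ μ c₀ ∧
      (∀ w, 0 < P w → ∃ (T : LogRel S.F) (μ' : Fin T.s → ℕ), (∀ i, FixedBy q (T.a i)) ∧
        FixedBy q T.χ ∧ ∑ i, (μ' i : ℤ) ≤ μ w ∧ aeval y T.χ ≠ 0 ∧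
        C.ord w (aeval y T.χ) = - dv P Q T.e₁ w ∧
        (∀ i, ∀ j < (μ' i : ℤ) - dv P Q (T.e i) w, C.cf w j (aeval y (T.a i)) = 0) ∧
        P w ≤ ∑ i, (T.lam i : ℤ) * μ' i) ∧
      1 ≤ a' ∧
      ∑ᶠ w, ℓ w + ∑ᶠ w, μ w + a' + ∑ i, ∑ᶠ w, dv P Q (wt (S.I₀ i)) w ≤
        (N + 1) * ∑ᶠ w, P w + (r + 1) * ∑ᶠ w, Q w ∧
      (n + 2) * (∑ᶠ w, P w + ∑ᶠ w, Q w) < (B + 1) * a'

/-! ## Nonexistence of curves is inherited by specializations -/

/-- EV9. As E8 (`MP_410da7_agA/E8.lean`).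
PROOF. `V = Ix N r × Fin B`, `I ⊆ Λ[a]` generated by the coefficients of all `t^i` in
`F_j(y_l + ∑_m a_{l,m} t^{m+1})` and by the `a_{x_0,m}`. Let `τ_{l,m} = a_{l,m} - y_l a_{og l,m}`. At a zero of
`I` over an algebraic closure `Ω` of `Λ` the curve `Y` satisfies `F_j(Y) = 0`, `Y_{x_0} = 1`, so by
hypothesis it does not move, i.e. all `τ_{l,m}` vanish (`Y_{og l}(0) = 1`). Nullstellensatz:
`τ_{l,m}^K ∈ I`. `E` = the coefficients of these identities and of the `F_j`, the `y_l`. For the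
specialization: evaluate at `a_{l,m} = coeff_{m+1}(Y_l)`: all generators vanish (`Y_{x_0} = 1`), so
`coeff_{m+1}(Y_l) = Y_l(0) coeff_{m+1}(Y_{og l})` for `m < B`, hence `Y_l = C(Y_l(0)) Y_{og l}` (the
constant terms: `Y_{og l}(0) = ε(1) = 1`). -/
def EV9Stmt : Prop :=
  ∀ (Λ : Type) [Field Λ] (N r κ B : ℕ) (F : Fin κ → MvPolynomial (Ix N r) Λ) (y : Ix N r → Λ),
    y (Sum.inl 0) = 1 → y (Sum.inr 0) = 1 →
    (¬ ∃ (Ω : Type) (_ : Field Ω) (_ : Algebra Λ Ω) (Y : Ix N r → Polynomial Ω),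
      IsCurve F (fun l => algebraMap Λ Ω (y l)) B Y) →
    ∃ E : Finset Λ, ∀ (R : Subring Λ), (∀ e ∈ E, e ∈ R) → ∀ (k' : Type) [Field k']
      (ε : R →+* k') (F' : Fin κ → MvPolynomial (Ix N r) k'),
      (∀ j m, ∃ h : coeff m (F j) ∈ R, ε ⟨coeff m (F j), h⟩ = coeff m (F' j)) →
      ∀ Y : Ix N r → Polynomial k',
      (∀ l, ∃ h : y l ∈ R, ε ⟨y l, h⟩ = (Y l).coeff 0) →
      ¬ IsCurve F' (fun l => (Y l).coeff 0) B Y

/-- EFGV. THE END THEOREM OF THE BLOCKS E, F, G.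
PROOF. As E9 (`MP_410da7_agA/E9.lean`, `L/EFGL.lean`). Suppose that there is no such curve. EV9 for
`F = map (algebraMap L Λ) (S.F j)` gives `E₁`; EV3: `CL`, `E`; E4 for `z = y_l` (`Cert.fin`), `CL`,
`E ∪ E₁`: `p`, `e`, `k`, `Λ'`, `s`. EV3: `S'`, `CertQ (p^e) S' ... y'`. FF1, FF5: the curve `C` of
`Λ'/k`, full; FF7: `y'_l` has a pole, infinitely many points. EV8 with `P`, `Q`; FF10: `γ`. `U` = the set of
the `w` with `P w = Q w = 0` where all `s.v e`, `e ∈ E ∪ E₁`, are regular, infinite. FV16: `m`, `w ∈ U`, `k'`,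
`Yp`. `R = {u ∈ s.O : 0 ≤ ord_w (s.v u)}`, `ε(u) =` the image of `(C.cf w 0 (s.v u))^(Q^m)`, `Q = p^e`: a ring
homomorphism; on the coefficients of the `F_j` it is `s.c`. `Yp` contradicts EV9. -/
def EFGVStmt : Prop :=
  ∀ (L Λ : Type) [Field L] [CharZero L] [Field Λ] [Algebra L Λ] (N r κ ρ n m₀ e₀ B : ℕ)
    (d : ℕ × ℕ) (S : System L N r κ ρ d) (y : Ix N r → Λ) (b₀ : Fin (N + 1)) (c₀ : Fin (r + 1))
    (α : Λ), Cert S n m₀ e₀ y b₀ c₀ α → (n + 2) * m₀ < (B + 1) * e₀ →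
    ∃ (Λ' : Type) (_ : Field Λ') (_ : Algebra L Λ') (_ : Algebra Λ Λ') (_ : IsScalarTower L Λ Λ')
      (Yp : Ix N r → Polynomial Λ'), IsCurve S.F (fun l => algebraMap Λ Λ' (y l)) B Yp

end Pool.Agent.Lib.MP_410da7_agV
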