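import Pool.Agent.Lib.MP_410da7_agA.SDefs
import Pool.Agent.Lib.MP_410da7_ag.DMain

/-!
# MP_410da7_ag, version 3 (C46): the twisted vanishing for `X ⊆ 𝔸^N × ℙ^r`

`K` is the function field of `X`, `x_1, ..., x_N` are the coordinates of `𝔸^N` and
`(1 : y_1 : ... : y_r)` those of `ℙ^r`.
-/

set_option autoImplicit false

namespace Pool.Agent.Lib.MP_410da7_agV

open KaehlerDifferential WithZero Polynomial
open Pool.Agent.Lib.MP_410da7_ag Pool.Agent.Lib.MP_410da7_agA

section core

variable {K L : Type} [Field K] [Algebra ℂ K] [Field L] [Algebra ℂ L] [Algebra K (RatFunc L)]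
  [IsScalarTower ℂ K (RatFunc L)]

open Classical in
theorem core_vanish_tw {d : ℕ} {ι : Type} [Fintype ι] (δ : ι → Derivation ℂ L L)
    (e : Fin d ≃ Option ι) {m A : ℕ} (hm : A < m) (F : RatFunc L) (η : ⋀[K]^d Ω[K⁄ℂ])
    (hfin : ∀ p : IsDedekindDomain.HeightOneSpectrum L[X],
      ∃ (θ : Fin d → Ω[K⁄ℂ]) (c : K),
        (∀ i, θ i ∈ regDiff ((p.valuation (RatFunc L)).comap (algebraMap K (RatFunc L)))) ∧
        exteriorPower.ιMulti K d θ = c • η ∧
        p.valuation (RatFunc L) F ≤
          p.valuation (RatFunc L) (algebraMap K (RatFunc L) c) ^ m)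
    (hinf : ∃ (θ : Fin d → Ω[K⁄ℂ]) (c : K),
        (∀ i, θ i ∈ logDiff ((RatFunc.inftyValuation L).comap (algebraMap K (RatFunc L)))) ∧
        exteriorPower.ιMulti K d θ = c • η ∧
        RatFunc.inftyValuation L F ≤
          exp (A : ℤ) * RatFunc.inftyValuation L (algebraMap K (RatFunc L) c) ^ m) :
    F * (exteriorPower.alternatingMapLinearEquiv
      (detForm K fun j => extDer (famDer δ (e j))) η) ^ m = 0 := by
  set κ := exteriorPower.alternatingMapLinearEquiv
      (detForm K fun j => extDer (famDer δ (e j))) η with hκ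
  have key : ∀ (θ : Fin d → Ω[K⁄ℂ]) (c : K), exteriorPower.ιMulti K d θ = c • η →
      detForm K (fun j => extDer (famDer δ (e j))) θ = algebraMap K (RatFunc L) c * κ := by
    intro θ c h
    rw [← exteriorPower.alternatingMapLinearEquiv_apply_ιMulti, h, map_smul, Algebra.smul_def]
  have hint : ∀ p : IsDedekindDomain.HeightOneSpectrum L[X],
      p.valuation (RatFunc L) (F * κ ^ m) ≤ 1 := by
    intro p
    obtain ⟨θ, c, hθ, hc, hG⟩ := hfin p
    have h1 : p.valuation (RatFunc L) (F * κ ^ m) ≤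
        p.valuation (RatFunc L) (detForm K (fun j => extDer (famDer δ (e j))) θ) ^ m := by
      rw [key θ c hc, map_mul, map_mul, map_pow, mul_pow]
      exact mul_le_mul_left hG _
    refine h1.trans (pow_le_one' ?_ m)
    rw [detForm_apply]
    refine det_le_one _ _ fun i j => ?_
    exact pull_reg _ _ (extDer_valuation_le _ p) _ (hθ i)
  have hinf' : RatFunc.inftyValuation L
      (RatFunc.X ^ m * (F * κ ^ m)) ≤ exp (A : ℤ) := by
    obtain ⟨θ, c, hθ, hc, hG⟩ := hinf
    have h1 : RatFunc.inftyValuation L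
        (RatFunc.X ^ m * (F * κ ^ m)) ≤ exp (A : ℤ) *
        RatFunc.inftyValuation L (detForm K (fun j => extDer (famDer' δ (e j))) θ) ^ m := by
      rw [detForm_famDer', key θ c hc]
      simp only [map_mul, map_pow, mul_pow]
      calc _ ≤ RatFunc.inftyValuation L RatFunc.X ^ m *
            ((exp (A : ℤ) * RatFunc.inftyValuation L (algebraMap K (RatFunc L) c) ^ m) *
              RatFunc.inftyValuation L κ ^ m) := by
            gcongr
        _ = _ := by ac_rfl
    have h2 : RatFunc.inftyValuation L (detForm K (fun j => extDer (famDer' δ (e j))) θ) ^ m ≤ 1 := by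
      refine pow_le_one' ?_ m
      rw [detForm_apply]
      refine det_le_one _ _ fun i j => ?_
      exact pull_log _ _ (extDer_infty_le _ (famDer'_natDegree _ _)) _ (hθ i)
    calc _ ≤ _ := h1
      _ ≤ exp (A : ℤ) * 1 := by gcongr
      _ = _ := mul_one _
  obtain ⟨Q, hQ⟩ := IsDedekindDomain.HeightOneSpectrum.mem_integers_of_valuation_le_one
    (RatFunc L) _ hint
  rw [← hQ] at hinf' ⊢
  by_cases hQ0 : Q = 0
  · simp [hQ0]
  exfalso
  rw [map_mul, map_pow, RatFunc.inftyValuation.X, RatFunc.inftyValuation_apply,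
    RatFunc.inftyValuation.polynomial _ hQ0, ← exp_nsmul, ← exp_add, exp_le_exp] at hinf'
  simp at hinf'
  omega

end core

/-- The common denominator. -/
theorem exists_denom {L : Type} [Field L] {r : ℕ} (g : Fin r → RatFunc L) :
    ∃ (q : L[X]) (p : Fin r → L[X]), q ≠ 0 ∧
      ∀ j, g j * algebraMap L[X] (RatFunc L) q = algebraMap L[X] (RatFunc L) (p j) := by
  classical
  refine ⟨∏ j, (g j).denom, fun j => (g j).num * ∏ i ∈ Finset.univ.erase j, (g i).denom,
    Finset.prod_ne_zero_iff.2 fun j _ => (g j).denom_ne_zero, fun j => ?_⟩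
  rw [← Finset.mul_prod_erase _ _ (Finset.mem_univ j), map_mul, map_mul, ← mul_assoc]
  congr 1
  have h0 : algebraMap L[X] (RatFunc L) (g j).denom ≠ 0 := by
    rw [Ne, FaithfulSMul.algebraMap_eq_zero_iff]
    exact (g j).denom_ne_zero
  have h1 := RatFunc.num_div_denom (g j)
  rw [div_eq_iff h0] at h1
  exact h1.symm

theorem dmain_tw {K L : Type} [Field K] [Algebra ℂ K] [Field L] [Algebra ℂ L]
    (Φ : K →ₐ[ℂ] RatFunc L) (HC : Valuation K ℤᵐ⁰ → Prop)
    (hHC : ∀ p : IsDedekindDomain.HeightOneSpectrum L[X],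
      HC ((p.valuation (RatFunc L)).comap Φ.toRingHom))
    {n : ℕ} (u : Fin n → K) (hu : IsTranscendenceBasis ℂ u)
    {ι : Type} [Fintype ι] (y : ι → L)
    (hy : IsTranscendenceBasis ℂ y) (hcard : Fintype.card ι + 1 = n)
    (htr : Algebra.trdeg ℂ (RatFunc L) ≤ (n : Cardinal))
    {r : ℕ} (f : Fin r → K)
    (q : L[X]) (hq : q ≠ 0) (Q : Fin r → L[X])
    (hQ : ∀ j, Φ (f j) * algebraMap L[X] (RatFunc L) q = algebraMap L[X] (RatFunc L) (Q j))
    (δ₂ : ℕ) (hδ₂ : ∀ j, (Q j).natDegree ≤ δ₂) (hδ₂' : q.natDegree ≤ δ₂)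
    {m e₀ : ℕ} (hm : e₀ * δ₂ < m) (F : K) (η : ⋀[K]^n Ω[K⁄ℂ]) (hη : η ≠ 0)
    (hF : ∀ v : Valuation K ℤᵐ⁰, Triv v →
      ∃ (θ : Fin n → Ω[K⁄ℂ]) (c : K), ((∀ i, θ i ∈ logDiff v) ∧ (HC v → ∀ i, θ i ∈ regDiff v)) ∧
        exteriorPower.ιMulti K n θ = c • η ∧
        v F ≤ size f v ^ e₀ * v c ^ m) : F = 0 := by
  classical
  letI : Algebra K (RatFunc L) := Φ.toRingHom.toAlgebra
  haveI : IsScalarTower ℂ K (RatFunc L) := IsScalarTower.of_algebraMap_eq fun c => by
    change _ = Φ (algebraMap ℂ K c)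
    rw [AlgHom.commutes]
  have halg : ∀ a : K, algebraMap K (RatFunc L) a = Φ a := fun a => rfl
  have hfin := finrank_top_eq_one u hu
  have hu2 : IsTranscendenceBasis ℂ (fun i => algebraMap K (RatFunc L) (u i)) := by
    have h1 : AlgebraicIndependent ℂ (fun i => algebraMap K (RatFunc L) (u i)) := by
      exact hu.1.map' (f := Φ) Φ.toRingHom.injective
    refine AlgebraicIndependent.isTranscendenceBasis_of_trdeg_le_of_finite h1 ?_
    rw [Cardinal.mk_fintype, Fintype.card_fin]
    exact htr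
  let e : Fin n ≃ Option ι := Fintype.equivOfCardEq (by simp [hcard])
  obtain ⟨δ, hδ⟩ := exists_dual_der _ hy
  have hne := detForm_ne_zero (K := K) _ δ hδ e u hu2
  have hqf : algebraMap L[X] (RatFunc L) q ≠ 0 := by
    rw [Ne, FaithfulSMul.algebraMap_eq_zero_iff]
    exact hq
  have hvan := core_vanish_tw (K := K) δ e hm
    (algebraMap L[X] (RatFunc L) q ^ e₀ * Φ F) η ?_ ?_
  · rcases mul_eq_zero.1 hvan with h | h
    · rcases mul_eq_zero.1 h with h | h
      · exact absurd (eq_zero_of_pow_eq_zero h) hqf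
      · exact (map_eq_zero _).1 h
    · exfalso
      have h := eq_zero_of_pow_eq_zero h
      obtain ⟨c, hc⟩ := (finrank_eq_one_iff_of_nonzero' η hη).1 hfin
        (exteriorPower.ιMulti K n (fun i => D ℂ K (u i)))
      apply hne
      rw [← exteriorPower.alternatingMapLinearEquiv_apply_ιMulti, ← hc, map_smul, h, smul_zero]
  · intro p
    obtain ⟨θ, c, h1, h3, h4⟩ := hF ((p.valuation (RatFunc L)).comap
      (algebraMap K (RatFunc L))) (by
        intro c hc
        change p.valuation (RatFunc L) (Φ (algebraMap ℂ K c)) = 1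
        rw [AlgHom.commutes, IsScalarTower.algebraMap_apply ℂ L[X] (RatFunc L),
          p.valuation_eq_one_iff_notMem]
        intro hmem
        apply p.isPrime.ne_top
        refine Ideal.eq_top_of_isUnit_mem _ hmem ?_
        exact (IsUnit.mk0 c hc).map (algebraMap ℂ L[X]))
    refine ⟨θ, c, h1.2 (hHC p), h3, ?_⟩
    have hs2 : p.valuation (RatFunc L) (algebraMap L[X] (RatFunc L) q) *
        size f ((p.valuation (RatFunc L)).comap (algebraMap K (RatFunc L))) ≤ 1 := by
      unfold size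
      rcases Finset.univ.eq_empty_or_nonempty (α := Fin r) with h0 | h0
      · rw [h0, Finset.sup_empty, bot_sup_eq, mul_one]
        exact p.valuation_le_one _
      · obtain ⟨j, -, hj⟩ := Finset.exists_mem_eq_sup _ h0 (fun j =>
          ((p.valuation (RatFunc L)).comap (algebraMap K (RatFunc L))) (f j))
        rw [hj]
        rcases le_total (((p.valuation (RatFunc L)).comap (algebraMap K (RatFunc L))) (f j)) 1
          with h5 | h5
        · rw [sup_eq_right.2 h5, mul_one]
          exact p.valuation_le_one _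
        · rw [sup_eq_left.2 h5, Valuation.comap_apply, halg, ← map_mul, mul_comm, hQ]
          exact p.valuation_le_one _
    calc p.valuation (RatFunc L) (algebraMap L[X] (RatFunc L) q ^ e₀ * Φ F)
        = p.valuation (RatFunc L) (algebraMap L[X] (RatFunc L) q) ^ e₀ *
          ((p.valuation (RatFunc L)).comap (algebraMap K (RatFunc L))) F := by
          rw [map_mul, map_pow, Valuation.comap_apply, halg]
      _ ≤ p.valuation (RatFunc L) (algebraMap L[X] (RatFunc L) q) ^ e₀ *
          (size f ((p.valuation (RatFunc L)).comap (algebraMap K (RatFunc L))) ^ e₀ *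
          ((p.valuation (RatFunc L)).comap (algebraMap K (RatFunc L))) c ^ m) :=
          mul_le_mul_right h4 _
      _ = (p.valuation (RatFunc L) (algebraMap L[X] (RatFunc L) q) *
          size f ((p.valuation (RatFunc L)).comap (algebraMap K (RatFunc L)))) ^ e₀ *
          ((p.valuation (RatFunc L)).comap (algebraMap K (RatFunc L))) c ^ m := by
          rw [mul_pow, mul_assoc]
      _ ≤ 1 * ((p.valuation (RatFunc L)).comap (algebraMap K (RatFunc L))) c ^ m :=
          mul_le_mul_left (pow_le_one' hs2 _) _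
      _ = _ := by rw [one_mul, Valuation.comap_apply]
  · obtain ⟨θ, c, h1, h3, h4⟩ := hF ((RatFunc.inftyValuation L).comap
      (algebraMap K (RatFunc L))) (by
        intro c hc
        change RatFunc.inftyValuation L (Φ (algebraMap ℂ K c)) = 1
        rw [AlgHom.commutes, IsScalarTower.algebraMap_apply ℂ L (RatFunc L)]
        exact RatFunc.inftyValuation.C L (by simpa using hc))
    refine ⟨θ, c, h1.1, h3, ?_⟩
    have hpol : ∀ (g : L[X]) (k : ℕ), g.natDegree ≤ k →
        RatFunc.inftyValuation L (algebraMap L[X] (RatFunc L) g) ≤ exp (k : ℤ) := by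
      intro g k hk
      by_cases h0 : g = 0
      · rw [h0, map_zero, map_zero]
        exact zero_le
      · rw [RatFunc.inftyValuation_apply, RatFunc.inftyValuation.polynomial _ h0, exp_le_exp]
        exact_mod_cast hk
    have hs2 : RatFunc.inftyValuation L (algebraMap L[X] (RatFunc L) q) *
        size f ((RatFunc.inftyValuation L).comap (algebraMap K (RatFunc L))) ≤ exp (δ₂ : ℤ) := by
      unfold size
      rcases Finset.univ.eq_empty_or_nonempty (α := Fin r) with h0 | h0
      · rw [h0, Finset.sup_empty, bot_sup_eq, mul_one]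
        exact hpol _ _ hδ₂'
      · obtain ⟨j, -, hj⟩ := Finset.exists_mem_eq_sup _ h0 (fun j =>
          ((RatFunc.inftyValuation L).comap (algebraMap K (RatFunc L))) (f j))
        rw [hj]
        rcases le_total (((RatFunc.inftyValuation L).comap (algebraMap K (RatFunc L))) (f j)) 1
          with h5 | h5
        · rw [sup_eq_right.2 h5, mul_one]
          exact hpol _ _ hδ₂'
        · rw [sup_eq_left.2 h5, Valuation.comap_apply, halg, ← map_mul, mul_comm, hQ]
          exact hpol _ _ (hδ₂ j)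
    set w := (RatFunc.inftyValuation L).comap (algebraMap K (RatFunc L)) with hw
    have h5 : (RatFunc.inftyValuation L (algebraMap L[X] (RatFunc L) q) *
        size f w) ^ e₀ ≤ exp ((e₀ * δ₂ : ℕ) : ℤ) := by
      calc _ ≤ exp (δ₂ : ℤ) ^ e₀ := pow_le_pow_left' hs2 e₀
        _ = exp ((e₀ * δ₂ : ℕ) : ℤ) := by
          rw [← exp_nsmul]
          congr 1
    calc RatFunc.inftyValuation L (algebraMap L[X] (RatFunc L) q ^ e₀ * Φ F)
        = RatFunc.inftyValuation L (algebraMap L[X] (RatFunc L) q) ^ e₀ * w F := by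
          rw [map_mul, map_pow, hw, Valuation.comap_apply, halg]
      _ ≤ RatFunc.inftyValuation L (algebraMap L[X] (RatFunc L) q) ^ e₀ *
          (size f w ^ e₀ * w c ^ m) := mul_le_mul_right h4 _
      _ = (RatFunc.inftyValuation L (algebraMap L[X] (RatFunc L) q) *
        size f w) ^ e₀ * w c ^ m := by
          rw [mul_pow, mul_assoc]
      _ ≤ exp ((e₀ * δ₂ : ℕ) : ℤ) * w c ^ m := mul_le_mul_left h5 _
      _ = _ := by rw [hw, Valuation.comap_apply]

/-- The twisted vanishing: if there is a map `𝔸¹_L → X` over the generic point of an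
`(n - 1)`-dimensional variety then `m (K + D) + e H` has no sections for `e δ < m`. `HC v` means: `v`
has a center on `X`. -/
theorem vanish_of_line {K L : Type} [Field K] [Algebra ℂ K] [Field L] [Algebra ℂ L]
    (Φ : K →ₐ[ℂ] RatFunc L) (HC : Valuation K ℤᵐ⁰ → Prop)
    (hHC : ∀ p : IsDedekindDomain.HeightOneSpectrum L[X],
      HC ((p.valuation (RatFunc L)).comap Φ.toRingHom))
    {n : ℕ} (hn : Algebra.trdeg ℂ K = n) (hLn : Algebra.trdeg ℂ L + 1 = n)
    {r : ℕ} (f : Fin r → K) (Ψ : Ω[K⁄ℂ] [⋀^Fin n]→ₗ[K] K) (hΨ : Ψ ≠ 0) :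
    ∃ δ : ℕ, 1 ≤ δ ∧ ∀ m e : ℕ, e * δ < m → ∀ F : K,
      (∀ v : Valuation K ℤᵐ⁰, Triv v → ∃ θ : Fin n → Ω[K⁄ℂ],
        ((∀ i, θ i ∈ logDiff v) ∧ (HC v → ∀ i, θ i ∈ regDiff v)) ∧
        v F ≤ size f v ^ e * v (Ψ θ) ^ m) → F = 0 := by
  classical
  obtain ⟨u, hu⟩ := exists_basis_fin (R := K) hn K
  obtain ⟨s, hs⟩ := exists_isTranscendenceBasis ℂ L
  have hscard := hs.cardinalMk_eq_trdeg
  have hfinL : Algebra.trdeg ℂ L < Cardinal.aleph0 := by
    have h1 : Algebra.trdeg ℂ L + 1 < Cardinal.aleph0 := by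
      rw [hLn]; exact Cardinal.natCast_lt_aleph0
    exact lt_of_le_of_lt (self_le_add_right _ _) h1
  haveI : Finite s := by
    rw [← Cardinal.lt_aleph0_iff_finite, hscard]; exact hfinL
  haveI : Fintype s := Fintype.ofFinite s
  have hcard : Fintype.card s + 1 = n := by
    rw [← hscard, Cardinal.mk_fintype] at hLn
    exact_mod_cast hLn
  have htr : Algebra.trdeg ℂ (RatFunc L) ≤ (n : Cardinal) := by
    have h3 : Algebra.trdeg ℂ L + Algebra.trdeg L L[X] = Algebra.trdeg ℂ L[X] := trdeg_add_eq ℂ L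
    have h4 : Algebra.trdeg L L[X] = 1 := Polynomial.trdeg_of_isDomain
    have h5 : Algebra.trdeg ℂ L[X] + Algebra.trdeg L[X] (RatFunc L) =
        Algebra.trdeg ℂ (RatFunc L) := trdeg_add_eq ℂ L[X]
    haveI : Algebra.IsAlgebraic L[X] (RatFunc L) := IsLocalization.isAlgebraic _ (nonZeroDivisors _)
    have h6 : Algebra.trdeg L[X] (RatFunc L) = 0 := trdeg_eq_zero
    rw [← h5, h6, add_zero, ← h3, h4, hLn]
  obtain ⟨b, hb⟩ := exists_kaehlerBasis u hu
  obtain ⟨η, hη, hη'⟩ := exists_eta_of_psi b Ψ hΨ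
  obtain ⟨q, Q, hq, hQ⟩ := exists_denom (fun j => Φ (f j))
  refine ⟨((Finset.univ.sup fun j => (Q j).natDegree) ⊔ q.natDegree) ⊔ 1, le_sup_right, ?_⟩
  intro m e hme F hF
  refine dmain_tw Φ HC hHC u hu (fun i : s => (i : L)) hs hcard htr f q hq Q hQ
    (((Finset.univ.sup fun j => (Q j).natDegree) ⊔ q.natDegree) ⊔ 1) ?_ ?_ hme F η hη ?_
  · intro j
    exact le_trans (Finset.le_sup (f := fun j => (Q j).natDegree) (Finset.mem_univ j))
      (le_trans le_sup_left le_sup_left)
  · exact le_trans le_sup_right le_sup_left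
  · intro v hv
    obtain ⟨θ, h1, h2⟩ := hF v hv
    exact ⟨θ, Ψ θ, h1, hη' θ, h2⟩

end Pool.Agent.Lib.MP_410da7_agV
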