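import Pool.Agent.Lib.MP_410da7_agV.LineCut

/-!
# MP_410da7_ag, version 3 (C46): from a curve through the generic point to a covering family, end
-/

set_option autoImplicit false

namespace Pool.Agent.Lib.MP_410da7_agV

open Cardinal
open MvPolynomial (aeval IsHomogeneous)
open Pool.Agent.Lib.MP_410da7_agA

variable {K : Type} [Field K] [Algebra ℂ K] {M s : ℕ}

theorem trdeg_away {A : Type} [CommRing A] [IsDomain A] [Algebra ℂ A] (g : Polynomial A) (hg : g ≠ 0) :
    Algebra.trdeg ℂ (Localization.Away g) = Algebra.trdeg ℂ A + 1 := by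
  have hle : Submonoid.powers g ≤ nonZeroDivisors (Polynomial A) :=
    powers_le_nonZeroDivisors_of_noZeroDivisors hg
  have hdom : IsDomain (Localization.Away g) := IsLocalization.isDomain_localization hle
  have hinj : Function.Injective (algebraMap (Polynomial A) (Localization.Away g)) :=
    IsLocalization.injective _ hle
  have i1 : FaithfulSMul (Polynomial A) (Localization.Away g) :=
    (faithfulSMul_iff_algebraMap_injective _ _).2 hinj
  have i2 : FaithfulSMul ℂ A := (faithfulSMul_iff_algebraMap_injective _ _).2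
    (algebraMap ℂ A).injective
  have i3 : FaithfulSMul ℂ (Polynomial A) := (faithfulSMul_iff_algebraMap_injective _ _).2
    (algebraMap ℂ _).injective
  have h2 : Algebra.trdeg ℂ A + Algebra.trdeg A (Polynomial A) =
      Algebra.trdeg ℂ (Polynomial A) := trdeg_add_eq ℂ A
  rw [Polynomial.trdeg_of_isDomain] at h2
  have h3 : Algebra.trdeg ℂ (Polynomial A) + Algebra.trdeg (Polynomial A) (Localization.Away g) =
      Algebra.trdeg ℂ (Localization.Away g) := trdeg_add_eq ℂ (Polynomial A)
  have : Algebra.IsAlgebraic (Polynomial A) (Localization.Away g) :=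
    IsLocalization.isAlgebraic _ (Submonoid.powers g)
  rw [trdeg_eq_zero (R := Polynomial A) (A := Localization.Away g), add_zero] at h3
  rw [← h3, h2]

/-- Not all constants are algebraic over the field generated by a nonconstant curve. -/
theorem exists_transc {A : Type} [CommRing A] [IsDomain A] [Algebra ℂ A] {R T : Type} [CommRing R]
    [IsDomain R] [CommRing T] [IsDomain T] [Algebra R T] (hRT : Function.Injective (algebraMap R T))
    (φ : Polynomial A →+* T) (hφ : Function.Injective φ)
    (p q : Polynomial A) (r : R) (hr : algebraMap R T r * φ q = φ p) {i : ℕ}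
    (hi : p.coeff i * q.coeff 0 - q.coeff i * p.coeff 0 ≠ 0)
    (hT : ¬ Algebra.IsAlgebraic R T)
    (hgen : ∀ x : T, ∃ (k : ℕ) (a : Polynomial A), x * φ q ^ k = φ a) (hq : q ≠ 0) :
    ∃ z : A, Transcendental R (φ (Polynomial.C z)) := by
  by_contra hcon
  simp only [Transcendental, not_exists, not_not] at hcon
  have i1 : FaithfulSMul R T := (faithfulSMul_iff_algebraMap_injective _ _).2 hRT
  let K := Subalgebra.algebraicClosure R T
  have hKalg : Algebra.IsAlgebraic R K := by
    constructor
    intro x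
    exact (isAlgebraic_algHom_iff K.val Subtype.coe_injective).1 x.2
  let f : A →+* K := (φ.comp Polynomial.C).codRestrict K.toSubring hcon
  have hfinj : Function.Injective f := by
    intro u v huv
    exact Polynomial.C_injective (hφ (congrArg Subtype.val huv))
  have hfC : ∀ a, (f a : T) = φ (Polynomial.C a) := fun a => rfl
  have hXK : IsAlgebraic K (φ Polynomial.X) := by
    let g : K := algebraMap R K r
    refine ⟨p.map f - Polynomial.C g * q.map f, ?_, ?_⟩
    · intro h0
      have h1 : ∀ j, f (p.coeff j) = g * f (q.coeff j) := by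
        intro j
        have := congrArg (fun P => Polynomial.coeff P j) h0
        simp only [Polynomial.coeff_sub, Polynomial.coeff_map, Polynomial.coeff_C_mul,
          Polynomial.coeff_zero] at this
        exact sub_eq_zero.1 this
      apply hi
      apply hfinj
      rw [map_zero, map_sub, map_mul, map_mul, h1 i, h1 0]
      ring
    · rw [map_sub, map_mul, Polynomial.aeval_C, Polynomial.aeval_def, Polynomial.aeval_def,
        Polynomial.eval₂_map, Polynomial.eval₂_map]
      have h4 : (algebraMap K T).comp f = φ.comp Polynomial.C := by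
        ext u
        rfl
      have h5 : ∀ P : Polynomial A, Polynomial.eval₂ (φ.comp Polynomial.C) (φ Polynomial.X) P =
          φ P := by
        intro P
        rw [← Polynomial.hom_eval₂, Polynomial.eval₂_C_X]
      rw [h4, h5, h5]
      have h6 : algebraMap K T g = algebraMap R T r := rfl
      rw [h6, hr, sub_self]
  have hX : IsAlgebraic R (φ Polynomial.X) := hXK.restrictScalars R
  have hall : ∀ P : Polynomial A, φ P ∈ K := by
    intro P
    induction P using Polynomial.induction_on with
    | C c => exact hcon c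
    | add p q hp hq => rw [map_add]; exact K.add_mem hp hq
    | monomial n c _ =>
      rw [map_mul, map_pow]
      exact K.mul_mem (hcon c) (K.pow_mem hX _)
  apply hT
  constructor
  intro x
  obtain ⟨k, a, hk⟩ := hgen x
  have h1 : IsAlgebraic R (x * φ q ^ k) := by rw [hk]; exact hall a
  have h2 : IsAlgebraic R (φ q ^ k) := by rw [← map_pow]; exact hall _
  have h3 : φ q ^ k ≠ 0 := pow_ne_zero _ (by
    intro h
    exact hq (hφ (by rw [h, map_zero])))
  rw [mul_comm] at h1
  exact h2.of_mul (mem_nonZeroDivisors_of_ne_zero h3) h1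

theorem aeval_mapPoly {A B : Type} [CommRing A] [Algebra ℂ A] [CommRing B] [Algebra ℂ B]
    (g : A →ₐ[ℂ] B) (W : Fin (M + 1) → Polynomial A) (P : MvPolynomial (Fin (M + 1)) ℂ) :
    aeval (fun l => (W l).map (g : A →+* B)) P = (aeval W P).map (g : A →+* B) :=
  (MvPolynomial.comp_aeval_apply (R := ℂ) (Polynomial.mapAlgHom g) (f := W) P).symm

/-- The homomorphism from the affine coordinate ring to the coordinate ring of the part `W_0 ≠ 0` of the
family. -/
theorem Line.exists_away {B : Type} [CommRing B] [IsDomain B] [Algebra ℂ B] {Y : Fin (M + 1) → K}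
    (hY0 : Y 0 = 1) {PE : Fin (s + 1) → MvPolynomial (Fin (M + 1)) ℂ} {W : Fin (M + 1) → Polynomial B}
    (h : Line B Y PE W)
    (hgen : ∀ (d : ℕ) (P : MvPolynomial (Fin (M + 1)) ℂ), P.IsHomogeneous d → aeval W P = 0 →
      aeval Y P = 0) :
    ∃ ψ : Algebra.adjoin ℂ (Set.range Y) →ₐ[ℂ] Localization.Away (W 0), Function.Injective ψ ∧
      ∀ (P : MvPolynomial (Fin (M + 1)) ℂ) (d : ℕ), P.IsHomogeneous d →
        ∀ (hm : aeval Y P ∈ Algebra.adjoin ℂ (Set.range Y)),
        algebraMap (Polynomial B) (Localization.Away (W 0)) (W 0) ^ d *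
          ψ ⟨aeval Y P, hm⟩ = algebraMap (Polynomial B) (Localization.Away (W 0)) (aeval W P) := by
  have hg : W 0 ≠ 0 := by
    intro h0
    have := h.unit
    rw [h0, Polynomial.coeff_zero] at this
    exact not_isUnit_zero this
  have hle : Submonoid.powers (W 0) ≤ nonZeroDivisors (Polynomial B) :=
    powers_le_nonZeroDivisors_of_noZeroDivisors hg
  have hinj : Function.Injective (algebraMap (Polynomial B) (Localization.Away (W 0))) :=
    IsLocalization.injective _ hle
  let ι : Polynomial B →ₐ[ℂ] Localization.Away (W 0) :=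
    IsScalarTower.toAlgHom ℂ (Polynomial B) (Localization.Away (W 0))
  have hu : IsUnit (algebraMap (Polynomial B) (Localization.Away (W 0)) (W 0)) :=
    IsLocalization.map_units _ (⟨W 0, Submonoid.mem_powers _⟩ : Submonoid.powers (W 0))
  obtain ⟨u, hu⟩ := hu
  have hae : ∀ P : MvPolynomial (Fin (M + 1)) ℂ,
      aeval (fun l => algebraMap (Polynomial B) (Localization.Away (W 0)) (W l)) P =
        algebraMap (Polynomial B) (Localization.Away (W 0)) (aeval W P) := fun P =>
    (MvPolynomial.comp_aeval_apply (R := ℂ) ι (f := W) P).symm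
  obtain ⟨ψ, hψ⟩ := exists_hom hY0 u
    (fun l => algebraMap (Polynomial B) (Localization.Away (W 0)) (W l)) hu.symm
    (fun d P hP h0 => by rw [hae, h.rel d P hP h0, map_zero])
  refine ⟨ψ, ?_, ?_⟩
  · rw [injective_iff_map_eq_zero]
    rintro ⟨r, hr⟩ h1
    have hr' := hr
    rw [Algebra.adjoin_range_eq_range_aeval] at hr'
    obtain ⟨P, hP⟩ := hr'
    have hP' : aeval Y P = r := hP
    subst hP'
    rw [hψ] at h1
    obtain ⟨d, G, hG, h2⟩ := exists_homog P
    have h3 := h2 _ u (fun l => algebraMap (Polynomial B) (Localization.Away (W 0)) (W l)) hu.symm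
    rw [h1, mul_zero, hae] at h3
    have h4 : aeval W G = 0 := hinj (by rw [h3, map_zero])
    have h5 := hgen d G hG h4
    have h6 := h2 K 1 Y (by rw [hY0]; rfl)
    rw [h5] at h6
    simp only [inv_one, Units.val_one, one_mul, one_pow] at h6
    exact Subtype.ext h6.symm
  · intro P d hP hm
    rw [hψ, ← hae, hom_smul _ _ hP, ← hu, ← mul_assoc, ← mul_pow, Units.mul_inv, one_pow, one_mul]

/-- A curve through the generic point of `Xbar` which misses the divisor gives a covering family over
an affine variety of dimension `n - 1`. -/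
theorem Line.cut {Ω' : Type} [Field Ω'] [Algebra ℂ Ω'] {Y : Fin (M + 1) → K} (hY0 : Y 0 = 1)
    {PE : Fin (s + 1) → MvPolynomial (Fin (M + 1)) ℂ} {W : Fin (M + 1) → Polynomial Ω'}
    (h : Line Ω' Y PE W)
    (hgen : ∀ (d : ℕ) (P : MvPolynomial (Fin (M + 1)) ℂ), P.IsHomogeneous d →
      aeval (fun l => (W l).coeff 0) P = 0 → aeval Y P = 0) :
    ∃ (B : Type) (_ : CommRing B) (_ : IsDomain B) (_ : Algebra ℂ B)
      (W' : Fin (M + 1) → Polynomial B), Algebra.FiniteType ℂ B ∧
      Algebra.trdeg ℂ B + 1 = Algebra.trdeg ℂ (Algebra.adjoin ℂ (Set.range Y)) ∧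
      Line B Y PE W' ∧
      ∀ (d : ℕ) (P : MvPolynomial (Fin (M + 1)) ℂ), P.IsHomogeneous d → aeval W' P = 0 →
        aeval Y P = 0 := by
  classical
  obtain ⟨A, hA, WA, hline, hWA⟩ := h.descend
  have hR : Algebra.FiniteType ℂ (Algebra.adjoin ℂ (Set.range Y)) :=
    (Subalgebra.fg_iff_finiteType _).mp (Subalgebra.fg_def.2 ⟨_, Set.finite_range Y, rfl⟩)
  -- the value at `t = 0`
  have hc0 : ∀ {C : Type} [CommRing C] [Algebra ℂ C] (V : Fin (M + 1) → Polynomial C)
      (P : MvPolynomial (Fin (M + 1)) ℂ), aeval (fun l => (V l).coeff 0) P = (aeval V P).coeff 0 := by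
    intro C _ _ V P
    have h1 := MvPolynomial.comp_aeval_apply (R := ℂ)
      ((Polynomial.aeval (R := C) (0 : C)).restrictScalars ℂ) (f := V) P
    have h2 : ∀ q : Polynomial C, ((Polynomial.aeval (R := C) (0 : C)).restrictScalars ℂ) q =
        q.coeff 0 := fun q => by
      show Polynomial.aeval (0 : C) q = _
      rw [Polynomial.coe_aeval_eq_eval, Polynomial.coeff_zero_eq_eval_zero]
    rw [h2] at h1
    rw [h1]
    congr 1
    congr 1
    funext l
    exact (h2 _).symm
  obtain ⟨u, hu⟩ := hline.unit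
  obtain ⟨e, he⟩ := exists_hom hY0 u (fun l => (WA l).coeff 0) hu.symm
    (fun d P hP h0 => by rw [hc0, hline.rel d P hP h0, Polynomial.coeff_zero])
  have hhom : ∀ P : MvPolynomial (Fin (M + 1)) ℂ, ∃ (d : ℕ) (G : MvPolynomial (Fin (M + 1)) ℂ),
      G.IsHomogeneous d ∧ aeval Y G = aeval Y P ∧
      ∀ hm, aeval (fun l => (WA l).coeff 0) G = (u : A) ^ d * e ⟨aeval Y P, hm⟩ := by
    intro P
    obtain ⟨d, G, hG, h2⟩ := exists_homog P
    refine ⟨d, G, hG, ?_, fun hm => ?_⟩
    · have h6 := h2 K 1 Y (by rw [hY0]; rfl)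
      simpa using h6
    · rw [he]
      exact h2 A u (fun l => (WA l).coeff 0) hu.symm
  have heinj : Function.Injective e := by
    rw [injective_iff_map_eq_zero]
    rintro ⟨r, hr⟩ h1
    have hr' := hr
    rw [Algebra.adjoin_range_eq_range_aeval] at hr'
    obtain ⟨P, hP⟩ := hr'
    have hP' : aeval Y P = r := hP
    subst hP'
    obtain ⟨d, G, hG, h2, h3⟩ := hhom P
    have h4 := h3 hr
    erw [h1] at h4
    rw [mul_zero] at h4
    have h5 : aeval (fun l => (W l).coeff 0) G = 0 := by
      have h6 := MvPolynomial.comp_aeval_apply (R := ℂ) A.val (f := fun l => (WA l).coeff 0) G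
      rw [h4, map_zero] at h6
      rw [h6]
      congr 1
      congr 1
      funext l
      rw [← hWA l, Polynomial.coeff_map]
      rfl
    exact Subtype.ext (h2.symm.trans (hgen d G hG h5))
  obtain ⟨P₀, hP₀, hd₀, hPR⟩ := h1Aux.exists_quot hA e heinj
  let A' := A ⧸ P₀
  have hA' : Algebra.FiniteType ℂ A' :=
    Algebra.FiniteType.of_surjective (Ideal.Quotient.mkₐ ℂ P₀) (Ideal.Quotient.mkₐ_surjective ℂ P₀)
  let W' : Fin (M + 1) → Polynomial A' := fun l =>
    (WA l).map (Ideal.Quotient.mkₐ ℂ P₀ : A →+* A')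
  have hl' : Line A' Y PE W' := hline.map (Ideal.Quotient.mkₐ ℂ P₀)
  have hg' : ∀ (d : ℕ) (P : MvPolynomial (Fin (M + 1)) ℂ), P.IsHomogeneous d → aeval W' P = 0 →
      aeval Y P = 0 := by
    intro d P hP h0
    have hm : aeval Y P ∈ Algebra.adjoin ℂ (Set.range Y) := by
      rw [Algebra.adjoin_range_eq_range_aeval]; exact ⟨P, rfl⟩
    have h1 := hPR ⟨aeval Y P, hm⟩ ?_
    · exact congrArg Subtype.val h1
    · rw [he, hom_smul _ _ hP, hc0]
      refine Ideal.mul_mem_left _ _ ?_
      rw [← Ideal.Quotient.eq_zero_iff_mem]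
      have h2 := aeval_mapPoly (Ideal.Quotient.mkₐ ℂ P₀) WA P
      have h4 := congrArg (fun q => Polynomial.coeff q 0) (h2.symm.trans h0)
      simp only [Polynomial.coeff_zero] at h4
      rw [Polynomial.coeff_map] at h4
      exact h4
  obtain ⟨ψ, hψinj, hψ⟩ := hl'.exists_away hY0 hg'
  have hgn : W' 0 ≠ 0 := by
    intro h0
    have := hl'.unit
    rw [h0, Polynomial.coeff_zero] at this
    exact not_isUnit_zero this
  have hle : Submonoid.powers (W' 0) ≤ nonZeroDivisors (Polynomial A') :=
    powers_le_nonZeroDivisors_of_noZeroDivisors hgn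
  have hinj : Function.Injective (algebraMap (Polynomial A') (Localization.Away (W' 0))) :=
    IsLocalization.injective _ hle
  have hdom : IsDomain (Localization.Away (W' 0)) := IsLocalization.isDomain_localization hle
  have huT : IsUnit (algebraMap (Polynomial A') (Localization.Away (W' 0)) (W' 0)) :=
    IsLocalization.map_units _ (⟨W' 0, Submonoid.mem_powers _⟩ : Submonoid.powers (W' 0))
  have htr := trdeg_away (W' 0) hgn
  have hT : Algebra.FiniteType ℂ (Localization.Away (W' 0)) := by
    have h1 : Algebra.FiniteType (Polynomial A') (Localization.Away (W' 0)) :=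
      IsLocalization.finiteType_of_monoid_fg (Submonoid.powers (W' 0)) _
    have h2 : Algebra.FiniteType A' (Polynomial A') := inferInstance
    have h3 : Algebra.FiniteType ℂ (Polynomial A') := Algebra.FiniteType.trans hA' h2
    exact Algebra.FiniteType.trans h3 h1
  let algRT : Algebra (Algebra.adjoin ℂ (Set.range Y)) (Localization.Away (W' 0)) :=
    ψ.toRingHom.toAlgebra
  have tow1 : IsScalarTower ℂ (Algebra.adjoin ℂ (Set.range Y)) (Localization.Away (W' 0)) :=
    IsScalarTower.of_algebraMap_eq' ψ.comp_algebraMap.symm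
  have hRT : ∀ r, algebraMap (Algebra.adjoin ℂ (Set.range Y)) (Localization.Away (W' 0)) r = ψ r :=
    fun r => rfl
  have i1 : FaithfulSMul (Algebra.adjoin ℂ (Set.range Y)) (Localization.Away (W' 0)) :=
    (faithfulSMul_iff_algebraMap_injective _ _).2 hψinj
  have i2 : FaithfulSMul ℂ (Algebra.adjoin ℂ (Set.range Y)) :=
    (faithfulSMul_iff_algebraMap_injective _ _).2 (algebraMap ℂ _).injective
  have hfin : Algebra.trdeg ℂ (Algebra.adjoin ℂ (Set.range Y)) < ℵ₀ := trdeg_lt_aleph0_of_finiteType
  obtain ⟨l₀, i₀, hu1⟩ := hl'.nonconst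
  have hYl : Y l₀ ∈ Algebra.adjoin ℂ (Set.range Y) := Algebra.subset_adjoin ⟨l₀, rfl⟩
  have hz : ∃ z : A', Transcendental (Algebra.adjoin ℂ (Set.range Y))
      (algebraMap (Polynomial A') (Localization.Away (W' 0)) (Polynomial.C z)) := by
    refine exists_transc (R := Algebra.adjoin ℂ (Set.range Y)) hψinj
      (algebraMap (Polynomial A') (Localization.Away (W' 0))) hinj (W' l₀) (W' 0) ⟨Y l₀, hYl⟩ ?_
      (i := i₀) ?_ ?_ (fun x => IsLocalization.Away.surj (W' 0) x) hgn
    · have h1 := hψ (MvPolynomial.X l₀) 1 (MvPolynomial.isHomogeneous_X ℂ l₀)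
        (by rw [MvPolynomial.aeval_X]; exact hYl)
      simp only [MvPolynomial.aeval_X, pow_one] at h1
      rw [hRT, mul_comm]
      exact h1
    · exact hu1.ne_zero
    · intro halg
      have h1 : Algebra.trdeg ℂ (Algebra.adjoin ℂ (Set.range Y)) +
          Algebra.trdeg (Algebra.adjoin ℂ (Set.range Y)) (Localization.Away (W' 0)) =
            Algebra.trdeg ℂ (Localization.Away (W' 0)) := trdeg_add_eq ℂ _
      rw [trdeg_eq_zero (R := Algebra.adjoin ℂ (Set.range Y)), add_zero, htr, hd₀] at h1
      have h2 : Algebra.trdeg ℂ (Algebra.adjoin ℂ (Set.range Y)) + 0 =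
          Algebra.trdeg ℂ (Algebra.adjoin ℂ (Set.range Y)) + 1 := by rw [add_zero]; exact h1
      exact zero_ne_one (Cardinal.eq_of_add_eq_add_left h2 hfin)
  have hAT : Function.Injective (algebraMap A' (Localization.Away (W' 0))) := by
    rw [IsScalarTower.algebraMap_eq A' (Polynomial A') (Localization.Away (W' 0))]
    exact hinj.comp Polynomial.C_injective
  obtain ⟨Q, hQ, hQR, hQd⟩ := exists_cut (R := Algebra.adjoin ℂ (Set.range Y)) (A := A')
    (T := Localization.Away (W' 0)) hψinj hAT hR hT hd₀ (by rw [htr, hd₀]) (by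
      obtain ⟨z, hz⟩ := hz
      refine ⟨z, ?_⟩
      rw [IsScalarTower.algebraMap_apply A' (Polynomial A') (Localization.Away (W' 0))]
      exact hz)
  have hQ' : (Q.comap (algebraMap A' (Localization.Away (W' 0)))).IsPrime := Ideal.comap_isPrime _ _
  set Q₁ := Q.comap (algebraMap A' (Localization.Away (W' 0))) with hQ₁
  have hB : Algebra.FiniteType ℂ (A' ⧸ Q₁) :=
    Algebra.FiniteType.of_surjective (Ideal.Quotient.mkₐ ℂ Q₁) (Ideal.Quotient.mkₐ_surjective ℂ Q₁)
  have hl'' := hl'.map (Ideal.Quotient.mkₐ ℂ Q₁)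
  have hg'' : ∀ (d : ℕ) (P : MvPolynomial (Fin (M + 1)) ℂ), P.IsHomogeneous d →
      aeval (fun l => (W' l).map (Ideal.Quotient.mkₐ ℂ Q₁ : A' →+* A' ⧸ Q₁)) P = 0 →
      aeval Y P = 0 := by
    intro d P hP h0
    have hm : aeval Y P ∈ Algebra.adjoin ℂ (Set.range Y) := by
      rw [Algebra.adjoin_range_eq_range_aeval]; exact ⟨P, rfl⟩
    have h3 := (aeval_mapPoly (Ideal.Quotient.mkₐ ℂ Q₁) W' P).symm.trans h0
    have h4 : ∀ i, (aeval W' P).coeff i ∈ Q₁ := by
      intro i
      rw [← Ideal.Quotient.eq_zero_iff_mem]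
      have h5 := congrArg (fun q => Polynomial.coeff q i) h3
      simp only [Polynomial.coeff_zero] at h5
      rw [Polynomial.coeff_map] at h5
      exact h5
    have h5 : algebraMap (Polynomial A') (Localization.Away (W' 0)) (aeval W' P) ∈ Q := by
      rw [(aeval W' P).as_sum_range_C_mul_X_pow, map_sum]
      refine Ideal.sum_mem _ fun i _ => ?_
      rw [map_mul]
      refine Ideal.mul_mem_right _ _ ?_
      have h6 := h4 i
      rw [hQ₁, Ideal.mem_comap,
        IsScalarTower.algebraMap_apply A' (Polynomial A') (Localization.Away (W' 0))] at h6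
      exact h6
    rw [← hψ P d hP hm] at h5
    have h6 : ψ ⟨aeval Y P, hm⟩ ∈ Q := by
      obtain ⟨v, hv⟩ := huT
      rw [← hv] at h5
      have h7 := Ideal.mul_mem_left Q (((v ^ d)⁻¹ : (Localization.Away (W' 0))ˣ) :
        Localization.Away (W' 0)) h5
      rw [← mul_assoc, ← Units.val_pow_eq_pow_val, Units.inv_mul, one_mul] at h7
      exact h7
    exact congrArg Subtype.val (hQR _ h6)
  refine ⟨A' ⧸ Q₁, inferInstance, inferInstance, inferInstance, _, hB, ?_, hl'', hg''⟩
  apply le_antisymm hQd
  obtain ⟨ψ₂, hψ₂, -⟩ := hl''.exists_away hY0 hg''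
  have hgn2 : (W' 0).map (Ideal.Quotient.mkₐ ℂ Q₁ : A' →+* A' ⧸ Q₁) ≠ 0 := by
    intro h0
    have := hl''.unit
    rw [h0, Polynomial.coeff_zero] at this
    exact not_isUnit_zero this
  have h1 := trdeg_le_of_injective ψ₂ hψ₂
  rw [trdeg_away _ hgn2] at h1
  exact h1

end Pool.Agent.Lib.MP_410da7_agV
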