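import Pool.Agent.Lib.MP_410da7_agA.H1

/-!
# MP_410da7_ag, version 3 (C46): cutting down a family
-/

set_option autoImplicit false

namespace Pool.Agent.Lib.MP_410da7_agV

open Cardinal Polynomial
open Pool.Agent.Lib.MP_410da7_ag (exists_prime_over_generic trdeg_quotient_add_one_le)

/-- Let `R`, `A` be subalgebras of `T`, with `dim T = dim A + 1 = dim R + 1`, and not all elements of
`A` algebraic over `R`. There is a prime `Q` of `T` with `Q ∩ R = 0` and `dim A/(Q ∩ A) < dim A`. -/
theorem exists_cut {R A T : Type} [CommRing R] [IsDomain R] [Algebra ℂ R] [CommRing A] [IsDomain A]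
    [Algebra ℂ A] [CommRing T] [IsDomain T] [Algebra ℂ T] [Algebra R T] [Algebra A T]
    [IsScalarTower ℂ R T] [IsScalarTower ℂ A T] (hRT : Function.Injective (algebraMap R T))
    (hAT : Function.Injective (algebraMap A T))
    (hR : Algebra.FiniteType ℂ R) (hT : Algebra.FiniteType ℂ T)
    (h1 : Algebra.trdeg ℂ A = Algebra.trdeg ℂ R) (h2 : Algebra.trdeg ℂ T = Algebra.trdeg ℂ R + 1)
    (hz : ∃ z : A, Transcendental R (algebraMap A T z)) :
    ∃ Q : Ideal T, Q.IsPrime ∧ (∀ r : R, algebraMap R T r ∈ Q → r = 0) ∧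
      Algebra.trdeg ℂ (A ⧸ Q.comap (algebraMap A T)) + 1 ≤ Algebra.trdeg ℂ R := by
  classical
  obtain ⟨z, hz⟩ := hz
  have i1 : FaithfulSMul R T := (faithfulSMul_iff_algebraMap_injective _ _).2 hRT
  have i2 : FaithfulSMul ℂ R := (faithfulSMul_iff_algebraMap_injective _ _).2
    (algebraMap ℂ R).injective
  have h3 : Algebra.trdeg ℂ R + Algebra.trdeg R T = Algebra.trdeg ℂ T := trdeg_add_eq ℂ R
  have hfin : Algebra.trdeg ℂ R < ℵ₀ := trdeg_lt_aleph0_of_finiteType
  have h4 : Algebra.trdeg R T = 1 := by
    rw [h2] at h3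
    exact Cardinal.eq_of_add_eq_add_left h3 hfin
  let zz : Unit → T := fun _ => algebraMap A T z
  have hzz : IsTranscendenceBasis R zz := by
    apply AlgebraicIndependent.isTranscendenceBasis_of_trdeg_le_of_finite
    · rw [algebraicIndependent_unique_type_iff]
      exact hz
    · rw [h4]
      simp
  have halg1 := hzz.isAlgebraic
  let ev : R[X] →ₐ[R] T := Polynomial.aeval (algebraMap A T z)
  let algST : Algebra R[X] T := ev.toRingHom.toAlgebra
  have hev : ∀ p : R[X], algebraMap R[X] T p = Polynomial.aeval (algebraMap A T z) p :=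
    fun p => rfl
  have tow2 : IsScalarTower R R[X] T := IsScalarTower.of_algebraMap_eq' ev.comp_algebraMap.symm
  have tow3 : IsScalarTower ℂ R[X] T := by
    apply IsScalarTower.of_algebraMap_eq
    intro x
    rw [IsScalarTower.algebraMap_apply ℂ R R[X], ← IsScalarTower.algebraMap_apply R,
      ← IsScalarTower.algebraMap_apply ℂ R]
  have hinj : Function.Injective (algebraMap R[X] T) := transcendental_iff_injective.1 hz
  have hft : Algebra.FiniteType R[X] T := Algebra.FiniteType.of_restrictScalars_finiteType ℂ R[X] T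
  have halg2 : Algebra.IsAlgebraic R[X] T := by
    have hrange : Set.range zz = {algebraMap A T z} := by
      simp [zz]
    let f : R[X] →+* Algebra.adjoin R (Set.range zz) :=
      (ev.codRestrict (Algebra.adjoin R (Set.range zz)) (fun p => by
        rw [hrange, Algebra.adjoin_singleton_eq_range_aeval]
        exact ⟨p, rfl⟩)).toRingHom
    refine Algebra.IsAlgebraic.of_ringHom_of_comp_eq (S := Algebra.adjoin R (Set.range zz))
      (B := T) f (RingHom.id T) ?_ Function.injective_id ?_
    · rintro ⟨y, hy⟩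
      have hy' := hy
      rw [hrange, Algebra.adjoin_singleton_eq_range_aeval] at hy'
      obtain ⟨p, hp⟩ := hy'
      exact ⟨p, Subtype.ext hp⟩
    · ext <;> rfl
  obtain ⟨h, hh0, hh⟩ := exists_prime_over_generic hinj
  obtain ⟨c, hc⟩ : ∃ c : ℂ, h.eval (algebraMap ℂ R c) ≠ 0 := by
    by_contra hcon
    push Not at hcon
    apply hh0
    apply Polynomial.eq_zero_of_infinite_isRoot
    apply (Set.infinite_range_of_injective
      (FaithfulSMul.algebraMap_injective ℂ R)).mono
    rintro _ ⟨c, rfl⟩
    exact hcon c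
  obtain ⟨Q, hQ, hQ'⟩ := hh (RingHom.ker (Polynomial.evalRingHom (algebraMap ℂ R c)))
    (RingHom.ker_isPrime _) (by simpa [RingHom.mem_ker] using hc)
  have hmemQ : ∀ p : R[X], Polynomial.aeval (algebraMap A T z) p ∈ Q ↔
      p.eval (algebraMap ℂ R c) = 0 := by
    intro p
    rw [← hev, ← Ideal.mem_comap, hQ']
    simp [RingHom.mem_ker]
  refine ⟨Q, hQ, fun r hr => ?_, ?_⟩
  · have h10 : algebraMap R T r = Polynomial.aeval (algebraMap A T z) (C r) := by
      rw [Polynomial.aeval_C]
    rw [h10, hmemQ] at hr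
    simpa using hr
  · have hP : (Q.comap (algebraMap A T)).IsPrime := Ideal.comap_isPrime _ _
    have hwP : z - algebraMap ℂ A c ∈ Q.comap (algebraMap A T) := by
      rw [Ideal.mem_comap]
      have h6 : algebraMap A T (z - algebraMap ℂ A c) = Polynomial.aeval (algebraMap A T z)
          (X - C (algebraMap ℂ R c)) := by
        rw [map_sub, map_sub, aeval_X, aeval_C, ← IsScalarTower.algebraMap_apply,
          ← IsScalarTower.algebraMap_apply]
      rw [h6, hmemQ]
      simp
    have hw0 : z - algebraMap ℂ A c ≠ 0 := by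
      intro h0
      apply hz
      rw [sub_eq_zero.1 h0, ← IsScalarTower.algebraMap_apply,
        IsScalarTower.algebraMap_apply ℂ R T]
      exact isAlgebraic_algebraMap _
    rw [← h1]
    exact trdeg_quotient_add_one_le _ _ hwP hw0

end Pool.Agent.Lib.MP_410da7_agV
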