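import Pool.Agent.Lib.MP_410da7_agA.SpecF

/-!
# MP_410da7_ag, version 3 (X projective over an affine variety): definitions for the blocks F, G, E

`X` is closed in `𝔸^N × ℙ^r`; the bihomogeneous coordinates are `x_0, ..., x_N` (with `x_0 = 1`) and
`f_0, ..., f_r` (normalized by `f_0 = 1`). The boundary `D` of the closure `Xbar ⊆ ℙ^N × ℙ^r` is
`{x_0 = 0}`.
-/

set_option autoImplicit false

namespace Pool.Agent.Lib.MP_410da7_agV

open MvPolynomial Module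
open Pool.Agent.Lib.MP_410da7_agA (Curve ptDiv mx ext push FixedBy)

/-- The indices of the bihomogeneous coordinates: `x_0, ..., x_N` and `f_0, ..., f_r`. -/
abbrev Ix (N r : ℕ) : Type := Fin (N + 1) ⊕ Fin (r + 1)

/-- The bidegree of a coordinate. -/
def wt {N r : ℕ} : Ix N r → ℕ × ℕ
  | Sum.inl _ => (1, 0)
  | Sum.inr _ => (0, 1)

/-- The normalizing coordinate of the group: `x_0` or `f_0`. -/
def og {N r : ℕ} : Ix N r → Ix N r
  | Sum.inl _ => Sum.inl 0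
  | Sum.inr _ => Sum.inr 0

/-- Bihomogeneous polynomials. -/
abbrev BiHom {k : Type} [CommSemiring k] {N r : ℕ} (G : MvPolynomial (Ix N r) k) (d : ℕ × ℕ) :
    Prop :=
  IsWeightedHomogeneous (wt (N := N) (r := r)) G d

/-- The divisor `d.1 P + d.2 Q`. -/
def dv {α : Type} (P Q : α → ℤ) (d : ℕ × ℕ) : α → ℤ := fun w => d.1 * P w + d.2 * Q w

/-- The variables `a_{l,j}`, `j < D l`: the coefficients of the deformation of the coordinate `l`. -/
abbrev Vr {ι : Type} (D : ι → ℕ) : Type := Σ l : ι, Fin (D l)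

section

variable {k Λ : Type} [Field k] [Field Λ] [Algebra k Λ] {ι : Type}

/-- The generic point `Y_l + ∑_j ω_{l,j} a_{l,j}` (coordinates in `Λ[a]`) near the point `Y`. -/
noncomputable def hpt {D : ι → ℕ} (Y : ι → Λ) (ω : (l : ι) → Fin (D l) → Λ) :
    ι → MvPolynomial (Vr D) Λ :=
  fun l => C (Y l) + ∑ j, C (ω l j) * X ⟨l, j⟩

/-- The value of a polynomial at the generic point near `Y`. -/
noncomputable def hval {D : ι → ℕ} (Y : ι → Λ) (ω : (l : ι) → Fin (D l) → Λ)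
    (G : MvPolynomial ι k) : MvPolynomial (Vr D) Λ :=
  aeval (hpt Y ω) G

/-- The expansion at the point `w` of the coordinates of the point with parameters `s` (the
coefficients of `t^m`, `m ≥ 0`). -/
noncomputable def hser {D : ι → ℕ} {Ω : Type} [Field Ω] [Algebra k Ω] (C : Curve k Λ) (w : C.pt)
    (Y : ι → Λ) (ω : (l : ι) → Fin (D l) → Λ) (s : Vr D → Ω) : ι → PowerSeries Ω :=
  fun l => PowerSeries.mk fun m => algebraMap k Ω (C.cf w m (Y l)) +
    ∑ j, s ⟨l, j⟩ * algebraMap k Ω (C.cf w m (ω l j))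

/-- The `κ × ρ` matrix of the partial derivatives of the `F j` with respect to the variables
`I l`, at the point `Y`. -/
noncomputable def jac {κ ρ : ℕ} (F : Fin κ → MvPolynomial ι k) (I : Fin ρ → ι)
    (Y : ι → Λ) (j : Fin κ) (l : Fin ρ) : Λ :=
  aeval Y (pderiv (I l) (F j))

/-- The `ρ × ρ` minor of `jac` with rows `J`. -/
noncomputable def minor {κ ρ : ℕ} (F : Fin κ → MvPolynomial ι k) (I : Fin ρ → ι)
    (Y : ι → Λ) (J : Fin ρ → Fin κ) : Λ :=
  (Matrix.of fun i l => jac F I Y (J i) l).det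

end

/-- Equations `F_j` of `Xbar ⊆ ℙ^N × ℙ^r`, bihomogeneous of bidegree `d`, which locally at a general
point are a consequence of the `ρ` equations `F_{J₀ i}`; `I₀` chooses `ρ` variables. -/
structure System (k : Type) [Field k] (N r κ ρ : ℕ) (d : ℕ × ℕ) where
  F : Fin κ → MvPolynomial (Ix N r) k
  hom : ∀ j, BiHom (F j) d
  I₀ : Fin ρ → Ix N r
  J₀ : Fin ρ → Fin κ
  g : MvPolynomial (Ix N r) k
  A : Fin κ → Fin ρ → MvPolynomial (Ix N r) k
  rel : ∀ j, g * F j = ∑ i, A j i * F (J₀ i)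

/-- A relation `x_0 χ = ∏ a_i^{λ_i} q` modulo the `F j`, bihomogeneous. -/
structure LogRel {k : Type} [Field k] {N r κ : ℕ} (F : Fin κ → MvPolynomial (Ix N r) k) where
  s : ℕ
  a : Fin s → MvPolynomial (Ix N r) k
  χ : MvPolynomial (Ix N r) k
  q : MvPolynomial (Ix N r) k
  e : Fin s → ℕ × ℕ
  lam : Fin s → ℕ
  e₁ : ℕ × ℕ
  e₂ : ℕ × ℕ
  ha : ∀ i, BiHom (a i) (e i)
  hχ : BiHom χ e₁
  hq : BiHom q e₂
  deg : (1, 0) + e₁ = ∑ i, lam i • e i + e₂
  rel : X (Sum.inl 0) * χ - (∏ i, a i ^ lam i) * q ∈ Ideal.span (Set.range F)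

/-- The hypotheses on the point `Y = (1, Y_1, ...; 1, ...)` over the function field `Λ` of the curve
`C`: it satisfies the equations, the `x`-part has poles at most `P`, the `f`-part has poles at most
`Q`; `Y_{c₀}` has the pole `Q`; at every `w` some `ρ × ρ` minor of the Jacobian matrix has order at most
`ℓ_w - ρ d + ∑ wt(I₀ i)` (weights with respect to `P_w`, `Q_w`); at every `w` with `P_w > 0` there is a
relation `x_0 χ = ∏ a_i^{λ_i} q` with `χ(Y)` of the smallest possible order and `a_i(Y)` of order at least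
`μ'_i -` the weight of `a_i`, where `∑ μ'_i ≤ μ_w`, `P_w ≤ ∑ λ_i μ'_i`. -/
structure PtData {k Λ : Type} [Field k] [Field Λ] [Algebra k Λ] (C : Curve k Λ) {N r κ ρ : ℕ}
    {d : ℕ × ℕ} (S : System k N r κ ρ d) (Y : Ix N r → Λ) (P Q ℓ μ : C.pt → ℤ)
    (c₀ : Fin (r + 1)) : Prop where
  Yx : Y (Sum.inl 0) = 1
  Yf : Y (Sum.inr 0) = 1
  YF : ∀ j, aeval Y (S.F j) = 0
  gY : aeval Y S.g ≠ 0
  mY : minor S.F S.I₀ Y S.J₀ ≠ 0
  P0 : ∀ w, 0 ≤ P w
  Q0 : ∀ w, 0 ≤ Q w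
  Pfin : {w | P w ≠ 0}.Finite
  Qfin : {w | Q w ≠ 0}.Finite
  YP : ∀ l, Y l ∈ C.L (dv P Q (wt l))
  Yc : ∀ w, 0 < Q w → Y (Sum.inr c₀) ≠ 0 ∧ C.ord w (Y (Sum.inr c₀)) = - Q w
  ℓfin : {w | ℓ w ≠ 0}.Finite
  hℓ : ∀ w, ∃ J : Fin ρ → Fin κ, minor S.F S.I₀ Y J ≠ 0 ∧
    C.ord w (minor S.F S.I₀ Y J) + ρ * dv P Q d w - ∑ i, dv P Q (wt (S.I₀ i)) w ≤ ℓ w
  μ0 : ∀ w, 0 ≤ μ w
  μP : ∀ w, P w = 0 → μ w = 0
  log : ∀ w, 0 < P w → ∃ (T : LogRel S.F) (μ' : Fin T.s → ℕ), ∑ i, (μ' i : ℤ) ≤ μ w ∧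
    aeval Y T.χ ≠ 0 ∧ C.ord w (aeval Y T.χ) = - dv P Q T.e₁ w ∧
    (∀ i, ∀ j < (μ' i : ℤ) - dv P Q (T.e i) w, C.cf w j (aeval Y (T.a i)) = 0) ∧
    P w ≤ ∑ i, (T.lam i : ℤ) * μ' i

/-- The curve `Y(t)` is not constant: for some coordinate `Y_l(t) ≠ Y_l(0) Y_o(t)`, `Y_o` the
normalizing coordinate (`x_0 = 1` or `f_0`) of its group. -/
def Moves {K : Type} [CommRing K] {N r : ℕ} (Y : Ix N r → Polynomial K) : Prop :=
  ∃ l, Y l ≠ Polynomial.C ((Y l).coeff 0) * Y (og l)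

/-- A curve `𝔸¹ → X` of degree at most `B` through the point `v` at time `0`. -/
structure IsCurve {k K : Type} [Field k] [Field K] [Algebra k K] {N r κ : ℕ}
    (F : Fin κ → MvPolynomial (Ix N r) k) (v : Ix N r → K) (B : ℕ) (Y : Ix N r → Polynomial K) :
    Prop where
  zero : ∀ j, aeval Y (F j) = 0
  x0 : Y (Sum.inl 0) = 1
  deg : ∀ l, (Y l).natDegree ≤ B
  moves : Moves Y
  start : ∀ l, (Y l).coeff 0 = v l

end Pool.Agent.Lib.MP_410da7_agV
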