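import Pool.Agent.Lib.MP_410da7_agV.SpecE
import Pool.Agent.Lib.MP_410da7_agA.F1
import Pool.Agent.Lib.MP_410da7_agA.F2
import Pool.Agent.Lib.MP_410da7_agA.FF1
import Pool.Agent.Lib.MP_410da7_agA.FF2
import Pool.Agent.Lib.MP_410da7_agA.FF3
import Pool.Agent.Lib.MP_410da7_agA.FF4
import Pool.Agent.Lib.MP_410da7_agA.FF5
import Pool.Agent.Lib.MP_410da7_agA.FF6
import Pool.Agent.Lib.MP_410da7_agA.FF7
import Pool.Agent.Lib.MP_410da7_agA.FF8
import Pool.Agent.Lib.MP_410da7_agA.FF9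
import Pool.Agent.Lib.MP_410da7_agA.FF10
import Pool.Agent.Lib.MP_410da7_agA.E1
import Pool.Agent.Lib.MP_410da7_agA.E2
import Pool.Agent.Lib.MP_410da7_agA.E3
import Pool.Agent.Lib.MP_410da7_agA.E4
import Pool.Agent.Lib.MP_410da7_agA.E9

/-!
# MP_410da7_ag, C46 version 3, EFGV: the end theorem of the blocks E, F, G (adapted from E9, EFGL)
-/

set_option autoImplicit false

namespace Pool.Agent.Lib.MP_410da7_agV

open MvPolynomial Module
open Pool.Agent.Lib.MP_410da7_agA (Curve ptDiv mx ext push FixedBy Spz)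
open Pool.Agent.Lib.MP_410da7_agA.efgAux

theorem eFGV (hev3 : EV3Stmt) (hev8 : EV8Stmt) (hev9 : EV9Stmt) (hfv16 : FV16Stmt) :
    EFGVStmt := by
  have hff1 : Pool.Agent.Lib.MP_410da7_agA.FF1Stmt := Pool.Agent.Lib.MP_410da7_agA.ff1
  have hff5 : Pool.Agent.Lib.MP_410da7_agA.FF5Stmt :=
    Pool.Agent.Lib.MP_410da7_agA.ff5 Pool.Agent.Lib.MP_410da7_agA.ff2
      Pool.Agent.Lib.MP_410da7_agA.ff3 Pool.Agent.Lib.MP_410da7_agA.ff4
  have hff7 : Pool.Agent.Lib.MP_410da7_agA.FF7Stmt :=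
    Pool.Agent.Lib.MP_410da7_agA.ff7 Pool.Agent.Lib.MP_410da7_agA.f1
  have hff10 : Pool.Agent.Lib.MP_410da7_agA.FF10Stmt :=
    Pool.Agent.Lib.MP_410da7_agA.ff10 Pool.Agent.Lib.MP_410da7_agA.f2
      Pool.Agent.Lib.MP_410da7_agA.ff8 (Pool.Agent.Lib.MP_410da7_agA.ff9
        Pool.Agent.Lib.MP_410da7_agA.f2 Pool.Agent.Lib.MP_410da7_agA.ff6)
  have he4 : Pool.Agent.Lib.MP_410da7_agA.E4Stmt :=
    Pool.Agent.Lib.MP_410da7_agA.e4 Pool.Agent.Lib.MP_410da7_agA.e1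
      Pool.Agent.Lib.MP_410da7_agA.e2 Pool.Agent.Lib.MP_410da7_agA.e3
  intro L Λ _ _ _ _ N r κ ρ n m₀ e₀ B d S y b₀ c₀ α hc hB
  classical
  by_contra hno
  -- EV9
  obtain ⟨E₁, hE₁⟩ := hev9 Λ N r κ B (fun j => map (algebraMap L Λ) (S.F j)) y hc.yx hc.yf (by
    rintro ⟨Ω, _, iΩ, Y, hY⟩
    apply hno
    let iL : Algebra L Ω := ((algebraMap Λ Ω).comp (algebraMap L Λ)).toAlgebra
    refine ⟨Ω, inferInstance, iL, iΩ, IsScalarTower.of_algebraMap_eq' rfl, Y,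
      ⟨?_, hY.x0, hY.deg, hY.moves, hY.start⟩⟩
    intro j
    rw [← hY.zero j, aeval_def, aeval_def, eval₂_map]
    rfl)
  -- EV3, E4
  obtain ⟨CL, E, hyE, hFC, hE⟩ := hev3 L Λ N r κ ρ n m₀ e₀ d S y b₀ c₀ α hc
  obtain ⟨l₀, hl₀, htr₀, hfin₀⟩ := hc.fin
  obtain ⟨p, e, hp, k, Λ', i1, i2, i3, i4, i5, s, he, hOk, -, htr, hfd⟩ :=
    he4 L Λ (y l₀) htr₀ hfin₀ CL (E ∪ E₁)
  have hOk' : s.Ok (p ^ e) CL E :=
    ⟨hOk.hC, fun u hu => hOk.hE u (Finset.mem_union_left _ hu), hOk.frob⟩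
  obtain ⟨S', hS', hcQ⟩ := hE k Λ' s (p ^ e) hOk' ⟨l₀, hl₀, htr, hfd⟩
  -- the curve
  obtain ⟨x, hx⟩ := hff1 k Λ' (s.v (y l₀)) htr hfd
  obtain ⟨C, hC⟩ := hff5 k Λ' x hx
  obtain ⟨hinf, hpole⟩ := hff7 k Λ' C hC x hx
  have hpole' : ∃ w, C.ord w (s.v (y (Sum.inl b₀))) < 0 ∨
      C.ord w (s.v (y (Sum.inr c₀))) < 0 := by
    obtain ⟨w, hw⟩ := hpole _ htr
    rcases hl₀ with rfl | rfl
    · exact ⟨w, Or.inl hw⟩
    · exact ⟨w, Or.inr hw⟩
  obtain ⟨P, hP⟩ : ∃ P : C.pt → ℤ,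
      P = fun w => max 0 (-(C.ord w (s.v (y (Sum.inl b₀))))) := ⟨_, rfl⟩
  obtain ⟨Q, hQ⟩ : ∃ Q : C.pt → ℤ,
      Q = fun w => max 0 (-(C.ord w (s.v (y (Sum.inr c₀))))) := ⟨_, rfl⟩
  obtain ⟨ℓ, μ, a', hPt, hlog, ha', hsum, hlt⟩ := hev8 k Λ' C (p ^ e) N r κ ρ n m₀ e₀ B d S'
    (fun l => s.v (y l)) b₀ c₀ (s.v α) hcQ hB hpole' P Q (fun w => by rw [hP])
    (fun w => by rw [hQ])
  obtain ⟨γ, hγ⟩ := hff10 k Λ' C hC x hx
  -- the set of good points
  obtain ⟨U, hU⟩ : ∃ U : Set C.pt,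
      U = {w | (P w = 0 ∧ Q w = 0) ∧ ∀ u ∈ E ∪ E₁, 0 ≤ C.ord w (s.v u)} := ⟨_, rfl⟩
  have hUinf : U.Infinite := by
    have hfin : Uᶜ.Finite := by
      have h10 : (({w | P w ≠ 0} ∪ {w | Q w ≠ 0}) ∪ ⋃ u ∈ (E ∪ E₁ : Finset Λ),
          {w | C.ord w (s.v u) ≠ 0}).Finite := by
        refine (hPt.Pfin.union hPt.Qfin).union
          (Set.Finite.biUnion (Finset.finite_toSet _) fun u _ => ?_)
        by_cases hu : s.v u = 0
        · have h11 : {w | C.ord w (s.v u) ≠ 0} = ∅ := by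
            ext w
            simp [hu, Curve.ord]
          rw [h11]
          exact Set.finite_empty
        · exact C.finite _ hu
      refine h10.subset fun w hw => ?_
      rw [hU, Set.mem_compl_iff, Set.mem_ofPred_eq] at hw
      by_cases hw0 : P w = 0
      · by_cases hw1 : Q w = 0
        · right
          by_contra h11
          apply hw
          refine ⟨⟨hw0, hw1⟩, fun u hu => ?_⟩
          by_contra h12
          apply h11
          rw [Set.mem_iUnion₂]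
          exact ⟨u, hu, fun h13 => h12 h13.ge⟩
        · left
          right
          exact hw1
      · left
        left
        exact hw0
    intro hUf
    exact Set.infinite_univ (α := C.pt) (by
      rw [← Set.union_compl_self U]
      exact hUf.union hfin)
  obtain ⟨m, w, hwU, k', i6, i7, Yp, hYp⟩ := hfv16 k Λ' p e C N r κ ρ n d S'
    (fun l => s.v (y l)) P Q ℓ μ c₀ hc.dim he hcQ.F_fix hcQ.g_fix hPt hlog a' γ B ha' hsum hlt
    hγ U hUinf (fun w hw => by rw [hU] at hw; exact hw.1.1)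
    (fun w hw => by rw [hU] at hw; exact hw.1.2)
  rw [hU] at hwU
  obtain ⟨-, hwU⟩ := hwU
  -- the homomorphism
  let ε : rr s C w →+* k' :=
    (algebraMap k k').comp ((iterateFrobenius k p (e * m)).comp ((vh C w).comp (rh s C w)))
  have hε : ∀ u : rr s C w, ε u = algebraMap k k' ((C.exp w (s.v u)).coeff 0 ^ (p ^ e) ^ m) := by
    intro u
    rw [← pow_mul]
    rfl
  have hmem : ∀ u ∈ E ∪ E₁, u ∈ rr s C w := fun u hu =>
    ⟨(hOk.hE u hu).1, mem_vr_of_ord C w (hwU u hu)⟩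
  have hA : ∀ j m', coeff m' (S.F j) ∈ s.A := by
    intro j m'
    by_cases h : m' ∈ (S.F j).support
    · exact (hOk.hC _ (hFC j m' h)).1
    · rw [notMem_support_iff.1 h]
      exact s.A.zero_mem
  refine hE₁ (rr s C w) (fun u hu => hmem u (Finset.mem_union_right _ hu)) k' ε
    (fun j => map (algebraMap k k') (S'.F j)) (by
      intro j m'
      have h10 : algebraMap L Λ (coeff m' (S.F j)) ∈ rr s C w := by
        refine ⟨s.incl ⟨_, hA j m'⟩, ?_⟩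
        rw [v_alg s (hA j m')]
        exact alg_mem_vr C w _
      have h11 : coeff m' (map (algebraMap L Λ) (S.F j)) = algebraMap L Λ (coeff m' (S.F j)) :=
        coeff_map _ _ _
      refine ⟨by rw [h11]; exact h10, ?_⟩
      rw [hε]
      simp only [h11]
      rw [v_alg s (hA j m'), cf_alg, coeff_map, hS' j, coeff_red, pow_fix (hOk.frob _ (hA j m'))])
    Yp (by
      intro l
      refine ⟨hmem _ (Finset.mem_union_left _ (hyE l)), ?_⟩
      rw [hε, hYp.start l]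
      rfl)
    ⟨?_, hYp.x0, hYp.deg, hYp.moves, fun l => rfl⟩
  intro j
  rw [← hYp.zero j, aeval_def, aeval_def, eval₂_map]
  rfl

end Pool.Agent.Lib.MP_410da7_agV
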