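import Pool.Agent.Lib.MP_410da7_agV.SpecE
import Pool.Agent.Lib.MP_410da7_agA.E5
import Pool.Agent.Lib.MP_410da7_agA.E6Aux

/-! # MP_410da7_ag, C46 version 3, EV3: transport of the certificate -/

set_option autoImplicit false

namespace Pool.Agent.Lib.MP_410da7_agV

open MvPolynomial Module
open Pool.Agent.Lib.MP_410da7_agA (Curve ptDiv mx ext push FixedBy Spz e5)

namespace eV3Aux

open Pool.Agent.Lib.MP_410da7_agA.e6Aux Pool.Agent.Lib.MP_410da7_agA.e5Aux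

variable {L Λ k Λ' : Type} [Field L] [Field Λ] [Algebra L Λ] [Field k] [Field Λ'] [Algebra k Λ']
  {s : Spz L Λ k Λ'}

/-- a unit of `O` and its image -/
structure UV (s : Spz L Λ k Λ') (x : Λ) (x' : Λ') : Prop where
  un : Un s x
  v : s.v x = x'

theorem UV.mul {a b : Λ} {a' b' : Λ'} (ha : UV s a a') (hb : UV s b b') :
    UV s (a * b) (a' * b') :=
  ⟨ha.un.mul hb.un, by rw [Pool.Agent.Lib.MP_410da7_agA.e6Aux.v_mul ha.un.mem hb.un.mem,
    ha.v, hb.v]⟩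

theorem UV.inv {a : Λ} {a' : Λ'} (ha : UV s a a') : UV s a⁻¹ a'⁻¹ :=
  ⟨ha.un.symm, by rw [ha.un.v_inv, ha.v]⟩

theorem UV.div {a b : Λ} {a' b' : Λ'} (ha : UV s a a') (hb : UV s b b') :
    UV s (a / b) (a' / b') := by
  rw [div_eq_mul_inv, div_eq_mul_inv]
  exact ha.mul hb.inv

theorem UV.pow {a : Λ} {a' : Λ'} (ha : UV s a a') (n : ℕ) : UV s (a ^ n) (a' ^ n) :=
  ⟨ha.un.pow n, by rw [v_pow ha.un.mem, ha.v]⟩

theorem UV.zpow {a : Λ} {a' : Λ'} (ha : UV s a a') (n : ℤ) : UV s (a ^ n) (a' ^ n) :=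
  ⟨(ha.un.zpow n).1, by rw [(ha.un.zpow n).2, ha.v]⟩

theorem UV.one : UV s (1 : Λ) (1 : Λ') :=
  ⟨⟨one_ne_zero, s.O.one_mem, by rw [inv_one]; exact s.O.one_mem⟩, v_one⟩

theorem UV.prod {ι : Type} (t : Finset ι) {f : ι → Λ} {f' : ι → Λ'}
    (h : ∀ i ∈ t, UV s (f i) (f' i)) : UV s (∏ i ∈ t, f i) (∏ i ∈ t, f' i) := by
  classical
  induction t using Finset.induction_on with
  | empty =>
    rw [Finset.prod_empty, Finset.prod_empty]
    exact UV.one
  | insert i t hi ih =>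
    rw [Finset.prod_insert hi, Finset.prod_insert hi]
    exact (h i (Finset.mem_insert_self i t)).mul
      (ih fun j hj => h j (Finset.mem_insert_of_mem hj))

theorem UV.ne {a : Λ} {a' : Λ'} (ha : UV s a a') : a' ≠ 0 := by
  rw [← ha.v]
  exact ha.un.vne

theorem biHom_red {N r : ℕ} {G : MvPolynomial (Ix N r) L} {d : ℕ × ℕ} (h : BiHom G d) :
    BiHom (s.red G) d := by
  intro m hm
  refine h ?_
  intro h0
  apply hm
  rw [coeff_red, h0, c_zero]

theorem in_prod {V ι : Type} (t : Finset ι) (f : ι → MvPolynomial V L)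
    (h : ∀ i ∈ t, s.In (f i)) :
    s.In (∏ i ∈ t, f i) ∧ s.red (∏ i ∈ t, f i) = ∏ i ∈ t, s.red (f i) := by
  classical
  induction t using Finset.induction_on with
  | empty =>
    rw [Finset.prod_empty, Finset.prod_empty]
    exact (e5 L Λ k Λ' s V).2.2.1
  | insert i t hi ih =>
    obtain ⟨h1, h2⟩ := ih fun j hj => h j (Finset.mem_insert_of_mem hj)
    have h3 := in_mul e5 (h i (Finset.mem_insert_self i t)) h1
    rw [Finset.prod_insert hi, Finset.prod_insert hi, h3.2, h2]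
    exact ⟨h3.1, rfl⟩

theorem v_minor {V : Type} {κ ρ : ℕ} {F : Fin κ → MvPolynomial V L}
    (I : Fin ρ → V) {y : V → Λ} (J : Fin ρ → Fin κ) (hF : ∀ j, s.In (F j))
    (hy : ∀ l, y l ∈ s.O) :
    minor F I y J ∈ s.O ∧
      s.v (minor F I y J) = minor (fun j => s.red (F j)) I (fun l => s.v (y l)) J := by
  have h1 : ∀ i l, aeval y (pderiv (I l) (F (J i))) ∈ s.O ∧
      s.v (aeval y (pderiv (I l) (F (J i)))) =
        aeval (fun l => s.v (y l)) (pderiv (I l) (s.red (F (J i)))) := by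
    intro i l
    obtain ⟨h2, h3⟩ := (e5 L Λ k Λ' s V).2.2.2.2.1 (F (J i)) (hF (J i)) (I l)
    obtain ⟨h4, h6⟩ := Pool.Agent.Lib.MP_410da7_agA.e6Aux.v_aeval e5 h2 hy
    rw [h3] at h6
    exact ⟨h4, h6⟩
  obtain ⟨h2, h3⟩ := v_det (s := s) (Matrix.of fun i l => jac F I y (J i) l)
    (fun i l => (h1 i l).1)
  refine ⟨h2, h3.trans ?_⟩
  unfold minor
  congr 1
  ext i l
  exact (h1 i l).2

theorem uv_nrm {N r : ℕ} {y : Ix N r → Λ} {b c : Ix N r} (hb : UV s (y b) (s.v (y b)))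
    (hc : UV s (y c) (s.v (y c))) (e : ℕ × ℕ) :
    UV s (nrm y b c e) (nrm (fun l => s.v (y l)) b c e) :=
  (hb.pow e.1).mul (hc.pow e.2)

/-- the transported relation -/
noncomputable def redT {N r κ : ℕ} {F : Fin κ → MvPolynomial (Ix N r) L}
    {F' : Fin κ → MvPolynomial (Ix N r) k} (s : Spz L Λ k Λ') (T : LogRel F)
    (hrel : X (Sum.inl 0) * s.red T.χ - (∏ i, s.red (T.a i) ^ T.lam i) * s.red T.q ∈
      Ideal.span (Set.range F')) : LogRel F' where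
  s := T.s
  a := fun i => s.red (T.a i)
  χ := s.red T.χ
  q := s.red T.q
  e := T.e
  lam := T.lam
  e₁ := T.e₁
  e₂ := T.e₂
  ha := fun i => biHom_red (T.ha i)
  hχ := biHom_red T.hχ
  hq := biHom_red T.hq
  deg := T.deg
  rel := hrel

theorem rel {N r κ : ℕ} {F : Fin κ → MvPolynomial (Ix N r) L} (T : LogRel F)
    (w : Fin κ → MvPolynomial (Ix N r) L)
    (hw : ∑ j, w j * F j = X (Sum.inl 0) * T.χ - (∏ i, T.a i ^ T.lam i) * T.q)
    (ha : ∀ i, s.In (T.a i)) (hχ : s.In T.χ) (hq : s.In T.q) (hwI : ∀ j, s.In (w j))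
    (hF : ∀ j, s.In (F j)) :
    X (Sum.inl 0) * s.red T.χ - (∏ i, s.red (T.a i) ^ T.lam i) * s.red T.q ∈
      Ideal.span (Set.range fun j => s.red (F j)) := by
  refine Ideal.mem_span_range_iff_exists_fun.2 ⟨fun j => s.red (w j), ?_⟩
  have h1 : X (Sum.inl 0) * T.χ = ∑ j, w j * F j + (∏ i, T.a i ^ T.lam i) * T.q := by
    rw [hw]
    ring
  have hX0 := in_X (s := s) (V := Ix N r) e5 (Sum.inl 0)
  have hL1 := in_mul e5 hX0.1 hχ
  have hS := in_sum (s := s) e5 Finset.univ (fun j => w j * F j)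
    (fun j _ => (in_mul e5 (hwI j) (hF j)).1)
  have haN := in_prod (s := s) Finset.univ (fun i => T.a i ^ T.lam i)
    fun i _ => (in_pow e5 (ha i) _).1
  have hR1 := in_mul e5 haN.1 hq
  have hR2 := in_add e5 hS.1 hR1.1
  have h2 : s.red (X (Sum.inl 0) * T.χ) =
      s.red (∑ j, w j * F j + (∏ i, T.a i ^ T.lam i) * T.q) := by rw [h1]
  rw [hL1.2, hX0.2, hR2.2, hS.2, hR1.2, haN.2] at h2
  have h3 : ∏ i, s.red (T.a i ^ T.lam i) = ∏ i, s.red (T.a i) ^ T.lam i :=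
    Finset.prod_congr rfl fun i _ => (in_pow e5 (ha i) _).2
  rw [h2, h3, add_sub_cancel_right]
  exact Finset.sum_congr rfl fun j _ => ((in_mul e5 (hwI j) (hF j)).2).symm

theorem bV_eq {N r : ℕ} {y : Ix N r → Λ} {b₀ : Fin (N + 1)} {V : ValuationSubring Λ}
    {y' : Ix N r → Λ'} {V' : ValuationSubring Λ'}
    (h : y (Sum.inl b₀) ∈ V ↔ y' (Sum.inl b₀) ∈ V') : bV y b₀ V = bV y' b₀ V' := by
  unfold bV
  by_cases h1 : y (Sum.inl b₀) ∈ V
  · rw [if_pos h1, if_pos (h.1 h1)]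
  · rw [if_neg h1, if_neg fun h2 => h1 (h.2 h2)]

theorem cV_eq {N r : ℕ} {y : Ix N r → Λ} {c₀ : Fin (r + 1)} {V : ValuationSubring Λ}
    {y' : Ix N r → Λ'} {V' : ValuationSubring Λ'}
    (h : y (Sum.inr c₀) ∈ V ↔ y' (Sum.inr c₀) ∈ V') : cV y c₀ V = cV y' c₀ V' := by
  unfold cV
  by_cases h1 : y (Sum.inr c₀) ∈ V
  · rw [if_pos h1, if_pos (h.1 h1)]
  · rw [if_neg h1, if_neg fun h2 => h1 (h.2 h2)]

theorem uv_of {q : ℕ} {CL : Finset L} {E : Finset Λ} (h : s.Ok q CL E) {y : Λ} (hy : y ∈ E)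
    (h0 : y ≠ 0) : UV s y (s.v y) := ⟨un_of h hy h0, rfl⟩

/-- the elements of `LocAt` -/
theorem uv_loc {N r κ ρ : ℕ} {d : ℕ × ℕ} {S : System L N r κ ρ d} (m₀ e₀ : ℕ)
    {y : Ix N r → Λ} {b c : Ix N r} {α : Λ} {T : LogRel S.F} {J : Fin ρ → Fin κ}
    {S' : System k N r κ ρ d} (hrel : X (Sum.inl 0) * s.red T.χ -
      (∏ i, s.red (T.a i) ^ T.lam i) * s.red T.q ∈ Ideal.span (Set.range S'.F))
    (hJ : UV s (minor S.F S.I₀ y J) (minor S'.F S'.I₀ (fun l => s.v (y l)) J))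
    (hα : UV s α (s.v α)) (hb : UV s (y b) (s.v (y b))) (hc : UV s (y c) (s.v (y c)))
    (hχ : UV s (aeval y T.χ) (aeval (fun l => s.v (y l)) (s.red T.χ)))
    (ha : ∀ i, UV s (aeval y (T.a i)) (aeval (fun l => s.v (y l)) (s.red (T.a i)))) :
    UV s (aeval y T.χ / nrm y b c T.e₁)⁻¹
      (aeval (fun l => s.v (y l)) (redT s T hrel).χ /
        nrm (fun l => s.v (y l)) b c (redT s T hrel).e₁)⁻¹ ∧
    UV s (tau S m₀ e₀ y b c α T J)⁻¹
      (tau S' m₀ e₀ (fun l => s.v (y l)) b c (s.v α) (redT s T hrel) J)⁻¹ ∧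
    UV s ((∏ i, (aeval y (T.a i) / nrm y b c (T.e i)) ^ T.lam i) * y b)
      ((∏ i, (aeval (fun l => s.v (y l)) ((redT s T hrel).a i) /
        nrm (fun l => s.v (y l)) b c ((redT s T hrel).e i)) ^ (redT s T hrel).lam i) *
          s.v (y b)) := by
  refine ⟨(hχ.div (uv_nrm hb hc _)).inv, ?_, ?_⟩
  · exact ((((hα.mul (hJ.pow m₀)).mul (hb.zpow _)).mul (hc.zpow _)).mul
      ((UV.prod Finset.univ fun i _ => (ha i).div (uv_nrm hb hc (T.e i))).pow m₀)).inv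
  · exact (UV.prod Finset.univ fun i _ =>
      ((ha i).div (uv_nrm hb hc (T.e i))).pow (T.lam i)).mul hb

end eV3Aux

open eV3Aux Pool.Agent.Lib.MP_410da7_agA.e6Aux in
theorem eV3 (hev2 : EV2Stmt) : EV3Stmt := by
  classical
  intro L Λ _ _ _ N r κ ρ n m₀ e₀ d S y b₀ c₀ α hC
  obtain ⟨t, T, hχ0, ha0, hloc⟩ := hC.loc
  choose w hw using fun i => Ideal.mem_span_range_iff_exists_fun.1 (T i).rel
  -- the elements
  obtain ⟨G₀, hG₀⟩ : ∃ G₀ : Finset Λ, G₀ = Finset.univ.image y ∪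
    (Finset.univ.image (fun p : Ix N r × Ix N r => y p.1 / y p.2) ∪
    (Finset.univ.image (fun p : Fin t × Ix N r × Ix N r =>
      (aeval y (T p.1).χ / nrm y p.2.1 p.2.2 (T p.1).e₁)⁻¹) ∪
    (Finset.univ.image (fun p : Fin t × (Fin ρ → Fin κ) × Ix N r × Ix N r =>
      (tau S m₀ e₀ y p.2.2.1 p.2.2.2 α (T p.1) p.2.1)⁻¹) ∪
    Finset.univ.image (fun p : Fin t × Ix N r × Ix N r =>
      (∏ j, (aeval y ((T p.1).a j) / nrm y p.2.1 p.2.2 ((T p.1).e j)) ^ (T p.1).lam j) *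
        y p.2.1)))) := ⟨_, rfl⟩
  have g1 : ∀ l, y l ∈ G₀ := fun l => by
    have : y l ∈ Finset.univ.image y := Finset.mem_image_of_mem _ (Finset.mem_univ l)
    rw [hG₀]
    simp only [Finset.mem_union]
    tauto
  have g2 : ∀ l l', y l / y l' ∈ G₀ := fun l l' => by
    have : y l / y l' ∈ Finset.univ.image (fun p : Ix N r × Ix N r => y p.1 / y p.2) :=
      Finset.mem_image.2 ⟨(l, l'), Finset.mem_univ _, rfl⟩
    rw [hG₀]
    simp only [Finset.mem_union]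
    tauto
  have g3 : ∀ i b c, (aeval y (T i).χ / nrm y b c (T i).e₁)⁻¹ ∈ G₀ := fun i b c => by
    have : (aeval y (T i).χ / nrm y b c (T i).e₁)⁻¹ ∈ Finset.univ.image
        (fun p : Fin t × Ix N r × Ix N r =>
          (aeval y (T p.1).χ / nrm y p.2.1 p.2.2 (T p.1).e₁)⁻¹) :=
      Finset.mem_image.2 ⟨(i, b, c), Finset.mem_univ _, rfl⟩
    rw [hG₀]
    simp only [Finset.mem_union]
    tauto
  have g4 : ∀ i J b c, (tau S m₀ e₀ y b c α (T i) J)⁻¹ ∈ G₀ := fun i J b c => by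
    have : (tau S m₀ e₀ y b c α (T i) J)⁻¹ ∈ Finset.univ.image
        (fun p : Fin t × (Fin ρ → Fin κ) × Ix N r × Ix N r =>
          (tau S m₀ e₀ y p.2.2.1 p.2.2.2 α (T p.1) p.2.1)⁻¹) :=
      Finset.mem_image.2 ⟨(i, J, b, c), Finset.mem_univ _, rfl⟩
    rw [hG₀]
    simp only [Finset.mem_union]
    tauto
  have g5 : ∀ i b c, (∏ j, (aeval y ((T i).a j) / nrm y b c ((T i).e j)) ^ (T i).lam j) *
      y b ∈ G₀ := fun i b c => by
    have : (∏ j, (aeval y ((T i).a j) / nrm y b c ((T i).e j)) ^ (T i).lam j) * y b ∈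
        Finset.univ.image (fun p : Fin t × Ix N r × Ix N r =>
          (∏ j, (aeval y ((T p.1).a j) / nrm y p.2.1 p.2.2 ((T p.1).e j)) ^ (T p.1).lam j) *
            y p.2.1) :=
      Finset.mem_image.2 ⟨(i, b, c), Finset.mem_univ _, rfl⟩
    rw [hG₀]
    simp only [Finset.mem_union]
    tauto
  obtain ⟨CL2, E2, h2⟩ := hev2 L Λ (G₀.filter fun g => g ≠ 0) fun g hg =>
    (Finset.mem_filter.1 hg).2
  obtain ⟨CT, hCT⟩ : ∃ CT : Fin t → Finset L, CT = fun i => cf (T i).χ ∪ (cf (T i).q ∪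
    (Finset.univ.biUnion (fun j => cf ((T i).a j)) ∪
      Finset.univ.biUnion (fun j => cf (w i j)))) := ⟨_, rfl⟩
  obtain ⟨CL, hCL⟩ : ∃ CL : Finset L, CL = cf S.g ∪ (Finset.univ.biUnion (fun j => cf (S.F j)) ∪
    (Finset.univ.biUnion (fun j => Finset.univ.biUnion fun i => cf (S.A j i)) ∪
    (Finset.univ.biUnion CT ∪ CL2))) := ⟨_, rfl⟩
  obtain ⟨E, hE⟩ : ∃ E : Finset Λ, E = G₀ ∪ (E2 ∪ ({α, aeval y S.g} ∪
    (Finset.univ.image (fun J => minor S.F S.I₀ y J) ∪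
    (Finset.univ.image (fun i => aeval y (T i).χ) ∪
    Finset.univ.biUnion (fun i => Finset.univ.image fun j => aeval y ((T i).a j)))))) :=
      ⟨_, rfl⟩
  have hG₀E : G₀ ⊆ E := fun a ha => by
    rw [hE]
    simp only [Finset.mem_union]
    tauto
  have hE2 : E2 ⊆ E := fun a ha => by
    rw [hE]
    simp only [Finset.mem_union]
    tauto
  have hC2 : CL2 ⊆ CL := fun a ha => by
    rw [hCL]
    simp only [Finset.mem_union]
    tauto
  have hFC : ∀ j, cf (S.F j) ⊆ CL := fun j a ha => by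
    have : a ∈ Finset.univ.biUnion (fun j => cf (S.F j)) :=
      Finset.mem_biUnion.2 ⟨j, Finset.mem_univ j, ha⟩
    rw [hCL]
    simp only [Finset.mem_union]
    tauto
  have hAC : ∀ j i, cf (S.A j i) ⊆ CL := fun j i a ha => by
    have : a ∈ Finset.univ.biUnion (fun j => Finset.univ.biUnion fun i => cf (S.A j i)) :=
      Finset.mem_biUnion.2 ⟨j, Finset.mem_univ j, Finset.mem_biUnion.2 ⟨i, Finset.mem_univ i, ha⟩⟩
    rw [hCL]
    simp only [Finset.mem_union]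
    tauto
  have hgC : cf S.g ⊆ CL := fun a ha => by
    rw [hCL]
    simp only [Finset.mem_union]
    tauto
  have hTC : ∀ i, CT i ⊆ CL := fun i a ha => by
    have : a ∈ Finset.univ.biUnion CT := Finset.mem_biUnion.2 ⟨i, Finset.mem_univ i, ha⟩
    rw [hCL]
    simp only [Finset.mem_union]
    tauto
  have hTχC : ∀ i, cf (T i).χ ⊆ CL := fun i a ha => hTC i (by
    rw [hCT]
    simp only [Finset.mem_union]
    tauto)
  have hTqC : ∀ i, cf (T i).q ⊆ CL := fun i a ha => hTC i (by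
    rw [hCT]
    simp only [Finset.mem_union]
    tauto)
  have hTaC : ∀ i j, cf ((T i).a j) ⊆ CL := fun i j a ha => hTC i (by
    have : a ∈ Finset.univ.biUnion (fun j => cf ((T i).a j)) :=
      Finset.mem_biUnion.2 ⟨j, Finset.mem_univ j, ha⟩
    rw [hCT]
    simp only [Finset.mem_union]
    tauto)
  have hwC : ∀ i j, cf (w i j) ⊆ CL := fun i j a ha => hTC i (by
    have : a ∈ Finset.univ.biUnion (fun j => cf (w i j)) :=
      Finset.mem_biUnion.2 ⟨j, Finset.mem_univ j, ha⟩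
    rw [hCT]
    simp only [Finset.mem_union]
    tauto)
  have hαE : α ∈ E := by rw [hE]; simp
  have hgE : aeval y S.g ∈ E := by rw [hE]; simp
  have hJE : ∀ J, minor S.F S.I₀ y J ∈ E := fun J => by
    have : minor S.F S.I₀ y J ∈ Finset.univ.image (fun J => minor S.F S.I₀ y J) :=
      Finset.mem_image_of_mem _ (Finset.mem_univ J)
    rw [hE]
    simp only [Finset.mem_union]
    tauto
  have hχE : ∀ i, aeval y (T i).χ ∈ E := fun i => by
    have : aeval y (T i).χ ∈ Finset.univ.image (fun i => aeval y (T i).χ) :=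
      Finset.mem_image.2 ⟨i, Finset.mem_univ i, rfl⟩
    rw [hE]
    simp only [Finset.mem_union]
    tauto
  have haE : ∀ i j, aeval y ((T i).a j) ∈ E := fun i j => by
    have : aeval y ((T i).a j) ∈ Finset.univ.biUnion
        (fun i => Finset.univ.image fun j => aeval y ((T i).a j)) :=
      Finset.mem_biUnion.2 ⟨i, Finset.mem_univ i, Finset.mem_image.2 ⟨j, Finset.mem_univ j, rfl⟩⟩
    rw [hE]
    simp only [Finset.mem_union]
    tauto
  refine ⟨CL, E, fun l => hG₀E (g1 l), fun j m hm => hFC j (mem_cf hm), ?_⟩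
  intro k Λ' _ _ _ s q hok hfin
  have cmem : ∀ G : MvPolynomial (Ix N r) L, cf G ⊆ CL → s.In G := fun G hG =>
    in_of fun a ha => (hok.hC a (hG ha)).1
  have hF : ∀ j, s.In (S.F j) := fun j => cmem _ (hFC j)
  have hA : ∀ j i, s.In (S.A j i) := fun j i => cmem _ (hAC j i)
  have hg : s.In S.g := cmem _ hgC
  have hTχ : ∀ i, s.In (T i).χ := fun i => cmem _ (hTχC i)
  have hTq : ∀ i, s.In (T i).q := fun i => cmem _ (hTqC i)
  have hTa : ∀ i j, s.In ((T i).a j) := fun i j => cmem _ (hTaC i j)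
  have hwI : ∀ i j, s.In (w i j) := fun i j => cmem _ (hwC i j)
  have hy : ∀ l, y l ∈ s.O := fun l => (hok.hE _ (hG₀E (g1 l))).1
  have uα : UV s α (s.v α) := uv_of hok hαE hC.α0
  have uy : ∀ l, y l ≠ 0 → UV s (y l) (s.v (y l)) := fun l hl => uv_of hok (hG₀E (g1 l)) hl
  have uχ : ∀ i, UV s (aeval y (T i).χ) (aeval (fun l => s.v (y l)) (s.red (T i).χ)) :=
    fun i => ⟨un_of hok (hχE i) (hχ0 i), (v_aeval e5 (hTχ i) hy).2⟩
  have ua : ∀ i j, UV s (aeval y ((T i).a j))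
      (aeval (fun l => s.v (y l)) (s.red ((T i).a j))) :=
    fun i j => ⟨un_of hok (haE i j) (ha0 i j), (v_aeval e5 (hTa i j) hy).2⟩
  have hrel : ∀ j, s.red S.g * s.red (S.F j) = ∑ i, s.red (S.A j i) * s.red (S.F (S.J₀ i)) := by
    intro j
    rw [← (in_mul e5 hg (hF j)).2, S.rel j, (in_sum e5 Finset.univ _ fun i _ =>
      (in_mul e5 (hA j i) (hF (S.J₀ i))).1).2]
    exact Finset.sum_congr rfl fun i _ => (in_mul e5 (hA j i) (hF (S.J₀ i))).2
  obtain ⟨S', hS', hSI, hSJ, hSg⟩ : ∃ S' : System k N r κ ρ d,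
      (S'.F = fun j => s.red (S.F j)) ∧ S'.I₀ = S.I₀ ∧ S'.J₀ = S.J₀ ∧ S'.g = s.red S.g :=
    ⟨⟨fun j => s.red (S.F j), fun j => biHom_red (S.hom j), S.I₀, S.J₀, s.red S.g,
      fun j i => s.red (S.A j i), hrel⟩, rfl, rfl, rfl, rfl⟩
  have hminor : ∀ J : Fin ρ → Fin κ, s.v (minor S.F S.I₀ y J) =
      minor S'.F S'.I₀ (fun l => s.v (y l)) J := by
    intro J
    rw [(eV3Aux.v_minor S.I₀ J hF hy).2, hS', hSI]
  have uJ : ∀ J, minor S.F S.I₀ y J ≠ 0 → UV s (minor S.F S.I₀ y J)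
      (minor S'.F S'.I₀ (fun l => s.v (y l)) J) := fun J hJ =>
    ⟨un_of hok (hJE J) hJ, hminor J⟩
  have hTrel : ∀ i, X (Sum.inl 0) * s.red (T i).χ -
      (∏ j, s.red ((T i).a j) ^ (T i).lam j) * s.red (T i).q ∈
        Ideal.span (Set.range S'.F) := by
    intro i
    rw [hS']
    exact rel (T i) (w i) (hw i) (hTa i) (hTχ i) (hTq i) (hwI i) hF
  -- transport at `V'`
  have key : ∀ V' : ValuationSubring Λ', (∀ c : k, algebraMap k Λ' c ∈ V') →
      ∃ V : ValuationSubring Λ, (∀ c : L, algebraMap L Λ c ∈ V) ∧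
        (∀ x ∈ G₀, (x ∈ V ↔ s.v x ∈ V')) ∧
        bV (fun l => s.v (y l)) b₀ V' = bV y b₀ V ∧ cV (fun l => s.v (y l)) c₀ V' = cV y c₀ V := by
    intro V' hV'
    obtain ⟨V, hV, h3⟩ := h2 k Λ' s q (ok_mono hok hC2 hE2) V' hV'
    have h4 : ∀ x ∈ G₀, (x ∈ V ↔ s.v x ∈ V') := by
      intro x hx
      by_cases hx0 : x = 0
      · rw [hx0, v_zero]
        exact ⟨fun _ => V'.zero_mem, fun _ => V.zero_mem⟩
      · exact h3 x (Finset.mem_filter.2 ⟨hx, hx0⟩)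
    exact ⟨V, hV, h4, (bV_eq (h4 _ (g1 _))).symm, (cV_eq (h4 _ (g1 _))).symm⟩
  have hbne : ∀ V : ValuationSubring Λ, y (bV y b₀ V) ≠ 0 := by
    intro V
    unfold bV
    split_ifs
    · rw [hC.yx]
      exact one_ne_zero
    · exact hC.b0
  have hcne : ∀ V : ValuationSubring Λ, y (cV y c₀ V) ≠ 0 := by
    intro V
    unfold cV
    split_ifs
    · rw [hC.yf]
      exact one_ne_zero
    · exact hC.c0
  have hloc' : ∀ V' : ValuationSubring Λ', (∀ c : k, algebraMap k Λ' c ∈ V') →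
      ∃ (i : Fin t) (J : Fin ρ → Fin κ), LocAt S' m₀ e₀ (fun l => s.v (y l))
        (bV (fun l => s.v (y l)) b₀ V') (cV (fun l => s.v (y l)) c₀ V') (s.v α)
        (redT s (T i) (hTrel i)) J V' := by
    intro V' hV'
    obtain ⟨V, hV, h4, h5, h6⟩ := key V' hV'
    obtain ⟨i, J, hL⟩ := hloc V hV
    refine ⟨i, J, ?_⟩
    rw [h5, h6]
    obtain ⟨k1, k2, k3⟩ := uv_loc m₀ e₀ (hTrel i) (uJ J hL.J0) uα (uy _ (hbne V))
      (uy _ (hcne V)) (uχ i) (ua i)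
    refine ⟨(uJ J hL.J0).ne, ?_, ?_, ?_⟩
    · rw [← k1.v]
      exact (h4 _ (g3 _ _ _)).1 hL.χV
    · rw [← k2.v]
      exact (h4 _ (g4 _ _ _ _)).1 hL.τV
    · have h7 := (h4 _ (g5 i (bV y b₀ V) (cV y c₀ V))).1 hL.ζV
      rw [k3.v] at h7
      exact h7
  have hχ' : ∀ i, aeval (fun l => s.v (y l)) (redT s (T i) (hTrel i)).χ ≠ 0 :=
    fun i => (uχ i).ne
  have ha' : ∀ i j, aeval (fun l => s.v (y l)) ((redT s (T i) (hTrel i)).a j) ≠ 0 :=
    fun i j => (ua i j).ne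
  refine ⟨S', fun j => by rw [hS'], ⟨?_, ?_, ?_, ?_⟩⟩
  · refine ⟨hC.dim, ?_, ?_, ?_, ?_, ?_, (uy _ hC.b0).ne, (uy _ hC.c0).ne, hfin, hC.m0, hC.e0,
      uα.ne, ?_, ⟨t, _, hχ', ha', hloc'⟩⟩
    · show s.v (y (Sum.inl 0)) = 1
      rw [hC.yx, v_one]
    · show s.v (y (Sum.inr 0)) = 1
      rw [hC.yf, v_one]
    · intro j
      rw [hS', ← (v_aeval e5 (hF j) hy).2, hC.yF, v_zero]
    · rw [hSg, ← (v_aeval e5 hg hy).2]
      exact (un_of hok hgE hC.g0).vne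
    · rw [hSJ]
      exact (uJ _ hC.J0).ne
    · intro V' hV'
      obtain ⟨V, hV, h4, h5, h6⟩ := key V' hV'
      obtain ⟨h7, h8⟩ := hC.reg V hV
      rw [h5, h6]
      refine ⟨fun l => ?_, fun l => ?_⟩
      · show s.v (y (Sum.inl l)) / s.v (y (bV y b₀ V)) ∈ V'
        rw [← v_div (hy _) (uy _ (hbne V)).un]
        exact (h4 _ (g2 _ _)).1 (h7 l)
      · show s.v (y (Sum.inr l)) / s.v (y (cV y c₀ V)) ∈ V'
        rw [← v_div (hy _) (uy _ (hcne V)).un]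
        exact (h4 _ (g2 _ _)).1 (h8 l)
  · intro j
    rw [hS']
    exact fixed e5 hok (hF j)
  · rw [hSg]
    exact fixed e5 hok hg
  · exact ⟨t, fun i => redT s (T i) (hTrel i), fun i j => fixed e5 hok (hTa i j),
      fun i => fixed e5 hok (hTχ i), hχ', ha', hloc'⟩

end Pool.Agent.Lib.MP_410da7_agV
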