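import Pool.Agent.Lib.MP_410da7_agV.SpecE

/-!
# MP_410da7_ag, version 3, EV9: the Nullstellensatz certificate for the nonexistence of curves (helper7)
-/

set_option autoImplicit false

namespace Pool.Agent.Lib.MP_410da7_agV

open MvPolynomial Module

namespace eV9Aux

variable {A₀ A A' σ : Type} [CommRing A₀] [CommRing A] [CommRing A'] {B κ : ℕ}

/-- The curve with constant terms `y` and the higher coefficients `a`. -/
noncomputable def crv (y : σ → A) (a : σ × Fin B → A) (l : σ) : Polynomial A :=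
  Polynomial.C (y l) + ∑ m : Fin B, Polynomial.C (a (l, m)) * Polynomial.X ^ ((m : ℕ) + 1)

theorem crv_zero (y : σ → A) (a : σ × Fin B → A) (l : σ) :
    (crv y a l).coeff 0 = y l := by
  simp [crv, Polynomial.coeff_X_pow]

theorem crv_succ (y : σ → A) (a : σ × Fin B → A) (l : σ) (n : ℕ) :
    (crv y a l).coeff (n + 1) = if h : n < B then a (l, ⟨n, h⟩) else 0 := by
  rw [crv, Polynomial.coeff_add, Polynomial.coeff_C_succ, zero_add, Polynomial.finsetSum_coeff]
  simp only [Polynomial.coeff_C_mul, Polynomial.coeff_X_pow, add_left_inj, mul_ite, mul_one,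
    mul_zero]
  split_ifs with h
  · rw [Finset.sum_eq_single (⟨n, h⟩ : Fin B)]
    · simp
    · intro m _ hm
      rw [if_neg]
      intro h1
      exact hm (Fin.ext h1.symm)
    · intro h1
      exact absurd (Finset.mem_univ _) h1
  · refine Finset.sum_eq_zero fun m _ => ?_
    rw [if_neg]
    intro h1
    exact h (h1 ▸ m.2)

theorem crv_natDegree_le (y : σ → A) (a : σ × Fin B → A) (l : σ) :
    (crv y a l).natDegree ≤ B := by
  rw [Polynomial.natDegree_le_iff_coeff_eq_zero]
  intro n hn
  obtain ⟨k, rfl⟩ : ∃ k, n = k + 1 := ⟨n - 1, by omega⟩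
  rw [crv_succ, dif_neg (by omega)]

theorem crv_map (ψ : A →+* A') (y : σ → A) (a : σ × Fin B → A) (l : σ) :
    (crv y a l).map ψ = crv (fun l => ψ (y l)) (fun v => ψ (a v)) l := by
  simp [crv, Polynomial.map_sum]

theorem eq_crv (Y : σ → Polynomial A) (hY : ∀ l, (Y l).natDegree ≤ B) (l : σ) :
    Y l = crv (fun l => (Y l).coeff 0)
      (fun v : σ × Fin B => (Y v.1).coeff ((v.2 : ℕ) + 1)) l := by
  ext n
  cases n with
  | zero => rw [crv_zero]
  | succ n =>
    rw [crv_succ]
    split_ifs with h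
    · rfl
    · exact Polynomial.coeff_eq_zero_of_natDegree_lt (by have := hY l; omega)

/-- The value of `p` at the polynomials `Y`. -/
noncomputable def tv (f : A₀ →+* A) (Y : σ → Polynomial A) (p : MvPolynomial σ A₀) :
    Polynomial A := p.eval₂ (Polynomial.C.comp f) Y

theorem tv_map (ψ : A →+* A') (f : A₀ →+* A) (Y : σ → Polynomial A)
    (p : MvPolynomial σ A₀) :
    (tv f Y p).map ψ = tv (ψ.comp f) (fun l => (Y l).map ψ) p := by
  unfold tv
  rw [← Polynomial.coe_mapRingHom, MvPolynomial.eval₂_comp_left]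
  congr 1
  ext a
  simp

theorem tv_mapLeft (f : A₀ →+* A) (g : A →+* A') (Y : σ → Polynomial A')
    (p : MvPolynomial σ A₀) : tv g Y (map f p) = tv (g.comp f) Y p := by
  unfold tv
  rw [eval₂_map]
  rfl

/-- The generators of the ideal of the curves. -/
noncomputable def gen (y : σ → A) (F : Fin κ → MvPolynomial σ A) (l₀ : σ) :
    (Fin κ × ℕ) ⊕ Fin B → MvPolynomial (σ × Fin B) A
  | Sum.inl p => (tv C (crv (fun l => C (y l)) X) (F p.1)).coeff p.2
  | Sum.inr m => X (l₀, m)

theorem gen_map (f : A →+* A') (y : σ → A) (F : Fin κ → MvPolynomial σ A) (l₀ : σ)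
    (i : (Fin κ × ℕ) ⊕ Fin B) :
    map f (gen y F l₀ i) = gen (fun l => f (y l)) (fun j => map f (F j)) l₀ i := by
  rcases i with ⟨j, i⟩ | m
  · simp only [gen]
    rw [← Polynomial.coeff_map, tv_map, tv_mapLeft]
    congr 2
    · ext a
      simp
    · funext l
      rw [crv_map]
      simp
  · simp [gen]

theorem gen_eval (φ : MvPolynomial (σ × Fin B) A →+* A') (y : σ → A)
    (F : Fin κ → MvPolynomial σ A) (l₀ : σ) (j : Fin κ) (i : ℕ) :
    φ (gen y F l₀ (Sum.inl (j, i))) =
      (tv (φ.comp C) (crv (fun l => φ (C (y l))) (fun v => φ (X v))) (F j)).coeff i := by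
  simp only [gen]
  rw [← Polynomial.coeff_map, tv_map]
  congr 2
  funext l
  rw [crv_map]

/-- The elements which vanish at the curves which do not move. -/
noncomputable def tu (og : σ → σ) (y : σ → A) (v : σ × Fin B) : MvPolynomial (σ × Fin B) A :=
  X v - C (y v.1) * X (og v.1, v.2)

theorem tu_map (og : σ → σ) (ψ : A →+* A') (y : σ → A) (v : σ × Fin B) :
    map ψ (tu og y v) = tu og (fun l => ψ (y l)) v := by
  simp [tu]

end eV9Aux

open eV9Aux

theorem eV9 : EV9Stmt := by
  intro Λ _ N r κ B F y hy0 hy1 hno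
  classical
  have hog : ∀ l : Ix N r, y (og l) = 1 := by
    rintro (l | l)
    · exact hy0
    · exact hy1
  -- the certificate
  have hcert : ∀ v : Ix N r × Fin B, ∃ (K : ℕ)
      (c : ((Fin κ × ℕ) ⊕ Fin B) →₀ MvPolynomial (Ix N r × Fin B) Λ),
      (c.sum fun i a => a * gen y F (Sum.inl 0) i) = tu og y v ^ K := by
    intro v
    have hrad : (tu og y v : MvPolynomial (Ix N r × Fin B) Λ) ∈
        (Ideal.span (Set.range (gen (B := B) y F (Sum.inl 0)))).radical := by
      by_contra hnot
      rw [Ideal.radical_eq_sInf, Ideal.mem_sInf] at hnot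
      push Not at hnot
      obtain ⟨J, ⟨hIJ, hJ⟩, hvJ⟩ := hnot
      apply hno
      let ψ : MvPolynomial (Ix N r × Fin B) Λ →+*
          FractionRing (MvPolynomial (Ix N r × Fin B) Λ ⧸ J) :=
        (algebraMap (MvPolynomial (Ix N r × Fin B) Λ ⧸ J) _).comp (Ideal.Quotient.mk J)
      have hψ : ∀ s, ψ s = 0 ↔ s ∈ J := by
        intro s
        simp only [ψ, RingHom.comp_apply]
        rw [map_eq_zero_iff _ (IsFractionRing.injective _ _), Ideal.Quotient.eq_zero_iff_mem]
      let _ : Algebra Λ (FractionRing (MvPolynomial (Ix N r × Fin B) Λ ⧸ J)) :=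
        (ψ.comp C).toAlgebra
      refine ⟨FractionRing (MvPolynomial (Ix N r × Fin B) Λ ⧸ J), inferInstance,
        (ψ.comp C).toAlgebra, crv (fun l => ψ (C (y l))) (fun v => ψ (X v)), ?_, ?_,
        crv_natDegree_le _ _, ?_, ?_⟩
      · intro j
        have h1 : aeval (crv (fun l => ψ (C (y l))) (fun v => ψ (X v))) (F j) =
            tv (ψ.comp C) (crv (fun l => ψ (C (y l))) (fun v => ψ (X v))) (F j) := rfl
        rw [h1]
        ext i
        rw [← gen_eval ψ y F (Sum.inl 0) j i, Polynomial.coeff_zero, hψ]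
        exact hIJ (Ideal.subset_span ⟨_, rfl⟩)
      · ext n
        cases n with
        | zero => rw [crv_zero, hy0, map_one, map_one, Polynomial.coeff_one_zero]
        | succ m =>
          rw [crv_succ, Polynomial.coeff_one, if_neg (Nat.succ_ne_zero m)]
          split_ifs with h
          · rw [hψ]
            exact hIJ (Ideal.subset_span ⟨Sum.inr ⟨m, h⟩, rfl⟩)
          · rfl
      · refine ⟨v.1, fun h => hvJ ?_⟩
        have h2 := congrArg (fun q => Polynomial.coeff q ((v.2 : ℕ) + 1)) h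
        simp only [Polynomial.coeff_C_mul] at h2
        rw [crv_zero, crv_succ, crv_succ, dif_pos v.2.2, dif_pos v.2.2] at h2
        rw [← hψ, tu, map_sub, map_mul, sub_eq_zero]
        exact h2
      · intro l
        rw [crv_zero]
        rfl
    obtain ⟨K, hK⟩ := hrad
    rw [Finsupp.mem_ideal_span_range_iff_exists_finsupp] at hK
    obtain ⟨c, hc⟩ := hK
    exact ⟨K, c, hc⟩
  choose K c hc using hcert
  refine ⟨Finset.univ.biUnion fun v => (c v).support.biUnion fun i =>
    (c v i).support.image fun m => coeff m (c v i), ?_⟩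
  intro R hR k' _ ε F' hF' Y hyY hcur
  have hYB := hcur.deg
  -- lifts to `R`
  have hlift : ∀ p : MvPolynomial (Ix N r × Fin B) Λ, (∀ m ∈ p.support, coeff m p ∈ R) →
      ∃ q : MvPolynomial (Ix N r × Fin B) R, map R.subtype q = p := by
    intro p hp
    have h1 : p ∈ Set.range (map R.subtype) := by
      rw [mem_range_map_iff_coeffs_subset]
      intro a ha
      obtain ⟨m, hm, rfl⟩ := mem_coeffs_iff.1 ha
      exact ⟨⟨_, hp m hm⟩, rfl⟩
    exact h1
  have hcR : ∀ v i, ∃ q : MvPolynomial (Ix N r × Fin B) R, map R.subtype q = c v i := by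
    intro v i
    by_cases hi : i ∈ (c v).support
    · refine hlift _ fun m hm => hR _ ?_
      rw [Finset.mem_biUnion]
      refine ⟨v, Finset.mem_univ _, ?_⟩
      rw [Finset.mem_biUnion]
      exact ⟨i, hi, Finset.mem_image_of_mem _ hm⟩
    · rw [Finsupp.notMem_support_iff] at hi
      exact ⟨0, by rw [hi, map_zero]⟩
  choose cR hcR using hcR
  have hFR : ∀ j, ∃ q : MvPolynomial (Ix N r) R, map R.subtype q = F j ∧ map ε q = F' j := by
    intro j
    have h1 : F j ∈ Set.range (map (σ := Ix N r) R.subtype) := by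
      rw [mem_range_map_iff_coeffs_subset]
      intro a ha
      obtain ⟨m, hm, rfl⟩ := mem_coeffs_iff.1 ha
      exact ⟨⟨_, (hF' j m).1⟩, rfl⟩
    obtain ⟨q, hq⟩ := h1
    refine ⟨q, hq, ?_⟩
    ext m
    obtain ⟨h, hm⟩ := hF' j m
    rw [coeff_map, ← hm]
    congr 1
    apply Subtype.ext
    change ((coeff m q : R) : Λ) = coeff m (F j)
    rw [← hq, coeff_map]
    rfl
  choose FR hFR hFR' using hFR
  have hyR : ∀ l, ∃ a : R, (a : Λ) = y l ∧ ε a = (Y l).coeff 0 := by
    intro l
    obtain ⟨h, hl⟩ := hyY l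
    exact ⟨⟨y l, h⟩, rfl, hl⟩
  choose yR hyR hyR' using hyR
  -- the identity over `R`
  have hid : ∀ v, ∑ i ∈ (c v).support, cR v i * gen yR FR (Sum.inl 0) i = tu og yR v ^ K v := by
    intro v
    apply map_injective R.subtype Subtype.val_injective
    rw [map_sum, map_pow, tu_map]
    have h0 : (fun l => R.subtype (yR l)) = y := funext fun l => hyR l
    rw [h0, ← hc v, Finsupp.sum]
    refine Finset.sum_congr rfl fun i _ => ?_
    rw [map_mul, hcR, gen_map]
    congr 2
    funext j
    exact hFR j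
  -- evaluation
  let φ : MvPolynomial (Ix N r × Fin B) R →+* k' :=
    eval₂Hom ε (fun v => (Y v.1).coeff ((v.2 : ℕ) + 1))
  have hφC : ∀ a : R, φ (C a) = ε a := fun a => eval₂Hom_C _ _ _
  have hφX : ∀ v, φ (X v) = (Y v.1).coeff ((v.2 : ℕ) + 1) := fun v => eval₂Hom_X' _ _ _
  have hφ : ∀ i, φ (gen yR FR (Sum.inl 0) i) = 0 := by
    rintro (⟨j, i⟩ | m)
    · rw [gen_eval]
      have h1 : (crv (fun l => φ (C (yR l))) (fun v => φ (X v)) : Ix N r → Polynomial k') =
          Y := by
        funext l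
        rw [eq_crv Y hYB l]
        congr 1
        · funext l'
          rw [hφC, hyR']
        · funext v
          rw [hφX]
      have h2 : φ.comp C = ε := by
        ext a
        exact hφC a
      rw [h1, h2]
      have h3 : tv ε Y (FR j) = aeval Y (F' j) := by
        have h4 := tv_mapLeft ε (RingHom.id k') Y (FR j)
        rw [hFR', RingHom.id_comp] at h4
        rw [← h4]
        rfl
      rw [h3, hcur.zero j, Polynomial.coeff_zero]
    · change φ (X (Sum.inl 0, m)) = 0
      rw [hφX]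
      change (Y (Sum.inl 0)).coeff ((m : ℕ) + 1) = 0
      rw [hcur.x0, Polynomial.coeff_one, if_neg (Nat.succ_ne_zero _)]
  have hcoef : ∀ (l : Ix N r) (m : ℕ), m < B →
      (Y l).coeff (m + 1) = (Y l).coeff 0 * (Y (og l)).coeff (m + 1) := by
    intro l m hmB
    have h1 := congrArg φ (hid (l, ⟨m, hmB⟩))
    rw [map_sum, map_pow] at h1
    have h2 : ∑ i ∈ (c (l, ⟨m, hmB⟩)).support,
        φ (cR (l, ⟨m, hmB⟩) i * gen yR FR (Sum.inl 0) i) = 0 :=
      Finset.sum_eq_zero fun i _ => by rw [map_mul, hφ, mul_zero]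
    rw [h2] at h1
    have h3 : φ (tu og yR (l, ⟨m, hmB⟩)) = 0 := eq_zero_of_pow_eq_zero h1.symm
    rw [tu, map_sub, map_mul, hφC, hφX, hφX, hyR', sub_eq_zero] at h3
    exact h3
  obtain ⟨l, hl⟩ := hcur.moves
  apply hl
  ext n
  rw [Polynomial.coeff_C_mul]
  cases n with
  | zero =>
    have h1 : (Y (og l)).coeff 0 = 1 := by
      obtain ⟨h, hl'⟩ := hyY (og l)
      rw [← hl']
      have h2 : (⟨y (og l), h⟩ : R) = 1 := Subtype.ext (hog l)
      rw [h2, map_one]
    rw [h1, mul_one]
  | succ m =>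
    by_cases hmB : m < B
    · exact hcoef l m hmB
    · have hz : ∀ l', (Y l').coeff (m + 1) = 0 := fun l' =>
        Polynomial.coeff_eq_zero_of_natDegree_lt (by have := hYB l'; omega)
      rw [hz, hz, mul_zero]

end Pool.Agent.Lib.MP_410da7_agV
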