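import Pool.Agent.Lib.MP_410da7_agV.SpecF
import Pool.Agent.Lib.MP_410da7_agA.F10

/-!
# MP_410da7_ag, version 3: FV10

Coefficients of the values of a bihomogeneous polynomial at the generic point.
-/

set_option autoImplicit false

namespace Pool.Agent.Lib.MP_410da7_agV

open MvPolynomial Module
open Pool.Agent.Lib.MP_410da7_agA (Curve ptDiv mx ext push FixedBy)

namespace fV10Aux

open Pool.Agent.Lib.MP_410da7_agA.f10Aux (CL)

variable {k Λ : Type} [Field k] [Field Λ] [Algebra k Λ]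

lemma CL_prod {C : Curve k Λ} {V ι : Type} (A : ι → C.pt → ℤ) (s : Finset ι) (e : ι → ℕ)
    (p : ι → MvPolynomial V Λ) (hp : ∀ i, CL C (A i) (p i)) :
    CL C (∑ i ∈ s, (e i : ℤ) • A i) (∏ i ∈ s, p i ^ e i) := by
  classical
  induction s using Finset.induction_on with
  | empty =>
    rw [Finset.prod_empty, Finset.sum_empty]
    exact Pool.Agent.Lib.MP_410da7_agA.f10Aux.CL.one
  | insert a s ha ih =>
    rw [Finset.prod_insert ha, Finset.sum_insert ha]
    exact ((hp a).pow _).mul ih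

lemma CL_hpt {C : Curve k Λ} {ι : Type} {D : ι → ℕ} {A : ι → C.pt → ℤ} {Y : ι → Λ}
    {ω : (l : ι) → Fin (D l) → Λ}
    (hY : ∀ l, Y l ∈ C.L (A l)) (hω : ∀ l j, ω l j ∈ C.L (A l)) (l : ι) :
    CL C (A l) (hpt Y ω l) := by
  classical
  intro m
  rw [hpt, coeff_add, coeff_sum]
  refine Submodule.add_mem _ ?_ (Submodule.sum_mem _ fun j _ => ?_)
  · rw [coeff_C]
    split_ifs
    · exact hY l
    · exact Submodule.zero_mem _
  · rw [coeff_C_mul, coeff_X]
    split_ifs
    · rw [mul_one]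
      exact hω l j
    · rw [mul_zero]
      exact Submodule.zero_mem _

lemma dv_sum {α ι : Type} [Fintype ι] (P Q : α → ℤ) (e : ι → ℕ) (w : ι → ℕ × ℕ) :
    dv P Q (∑ i, e i • w i) = ∑ i, (e i : ℤ) • dv P Q (w i) := by
  funext x
  rw [Finset.sum_apply]
  simp only [dv, Prod.fst_sum, Prod.snd_sum, Prod.smul_fst, Prod.smul_snd, smul_eq_mul,
    Nat.cast_sum, Nat.cast_mul, Pi.smul_apply, Finset.sum_mul, mul_add, Finset.sum_add_distrib,
    mul_assoc]

end fV10Aux

open fV10Aux in
theorem fV10 : FV10Stmt := by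
  intro k Λ _ _ _ C N r D P Q Y ω hY hω G d hG m
  rw [hval, aeval_def, eval₂_eq', coeff_sum]
  refine Submodule.sum_mem _ fun e he => ?_
  have hd : ∑ i, e i • wt i = d := by
    have h := hG (MvPolynomial.mem_support_iff.1 he)
    rw [Finsupp.weight_apply, Finsupp.sum_fintype _ _ (by intro i; exact zero_smul ℕ _)] at h
    exact h
  have h := CL_prod (C := C) (fun l => dv P Q (wt l)) Finset.univ (fun i => e i) (hpt Y ω)
    (fun i => CL_hpt (A := fun l => dv P Q (wt l)) hY hω i) m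
  rw [← dv_sum, hd] at h
  rw [← Algebra.smul_def, coeff_smul]
  exact Submodule.smul_mem _ _ h

end Pool.Agent.Lib.MP_410da7_agV
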