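import Pool.Agent.Lib.MP_410da7_agV.SpecF
import Pool.Agent.Lib.MP_410da7_agA.F11

/-!
# MP_410da7_ag, version 3: FV11

Coefficients of the values at the generic point, with fixed points.
-/

set_option autoImplicit false

namespace Pool.Agent.Lib.MP_410da7_agV

open MvPolynomial Module
open Pool.Agent.Lib.MP_410da7_agA (Curve ptDiv mx ext push FixedBy)

namespace fV11Aux

open Pool.Agent.Lib.MP_410da7_agA.f11Aux (O val)

variable {k Λ : Type} [Field k] [Field Λ] [Algebra k Λ]

/-- The value of `F(h)` at a point where the `ω_{l,j}` vanish. -/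
lemma val_hval (C : Curve k Λ) (w : C.pt) {ι : Type} {D : ι → ℕ} (Y : ι → Λ)
    (ω : (l : ι) → Fin (D l) → Λ)
    (hY : ∀ l, Y l ∈ O C w) (hω : ∀ l j, ω l j ∈ O C w)
    (hω0 : ∀ l j, (C.exp w (ω l j)).coeff 0 = 0)
    (F : MvPolynomial ι k) (hF : aeval Y F = 0) (m : Vr D →₀ ℕ) :
    (C.exp w (coeff m (hval Y ω F))).coeff 0 = 0 := by
  -- the generic point over `O`
  let h' : ι → MvPolynomial (Vr D) (O C w) := fun l =>
    MvPolynomial.C ⟨Y l, hY l⟩ + ∑ j, MvPolynomial.C ⟨ω l j, hω l j⟩ * X ⟨l, j⟩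
  have e1 : MvPolynomial.mapAlgHom (O C w).val (aeval h' F) = hval Y ω F := by
    rw [hval, comp_aeval_apply]
    congr 2
    ext1 l
    simp only [h', hpt, map_add, map_sum, map_mul, mapAlgHom_apply, MvPolynomial.map_C, MvPolynomial.map_X]
    rfl
  have e3 : aeval (fun l => (⟨Y l, hY l⟩ : O C w)) F = 0 := by
    apply Subtype.val_injective
    have := comp_aeval_apply (fun l => (⟨Y l, hY l⟩ : O C w)) (O C w).val F
    exact this.trans hF
  have e4 : aeval (fun l => val C w ⟨Y l, hY l⟩) F = 0 := by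
    rw [← comp_aeval_apply, e3, map_zero]
  have e2 : MvPolynomial.mapAlgHom (val C w) (aeval h' F) = 0 := by
    rw [comp_aeval_apply]
    have : (fun i => (mapAlgHom (val C w)) (h' i)) =
        fun l => (MvPolynomial.C (val C w ⟨Y l, hY l⟩) : MvPolynomial (Vr D) k) := by
      ext1 l
      have hz : ∀ j, val C w ⟨ω l j, hω l j⟩ = 0 := hω0 l
      simp only [h', map_add, map_sum, map_mul, mapAlgHom_apply, MvPolynomial.map_C, MvPolynomial.map_X]
      rw [Finset.sum_eq_zero, add_zero]
      · rfl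
      · intro j _
        have : ((val C w : O C w →ₐ[k] k) : O C w →+* k) ⟨ω l j, hω l j⟩ = 0 := hz j
        rw [this, map_zero, zero_mul]
    rw [this]
    have h5 := comp_aeval_apply (fun l => val C w ⟨Y l, hY l⟩)
      (Algebra.ofId k (MvPolynomial (Vr D) k)) F
    rw [e4, map_zero] at h5
    exact h5.symm
  have h1 : coeff m (hval Y ω F) = ((coeff m (aeval h' F) : O C w) : Λ) := by
    rw [← e1, mapAlgHom_apply, coeff_map]
    rfl
  rw [h1]
  have h2 : val C w (coeff m (aeval h' F)) = 0 := by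
    have := congrArg (coeff m) e2
    rw [mapAlgHom_apply, coeff_map, coeff_zero] at this
    exact this
  exact h2

end fV11Aux

open Pool.Agent.Lib.MP_410da7_agA.EvW fV11Aux in
theorem fV11 (hfv10 : FV10Stmt) : FV11Stmt := by
  intro k Λ _ _ _ C N r b D P Q c hc hP hQ hPc hQc Y ω hY hω F d hF hFY m
  have hω' : ∀ l j, ω l j ∈ C.L (dv P Q (wt l)) := fun l j => L_sub_le C _ c (hω l j)
  have h10 := hfv10 k Λ C N r D P Q Y ω hY hω' F d hF m
  have h0 : ∀ (x : ℕ × ℕ) (j₀ : Fin b), dv P Q x (c j₀) = 0 := by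
    intro x j₀
    rw [dv, hPc, hQc, mul_zero, mul_zero, add_zero]
  intro w i hi
  by_cases hw : ∀ j, c j ≠ w
  · apply h10 w i
    rw [Pi.sub_apply, ptDiv_of_ne hw, sub_zero] at hi
    exact hi
  · push Not at hw
    obtain ⟨j₀, rfl⟩ := hw
    rw [Pi.sub_apply, ptDiv_apply hc, h0] at hi
    by_cases hi0 : i < 0
    · apply h10 (c j₀) i
      rw [h0]
      omega
    · have : i = 0 := by omega
      subst this
      refine val_hval C (c j₀) Y ω ?_ ?_ ?_ F hFY m
      · intro l i' hi'
        apply hY l (c j₀) i'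
        rw [h0]
        omega
      · intro l j i' hi'
        apply hω' l j (c j₀) i'
        rw [h0]
        omega
      · intro l j
        apply hω l j (c j₀) 0
        rw [Pi.sub_apply, ptDiv_apply hc, h0]
        omega

end Pool.Agent.Lib.MP_410da7_agV
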