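import Pool.Agent.Lib.MP_410da7_agV.SpecF

set_option autoImplicit false

namespace Pool.Agent.Lib.MP_410da7_agV

open MvPolynomial Module
open Pool.Agent.Lib.MP_410da7_agA (Curve ptDiv mx ext push FixedBy)

namespace fV12Aux

theorem coeff_push {k Λ V : Type} [Field k] [Field Λ] [Algebra k Λ] (φ : Λ →ₗ[k] k)
    (p : MvPolynomial V Λ) (n : V →₀ ℕ) : coeff n (push φ p) = φ (coeff n p) := by
  classical
  unfold push
  rw [coeff_sum]
  simp only [coeff_monomial]
  rw [Finset.sum_ite_eq' p.support n (fun m => φ (coeff m p))]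
  split_ifs with h
  · rfl
  · rw [notMem_support_iff.1 h, map_zero]

theorem const_hval {k Λ : Type} [Field k] [Field Λ] [Algebra k Λ] {ι : Type} {D : ι → ℕ}
    (Y : ι → Λ) (ω : (l : ι) → Fin (D l) → Λ) (G : MvPolynomial ι k) :
    constantCoeff (hval Y ω G) = aeval Y G := by
  unfold hval
  have h : (constantCoeff : MvPolynomial (Vr D) Λ →+* Λ).comp
      ((aeval (hpt Y ω) : MvPolynomial ι k →ₐ[k] MvPolynomial (Vr D) Λ) :
        MvPolynomial ι k →+* MvPolynomial (Vr D) Λ) =
      ((aeval Y : MvPolynomial ι k →ₐ[k] Λ) : MvPolynomial ι k →+* Λ) := by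
    apply MvPolynomial.ringHom_ext
    · intro c
      simp
    · intro i
      simp [hpt]
  have h2 := congrArg (fun f => f G) h
  simpa using h2

end fV12Aux

open fV12Aux in
theorem fV12 (hfv10 : FV10Stmt) : FV12Stmt := by
  intro k Λ _ _ _ C N r μ D P Q Y ω hY hω a e ha w hv
  classical
  refine ⟨(fun i : ℤ => push (C.cf w i) (hval Y ω a)) ''
    (Finset.Ico (-(dv P Q e w)) (-(dv P Q e w) + μ) : Finset ℤ), ?_, ?_, ?_, ?_⟩
  · exact (Finset.finite_toSet _).image _
  · refine (Set.ncard_image_le (Finset.finite_toSet _)).trans ?_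
    rw [Set.ncard_coe_finset, Int.card_Ico]
    simp
  · rintro _ ⟨i, hi, rfl⟩
    have hi' := Finset.mem_Ico.1 (Finset.mem_coe.1 hi)
    show _ ∈ RingHom.ker _
    rw [RingHom.mem_ker]
    show coeff 0 _ = 0
    rw [coeff_push]
    have : coeff 0 (hval Y ω a) = aeval Y a := const_hval Y ω a
    rw [this]
    exact hv i (by linarith [hi'.2])
  · intro P' hP' i hi
    by_cases h : -(dv P Q e w) ≤ i
    · exact hP' ⟨i, by
        rw [Finset.mem_coe, Finset.mem_Ico]
        exact ⟨h, by linarith⟩, rfl⟩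
    · have : push (C.cf w i) (hval Y ω a) = 0 := by
        ext n
        rw [coeff_push, coeff_zero]
        have h10 := hfv10 k Λ C N r D P Q Y ω hY hω a e ha n w i (by omega)
        exact h10
      rw [this]
      exact P'.zero_mem

end Pool.Agent.Lib.MP_410da7_agV
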