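import Pool.Agent.Lib.MP_410da7_agV.SpecF
import Pool.Agent.Lib.MP_410da7_agA.F2
import Pool.Agent.Lib.MP_410da7_agA.F5
import Pool.Agent.Lib.MP_410da7_agA.F6
import Pool.Agent.Lib.MP_410da7_agA.EvW

/-!
# MP_410da7_ag, version 3: FV14

The family (the end of block F), for bihomogeneous coordinates.
-/

set_option autoImplicit false

namespace Pool.Agent.Lib.MP_410da7_agV

open MvPolynomial Module
open Pool.Agent.Lib.MP_410da7_agA (Curve ptDiv mx ext push FixedBy f2 f5 f6)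
open Pool.Agent.Lib.MP_410da7_agA.EvW (ptDiv_nonneg L_sub_le L_mono)

namespace fV14Aux

variable {k Λ : Type} [Field k] [Field Λ] [Algebra k Λ]

lemma constantCoeff_hpt {ι : Type} {D : ι → ℕ} (Y : ι → Λ) (ω : (l : ι) → Fin (D l) → Λ) (l : ι) :
    constantCoeff (hpt Y ω l) = Y l := by
  simp [hpt]

lemma constantCoeff_hval {ι : Type} {D : ι → ℕ} (Y : ι → Λ) (ω : (l : ι) → Fin (D l) → Λ)
    (G : MvPolynomial ι k) : constantCoeff (hval Y ω G) = aeval Y G := by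
  rw [hval, map_aeval, aeval_def, coe_eval₂Hom]
  congr 1
  · ext x
    exact constantCoeff_C (R := Λ) _ _
  · ext l
    exact constantCoeff_hpt Y ω l

lemma aeval_mem (hf10 : FV10Stmt) (C : Curve k Λ) {N r : ℕ} {P Q : C.pt → ℤ}
    {Y : Ix N r → Λ} (hY : ∀ l, Y l ∈ C.L (dv P Q (wt l)))
    {G : MvPolynomial (Ix N r) k} {d : ℕ × ℕ} (hG : BiHom G d) :
    aeval Y G ∈ C.L (dv P Q d) := by
  have h := hf10 k Λ C N r (fun _ => 0) P Q Y (fun _ i => i.elim0) hY (fun _ i => i.elim0) G d hG 0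
  rwa [← constantCoeff_eq, constantCoeff_hval] at h

lemma pderiv_zero {N r : ℕ} {G : MvPolynomial (Ix N r) k} {d : ℕ × ℕ} (hG : BiHom G d)
    (i : Ix N r) (hi : ¬ wt i ≤ d) : pderiv i G = 0 := by
  classical
  refine pderiv_eq_zero_of_notMem_vars fun h => hi ?_
  obtain ⟨m, hm, hmi⟩ := (mem_vars_iff_mem_support i).1 h
  have h1 := hG (mem_support_iff.1 hm)
  have h2 : wt i ≤ Finsupp.weight (wt (N := N) (r := r)) m :=
    Finsupp.le_weight_of_ne_zero' (wt (N := N) (r := r)) (Finsupp.mem_support_iff.1 hmi)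
  rwa [h1] at h2

/-- The entries of the Jacobian matrix. -/
lemma jac_mem (hf10 : FV10Stmt) (C : Curve k Λ) {N r κ ρ : ℕ} {d : ℕ × ℕ}
    (S : System k N r κ ρ d) {P Q : C.pt → ℤ} {Y : Ix N r → Λ}
    (hY : ∀ l, Y l ∈ C.L (dv P Q (wt l))) (j : Fin κ) (l : Fin ρ) :
    jac S.F S.I₀ Y j l ∈ C.L (dv P Q d - dv P Q (wt (S.I₀ l))) := by
  unfold jac
  by_cases h : wt (S.I₀ l) ≤ d
  · have h1 : (d - wt (S.I₀ l)) + wt (S.I₀ l) = d := tsub_add_cancel_of_le h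
    have h2 := aeval_mem hf10 C hY ((S.hom j).pderiv (i := S.I₀ l) h1)
    have h3 : dv P Q (d - wt (S.I₀ l)) = dv P Q d - dv P Q (wt (S.I₀ l)) := by
      funext w
      have e1 := congrArg (fun x : ℕ × ℕ => ((x.1 : ℕ) : ℤ)) h1
      have e2 := congrArg (fun x : ℕ × ℕ => ((x.2 : ℕ) : ℤ)) h1
      simp only [Prod.fst_add, Prod.snd_add, Nat.cast_add] at e1 e2
      simp only [dv, Pi.sub_apply]
      rw [← e1, ← e2]
      ring
    rwa [h3] at h2
  · rw [pderiv_zero (S.hom j) _ h, map_zero]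
    exact Submodule.zero_mem _

/-- The columns of the Jacobian matrix satisfy the relations. -/
lemma jac_rel {N r κ ρ : ℕ} {d : ℕ × ℕ} (S : System k N r κ ρ d) {Y : Ix N r → Λ}
    (hY : ∀ j, aeval Y (S.F j) = 0) (j : Fin κ) (l : Fin ρ) :
    aeval Y S.g * jac S.F S.I₀ Y j l = ∑ i, aeval Y (S.A j i) * jac S.F S.I₀ Y (S.J₀ i) l := by
  have h := congrArg (fun q => aeval Y (pderiv (S.I₀ l) q)) (S.rel j)
  simp only [Derivation.leibniz, map_sum, map_add, smul_eq_mul, map_mul, hY, zero_mul,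
    add_zero] at h
  exact h

lemma fd {C : Curve k Λ} {P Q : C.pt → ℤ} (hP : {w | P w ≠ 0}.Finite) (hQ : {w | Q w ≠ 0}.Finite)
    {b : ℕ} (c : Fin b → C.pt) (hb : 0 < b) (d : ℕ × ℕ) :
    FiniteDimensional k (C.L (dv P Q d - ptDiv c)) := by
  refine f2 k Λ C (c ⟨0, hb⟩) _ ((hP.union hQ).subset fun w hw => ?_)
  have hw' : 0 < (d.1 : ℤ) * P w + d.2 * Q w - ptDiv c w := hw
  have := ptDiv_nonneg c w
  by_contra h0
  have h1 : P w = 0 := by
    by_contra h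
    exact h0 (Or.inl h)
  have h2 : Q w = 0 := by
    by_contra h
    exact h0 (Or.inr h)
  rw [h1, h2, mul_zero, mul_zero] at hw'
  omega

end fV14Aux

open fV14Aux in
theorem fV14 (hfv7 : FV7Stmt) (hfv9 : FV9Stmt) (hfv10 : FV10Stmt) (hfv11 : FV11Stmt)
    (hfv12 : FV12Stmt) (hfv13 : FV13Stmt) : FV14Stmt := by
  classical
  intro k Λ _ _ _ C N r κ ρ b d S Y P Q ℓ μ c₀ hD c hc hb hPc hQc D ω hω hωspan hcount
  have hωL : ∀ l j, ω l j ∈ C.L (dv P Q (wt l) - ptDiv c) := fun l j => by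
    rw [← hωspan]
    exact Submodule.subset_span ⟨j, rfl⟩
  have hωP : ∀ l j, ω l j ∈ C.L (dv P Q (wt l)) := fun l j => L_sub_le C _ c (hωL l j)
  have hfinD : ∀ l, finrank k (C.L (dv P Q (wt l) - ptDiv c)) = D l := fun l => by
    rw [← hωspan, finrank_span_eq_card (hω l), Fintype.card_fin]
  -- finite dimension
  have hfd1 : ∀ l : Ix N r, FiniteDimensional k (C.L (dv P Q (wt l) - ptDiv c)) := fun l =>
    fd hD.Pfin hD.Qfin c hb _
  have hfd2 : FiniteDimensional k (C.L (dv P Q d - ptDiv c)) := fd hD.Pfin hD.Qfin c hb _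
  -- the space of equations
  let T : Submodule k (Fin κ → Λ) :=
    { carrier := {u | (∀ j, u j ∈ C.L (dv P Q d - ptDiv c)) ∧
        ∀ j, aeval Y S.g * u j = ∑ i, aeval Y (S.A j i) * u (S.J₀ i)}
      add_mem' := by
        rintro u v ⟨hu1, hu2⟩ ⟨hv1, hv2⟩
        refine ⟨fun j => Submodule.add_mem _ (hu1 j) (hv1 j), fun j => ?_⟩
        simp only [Pi.add_apply, mul_add, Finset.sum_add_distrib, hu2, hv2]
      zero_mem' := by
        refine ⟨fun j => Submodule.zero_mem _, fun j => ?_⟩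
        simp
      smul_mem' := by
        rintro a u ⟨hu1, hu2⟩
        refine ⟨fun j => Submodule.smul_mem _ _ (hu1 j), fun j => ?_⟩
        simp only [Pi.smul_apply, mul_smul_comm, hu2, Finset.smul_sum] }
  have hT : ∀ u, u ∈ T ↔ (∀ j, u j ∈ C.L (dv P Q d - ptDiv c)) ∧
      ∀ j, aeval Y S.g * u j = ∑ i, aeval Y (S.A j i) * u (S.J₀ i) := fun u => Iff.rfl
  obtain ⟨J, G, hJ1, hJ2, hG1, hG2, hG3, hJ3⟩ := f6 k Λ (Vr D) κ ρ
    (C.L (dv P Q d - ptDiv c)) hfd2 (fun j => hval Y ω (S.F j))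
    (fun j m => hfv11 k Λ C N r b D P Q c hc hD.P0 hD.Q0 hPc hQc Y ω hD.YP hωL (S.F j) d (S.hom j)
      (hD.YF j) m)
    (fun j => by rw [constantCoeff_hval, hD.YF j])
    (aeval Y S.g) (fun j i => aeval Y (S.A j i)) S.J₀
    (fun J hJ => hfv7 k Λ N r κ ρ D S.F S.J₀ S.g S.A S.rel Y ω J hJ) T hT
  have hTdim := hfv9 k Λ C κ ρ (jac S.F S.I₀ Y) (fun l => dv P Q (wt (S.I₀ l)) - ptDiv c)
    (dv P Q d - ptDiv c) ℓ
    (fun j l => by
      have h : (dv P Q d - ptDiv c) - (dv P Q (wt (S.I₀ l)) - ptDiv c) =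
          dv P Q d - dv P Q (wt (S.I₀ l)) := by abel
      rw [h]
      exact jac_mem hfv10 C S hD.YP j l)
    (fun l => hfd1 _) hD.ℓfin
    (fun w => by
      obtain ⟨J, h1, h2⟩ := hD.hℓ w
      refine ⟨J, h1, ?_⟩
      have h3 : (ρ : ℤ) * (dv P Q d - ptDiv c) w -
          ∑ l, (dv P Q (wt (S.I₀ l)) - ptDiv c) w =
          ρ * dv P Q d w - ∑ i, dv P Q (wt (S.I₀ i)) w := by
        simp only [Pi.sub_apply, Finset.sum_sub_distrib, Finset.sum_const, Finset.card_univ,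
          Fintype.card_fin, nsmul_eq_mul]
        ring
      have h4 : C.ord w (minor S.F S.I₀ Y J) + ρ * dv P Q d w - ∑ i, dv P Q (wt (S.I₀ i)) w =
          C.ord w (minor S.F S.I₀ Y J) + (ρ * dv P Q d w - ∑ i, dv P Q (wt (S.I₀ i)) w) := by ring
      rw [h4, ← h3, ← add_sub_assoc] at h2
      exact h2)
    (aeval Y S.g) (fun j i => aeval Y (S.A j i)) S.J₀ hD.gY hD.mY (jac_rel S hD.YF) T hT
  simp only [hfinD] at hTdim
  -- the conditions at infinity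
  have hW : ∀ w, ∃ Gw : Finset (MvPolynomial (Vr D) k),
      Gw.card ≤ (μ w).toNat ∧ (∀ q ∈ Gw, q ∈ mx (Vr D) k) ∧
      ∀ P' : Ideal (MvPolynomial (Vr D) k), (∀ q ∈ Gw, q ∈ P') → 0 < P w →
        ∃ (T : LogRel S.F) (μ' : Fin T.s → ℕ), aeval Y T.χ ≠ 0 ∧
          C.ord w (aeval Y T.χ) = - dv P Q T.e₁ w ∧ P w ≤ ∑ i, (T.lam i : ℤ) * μ' i ∧
          ∀ i, ∀ j < (μ' i : ℤ) - dv P Q (T.e i) w, push (C.cf w j) (hval Y ω (T.a i)) ∈ P' := by
    intro w
    by_cases hw : 0 < P w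
    · obtain ⟨T, μ', hsum, h1, h2, h3, h4⟩ := hD.log w hw
      have hG' : ∀ i : Fin T.s, ∃ G' : Finset (MvPolynomial (Vr D) k),
          G'.card ≤ μ' i ∧ (∀ q ∈ G', q ∈ mx (Vr D) k) ∧
          ∀ P' : Ideal (MvPolynomial (Vr D) k), (∀ q ∈ G', q ∈ P') →
            ∀ j < (μ' i : ℤ) - dv P Q (T.e i) w, push (C.cf w j) (hval Y ω (T.a i)) ∈ P' := by
        intro i
        obtain ⟨G', g1, g2, g3, g4⟩ := hfv12 k Λ C N r (μ' i) D P Q Y ω hD.YP hωP (T.a i)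
          (T.e i) (T.ha i) w (h3 i)
        refine ⟨g1.toFinset, ?_, ?_, ?_⟩
        · rw [← Set.ncard_eq_toFinset_card G' g1]
          exact g2
        · intro q hq
          exact g3 (g1.mem_toFinset.1 hq)
        · intro P' hP' j hj
          exact g4 P' (fun q hq => hP' q (g1.mem_toFinset.2 hq)) j hj
      choose Gi gi1 gi2 gi3 using hG'
      refine ⟨Finset.univ.biUnion Gi, ?_, ?_, ?_⟩
      · have h5 : (Finset.univ.biUnion Gi).card ≤ ∑ i, μ' i :=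
          Finset.card_biUnion_le.trans (Finset.sum_le_sum fun i _ => gi1 i)
        have h6 : ((∑ i, μ' i : ℕ) : ℤ) ≤ μ w := by
          rw [Nat.cast_sum]
          exact hsum
        omega
      · intro q hq
        obtain ⟨i, _, hi⟩ := Finset.mem_biUnion.1 hq
        exact gi2 i q hi
      · intro P' hP' _
        exact ⟨T, μ', h1, h2, h4, fun i => gi3 i P' fun q hq =>
          hP' q (Finset.mem_biUnion.2 ⟨i, Finset.mem_univ i, hq⟩)⟩
    · refine ⟨∅, by simp, by simp, fun P' _ h => absurd h hw⟩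
  choose Gw hGw1 hGw2 hGw3 using hW
  let GG : Finset (MvPolynomial (Vr D) k) :=
    hG1.toFinset ∪ hD.Pfin.toFinset.biUnion Gw
  have hμsum : ∑ᶠ w, μ w = ∑ w ∈ hD.Pfin.toFinset, μ w := by
    refine finsum_eq_sum_of_support_subset _ fun w hw => ?_
    rw [Finset.mem_coe, Set.Finite.mem_toFinset]
    exact fun h => hw (hD.μP w h)
  have hGGcard : (GG.card : ℤ) ≤ ∑ i, (D (S.I₀ i) : ℤ) + ∑ᶠ w, ℓ w + ∑ᶠ w, μ w := by
    have h1 : GG.card ≤ G.ncard + ∑ w ∈ hD.Pfin.toFinset, (μ w).toNat := by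
      refine (Finset.card_union_le _ _).trans (add_le_add ?_ ?_)
      · rw [← Set.ncard_eq_toFinset_card G hG1]
      · exact Finset.card_biUnion_le.trans (Finset.sum_le_sum fun w _ => hGw1 w)
    have h2 : (((∑ w ∈ hD.Pfin.toFinset, (μ w).toNat : ℕ)) : ℤ) = ∑ᶠ w, μ w := by
      rw [hμsum, Nat.cast_sum]
      exact Finset.sum_congr rfl fun w _ => Int.toNat_of_nonneg (hD.μ0 w)
    have h3 : (G.ncard : ℤ) ≤ ∑ i, (D (S.I₀ i) : ℤ) + ∑ᶠ w, ℓ w :=
      le_trans (by exact_mod_cast hG3) hTdim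
    have h4 : (GG.card : ℤ) ≤ G.ncard + ((∑ w ∈ hD.Pfin.toFinset, (μ w).toNat : ℕ) : ℤ) := by
      exact_mod_cast h1
    linarith
  have hGGmx : (GG : Set (MvPolynomial (Vr D) k)) ⊆ mx (Vr D) k := by
    intro q hq
    rw [Finset.mem_coe, Finset.mem_union, Set.Finite.mem_toFinset, Finset.mem_biUnion] at hq
    rcases hq with hq | ⟨w, _, hq⟩
    · exact hG2 hq
    · exact hGw2 w q hq
  obtain ⟨𝔓, p1, p2, p3, p4, p5⟩ := f5 k (Vr D) J
    (GG : Set (MvPolynomial (Vr D) k)) GG.finite_toSet hJ2 hGGmx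
    (by
      rw [Set.ncard_coe_finset, Fintype.card_sigma]
      simp only [Fintype.card_fin]
      have h2 : (GG.card : ℤ) < ∑ l, (D l : ℤ) := by linarith
      exact_mod_cast h2)
    (hJ3.trans (sup_le_sup_right (Ideal.span_mono (fun q hq => by
      rw [Finset.mem_coe, Finset.mem_union, Set.Finite.mem_toFinset]
      exact Or.inl hq)) _))
  refine ⟨𝔓, p1, p2, p3, fun j => Ideal.map_mono p4 (hJ1 j), ?_⟩
  refine hfv13 k Λ C N r κ ρ b d S Y P Q ℓ μ c₀ hD c hc hb hPc hQc D ω hω hωL 𝔓 p1 p2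
    (fun j => Ideal.map_mono p4 (hJ1 j)) fun w hw => ?_
  refine hGw3 w 𝔓 (fun q hq => p5 ?_) hw
  rw [Finset.mem_coe, Finset.mem_union, Finset.mem_biUnion]
  exact Or.inr ⟨w, by
    rw [Set.Finite.mem_toFinset]
    exact (ne_of_gt hw), hq⟩

end Pool.Agent.Lib.MP_410da7_agV
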