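import Pool.Agent.Lib.MP_410da7_agV.SpecF
import Pool.Agent.Lib.MP_410da7_agA.FG15

/-!
# MP_410da7_ag (C46), version 3: FV15, the Frobenius twist of the data
-/

set_option autoImplicit false

namespace Pool.Agent.Lib.MP_410da7_agV

open MvPolynomial Module
open Pool.Agent.Lib.MP_410da7_agA (Curve ptDiv mx ext push FixedBy)
open Pool.Agent.Lib.MP_410da7_agA.fG15Aux (fixedBy_pow aeval_pow fixedBy_pderiv ord_pow coeff_pow)

namespace fV15Aux

theorem minor_pow {k Λ ι : Type} [Field k] [Field Λ] [Algebra k Λ] (p : ℕ) [Fact p.Prime]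
    [CharP k p] (n : ℕ) {κ r : ℕ} {F : Fin κ → MvPolynomial ι k}
    (hF : ∀ j, FixedBy (p ^ n) (F j)) (I : Fin r → ι) (y : ι → Λ) (J : Fin r → Fin κ) :
    minor F I (fun l => y l ^ p ^ n) J = (minor F I y J) ^ p ^ n := by
  haveI : CharP Λ p := charP_of_injective_algebraMap (algebraMap k Λ).injective p
  have h1 : (minor F I y J) ^ p ^ n = iterateFrobenius Λ p n (minor F I y J) := by
    rw [iterateFrobenius_def]
  rw [h1]
  unfold minor
  rw [RingHom.map_det]
  congr 1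
  ext i l
  rw [RingHom.mapMatrix_apply, Matrix.map_apply, Matrix.of_apply, Matrix.of_apply,
    iterateFrobenius_def]
  exact aeval_pow p n (fixedBy_pderiv p n (hF (J i)) (I l)) y

theorem dv_smul {α : Type} (P Q : α → ℤ) (q : ℤ) (e : ℕ × ℕ) (w : α) :
    dv (q • P) (q • Q) e w = q * dv P Q e w := by
  simp only [dv, Pi.smul_apply, smul_eq_mul]
  ring

end fV15Aux

open fV15Aux in
theorem fV15 : FV15Stmt := by
  intro k Λ _ _ _ p e₀ _ _ C N r κ ρ d S y P Q ℓ μ c₀ m he hF hg hD hT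
  have hp : (p ^ e₀) ^ m = p ^ (e₀ * m) := by rw [pow_mul]
  have hfix : ∀ G : MvPolynomial (Ix N r) k, FixedBy (p ^ e₀) G →
      FixedBy (p ^ (e₀ * m)) G := fun G h => by
    rw [← hp]; exact fixedBy_pow _ m h
  have hcast : ((p : ℤ) ^ e₀) ^ m = ((p ^ (e₀ * m) : ℕ) : ℤ) := by
    rw [← hp]; push_cast; rfl
  have hq0 : p ^ (e₀ * m) ≠ 0 := pow_ne_zero _ (Fact.out : p.Prime).ne_zero
  have hgen : ∀ G : MvPolynomial (Ix N r) k, FixedBy (p ^ e₀) G →
      aeval (fun l => y l ^ p ^ (e₀ * m)) G = (aeval y G) ^ p ^ (e₀ * m) := fun G h =>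
    aeval_pow (Λ := Λ) p (e₀ * m) (hfix G h) y
  have hmin : ∀ J : Fin ρ → Fin κ, minor S.F S.I₀ (fun l => y l ^ p ^ (e₀ * m)) J
      = (minor S.F S.I₀ y J) ^ p ^ (e₀ * m) := fun J =>
    minor_pow (Λ := Λ) p (e₀ * m) (fun j => hfix _ (hF j)) S.I₀ y J
  rw [hcast, hp]
  clear hp hfix hcast
  generalize p ^ (e₀ * m) = q at hq0 hgen hmin ⊢
  have hqpos : (0 : ℤ) < q := by exact_mod_cast Nat.pos_of_ne_zero hq0
  have hsm : ∀ (D : C.pt → ℤ) (w : C.pt), ((q : ℤ) • D) w = q * D w := fun D w => by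
    rw [Pi.smul_apply, smul_eq_mul]
  have hpos : ∀ (D : C.pt → ℤ) (w : C.pt), 0 < ((q : ℤ) • D) w → 0 < D w := fun D w h => by
    rw [hsm] at h
    exact (mul_pos_iff_of_pos_left hqpos).1 h
  have hfin : ∀ (D : C.pt → ℤ), {w | D w ≠ 0}.Finite → {w | ((q : ℤ) • D) w ≠ 0}.Finite := by
    intro D h
    refine h.subset fun w hw => ?_
    have hw' : ((q : ℤ) • D) w ≠ 0 := hw
    rw [hsm] at hw'
    exact right_ne_zero_of_mul hw'
  refine
    { Yx := by
        show y _ ^ q = 1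
        rw [hD.Yx, one_pow]
      Yf := by
        show y _ ^ q = 1
        rw [hD.Yf, one_pow]
      YF := fun j => by rw [hgen _ (hF j), hD.YF j, zero_pow hq0]
      gY := by rw [hgen _ hg]; exact pow_ne_zero _ hD.gY
      mY := by rw [hmin]; exact pow_ne_zero _ hD.mY
      P0 := fun w => by rw [hsm]; exact mul_nonneg hqpos.le (hD.P0 w)
      Q0 := fun w => by rw [hsm]; exact mul_nonneg hqpos.le (hD.Q0 w)
      Pfin := hfin P hD.Pfin
      Qfin := hfin Q hD.Qfin
      YP := ?_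
      Yc := ?_
      ℓfin := hfin ℓ hD.ℓfin
      hℓ := ?_
      μ0 := fun w => by rw [hsm]; exact mul_nonneg hqpos.le (hD.μ0 w)
      μP := ?_
      log := ?_ }
  · intro l w i hi
    rw [dv_smul] at hi
    rw [map_pow]
    refine coeff_pow _ (- dv P Q (wt l) w) q hq0 (fun j hj => hD.YP l w j hj) i ?_
    linarith
  · intro w hw
    obtain ⟨h1, h2⟩ := hD.Yc w (hpos Q w hw)
    refine ⟨pow_ne_zero _ h1, ?_⟩
    rw [ord_pow, h2, hsm]
    ring
  · intro w
    obtain ⟨J, h1, h2⟩ := hD.hℓ w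
    refine ⟨J, ?_, ?_⟩
    · rw [hmin]; exact pow_ne_zero _ h1
    · rw [hmin, ord_pow, hsm, dv_smul]
      simp only [dv_smul]
      rw [← Finset.mul_sum]
      have h3 := mul_le_mul_of_nonneg_left h2 hqpos.le
      linarith
  · intro w hw
    rw [hsm] at hw ⊢
    rw [hD.μP w ((mul_eq_zero.1 hw).resolve_left hqpos.ne'), mul_zero]
  · intro w hw
    obtain ⟨T, μ', ha, hχ, h0, h1, h2, h3, h4⟩ := hT w (hpos P w hw)
    refine ⟨T, fun i => q * μ' i, ?_, ?_, ?_, ?_, ?_⟩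
    · rw [hsm]
      have h5 := mul_le_mul_of_nonneg_left h0 hqpos.le
      rw [Finset.mul_sum] at h5
      calc ∑ i, ((q * μ' i : ℕ) : ℤ) = ∑ i, (q : ℤ) * μ' i :=
            Finset.sum_congr rfl fun i _ => by push_cast; ring
        _ ≤ _ := h5
    · rw [hgen _ hχ]; exact pow_ne_zero _ h1
    · rw [hgen _ hχ, ord_pow, h2, dv_smul]
      ring
    · intro i j hj
      rw [hgen _ (ha i)]
      show (C.exp w (aeval y (T.a i) ^ q)).coeff j = 0
      rw [map_pow]
      refine coeff_pow _ ((μ' i : ℤ) - dv P Q (T.e i) w) q hq0 (fun j hj => h3 i j hj) j ?_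
      rw [dv_smul] at hj
      push_cast at hj
      linarith
    · rw [hsm]
      have h5 := mul_le_mul_of_nonneg_left h4 hqpos.le
      rw [Finset.mul_sum] at h5
      calc (q : ℤ) * P w ≤ _ := h5
        _ = _ := Finset.sum_congr rfl fun i _ => by push_cast; ring

end Pool.Agent.Lib.MP_410da7_agV
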