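import Pool.Agent.Lib.MP_410da7_agV.SpecF
import Pool.Agent.Lib.MP_410da7_agA.EvW
import Pool.Agent.Lib.MP_410da7_agA.F2
import Pool.Agent.Lib.MP_410da7_agA.F4
import Pool.Agent.Lib.MP_410da7_agA.FG16

/-!
# MP_410da7_ag, version 3, FV16: the theorem in characteristic `p` (end of the blocks F and G)
-/

set_option autoImplicit false

namespace Pool.Agent.Lib.MP_410da7_agV

open MvPolynomial Module
open Pool.Agent.Lib.MP_410da7_agA (Curve ptDiv mx ext push FixedBy)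

namespace fV16Aux

open Pool.Agent.Lib.MP_410da7_agA.EvW (mapL mapL_C ev ev_C ev_X)

variable {k Λ : Type} [Field k] [Field Λ] [Algebra k Λ] {Ω : Type} [Field Ω] [Algebra k Ω]

/-! ### The divisors -/

lemma dv_x {α : Type} (P Q : α → ℤ) : dv P Q (1, 0) = P := by
  funext w
  simp [dv]

lemma dv_f {α : Type} (P Q : α → ℤ) : dv P Q (0, 1) = Q := by
  funext w
  simp [dv]

lemma dv_smul {α : Type} (P Q : α → ℤ) (q : ℤ) (e : ℕ × ℕ) (w : α) :
    dv (q • P) (q • Q) e w = q * dv P Q e w := by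
  simp only [dv, Pi.smul_apply, smul_eq_mul]
  ring

/-! ### The expansions of the family -/

section

variable {ι : Type} {D : ι → ℕ}

lemma ev_hval (C : Curve k Λ) (w : C.pt) (s : Vr D → Ω) (Y : ι → Λ)
    (ω : (l : ι) → Fin (D l) → Λ) (G : MvPolynomial ι k) :
    ev C w s (hval Y ω G) = eval₂ ((HahnSeries.C : Ω →+* LaurentSeries Ω).comp (algebraMap k Ω))
      (fun l => ev C w s (hpt Y ω l)) G := by
  rw [hval, map_aeval, coe_eval₂Hom]
  congr 1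
  ext x i
  have : (algebraMap k (MvPolynomial (Vr D) Λ)) x = MvPolynomial.C (algebraMap k Λ x) := rfl
  rw [RingHom.comp_apply, this, ev_C, C.exp_alg, mapL_C]
  rfl

lemma ev_hpt_coeff (C : Curve k Λ) (w : C.pt) (s : Vr D → Ω) (Y : ι → Λ)
    (ω : (l : ι) → Fin (D l) → Λ) (l : ι) (i : ℤ) :
    (ev C w s (hpt Y ω l)).coeff i =
      algebraMap k Ω (C.cf w i (Y l)) + ∑ j, s ⟨l, j⟩ * algebraMap k Ω (C.cf w i (ω l j)) := by
  rw [hpt, map_add, map_sum, HahnSeries.coeff_add, HahnSeries.coeff_sum, ev_C]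
  congr 1
  refine Finset.sum_congr rfl fun j _ => ?_
  rw [map_mul, ev_C, ev_X, mul_comm, HahnSeries.C_mul_eq_smul, HahnSeries.coeff_smul, smul_eq_mul]
  rfl

lemma hser_coeff (C : Curve k Λ) (w : C.pt) (s : Vr D → Ω) (Y : ι → Λ)
    (ω : (l : ι) → Fin (D l) → Λ) (l : ι) (m : ℕ) :
    PowerSeries.coeff m (hser C w Y ω s l) =
      algebraMap k Ω (C.cf w m (Y l)) + ∑ j, s ⟨l, j⟩ * algebraMap k Ω (C.cf w m (ω l j)) := by
  rw [hser, PowerSeries.coeff_mk]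

lemma ofPowerSeries_hser (C : Curve k Λ) (w : C.pt) (s : Vr D → Ω)
    (Y : ι → Λ) (ω : (l : ι) → Fin (D l) → Λ) (l : ι)
    (hY : ∀ i < 0, C.cf w i (Y l) = 0) (hω : ∀ j, ∀ i < 0, C.cf w i (ω l j) = 0) :
    HahnSeries.ofPowerSeries ℤ Ω (hser C w Y ω s l) = ev C w s (hpt Y ω l) := by
  ext i
  rcases lt_or_ge i 0 with hi | hi
  · rw [ev_hpt_coeff, hY i hi, map_zero, zero_add]
    rw [Finset.sum_eq_zero fun j _ => by rw [hω j i hi, map_zero, mul_zero]]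
    rw [HahnSeries.ofPowerSeries_apply]
    apply HahnSeries.embDomain_of_notMem_range
    rintro ⟨n, hn⟩
    have : ((n : ℕ) : ℤ) = i := by simpa using hn
    omega
  · obtain ⟨n, rfl⟩ := Int.eq_ofNat_of_zero_le hi
    refine (HahnSeries.ofPowerSeries_apply_coeff (Γ := ℤ) (hser C w Y ω s l) n).trans ?_
    rw [hser_coeff, ev_hpt_coeff]

/-- The equations. -/
lemma aeval_hser (C : Curve k Λ) (w : C.pt) (s : Vr D → Ω)
    (Y : ι → Λ) (ω : (l : ι) → Fin (D l) → Λ)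
    (hY : ∀ l, ∀ i < 0, C.cf w i (Y l) = 0) (hω : ∀ l j, ∀ i < 0, C.cf w i (ω l j) = 0)
    (F : MvPolynomial ι k) (hF : ev C w s (hval Y ω F) = 0) :
    aeval (hser C w Y ω s) F = 0 := by
  apply HahnSeries.ofPowerSeries_injective (Γ := ℤ)
  rw [map_zero, aeval_def, MvPolynomial.eval₂_comp_left, ← hF, ev_hval]
  congr 1
  · ext x : 1
    simp only [RingHom.comp_apply, PowerSeries.algebraMap_apply, HahnSeries.ofPowerSeries_C]
  · ext l : 1
    exact ofPowerSeries_hser C w s Y ω l (hY l) (hω l)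

end

/-! ### The growth in a group of coordinates -/

/-- The direction of fastest growth in a group of coordinates. -/
lemma direction (𝒱 : ValuationSubring Ω) {ι : Type} [Fintype ι] [Nonempty ι] {D : ι → ℕ}
    (s : (l : ι) → Fin (D l) → Ω) :
    ∃ (l₀ : ι) (ρ : Fin (D l₀) → IsLocalRing.ResidueField 𝒱),
      (∀ l j, s l j ∈ 𝒱) ∨ (ρ ≠ 0 ∧ ∃ (θ : Ω) (h : ∀ j, s l₀ j / θ ∈ 𝒱),
        1 < 𝒱.valuation θ ∧ (∀ l j, 𝒱.valuation (s l j) ≤ 𝒱.valuation θ) ∧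
        ∀ j, ρ j = IsLocalRing.residue 𝒱 ⟨_, h j⟩) := by
  by_cases hall : ∀ l j, s l j ∈ 𝒱
  · exact ⟨Classical.arbitrary ι, 0, Or.inl hall⟩
  push Not at hall
  obtain ⟨l₁, j₁, h₁⟩ := hall
  have : Nonempty (Σ l, Fin (D l)) := ⟨⟨l₁, j₁⟩⟩
  obtain ⟨⟨l₀, j₀⟩, hmax⟩ := Finite.exists_max
    (fun v : Σ l, Fin (D l) => 𝒱.valuation (s v.1 v.2))
  have hθ : 1 < 𝒱.valuation (s l₀ j₀) := by
    have h2 : ¬ 𝒱.valuation (s l₁ j₁) ≤ 1 := fun h => h₁ ((𝒱.valuation_le_one_iff _).1 h)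
    exact lt_of_lt_of_le (not_le.1 h2) (hmax ⟨l₁, j₁⟩)
  have hθ0 : s l₀ j₀ ≠ 0 := by
    intro h
    rw [h, map_zero] at hθ
    exact not_lt_zero hθ
  have hmem : ∀ j, s l₀ j / s l₀ j₀ ∈ 𝒱 := by
    intro j
    rw [← 𝒱.valuation_le_one_iff, map_div₀]
    exact div_le_one_of_le₀ (hmax ⟨l₀, j⟩) zero_le
  refine ⟨l₀, fun j => IsLocalRing.residue 𝒱 ⟨_, hmem j⟩, Or.inr ⟨?_, s l₀ j₀, hmem, hθ,
    fun l j => hmax ⟨l, j⟩, fun _ => rfl⟩⟩
  intro h
  have h1 := congrFun h j₀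
  have h2 : (⟨_, hmem j₀⟩ : 𝒱) = 1 := Subtype.ext (div_self hθ0)
  simp only [Pi.zero_apply] at h1
  rw [h2, map_one] at h1
  exact one_ne_zero h1

/-- The growth in degree `m`. -/
lemma growth (𝒱 : ValuationSubring Ω) (hk : ∀ c : k, algebraMap k Ω c ∈ 𝒱) {ι : Type}
    {D : ι → ℕ} (s : (l : ι) → Fin (D l) → Ω) (l₀ : ι)
    (ρ : Fin (D l₀) → IsLocalRing.ResidueField 𝒱) (θ : Ω) (h : ∀ j, s l₀ j / θ ∈ 𝒱)
    (hθ : 1 < 𝒱.valuation θ) (hle : ∀ l j, 𝒱.valuation (s l j) ≤ 𝒱.valuation θ)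
    (hρ : ∀ j, ρ j = IsLocalRing.residue 𝒱 ⟨_, h j⟩)
    (α : ι → ℕ → k) (β : (l : ι) → Fin (D l) → ℕ → k) (H : ι → PowerSeries Ω)
    (hH : ∀ l m, PowerSeries.coeff m (H l) =
      algebraMap k Ω (α l m) + ∑ j, s l j * algebraMap k Ω (β l j m))
    (m : ℕ) (hm1 : 1 ≤ m)
    (hm : ∑ j, ρ j * IsLocalRing.residue 𝒱
      (((algebraMap k Ω).codRestrict 𝒱.toSubring hk) (β l₀ j m)) ≠ 0) :
    GrowthAt 𝒱 H θ m := by
  have hθ0 : θ ≠ 0 := by
    intro h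
    rw [h, map_zero] at hθ
    exact not_lt_zero hθ
  have hle1 : ∀ x : k, 𝒱.valuation (algebraMap k Ω x) ≤ 1 := fun x =>
    (𝒱.valuation_le_one_iff _).2 (hk x)
  refine ⟨fun l i _ => ?_, hθ, hm1, l₀, ?_⟩
  · rw [hH]
    refine 𝒱.valuation.map_add_le ((hle1 _).trans hθ.le) (𝒱.valuation.map_sum_le fun j _ => ?_)
    rw [map_mul]
    exact (mul_le_mul' (hle l j) (hle1 _)).trans_eq (mul_one _)
  · rw [hH]
    let e : 𝒱 := ∑ j, ⟨_, h j⟩ * ((algebraMap k Ω).codRestrict 𝒱.toSubring hk) (β l₀ j m)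
    have he : IsLocalRing.residue 𝒱 e ≠ 0 := by
      have h1 : IsLocalRing.residue 𝒱 e = ∑ j, ρ j * IsLocalRing.residue 𝒱
          (((algebraMap k Ω).codRestrict 𝒱.toSubring hk) (β l₀ j m)) := by
        simp only [e, map_sum, map_mul, hρ]
      rw [h1]
      exact hm
    have he1 : 𝒱.valuation e = 1 := by
      rw [← ValuationSubring.valuation_eq_one_iff]
      by_contra h
      exact he ((IsLocalRing.residue_eq_zero_iff _).2 ((IsLocalRing.mem_maximalIdeal _).2 h))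
    have hse : ∑ j, s l₀ j * algebraMap k Ω (β l₀ j m) = θ * (e : Ω) := by
      have h2 : (e : Ω) = ∑ j, s l₀ j / θ * algebraMap k Ω (β l₀ j m) := by
        change 𝒱.subtype e = _
        simp only [e, map_sum, map_mul]
        rfl
      rw [h2, Finset.mul_sum]
      refine Finset.sum_congr rfl fun j _ => ?_
      rw [← mul_assoc, mul_div_cancel₀ _ hθ0]
    rw [hse, Valuation.map_add_eq_of_lt_right, map_mul, he1, mul_one]
    rw [map_mul, he1, mul_one]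
    exact lt_of_le_of_lt (hle1 _) hθ

/-- A bounded group. -/
lemma bounded (𝒱 : ValuationSubring Ω) (hk : ∀ c : k, algebraMap k Ω c ∈ 𝒱) {ι : Type}
    {D : ι → ℕ} (s : (l : ι) → Fin (D l) → Ω) (hs : ∀ l j, s l j ∈ 𝒱)
    (α : ι → ℕ → k) (β : (l : ι) → Fin (D l) → ℕ → k) (H : ι → PowerSeries Ω)
    (hH : ∀ l m, PowerSeries.coeff m (H l) =
      algebraMap k Ω (α l m) + ∑ j, s l j * algebraMap k Ω (β l j m)) :
    ∀ l i, PowerSeries.coeff i (H l) ∈ 𝒱 := by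
  intro l i
  rw [hH]
  exact add_mem (hk _) (sum_mem fun j _ => mul_mem (hs l j) (hk _))

/-- A bound for the coefficients of finitely many series. -/
lemma bound (𝒱 : ValuationSubring Ω) (hk : ∀ c : k, algebraMap k Ω c ∈ 𝒱) {r t : ℕ}
    (c' : Fin (r + 1) → Fin t → Ω) (β : Fin t → ℕ → k) :
    ∃ θ' : Ω, ∀ j i, 𝒱.valuation (PowerSeries.coeff i
      (PowerSeries.mk fun m => ∑ i, c' j i * algebraMap k Ω (β i m))) ≤ 𝒱.valuation θ' := by
  have hle1 : ∀ x : k, 𝒱.valuation (algebraMap k Ω x) ≤ 1 := fun x =>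
    (𝒱.valuation_le_one_iff _).2 (hk x)
  obtain ⟨v₀, hmax⟩ := Finite.exists_max
    (fun v : Option (Fin (r + 1) × Fin t) => 𝒱.valuation (v.elim 1 fun p => c' p.1 p.2))
  refine ⟨v₀.elim 1 fun p => c' p.1 p.2, fun j i => ?_⟩
  rw [PowerSeries.coeff_mk]
  refine 𝒱.valuation.map_sum_le fun i' _ => ?_
  rw [map_mul]
  exact (mul_le_mul' (hmax (some (j, i'))) (hle1 _)).trans_eq (mul_one _)

/-- The columns of a nonzero minor are different. -/
lemma inj_of_minor {ι : Type} {κ ρ : ℕ} (F : Fin κ → MvPolynomial ι k) (I : Fin ρ → ι)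
    (Y : ι → Λ) (J : Fin ρ → Fin κ) (h : minor F I Y J ≠ 0) : Function.Injective I := by
  intro i i' hii
  by_contra hne
  apply h
  rw [minor]
  refine Matrix.det_zero_of_column_eq hne fun j => ?_
  simp only [Matrix.of_apply, jac, hii]

/-- The count. -/
lemma count {ι : Type} [Fintype ι] {ρ n : ℕ} (I : Fin ρ → ι) (hI : Function.Injective I)
    (hcard : Fintype.card ι = n + 2 + ρ) (D σ : ι → ℤ) (q a' γ b X Y : ℤ) (hq : 0 ≤ q)
    (hD : ∀ l, q * σ l ≤ D l + b + γ) (hXY : X + Y + a' + ∑ i, σ (I i) ≤ ∑ l, σ l)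
    (hb : ((n : ℤ) + 2) * (b + γ) < q * a') :
    q * X + q * Y + ∑ i, D (I i) < ∑ l, D l := by
  classical
  set T : Finset ι := Finset.univ.image I with hT
  have h1 : ∀ f : ι → ℤ, ∑ l, f l = ∑ l ∈ Tᶜ, f l + ∑ i, f (I i) := by
    intro f
    rw [← Finset.sum_compl_add_sum T f, hT, Finset.sum_image fun i _ j _ h => hI h]
  have hTc : (Tᶜ).card = n + 2 := by
    rw [Finset.card_compl, hT, Finset.card_image_of_injective _ hI, Finset.card_univ,
      Fintype.card_fin, hcard]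
    omega
  have h2 : q * ∑ l ∈ Tᶜ, σ l ≤ ∑ l ∈ Tᶜ, D l + (n + 2) * (b + γ) := by
    have h3 : ∑ l ∈ Tᶜ, q * σ l ≤ ∑ l ∈ Tᶜ, (D l + (b + γ)) :=
      Finset.sum_le_sum fun l _ => by have := hD l; linarith
    rw [Finset.sum_add_distrib, Finset.sum_const, hTc, ← Finset.mul_sum, nsmul_eq_mul] at h3
    push_cast at h3
    exact h3
  rw [h1 D]
  rw [h1 σ] at hXY
  have h4 : q * (X + Y + a') ≤ q * ∑ l ∈ Tᶜ, σ l :=
    mul_le_mul_of_nonneg_left (by linarith) hq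
  nlinarith

end fV16Aux

open fV16Aux in
open Pool.Agent.Lib.MP_410da7_agA (f2 f4) in
open Pool.Agent.Lib.MP_410da7_agA.EvW (ev_ext L_sub_le ptDiv_apply) in
theorem fV16 (hfv14 : FV14Stmt) (hfv15 : FV15Stmt) (hnc2 : NC2Stmt) (hgv3 : GV3Stmt)
    (hgv1 : GV1Stmt) (hbubble : BubbleStmt) : FV16Stmt := by
  classical
  intro k Λ _ _ _ p e₀ hpp _ C N r κ ρ n d S y P Q ℓ μ c₀ hNr he hSF hSg hD hlog a' γ B ha hsum hlt
    hγ U hU hUP hUQ
  have hQ2 : 2 ≤ p ^ e₀ := by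
    calc 2 ≤ p := hpp.out.two_le
      _ = p ^ 1 := (pow_one p).symm
      _ ≤ p ^ e₀ := Nat.pow_le_pow_right hpp.out.pos he
  obtain ⟨m, b, hb, hb1, hb2⟩ := Pool.Agent.Lib.MP_410da7_agA.fG16Aux.numbers (n + 1) B a' γ
    (∑ᶠ w, P w + ∑ᶠ w, Q w) (p ^ e₀) hQ2 ha (by push_cast; linarith)
  have hcast : ((p ^ e₀) ^ m : ℤ) = (((p ^ e₀) ^ m : ℕ) : ℤ) := by push_cast; rfl
  set q : ℕ := (p ^ e₀) ^ m with hq
  have hq0 : 0 < q := pow_pos (pow_pos hpp.out.pos _) _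
  have hD' := hfv15 k Λ p e₀ C N r κ ρ d S y P Q ℓ μ c₀ m he hSF hSg hD hlog
  rw [hcast] at hD'
  set Pq : C.pt → ℤ := (q : ℤ) • P with hPq
  set Qm : C.pt → ℤ := (q : ℤ) • Q with hQm
  -- the points
  let c : Fin b → C.pt := fun i => (hU.natEmbedding U i : C.pt)
  have hcU : ∀ i, c i ∈ U := fun i => (hU.natEmbedding U i).2
  have hc : Function.Injective c := by
    intro i j h
    exact Fin.ext ((hU.natEmbedding U).injective (Subtype.ext h))
  have hPc : ∀ i, Pq (c i) = 0 := fun i => by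
    rw [hPq, Pi.smul_apply, hUP _ (hcU i), smul_zero]
  have hQc : ∀ i, Qm (c i) = 0 := fun i => by
    rw [hQm, Pi.smul_apply, hUQ _ (hcU i), smul_zero]
  -- finite dimension
  have hfin : ∀ l : Ix N r, {w | dv Pq Qm (wt l) w ≠ 0}.Finite := by
    rintro (l | l)
    · change {w | dv Pq Qm (1, 0) w ≠ 0}.Finite
      rw [dv_x]
      exact hD'.Pfin
    · change {w | dv Pq Qm (0, 1) w ≠ 0}.Finite
      rw [dv_f]
      exact hD'.Qfin
  have hfdq : ∀ l : Ix N r, FiniteDimensional k (C.L (dv Pq Qm (wt l))) := fun l =>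
    f2 k Λ C (c ⟨0, hb⟩) _ ((hfin l).subset fun w hw => ne_of_gt hw)
  have hfd : ∀ l : Ix N r, FiniteDimensional k (C.L (dv Pq Qm (wt l) - ptDiv c)) := fun l =>
    have := hfdq l
    Submodule.finiteDimensional_of_le (L_sub_le C _ c)
  let D : Ix N r → ℕ := fun l => finrank k (C.L (dv Pq Qm (wt l) - ptDiv c))
  let bas : (l : Ix N r) → Basis (Fin (D l)) k (C.L (dv Pq Qm (wt l) - ptDiv c)) := fun l =>
    have := hfd l
    finBasis k (C.L (dv Pq Qm (wt l) - ptDiv c))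
  let ω : (l : Ix N r) → Fin (D l) → Λ := fun l j => (bas l j : Λ)
  have hω : ∀ l, LinearIndependent k (ω l) := fun l =>
    (bas l).linearIndependent.map' (Submodule.subtype _) (Submodule.ker_subtype _)
  have hωspan : ∀ l, Submodule.span k (Set.range (ω l)) = C.L (dv Pq Qm (wt l) - ptDiv c) := by
    intro l
    have h1 : Set.range (ω l) =
        (C.L (dv Pq Qm (wt l) - ptDiv c)).subtype '' Set.range (bas l) := by
      rw [← Set.range_comp]
      rfl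
    rw [h1, Submodule.span_image, (bas l).span_eq, Submodule.map_top, Submodule.range_subtype]
  have hωL : ∀ l j, ω l j ∈ C.L (dv Pq Qm (wt l) - ptDiv c) := fun l j => (bas l j).2
  -- the sums
  have hsP : ∑ᶠ w, Pq w = q * ∑ᶠ w, P w := (mul_finsum _ _).symm
  have hsQ : ∑ᶠ w, Qm w = q * ∑ᶠ w, Q w := (mul_finsum _ _).symm
  have hsℓ : ∑ᶠ w, ((q : ℤ) • ℓ) w = q * ∑ᶠ w, ℓ w := (mul_finsum _ _).symm
  have hsμ : ∑ᶠ w, ((q : ℤ) • μ) w = q * ∑ᶠ w, μ w := (mul_finsum _ _).symm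
  have hsd : ∀ e, ∑ᶠ w, dv Pq Qm e w = q * ∑ᶠ w, dv P Q e w := fun e => by
    rw [mul_finsum]
    exact finsum_congr fun w => dv_smul P Q q e w
  have hcount : ∑ᶠ w, ((q : ℤ) • ℓ) w + ∑ᶠ w, ((q : ℤ) • μ) w + ∑ i, (D (S.I₀ i) : ℤ) <
      ∑ l, (D l : ℤ) := by
    rw [hsℓ, hsμ]
    refine count S.I₀ (inj_of_minor _ _ _ _ hD.mY) (n := n) ?_ (fun l => (D l : ℤ))
      (fun l => ∑ᶠ w, dv P Q (wt l) w) q a' γ b _ _ (by positivity) ?_ ?_ ?_
    · simp only [Fintype.card_sum, Fintype.card_fin]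
      omega
    · intro l
      have := hfdq l
      have h1 := f4 k Λ C (dv Pq Qm (wt l)) this b c hc
      have h2 := hγ (dv Pq Qm (wt l)) (hfin l)
      rw [hsd] at h2
      have h3 : (finrank k (C.L (dv Pq Qm (wt l))) : ℤ) ≤ D l + b := by exact_mod_cast h1
      linarith
    · have h1 : ∑ l : Ix N r, ∑ᶠ w, dv P Q (wt l) w =
          (N + 1) * ∑ᶠ w, P w + (r + 1) * ∑ᶠ w, Q w := by
        have e1 : ∀ l : Fin (N + 1), ∑ᶠ w, dv P Q (wt (Sum.inl l : Ix N r)) w = ∑ᶠ w, P w :=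
          fun l => by
            change ∑ᶠ w, dv P Q (1, 0) w = _
            rw [dv_x]
        have e2 : ∀ l : Fin (r + 1), ∑ᶠ w, dv P Q (wt (Sum.inr l : Ix N r)) w = ∑ᶠ w, Q w :=
          fun l => by
            change ∑ᶠ w, dv P Q (0, 1) w = _
            rw [dv_f]
        rw [Fintype.sum_sum_type]
        simp only [e1, e2, Finset.sum_const, Finset.card_univ, Fintype.card_fin, nsmul_eq_mul]
        push_cast
        ring
      rw [h1]
      exact hsum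
    · have h1 : (((p ^ e₀) ^ m : ℕ) : ℤ) = q := by rw [hq]
      push_cast at hb1 ⊢
      linarith
  -- the family
  obtain ⟨𝔓, hprime, hmx, hne, hF𝔓, hx0⟩ := hfv14 k Λ C N r κ ρ b d S _ Pq Qm _ _ c₀ hD' c hc hb
    hPc hQc D ω hω hωspan hcount
  obtain ⟨Ω, _, _, _, s, 𝒱, hs, hk, hrank, v₁, hv₁⟩ := hgv3 k (Vr D) 𝔓 hprime hmx hne
  -- the directions of fastest growth
  obtain ⟨lx, ρx, hx⟩ := direction 𝒱 (D := fun l : Fin (N + 1) => D (Sum.inl l))
    (fun l j => s ⟨Sum.inl l, j⟩)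
  obtain ⟨lf, ρf, hf⟩ := direction 𝒱 (D := fun l : Fin (r + 1) => D (Sum.inr l))
    (fun l j => s ⟨Sum.inr l, j⟩)
  let ι : k →+* 𝒱 := (algebraMap k Ω).codRestrict 𝒱.toSubring hk
  let _ : Algebra k (IsLocalRing.ResidueField 𝒱) := ((IsLocalRing.residue 𝒱).comp ι).toAlgebra
  obtain ⟨i, mX, mF, hm, hmX, hmF⟩ := hgv1 k Λ (IsLocalRing.ResidueField 𝒱) C
    (D (Sum.inl lx)) (D (Sum.inr lf)) b B Pq Qm hD'.P0 hD'.Q0 hD'.Pfin hD'.Qfin c hc hPc hQc
    (by rw [hsP, hsQ, ← mul_add]; exact hb2) (ω (Sum.inl lx)) (ω (Sum.inr lf)) (hω _) (hω _)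
    (fun j => by
      have := hωL (Sum.inl lx) j
      change _ ∈ C.L (dv Pq Qm (1, 0) - ptDiv c) at this
      rwa [dv_x] at this)
    (fun j => by
      have := hωL (Sum.inr lf) j
      change _ ∈ C.L (dv Pq Qm (0, 1) - ptDiv c) at this
      rwa [dv_f] at this) ρx ρf
  -- the expansions at the point
  have hdv0 : ∀ e, dv Pq Qm e (c i) = 0 := fun e => by
    simp only [dv, hPc i, hQc i, mul_zero, add_zero]
  have hYi : ∀ l, ∀ i' < 0, C.cf (c i) i' (y l ^ q) = 0 := fun l i' hi' =>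
    hD'.YP l (c i) i' (by rw [hdv0]; omega)
  have hωi : ∀ l j, ∀ i' < 1, C.cf (c i) i' (ω l j) = 0 := fun l j i' hi' =>
    hωL l j (c i) i' (by rw [Pi.sub_apply, hdv0, ptDiv_apply hc]; omega)
  set H : Ix N r → PowerSeries Ω := hser C (c i) (fun l => y l ^ q) ω s with hHdef
  have hH : ∀ l m', PowerSeries.coeff m' (H l) = algebraMap k Ω (C.cf (c i) m' (y l ^ q)) +
      ∑ j, s ⟨l, j⟩ * algebraMap k Ω (C.cf (c i) m' (ω l j)) := fun l m' => hser_coeff ..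
  have gx : (∀ l j, s ⟨Sum.inl l, j⟩ ∈ 𝒱) ∨
      ∃ θ, GrowthAt 𝒱 (fun l => H (Sum.inl l)) θ mX := by
    rcases hx with hall | ⟨hρ, θ, h, hθ, hle, hρe⟩
    · exact Or.inl hall
    · exact Or.inr ⟨θ, growth 𝒱 hk (D := fun l : Fin (N + 1) => D (Sum.inl l))
        (fun l j => s ⟨Sum.inl l, j⟩) lx ρx θ h hθ hle hρe
        (fun l m' => C.cf (c i) m' (y (Sum.inl l) ^ q))
        (fun l j m' => C.cf (c i) m' (ω (Sum.inl l) j)) _ (fun l m' => hH (Sum.inl l) m') mX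
        (hmX hρ).1 (hmX hρ).2⟩
  have gf : (∀ l j, s ⟨Sum.inr l, j⟩ ∈ 𝒱) ∨
      ∃ θ, GrowthAt 𝒱 (fun l => H (Sum.inr l)) θ mF := by
    rcases hf with hall | ⟨hρ, θ, h, hθ, hle, hρe⟩
    · exact Or.inl hall
    · exact Or.inr ⟨θ, growth 𝒱 hk (D := fun l : Fin (r + 1) => D (Sum.inr l))
        (fun l j => s ⟨Sum.inr l, j⟩) lf ρf θ h hθ hle hρe
        (fun l m' => C.cf (c i) m' (y (Sum.inr l) ^ q))
        (fun l j m' => C.cf (c i) m' (ω (Sum.inr l) j)) _ (fun l m' => hH (Sum.inr l) m') mF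
        (hmF hρ).1 (hmF hρ).2⟩
  have hnb : ¬ ∀ l i', PowerSeries.coeff i' (H l) ∈ 𝒱 := by
    intro hall
    obtain ⟨l₁, j₁⟩ := v₁
    rcases l₁ with l₁ | l₁
    · rcases gx with h | ⟨θ, _, h1, _, l₂, h2⟩
      · exact hv₁ (h l₁ j₁)
      · have h3 := (𝒱.valuation_le_one_iff _).2 (hall (Sum.inl l₂) mX)
        rw [h2] at h3
        exact absurd h1 (not_lt.2 h3)
    · rcases gf with h | ⟨θ, _, h1, _, l₂, h2⟩
      · exact hv₁ (h l₁ j₁)
      · have h3 := (𝒱.valuation_le_one_iff _).2 (hall (Sum.inr l₂) mF)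
        rw [h2] at h3
        exact absurd h1 (not_lt.2 h3)
  -- no common zeros
  obtain ⟨t, β, c', _, hone⟩ := hnc2 k Λ C (c i) N r Qm (fun l => y l ^ q) c₀ γ hD'.Q0 hD'.Qfin
    hD'.Yf (fun l => by
      have := hD'.YP (Sum.inr l)
      change _ ∈ C.L (dv Pq Qm (0, 1)) at this
      rwa [dv_f] at this) hD'.Yc hγ D ω (fun l j => by
      have := L_sub_le C _ c (hωL (Sum.inr l) j)
      change _ ∈ C.L (dv Pq Qm (0, 1)) at this
      rwa [dv_f] at this) 𝔓 hprime hmx Ω s hs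
  obtain ⟨θ', hθ'⟩ := bound 𝒱 hk c' (fun i' m' => C.cf (c i) m' (β i'))
  have hzero : ∀ j, s ⟨Sum.inl 0, j⟩ = 0 := fun j => by
    have := (hs _).1 (hx0 j)
    rwa [aeval_X] at this
  have hcf1 : ∀ m' : ℤ, C.cf (c i) m' 1 = if m' = 0 then 1 else 0 := fun m' => by
    change (C.exp (c i) 1).coeff m' = _
    rw [map_one, HahnSeries.coeff_one]
    split_ifs <;> rfl
  have hYx : y (Sum.inl 0) ^ q = 1 := hD'.Yx
  have hYf : y (Sum.inr 0) ^ q = 1 := hD'.Yf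
  obtain ⟨k', _, _, Yp, hYp⟩ := hbubble k Ω 𝒱 hk hrank N r κ B mX mF d S.F S.hom H
    (fun l => C.cf (c i) 0 (y l ^ q))
    (by
      ext m'
      rw [hH, hYx, Finset.sum_eq_zero fun j _ => by rw [hzero, zero_mul], add_zero, hcf1,
        PowerSeries.coeff_one]
      by_cases h : m' = 0
      · rw [if_pos h, if_pos (by rw [h]; rfl), map_one]
      · rw [if_neg h, if_neg (by exact_mod_cast h), map_zero])
    (by
      change C.cf (c i) 0 (y (Sum.inr 0) ^ q) = 1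
      rw [hYf, hcf1, if_pos rfl])
    (fun l => by
      rw [hH, Finset.sum_eq_zero, add_zero]
      · rfl
      · intro j _
        have : C.cf (c i) ((0 : ℕ) : ℤ) (ω l j) = 0 := hωi l j _ (by simp)
        rw [this, map_zero, mul_zero])
    (fun j => aeval_hser C (c i) s _ ω hYi (fun l j i' hi' => hωi l j i' (by omega)) (S.F j)
      (ev_ext C (c i) s (fun q hq => (hs q).1 hq) (hF𝔓 j)))
    hm
    (gx.imp_left fun h => bounded 𝒱 hk (D := fun l : Fin (N + 1) => D (Sum.inl l))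
      (fun l j => s ⟨Sum.inl l, j⟩) h (fun l m' => C.cf (c i) m' (y (Sum.inl l) ^ q))
      (fun l j m' => C.cf (c i) m' (ω (Sum.inl l) j)) _ (fun l m' => hH (Sum.inl l) m'))
    (gf.imp_left fun h => bounded 𝒱 hk (D := fun l : Fin (r + 1) => D (Sum.inr l))
      (fun l j => s ⟨Sum.inr l, j⟩) h (fun l m' => C.cf (c i) m' (y (Sum.inr l) ^ q))
      (fun l j m' => C.cf (c i) m' (ω (Sum.inr l) j)) _ (fun l m' => hH (Sum.inr l) m'))
    hnb ⟨_, θ', hθ', hone (c i) (hQc i)⟩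
  refine ⟨m, c i, hcU i, k', inferInstance, inferInstance, Yp, ?_⟩
  have hpow : ∀ l, C.cf (c i) 0 (y l ^ q) = C.cf (c i) 0 (y l) ^ q := by
    intro l
    refine Pool.Agent.Lib.MP_410da7_agA.fG16Aux.cf_pow C (c i) (y l) (fun i' hi' => ?_) q
    refine hD.YP l (c i) i' ?_
    rw [dv, hUP _ (hcU i), hUQ _ (hcU i)]
    simpa using hi'
  simp only [hpow] at hYp
  exact hYp

end Pool.Agent.Lib.MP_410da7_agV
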