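import Pool.Agent.Lib.MP_410da7_agV.SpecF

set_option autoImplicit false

namespace Pool.Agent.Lib.MP_410da7_agV

open MvPolynomial Module
open Pool.Agent.Lib.MP_410da7_agA (Curve ptDiv mx ext push FixedBy)

namespace fV7Aux

theorem X_mem {V k Λ : Type} [Field k] [Field Λ] [Algebra k Λ] (v : V) :
    (X v : MvPolynomial V Λ) ∈ ext Λ (mx V k) := by
  have h : (X v : MvPolynomial V k) ∈ mx V k := by
    unfold mx
    rw [RingHom.mem_ker, constantCoeff_X]
  have := Ideal.mem_map_of_mem (MvPolynomial.map (algebraMap k Λ)) h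
  rwa [map_X] at this

theorem hval_sub {k Λ ι : Type} [Field k] [Field Λ] [Algebra k Λ] {D : ι → ℕ} (Y : ι → Λ)
    (ω : (l : ι) → Fin (D l) → Λ) (G : MvPolynomial ι k) :
    hval Y ω G - C (aeval Y G) ∈ ext Λ (mx (Vr D) k) := by
  induction G using MvPolynomial.induction_on with
  | C a =>
    have h1 : hval Y ω (C a : MvPolynomial ι k) = C (algebraMap k Λ a) := by
      unfold hval
      rw [aeval_C]
      rfl
    rw [h1, aeval_C, sub_self]
    exact Ideal.zero_mem _
  | add p q hp hq =>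
    have h1 : hval Y ω (p + q) = hval Y ω p + hval Y ω q := map_add _ _ _
    rw [h1, map_add, C_add, add_sub_add_comm]
    exact Ideal.add_mem _ hp hq
  | mul_X p l hp =>
    have h1 : hval Y ω (p * X l) = hval Y ω p * hpt Y ω l := by
      unfold hval
      rw [map_mul, aeval_X]
    rw [h1, map_mul, aeval_X, C_mul]
    have h2 : hval Y ω p * hpt Y ω l - C (aeval Y p) * C (Y l) =
        (hval Y ω p - C (aeval Y p)) * hpt Y ω l +
          C (aeval Y p) * ∑ j, C (ω l j) * X ⟨l, j⟩ := by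
      unfold hpt
      ring
    rw [h2]
    refine Ideal.add_mem _ (Ideal.mul_mem_right _ _ hp) (Ideal.mul_mem_left _ _ ?_)
    exact Ideal.sum_mem _ fun j _ => Ideal.mul_mem_left _ _ (X_mem _)

end fV7Aux

theorem fV7 : FV7Stmt := by
  intro k Λ _ _ _ N r κ ρ D F J₀ g A hA Y ω J hJ j
  have h1 : hval Y ω g * hval Y ω (F j) = ∑ i, hval Y ω (A j i) * hval Y ω (F (J₀ i)) := by
    have := congrArg (hval Y ω) (hA j)
    unfold hval at this ⊢
    rw [map_mul, map_sum] at this
    rw [this]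
    exact Finset.sum_congr rfl fun i _ => map_mul _ _ _
  have h2 : C (aeval Y g) * hval Y ω (F j) - ∑ i, C (aeval Y (A j i)) * hval Y ω (F (J₀ i)) =
      (∑ i, (hval Y ω (A j i) - C (aeval Y (A j i))) * hval Y ω (F (J₀ i))) -
        (hval Y ω g - C (aeval Y g)) * hval Y ω (F j) := by
    simp only [sub_mul, Finset.sum_sub_distrib]
    rw [h1]
    ring
  rw [h2]
  have h3 : ext Λ (mx (Vr D) k * J) = ext Λ (mx (Vr D) k) * ext Λ J :=
    Ideal.map_mul _ _ _
  rw [h3]
  refine Ideal.sub_mem _ (Ideal.sum_mem _ fun i _ => ?_) ?_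
  · exact Ideal.mul_mem_mul (fV7Aux.hval_sub Y ω _) (hJ _)
  · exact Ideal.mul_mem_mul (fV7Aux.hval_sub Y ω _) (hJ _)

end Pool.Agent.Lib.MP_410da7_agV
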