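import Pool.Agent.Lib.MP_410da7_agV.SpecF
import Pool.Agent.Lib.MP_410da7_agA.F8
import Pool.Agent.Lib.MP_410da7_agA.F9

/-!
# MP_410da7_ag v3, FV9: the dimension of the space of equations, one divisor per column
-/

set_option autoImplicit false

namespace Pool.Agent.Lib.MP_410da7_agV

open MvPolynomial Module
open Pool.Agent.Lib.MP_410da7_agA (Curve ptDiv mx ext push FixedBy f8)
open Pool.Agent.Lib.MP_410da7_agA.f9Aux (jl jl_apply jl_inj jl_surj dimcount)
open Pool.Agent.Lib.MP_410da7_agA.f8Aux (sh single_ne)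

namespace fV9Aux

variable {k Λ : Type} [Field k] [Field Λ] [Algebra k Λ]

/-- The subspace of `B` of the elements with the component `l` in `t^(-E_l) k[[t]]` at `w`. -/
def bw (C : Curve k Λ) {ρ : ℕ} (B : Submodule k (Fin ρ → Λ)) (E : Fin ρ → C.pt → ℤ) (w : C.pt) :
    Submodule k B where
  carrier := {x | ∀ l, ∀ m < -E l w, (C.exp w (x.1 l)).coeff m = 0}
  add_mem' := by
    intro a b ha hb l m hm
    change (C.exp w (a.1 l + b.1 l)).coeff m = 0
    rw [map_add, HahnSeries.coeff_add, ha l m hm, hb l m hm, add_zero]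
  zero_mem' := by
    intro l m _
    change (C.exp w 0).coeff m = 0
    rw [map_zero, HahnSeries.coeff_zero]
  smul_mem' := by
    intro c y hy l m hm
    change (C.exp w (c • y.1 l)).coeff m = 0
    rw [Algebra.smul_def, map_mul, C.exp_alg, HahnSeries.C_mul_eq_smul, HahnSeries.coeff_smul,
      hy l m hm, smul_zero]

theorem prod_single {ρ : ℕ} (e : Fin ρ → ℤ) :
    (∏ l, (HahnSeries.single (e l) (1 : k) : LaurentSeries k)) =
      HahnSeries.single (∑ l, e l) (1 : k) := by
  classical
  have : ∀ s : Finset (Fin ρ), (∏ l ∈ s, (HahnSeries.single (e l) (1 : k) : LaurentSeries k)) =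
      HahnSeries.single (∑ l ∈ s, e l) (1 : k) := by
    intro s
    induction s using Finset.induction_on with
    | empty => rfl
    | insert a s ha ih =>
      rw [Finset.prod_insert ha, Finset.sum_insert ha, ih, HahnSeries.single_mul_single, one_mul]
  exact this _

theorem local_bound (C : Curve k Λ) {κ ρ : ℕ} {Jac : Fin κ → Fin ρ → Λ}
    {E : Fin ρ → C.pt → ℤ} {W : C.pt → ℤ} (hJac : ∀ j l, Jac j l ∈ C.L (W - E l))
    (B : Submodule k (Fin ρ → Λ)) (hB : ∀ ξ ∈ B, ∀ j, jl k Jac ξ j ∈ C.L W) (w : C.pt)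
    (J : Fin ρ → Fin κ) (hJ : (Matrix.of fun i l => Jac (J i) l).det ≠ 0) :
    FiniteDimensional k (B ⧸ bw C B E w) ∧ (finrank k (B ⧸ bw C B E w) : ℤ) ≤
      C.ord w (Matrix.of fun i l => Jac (J i) l).det + ρ * W w - ∑ l, E l w := by
  set G : Matrix (Fin ρ) (Fin ρ) (LaurentSeries k) := Matrix.of fun i l =>
    (HahnSeries.single (- E l w) (1 : k) : LaurentSeries k) * C.exp w (Jac (J i) l) with hG
  have hd : G.det = (∏ l, (HahnSeries.single (- E l w) (1 : k) : LaurentSeries k)) *
      C.exp w (Matrix.of fun i l => Jac (J i) l).det := by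
    have h1 : G = Matrix.of fun i l => (fun l => (HahnSeries.single (- E l w) (1 : k) :
        LaurentSeries k)) l * ((Matrix.of fun i l => Jac (J i) l).map (C.exp w)) i l := by
      ext1 i l
      rfl
    rw [h1, Matrix.det_mul_row, RingHom.map_det, RingHom.mapMatrix_apply]
  rw [prod_single] at hd
  have hexp : C.exp w (Matrix.of fun i l => Jac (J i) l).det ≠ 0 := (map_ne_zero (C.exp w)).2 hJ
  have hd0 : G.det ≠ 0 := by
    rw [hd]
    exact mul_ne_zero (single_ne _) hexp
  have hord : G.det.order = C.ord w (Matrix.of fun i l => Jac (J i) l).det - ∑ l, E l w := by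
    rw [hd, HahnSeries.order_mul (single_ne _) hexp, HahnSeries.order_single one_ne_zero,
      Finset.sum_neg_distrib]
    change _ + C.ord w _ = _
    ring
  have h := f8 k ρ G (W w) 0
    (fun i l m hm => by
      change ((HahnSeries.single (- E l w) (1 : k) : LaurentSeries k) *
        C.exp w (Jac (J i) l)).coeff m = 0
      rw [sh]
      exact hJac (J i) l w _ (by simp only [Pi.sub_apply]; omega)) hd0
    B (fun x l => (HahnSeries.single (E l w) (1 : k) : LaurentSeries k) * C.exp w (x.1 l))
    (fun x y => by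
      funext l
      change (HahnSeries.single (E l w) (1 : k) : LaurentSeries k) * C.exp w (x.1 l + y.1 l) = _
      rw [map_add, mul_add]
      rfl) (fun c x i => by
      change (HahnSeries.single (E i w) (1 : k) : LaurentSeries k) * C.exp w (c • x.1 i) = _
      rw [Algebra.smul_def, map_mul, C.exp_alg]
      ring) (fun x i m hm => by
      have h1 : G.mulVec (fun l => (HahnSeries.single (E l w) (1 : k) : LaurentSeries k) *
          C.exp w (x.1 l)) i = C.exp w (jl k Jac x.1 (J i)) := by
        rw [jl_apply, map_sum, Matrix.mulVec, dotProduct]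
        refine Finset.sum_congr rfl fun l _ => ?_
        rw [map_mul, hG, Matrix.of_apply]
        have h2 : (HahnSeries.single (- E l w) (1 : k) : LaurentSeries k) *
            HahnSeries.single (E l w) (1 : k) = 1 := by
          rw [HahnSeries.single_mul_single, one_mul, neg_add_cancel]
          rfl
        calc _ = ((HahnSeries.single (- E l w) (1 : k) : LaurentSeries k) *
            HahnSeries.single (E l w) (1 : k)) * (C.exp w (Jac (J i) l) * C.exp w (x.1 l)) := by
              ring
          _ = _ := by rw [h2, one_mul]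
      rw [h1]
      exact hB x.1 x.2 (J i) w m (by omega)) (bw C B E w) (fun x => by
      constructor
      · intro hx l m hm
        rw [sh]
        exact hx l _ (by omega)
      · intro hx l m hm
        have h1 := hx l (m + E l w) (by omega)
        rw [sh, add_sub_cancel_right] at h1
        exact h1)
  rw [hord] at h
  refine ⟨h.1, h.2.trans (le_of_eq ?_)⟩
  ring

end fV9Aux

open fV9Aux in
theorem fV9 : FV9Stmt := by
  classical
  intro k Λ _ _ _ C κ ρ Jac E W ν hJac hfd hν hmin g₀ A₀ J₀ hg hJ₀ hrel T hT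
  set B : Submodule k (Fin ρ → Λ) := T.comap (jl k Jac) with hBdef
  have hTB : B.map (jl k Jac) = T := by
    rw [hBdef, Submodule.map_comap_eq, inf_eq_right]
    intro u hu
    obtain ⟨ξ, hξ⟩ := jl_surj (k := k) hJ₀ hg hrel u ((hT u).1 hu).2
    exact ⟨ξ, hξ⟩
  have hfin : finrank k T = finrank k B := by
    rw [← hTB]
    exact (Submodule.equivMapOfInjective (jl k Jac) (jl_inj hJ₀) B).finrank_eq.symm
  rw [hfin]
  have hB : ∀ ξ ∈ B, ∀ j, jl k Jac ξ j ∈ C.L W := fun ξ hξ j => ((hT _).1 hξ).1 j
  have hloc : ∀ w, FiniteDimensional k (B ⧸ bw C B E w) ∧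
      (finrank k (B ⧸ bw C B E w) : ℤ) ≤ ν w := by
    intro w
    obtain ⟨J, hJ, hJν⟩ := hmin w
    obtain ⟨h1, h2⟩ := local_bound C hJac B hB w J hJ
    exact ⟨h1, h2.trans hJν⟩
  have htop : ∀ w, ν w = 0 → bw C B E w = ⊤ := by
    intro w hw
    obtain ⟨h1, h2⟩ := hloc w
    have h3 : finrank k (B ⧸ bw C B E w) = 0 := by
      have : (finrank k (B ⧸ bw C B E w) : ℤ) ≤ 0 := by rw [← hw]; exact h2
      exact_mod_cast le_antisymm this (by positivity)
    have h4 : Subsingleton (B ⧸ bw C B E w) := finrank_zero_iff.1 h3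
    exact Submodule.Quotient.subsingleton_iff.1 h4
  let A : Submodule k B :=
    { carrier := {x | ∀ l, x.1 l ∈ C.L (E l)}
      add_mem' := fun ha hb l => (C.L (E l)).add_mem (ha l) (hb l)
      zero_mem' := fun l => (C.L (E l)).zero_mem
      smul_mem' := fun c _ ha l => (C.L (E l)).smul_mem c (ha l) }
  let Ψ : A →ₗ[k] ((l : Fin ρ) → C.L (E l)) :=
    { toFun := fun x l => ⟨x.1.1 l, x.2 l⟩
      map_add' := fun x y => rfl
      map_smul' := fun c x => rfl }
  have hΨ : Function.Injective Ψ := by
    intro x y hxy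
    apply Subtype.ext
    apply Subtype.ext
    funext l
    exact congrArg Subtype.val (congrFun hxy l)
  have hA : ∀ x : B, (∀ w ∈ hν.toFinset, x ∈ bw C B E w) → x ∈ A := by
    intro x hx l w m hm
    have h1 : x ∈ bw C B E w := by
      by_cases hw : ν w = 0
      · rw [htop w hw]
        exact Submodule.mem_top
      · exact hx w (by rw [Set.Finite.mem_toFinset]; exact hw)
    exact h1 l m hm
  have hinst : ∀ l, Module.Finite k (C.L (E l)) := hfd
  have h := dimcount hν.toFinset (bw C B E) ν (fun w _ => hloc w) A hA Ψ hΨ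
  rw [finsum_eq_sum_of_support_toFinset_subset ν hν (le_refl _)]
  rw [finrank_pi_fintype] at h
  push_cast at h
  exact h

end Pool.Agent.Lib.MP_410da7_agV
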