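import Pool.Agent.Lib.MP_410da7_agV.SpecF

/-!
# MP_410da7_ag, version 3, GV1: a point `c_i` with small multiplicities, for two families

For a nonzero vector `ρ` over an extension `k'` of `k` and linearly independent `ω_j ∈ L(P - ∑ c_i)`
choose a linear form `φ : k' → k` with `φ(ρ_{j₀}) ≠ 0`. The function `y = ∑ φ(ρ_j) ω_j ∈ L(P)` is not
zero, its orders `m_i` at the `c_i` are positive and `∑ m_i ≤ ∑ P`, and the coefficient
`∑_j ρ_j cf^{m_i}(ω_j)` is not zero because its image under `φ` is the leading coefficient of `y`.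
-/

set_option autoImplicit false

namespace Pool.Agent.Lib.MP_410da7_agV

open MvPolynomial Module
open Pool.Agent.Lib.MP_410da7_agA (Curve ptDiv mx ext push FixedBy)

namespace gV1Aux

variable {k Λ : Type} [Field k] [Field Λ] [Algebra k Λ]

lemma ptDiv_nonneg {α : Type} {b : ℕ} (c : Fin b → α) (w : α) : 0 ≤ ptDiv c w := by
  unfold ptDiv
  refine Finset.sum_nonneg (fun i _ => ?_)
  split_ifs <;> norm_num

lemma one_le_ptDiv {α : Type} {b : ℕ} (c : Fin b → α) (i : Fin b) : 1 ≤ ptDiv c (c i) := by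
  classical
  unfold ptDiv
  have h : (if c i = c i then (1 : ℤ) else 0) ≤ ∑ j, if c j = c i then (1 : ℤ) else 0 :=
    Finset.single_le_sum (f := fun j => if c j = c i then (1 : ℤ) else 0)
      (fun j _ => by split_ifs <;> norm_num) (Finset.mem_univ i)
  rw [if_pos rfl] at h
  convert h

theorem ord_ge (C : Curve k Λ) {D : C.pt → ℤ} {y : Λ} (hy : y ∈ C.L D) (h0 : y ≠ 0) (w : C.pt) :
    -D w ≤ C.ord w y := by
  by_contra hcon
  push Not at hcon
  have h1 : (C.exp w y).coeff (C.exp w y).order = 0 := hy w _ hcon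
  exact (map_ne_zero (C.exp w)).2 h0 (HahnSeries.coeff_order_eq_zero.1 h1)

/-- The sum of the orders at distinct points outside the poles is at most the number of poles. -/
theorem sum_ord_le (C : Curve k Λ) (D : C.pt → ℤ) (hfin : {w | D w ≠ 0}.Finite)
    {b : ℕ} (c : Fin b → C.pt) (hc : Function.Injective c) (hDc : ∀ i, D (c i) = 0)
    (y : Λ) (hy : y ∈ C.L D) (h0 : y ≠ 0) :
    ∑ i, C.ord (c i) y ≤ ∑ᶠ w, D w := by
  classical
  have hs1 : (Function.support fun w => C.ord w y).Finite := C.finite y h0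
  have hs2 : (Function.support D).Finite := hfin
  have hsum : ∑ᶠ w, (C.ord w y + D w) = ∑ᶠ w, D w := by
    rw [finsum_add_distrib hs1 hs2]
    have h1 : ∑ᶠ w, C.ord w y = 0 := C.sum y h0
    rw [h1, zero_add]
  rw [← hsum]
  set S : Finset C.pt := (hs1.toFinset ∪ hs2.toFinset) ∪ Finset.univ.image c with hS
  have hsup : (Function.support fun w => C.ord w y + D w) ⊆ (S : Set C.pt) := by
    intro w hw
    rw [hS, Finset.coe_union, Finset.coe_union]
    left
    by_contra hcon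
    rw [Set.mem_union, not_or] at hcon
    obtain ⟨h1, h2⟩ := hcon
    rw [Set.Finite.coe_toFinset, Function.mem_support, not_not] at h1 h2
    exact hw (by simp only [h1, h2, add_zero])
  rw [finsum_eq_sum_of_support_subset _ hsup]
  calc ∑ i, C.ord (c i) y = ∑ i : Fin b, (C.ord (c i) y + D (c i)) := by
        refine Finset.sum_congr rfl fun i _ => ?_
        rw [hDc i, add_zero]
    _ = ∑ w ∈ Finset.univ.image c, (C.ord w y + D w) := by
        rw [Finset.sum_image fun i _ j _ h => hc h]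
    _ ≤ ∑ w ∈ S, (C.ord w y + D w) := by
        refine Finset.sum_le_sum_of_subset_of_nonneg Finset.subset_union_right fun w _ _ => ?_
        have := ord_ge C hy h0 w
        linarith

/-- The multiplicities of one family. -/
theorem mult {k' : Type} [Field k'] [Algebra k k'] (C : Curve k Λ) {D b : ℕ} (P : C.pt → ℤ)
    (hP : ∀ w, 0 ≤ P w) (hfin : {w | P w ≠ 0}.Finite) (c : Fin b → C.pt)
    (hc : Function.Injective c) (hPc : ∀ i, P (c i) = 0) (ω : Fin D → Λ)
    (hω : LinearIndependent k ω) (hωL : ∀ j, ω j ∈ C.L (P - ptDiv c)) (ρ : Fin D → k') :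
    ∃ m : Fin b → ℕ, ((∑ i, m i : ℕ) : ℤ) ≤ ∑ᶠ w, P w ∧
      (ρ ≠ 0 → ∀ i, 1 ≤ m i ∧ ∑ j, ρ j * algebraMap k k' (C.cf (c i) (m i) (ω j)) ≠ 0) := by
  by_cases hρ : ρ = 0
  · refine ⟨fun _ => 0, ?_, fun h => absurd hρ h⟩
    rw [Finset.sum_const_zero, Nat.cast_zero]
    exact finsum_nonneg hP
  obtain ⟨j0, hj0⟩ : ∃ j, ρ j ≠ 0 := by
    by_contra h
    push Not at h
    exact hρ (funext h)
  obtain ⟨φ, hφ⟩ : ∃ φ : k' →ₗ[k] k, φ (ρ j0) ≠ 0 := by
    by_contra h
    push Not at h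
    exact hj0 ((Module.forall_dual_apply_eq_zero_iff k (ρ j0)).mp h)
  set y : Λ := ∑ j, φ (ρ j) • ω j with hy
  have hy0 : y ≠ 0 := by
    intro h0
    have := Fintype.linearIndependent_iff.mp hω (fun j => φ (ρ j)) h0 j0
    exact hφ this
  have hyL : y ∈ C.L (P - ptDiv c) :=
    Submodule.sum_mem _ (fun j _ => Submodule.smul_mem _ _ (hωL j))
  have hyP : y ∈ C.L P := by
    intro w i hi
    apply hyL w i
    have := ptDiv_nonneg c w
    simp only [Pi.sub_apply]
    omega
  have hcoef : ∀ i (m : ℤ), C.cf (c i) m y =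
      φ (∑ j, ρ j * algebraMap k k' (C.cf (c i) m (ω j))) := by
    intro i m
    rw [hy, map_sum, map_sum]
    refine Finset.sum_congr rfl fun j _ => ?_
    rw [map_smul, mul_comm (ρ j), ← Algebra.smul_def, map_smul, smul_eq_mul, smul_eq_mul, mul_comm]
  have hord : ∀ i, 1 ≤ C.ord (c i) y := by
    intro i
    have h1 := ord_ge C hyL hy0 (c i)
    have h2 := one_le_ptDiv c i
    rw [Pi.sub_apply, hPc i] at h1
    omega
  have hle := sum_ord_le C P hfin c hc hPc y hyP hy0
  have htn : ∀ i, (((C.ord (c i) y).toNat : ℕ) : ℤ) = C.ord (c i) y := fun i =>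
    Int.toNat_of_nonneg (by have := hord i; omega)
  refine ⟨fun i => (C.ord (c i) y).toNat, ?_, fun _ i => ⟨?_, ?_⟩⟩
  · rw [Nat.cast_sum, Finset.sum_congr rfl (fun i _ => htn i)]
    exact hle
  · have := hord i
    change 1 ≤ (C.ord (c i) y).toNat
    omega
  · intro h0
    have h1 := hcoef i ((C.ord (c i) y).toNat : ℤ)
    rw [h0, map_zero, htn i] at h1
    have h2 : (C.exp (c i) y).coeff (C.exp (c i) y).order = 0 := h1
    exact (map_ne_zero (C.exp (c i))).2 hy0 (HahnSeries.coeff_order_eq_zero.1 h2)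

end gV1Aux

open gV1Aux in
theorem gV1 : GV1Stmt := by
  intro k Λ k' _ _ _ _ _ C D D' b B P Q hP hQ hPfin hQfin c hc hPc hQc hsum ω ω' hω hω' hωL hωL' ρ
    ρ'
  obtain ⟨m, hm1, hm2⟩ := mult C P hP hPfin c hc hPc ω hω hωL ρ
  obtain ⟨m', hm1', hm2'⟩ := mult C Q hQ hQfin c hc hQc ω' hω' hωL' ρ'
  obtain ⟨i, hi⟩ : ∃ i, m i + m' i ≤ B := by
    by_contra hcon
    push Not at hcon
    have h1 : Finset.univ.card • (B + 1) ≤ ∑ i, (m i + m' i) :=
      Finset.card_nsmul_le_sum _ _ _ fun i _ => hcon i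
    rw [Finset.sum_add_distrib, Finset.card_univ, Fintype.card_fin, smul_eq_mul] at h1
    have h2 : ((b * (B + 1) : ℕ) : ℤ) ≤ ((∑ i, m i + ∑ i, m' i : ℕ) : ℤ) := Nat.cast_le.2 h1
    rw [Nat.cast_add (∑ i, m i)] at h2
    have h3 : ((b * (B + 1) : ℕ) : ℤ) = (B + 1) * b := by
      push_cast
      ring
    rw [h3] at h2
    linarith
  exact ⟨i, m i, m' i, hi, fun h => hm2 h i, fun h => hm2' h i⟩

end Pool.Agent.Lib.MP_410da7_agV
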