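import Pool.Agent.Lib.MP_410da7_agA.H5

/-!
# C46, version 3: `𝔸¹`-uniruled varieties have negative curves, projective over affine case
-/

set_option autoImplicit false

namespace Pool.Agent.Lib.MP_410da7_agV

open KaehlerDifferential WithZero Polynomial Module
open Pool.Agent.Lib.MP_410da7_ag Pool.Agent.Lib.MP_410da7_agA

/-- The abstract version: `K → L(t)`, with the `x_l` polynomials, and the `f_j` rational functions
with the common denominator `F`. -/
theorem h5V_abs {K L : Type} [Field K] [Algebra ℂ K] [Field L] [Algebra ℂ L]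
    [Algebra K (RatFunc L)] [IsScalarTower ℂ K (RatFunc L)] {n N r : ℕ}
    (Ψ : Ω[K⁄ℂ] [⋀^Fin n]→ₗ[K] K) (hΨ : Ψ ≠ 0) (htrK0 : Algebra.trdeg ℂ K = n) (x : Fin N → K)
    (f : Fin r → K) (hgenK : IntermediateField.adjoin ℂ (Set.range x ∪ Set.range f) = ⊤)
    {ι : Type} [Fintype ι] (y : ι → L)
    (hy : IsTranscendenceBasis ℂ y) (hcard : Fintype.card ι + 1 = n)
    (u : Fin n → K) (hu : IsTranscendenceBasis ℂ u)
    (htr : Algebra.trdeg ℂ (RatFunc L) = (n : Cardinal))
    (htrL : Algebra.trdeg ℂ L = ((n - 1 : ℕ) : Cardinal))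
    (P : Fin N → L[X]) (hP : ∀ l, algebraMap K (RatFunc L) (x l) = algebraMap L[X] (RatFunc L) (P l))
    (F : L[X]) (hF0 : F ≠ 0) (Q : Fin r → L[X])
    (hQ : ∀ j, algebraMap K (RatFunc L) (f j) * algebraMap L[X] (RatFunc L) F =
      algebraMap L[X] (RatFunc L) (Q j)) :
    ∃ (m₀ e₀ : ℕ) (Λ : Type) (_ : Field Λ) (_ : Algebra L Λ)
      (_ : Algebra K Λ) (_ : Algebra ℂ Λ) (_ : IsScalarTower ℂ L Λ) (_ : IsScalarTower ℂ K Λ)
      (a : Λ), 1 ≤ m₀ ∧ 1 ≤ e₀ ∧ a ≠ 0 ∧ Algebra.trdeg L Λ = 1 ∧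
        (∃ T : Set Λ, T.Finite ∧ IntermediateField.adjoin L T = ⊤) ∧
        IntermediateField.adjoin L (Set.range (algebraMap K Λ)) = ⊤ ∧
        ∀ w : Valuation Λ ℤᵐ⁰, (∀ c : L, c ≠ 0 → w (algebraMap L Λ c) = 1) →
          ∀ θ : Fin n → Ω[K⁄ℂ], Frame x (w.comap (algebraMap K Λ)) θ →
            (size x (w.comap (algebraMap K Λ)) * size f (w.comap (algebraMap K Λ))) ^ e₀ *
              w (algebraMap K Λ (Ψ θ)) ^ m₀ ≤ w a := by
  classical
  have hinjK : Function.Injective (algebraMap K (RatFunc L)) := (algebraMap K (RatFunc L)).injective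
  have hu2 : IsTranscendenceBasis ℂ (fun i => algebraMap K (RatFunc L) (u i)) := by
    have h1 : AlgebraicIndependent ℂ (fun i => algebraMap K (RatFunc L) (u i)) :=
      hu.1.map' (f := IsScalarTower.toAlgHom ℂ K (RatFunc L)) hinjK
    refine AlgebraicIndependent.isTranscendenceBasis_of_trdeg_le_of_finite h1 ?_
    rw [Cardinal.mk_fintype, Fintype.card_fin]
    exact htr.le
  let e : Fin n ≃ Option ι := Fintype.equivOfCardEq (by simp [hcard])
  obtain ⟨δ, κ, hκ0, hκ⟩ := h5_kappa y hy e u hu hu2 Ψ hΨ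
  -- algebraicity over `K`
  have hfK : FaithfulSMul K (RatFunc L) := inferInstance
  have htrK : Algebra.trdeg K (RatFunc L) = 0 := by
    have h1 := trdeg_add_eq ℂ K (A := RatFunc L)
    rw [htr, htrK0] at h1
    have h2 : (n : Cardinal) + Algebra.trdeg K (RatFunc L) = (n : Cardinal) + 0 := by
      rw [h1, add_zero]
    exact Cardinal.eq_of_add_eq_add_left h2 Cardinal.natCast_lt_aleph0
  have halgK : Algebra.IsAlgebraic K (RatFunc L) := by
    rwa [trdeg_eq_zero_iff] at htrK
  -- the field `Λ`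
  let Λ : IntermediateField L (RatFunc L) :=
    IntermediateField.adjoin L (Set.range (algebraMap K (RatFunc L)))
  have hKΛ : ∀ k : K, algebraMap K (RatFunc L) k ∈ Λ := fun k =>
    IntermediateField.subset_adjoin _ _ ⟨k, rfl⟩
  let iKΛ : K →+* Λ := (algebraMap K (RatFunc L)).codRestrict Λ.toSubfield.toSubring hKΛ
  let _ : Algebra K Λ := iKΛ.toAlgebra
  have hiK : ∀ k : K, algebraMap Λ (RatFunc L) (algebraMap K Λ k) = algebraMap K (RatFunc L) k :=
    fun k => rfl
  have : IsScalarTower K Λ (RatFunc L) := IsScalarTower.of_algebraMap_eq fun k => (hiK k).symm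
  have hiL : ∀ c : L, algebraMap Λ (RatFunc L) (algebraMap L Λ c) = algebraMap L (RatFunc L) c :=
    fun c => rfl
  have : IsScalarTower ℂ L Λ := inferInstance
  have : IsScalarTower ℂ K Λ := IsScalarTower.of_algebraMap_eq fun c => by
    apply (algebraMap Λ (RatFunc L)).injective
    rw [hiK, ← IsScalarTower.algebraMap_apply ℂ K (RatFunc L)]
    rfl
  have halgΛ : Algebra.IsAlgebraic Λ (RatFunc L) := Algebra.IsAlgebraic.tower_top (K := K) Λ
  have hfinΛ : FiniteDimensional Λ (RatFunc L) :=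
    h5_finite Λ (Algebra.IsAlgebraic.isAlgebraic (R := Λ) (RatFunc.X : RatFunc L)).isIntegral
  have : CharZero L := charZero_of_injective_algebraMap (algebraMap ℂ L).injective
  have : CharZero Λ := charZero_of_injective_algebraMap (algebraMap L Λ).injective
  have hsep : Algebra.IsSeparable Λ (RatFunc L) := inferInstance
  let DP : ℕ := Finset.univ.sup fun l => (P l).natDegree
  let DQ : ℕ := (Finset.univ.sup fun j => (Q j).natDegree) ⊔ F.natDegree
  let D : ℕ := DP + DQ + 1
  have hD1 : 1 ≤ D := Nat.le_add_left 1 _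
  have hDP : ∀ l, (P l).natDegree ≤ DP := fun l =>
    Finset.le_sup (f := fun l => (P l).natDegree) (Finset.mem_univ l)
  have hDQ : ∀ j, (Q j).natDegree ≤ DQ := fun j =>
    (Finset.le_sup (f := fun j => (Q j).natDegree) (Finset.mem_univ j)).trans le_sup_left
  have hDF : F.natDegree ≤ DQ := le_sup_right
  let d : ℕ := Module.finrank Λ (RatFunc L)
  have hd1 : 1 ≤ d := Module.finrank_pos
  have hnorm0 : Algebra.norm Λ κ ≠ 0 := Algebra.norm_ne_zero_iff.mpr hκ0
  have hF1 : algebraMap L[X] (RatFunc L) F ≠ 0 := by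
    rw [Ne, IsFractionRing.to_map_eq_zero_iff]; exact hF0
  have hnormF : Algebra.norm Λ (algebraMap L[X] (RatFunc L) F) ≠ 0 :=
    Algebra.norm_ne_zero_iff.mpr hF1
  have htrL1 : Algebra.trdeg L (RatFunc L) = 1 := by
    have h1 := trdeg_add_eq ℂ L (A := RatFunc L)
    rw [htr, htrL] at h1
    have h2 : ((n - 1 : ℕ) : Cardinal) + Algebra.trdeg L (RatFunc L) =
        ((n - 1 : ℕ) : Cardinal) + 1 := by
      rw [h1]
      have h3 : n - 1 + 1 = n := by omega
      calc (n : Cardinal) = ((n - 1 + 1 : ℕ) : Cardinal) := by rw [h3]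
        _ = _ := by push_cast; rfl
    exact Cardinal.eq_of_add_eq_add_left h2 Cardinal.natCast_lt_aleph0
  have htrΛ : Algebra.trdeg L Λ = 1 := by
    have h1 := trdeg_add_eq L Λ (A := RatFunc L)
    rw [trdeg_eq_zero (R := Λ) (A := RatFunc L), add_zero, htrL1] at h1
    exact h1
  have hgen : IntermediateField.adjoin L (Set.range (algebraMap K Λ)) = ⊤ := by
    rw [eq_top_iff]
    rintro z -
    have h1 : (IntermediateField.adjoin L (Set.range (algebraMap K Λ))).map Λ.val = Λ := by
      rw [IntermediateField.adjoin_map]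
      congr 1
      ext f
      constructor
      · rintro ⟨_, ⟨k, rfl⟩, rfl⟩
        exact ⟨k, rfl⟩
      · rintro ⟨k, rfl⟩
        exact ⟨_, ⟨k, rfl⟩, rfl⟩
    have h2 : (z : RatFunc L) ∈ (IntermediateField.adjoin L (Set.range (algebraMap K Λ))).map
        Λ.val := by rw [h1]; exact z.2
    obtain ⟨z', hz', hzz⟩ := h2
    have h3 : z' = z := Subtype.ext hzz
    rw [← h3]; exact hz'
  have hfg : IntermediateField.adjoin L ((Set.range fun l => algebraMap K Λ (x l)) ∪
      Set.range fun j => algebraMap K Λ (f j)) = ⊤ := by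
    rw [eq_top_iff, ← hgen, IntermediateField.adjoin_le_iff]
    rintro _ ⟨k, rfl⟩
    have hk : k ∈ IntermediateField.adjoin ℂ (Set.range x ∪ Set.range f) := by
      rw [hgenK]; trivial
    have h1 : IntermediateField.adjoin ℂ (Set.range x ∪ Set.range f) ≤
        ((IntermediateField.adjoin L ((Set.range fun l => algebraMap K Λ (x l)) ∪
          Set.range fun j => algebraMap K Λ (f j))).restrictScalars
          ℂ).comap (IsScalarTower.toAlgHom ℂ K Λ) := by
      rw [IntermediateField.adjoin_le_iff]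
      rintro _ (⟨l, rfl⟩ | ⟨j, rfl⟩)
      · exact IntermediateField.subset_adjoin L _ (Or.inl ⟨l, rfl⟩)
      · exact IntermediateField.subset_adjoin L _ (Or.inr ⟨j, rfl⟩)
    exact h1 hk
  -- the main estimate
  have key : ∀ w : Valuation Λ ℤᵐ⁰, (∀ c : L, c ≠ 0 → w (algebraMap L Λ c) = 1) →
      ∀ A : ValuationSubring (RatFunc L),
        (∀ z : Λ, algebraMap Λ (RatFunc L) z ∈ A ↔ z ∈ w.valuationSubring) →
        (∀ c : L, algebraMap L (RatFunc L) c ∈ A) := by
    intro w hw A hA c
    rw [← hiL, hA]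
    change w _ ≤ 1
    by_cases hc : c = 0
    · rw [hc, map_zero, map_zero]; exact zero_le
    · exact (hw c hc).le
  have keyv : ∀ w : Valuation Λ ℤᵐ⁰, ∀ A : ValuationSubring (RatFunc L),
        (∀ z : Λ, algebraMap Λ (RatFunc L) z ∈ A ↔ z ∈ w.valuationSubring) →
        ∀ k : K, (w.comap (algebraMap K Λ)) k ≤ 1 ↔ algebraMap K (RatFunc L) k ∈ A := by
    intro w A hA k
    rw [← hiK, hA, Valuation.comap_apply]
    rfl
  have hcent : ∀ w : Valuation Λ ℤᵐ⁰, ∀ A : ValuationSubring (RatFunc L),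
        (∀ z : Λ, algebraMap Λ (RatFunc L) z ∈ A ↔ z ∈ w.valuationSubring) →
        (∀ q : L[X], algebraMap L[X] (RatFunc L) q ∈ A) → Cent x (w.comap (algebraMap K Λ)) := by
    intro w A hA hq l
    rw [keyv w A hA, hP]
    exact hq _
  refine ⟨D * d, d, Λ, inferInstance, inferInstance, inferInstance, inferInstance, inferInstance,
    inferInstance, (Algebra.norm Λ κ)⁻¹ ^ D * (Algebra.norm Λ (algebraMap L[X] (RatFunc L) F))⁻¹,
    ?_, hd1, ?_, htrΛ, ?_, hgen, ?_⟩
  · exact Nat.mul_pos hD1 hd1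
  · exact mul_ne_zero (pow_ne_zero _ (inv_ne_zero hnorm0)) (inv_ne_zero hnormF)
  · exact ⟨_, (Set.finite_range _).union (Set.finite_range _), hfg⟩
  · intro w hw θ hθ
    -- the element `z` with `|z| = size`
    obtain ⟨z₁, hz₁, q₁, hq₁D, hq₁⟩ : ∃ z : K, size x (w.comap (algebraMap K Λ)) =
        w (algebraMap K Λ z) ∧ ∃ q : L[X], q.natDegree ≤ DP ∧
          algebraMap K (RatFunc L) z = algebraMap L[X] (RatFunc L) q := by
      rcases b6_size_eq x (w.comap (algebraMap K Λ)) with ⟨-, h⟩ | ⟨l, h, -⟩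
      · refine ⟨1, ?_, 1, ?_, ?_⟩
        · rw [h, map_one, map_one]
        · rw [natDegree_one]; exact Nat.zero_le _
        · rw [map_one, map_one]
      · exact ⟨x l, h, P l, hDP l, hP l⟩
    obtain ⟨z₂, hz₂, q₂, hq₂D, hq₂⟩ : ∃ z : K, size f (w.comap (algebraMap K Λ)) =
        w (algebraMap K Λ z) ∧ ∃ q : L[X], q.natDegree ≤ DQ ∧
          algebraMap K (RatFunc L) z * algebraMap L[X] (RatFunc L) F =
            algebraMap L[X] (RatFunc L) q := by
      rcases b6_size_eq f (w.comap (algebraMap K Λ)) with ⟨-, h⟩ | ⟨l, h, -⟩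
      · refine ⟨1, ?_, F, hDF, ?_⟩
        · rw [h, map_one, map_one]
        · rw [map_one, one_mul]
      · exact ⟨f l, h, Q l, hDQ l, hQ l⟩
    have hz : size x (w.comap (algebraMap K Λ)) * size f (w.comap (algebraMap K Λ)) =
        w (algebraMap K Λ (z₁ * z₂)) := by rw [hz₁, hz₂, map_mul, map_mul]
    have hqD : (q₁ * q₂).natDegree ≤ D :=
      natDegree_mul_le.trans ((add_le_add hq₁D hq₂D).trans (Nat.le_succ _))
    have hq : algebraMap K (RatFunc L) (z₁ * z₂) * algebraMap L[X] (RatFunc L) F =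
        algebraMap L[X] (RatFunc L) (q₁ * q₂) := by
      rw [map_mul, mul_assoc, hq₂, hq₁, ← map_mul]
    generalize z₁ * z₂ = z at hz hq
    generalize q₁ * q₂ = q at hqD hq
    have hmem := h5_norm (Λ := Λ) (E := RatFunc L) w.valuationSubring
      (algebraMap K Λ (z * Ψ θ ^ D)) (κ ^ D * algebraMap L[X] (RatFunc L) F) (fun A hA => by
        have hκθ := hκ θ
        have hprod : algebraMap Λ (RatFunc L) (algebraMap K Λ (z * Ψ θ ^ D)) *
            (κ ^ D * algebraMap L[X] (RatFunc L) F) =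
            algebraMap L[X] (RatFunc L) q *
              (detForm K (fun j => extDer (famDer δ (e j))) θ) ^ D := by
          rw [hκθ, hiK, map_mul, map_pow, ← hq, mul_pow]; ring
        rw [hprod]
        rcases h5_class A (key w hw A hA) with h | ⟨p, hp⟩ | h
        · exact h _
        · have h1 := h5_fin δ e x P hP p (w.comap (algebraMap K Λ)) (fun a => by
            rw [keyv w A hA, hp]) θ hθ
          rw [hp, map_mul, map_pow]
          exact mul_le_one' (p.valuation_le_one _) (pow_le_one' h1 D)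
        · have h1 := h5_inf δ e x (w.comap (algebraMap K Λ)) (fun a => by
            rw [keyv w A hA, h]) θ hθ
          rw [h, map_mul, map_pow]
          have h2 : RatFunc.inftyValuation L (algebraMap L[X] (RatFunc L) q) ≤ exp (D : ℤ) := by
            by_cases hq0 : q = 0
            · rw [hq0, map_zero, map_zero]; exact zero_le
            · rw [RatFunc.inftyValuation_apply, RatFunc.inftyValuation.polynomial _ hq0, exp_le_exp]
              exact_mod_cast hqD
          calc RatFunc.inftyValuation L (algebraMap L[X] (RatFunc L) q) *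
                RatFunc.inftyValuation L (detForm K (fun j => extDer (famDer δ (e j))) θ) ^ D
              ≤ exp (D : ℤ) * exp (-1) ^ D := mul_le_mul' h2 (pow_le_pow_left' h1 D)
            _ = 1 := by
              rw [← exp_nsmul, ← exp_add]
              simp)
    have h1 : w (algebraMap K Λ (z * Ψ θ ^ D) ^ d *
        Algebra.norm Λ (κ ^ D * algebraMap L[X] (RatFunc L) F)) ≤ 1 := hmem
    have hwn : w (Algebra.norm Λ κ) ≠ 0 := by rwa [Ne, Valuation.zero_iff]
    have hwF : w (Algebra.norm Λ (algebraMap L[X] (RatFunc L) F)) ≠ 0 := by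
      rwa [Ne, Valuation.zero_iff]
    rw [map_mul (Algebra.norm Λ), map_mul, map_mul, map_pow, map_pow, map_pow, map_mul, map_mul,
      map_pow, map_pow, ← hz] at h1
    rw [map_mul, map_pow, map_inv₀, map_inv₀, inv_pow]
    have h2 : 0 < w (Algebra.norm Λ κ) ^ D * w (Algebra.norm Λ (algebraMap L[X] (RatFunc L) F)) := by
      rw [zero_lt_iff]; exact mul_ne_zero (pow_ne_zero _ hwn) hwF
    rw [← mul_le_mul_iff_of_pos_right h2, ← mul_inv, inv_mul_cancel₀ h2.ne', pow_mul]
    rw [mul_pow (size x _ * size f _)] at h1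
    exact h1

end Pool.Agent.Lib.MP_410da7_agV
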