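import Pool.Agent.Lib.MP_410da7_agV.Cut

/-!
# MP_410da7_ag, version 3 (C46): polynomial curves on a projective variety which miss a divisor
-/

set_option autoImplicit false

namespace Pool.Agent.Lib.MP_410da7_agV

open Cardinal
open MvPolynomial (aeval IsHomogeneous)

variable {K : Type} [Field K] [Algebra ℂ K] {M s : ℕ}

/-- A polynomial curve (over `A`) on the projective variety with homogeneous coordinates `Y`, which
misses the divisor `{PE = 0}` and is not constant. -/
structure Line (A : Type) [CommRing A] [Algebra ℂ A] (Y : Fin (M + 1) → K)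
    (PE : Fin (s + 1) → MvPolynomial (Fin (M + 1)) ℂ) (W : Fin (M + 1) → Polynomial A) : Prop where
  rel : ∀ (d : ℕ) (P : MvPolynomial (Fin (M + 1)) ℂ), P.IsHomogeneous d → aeval Y P = 0 →
    aeval W P = 0
  unit : IsUnit ((W 0).coeff 0)
  nonconst : ∃ l i, IsUnit ((W l).coeff i * (W 0).coeff 0 - (W 0).coeff i * (W l).coeff 0)
  miss : ∃ c : Fin (s + 1) → Polynomial A, ∑ j, c j * aeval W (PE j) = 1

theorem Line.map {A : Type} [CommRing A] [Algebra ℂ A] {Y : Fin (M + 1) → K}
    {PE : Fin (s + 1) → MvPolynomial (Fin (M + 1)) ℂ} {W : Fin (M + 1) → Polynomial A}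
    (h : Line A Y PE W) {B : Type} [CommRing B] [Algebra ℂ B] (g : A →ₐ[ℂ] B) :
    Line B Y PE (fun l => (W l).map g) := by
  have hae : ∀ P : MvPolynomial (Fin (M + 1)) ℂ,
      aeval (fun l => (W l).map (g : A →+* B)) P = (aeval W P).map (g : A →+* B) := by
    intro P
    have h1 := MvPolynomial.comp_aeval_apply (R := ℂ) (Polynomial.mapAlgHom g) (f := W) P
    exact h1.symm
  refine ⟨fun d P hP h0 => ?_, ?_, ?_, ?_⟩
  · rw [hae, h.rel d P hP h0, Polynomial.map_zero]
  · rw [Polynomial.coeff_map]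
    exact h.unit.map g
  · obtain ⟨l, i, h1⟩ := h.nonconst
    refine ⟨l, i, ?_⟩
    simp only [Polynomial.coeff_map]
    have h2 := h1.map g
    simpa using h2
  · obtain ⟨c, hc⟩ := h.miss
    refine ⟨fun j => (c j).map g, ?_⟩
    have h1 := congrArg (Polynomial.map (g : A →+* B)) hc
    rw [Polynomial.map_sum, Polynomial.map_one] at h1
    rw [← h1]
    refine Finset.sum_congr rfl fun j _ => ?_
    rw [Polynomial.map_mul, hae]

theorem hom_smul {B : Type} [CommRing B] [Algebra ℂ B] (W : Fin (M + 1) → B) (a : B) {d : ℕ}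
    {P : MvPolynomial (Fin (M + 1)) ℂ} (hP : P.IsHomogeneous d) :
    aeval (fun l => a * W l) P = a ^ d * aeval W P := by
  rw [MvPolynomial.aeval_def, MvPolynomial.aeval_def, MvPolynomial.eval₂_eq',
    MvPolynomial.eval₂_eq', Finset.mul_sum]
  refine Finset.sum_congr rfl fun m hm => ?_
  have h1 : m.degree = d := by
    have := hP (MvPolynomial.mem_support_iff.mp hm)
    rw [← this]
    simp [Finsupp.degree, Finsupp.weight_apply, Finsupp.sum]
  have h2 : ∏ i, (a * W i) ^ m i = a ^ d * ∏ i, W i ^ m i := by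
    simp only [mul_pow]
    rw [Finset.prod_mul_distrib, Finset.prod_pow_eq_pow_sum, ← h1, Finsupp.degree_eq_sum]
  rw [h2]; ring

/-- The homogenization with respect to the coordinate `0`. -/
theorem exists_homog (P : MvPolynomial (Fin (M + 1)) ℂ) :
    ∃ (d : ℕ) (G : MvPolynomial (Fin (M + 1)) ℂ), G.IsHomogeneous d ∧
      ∀ (B : Type) [CommRing B] [Algebra ℂ B] (u : Bˣ) (W : Fin (M + 1) → B), W 0 = u →
        aeval W G = (u : B) ^ d * aeval (fun l => ((u⁻¹ : Bˣ) : B) * W l) P := by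
  let d := P.totalDegree
  refine ⟨d, ∑ i ∈ Finset.range (d + 1), MvPolynomial.X 0 ^ (d - i) *
    MvPolynomial.homogeneousComponent i P, ?_, ?_⟩
  · refine IsHomogeneous.sum _ _ _ fun i hi => ?_
    have h1 : i ≤ d := Nat.lt_succ_iff.1 (Finset.mem_range.1 hi)
    have h2 : ((MvPolynomial.X 0 : MvPolynomial (Fin (M + 1)) ℂ) ^ (d - i)).IsHomogeneous (d - i) := by
      simpa using (MvPolynomial.isHomogeneous_X ℂ (0 : Fin (M + 1))).pow (d - i)
    have h3 := h2.mul (MvPolynomial.homogeneousComponent_isHomogeneous i P)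
    rwa [Nat.sub_add_cancel h1] at h3
  · intro B _ _ u W hW
    have h0 : P = ∑ i ∈ Finset.range (d + 1), MvPolynomial.homogeneousComponent i P :=
      (MvPolynomial.sum_homogeneousComponent P).symm
    conv_rhs => rw [h0]
    rw [map_sum, map_sum, Finset.mul_sum]
    refine Finset.sum_congr rfl fun i hi => ?_
    have h1 : i ≤ d := Nat.lt_succ_iff.1 (Finset.mem_range.1 hi)
    rw [map_mul, map_pow, MvPolynomial.aeval_X, hW,
      hom_smul W _ (MvPolynomial.homogeneousComponent_isHomogeneous i P)]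
    have h2 : (u : B) ^ d = (u : B) ^ (d - i) * (u : B) ^ i := by
      rw [← pow_add, Nat.sub_add_cancel h1]
    have h3 : (u : B) ^ i * ((u⁻¹ : Bˣ) : B) ^ i = 1 := by
      rw [← mul_pow, Units.mul_inv, one_pow]
    calc (u : B) ^ (d - i) * aeval W (MvPolynomial.homogeneousComponent i P)
        = (u : B) ^ (d - i) * ((u : B) ^ i * ((u⁻¹ : Bˣ) : B) ^ i) *
          aeval W (MvPolynomial.homogeneousComponent i P) := by rw [h3, mul_one]
      _ = _ := by rw [h2]; ring

/-- The homomorphism given by a point. -/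
theorem exists_hom {Y : Fin (M + 1) → K} (hY0 : Y 0 = 1) {B : Type} [CommRing B] [Algebra ℂ B]
    (u : Bˣ) (W : Fin (M + 1) → B) (hW : W 0 = u)
    (hrel : ∀ (d : ℕ) (P : MvPolynomial (Fin (M + 1)) ℂ), P.IsHomogeneous d → aeval Y P = 0 →
      aeval W P = 0) :
    ∃ ψ : Algebra.adjoin ℂ (Set.range Y) →ₐ[ℂ] B, ∀ (P : MvPolynomial (Fin (M + 1)) ℂ)
      (h : aeval Y P ∈ Algebra.adjoin ℂ (Set.range Y)),
      ψ ⟨aeval Y P, h⟩ = aeval (fun l => ((u⁻¹ : Bˣ) : B) * W l) P := by
  have hker : ∀ P : MvPolynomial (Fin (M + 1)) ℂ, aeval Y P = 0 →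
      aeval (fun l => ((u⁻¹ : Bˣ) : B) * W l) P = 0 := by
    intro P hP
    obtain ⟨d, G, hG, h1⟩ := exists_homog P
    have h2 := h1 K 1 Y (by rw [hY0]; rfl)
    have h3 : aeval Y G = 0 := by
      rw [h2]
      simp only [inv_one, Units.val_one, one_mul, one_pow]
      exact hP
    have h4 := h1 B u W hW
    rw [hrel d G hG h3] at h4
    have h5 := (u ^ d).isUnit.mul_right_eq_zero.1 (show ((u ^ d : Bˣ) : B) *
      aeval (fun l => ((u⁻¹ : Bˣ) : B) * W l) P = 0 by rw [Units.val_pow_eq_pow_val]; exact h4.symm)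
    exact h5
  have hr : (aeval Y : MvPolynomial (Fin (M + 1)) ℂ →ₐ[ℂ] K).range =
      Algebra.adjoin ℂ (Set.range Y) := (Algebra.adjoin_range_eq_range_aeval ℂ Y).symm
  let f : MvPolynomial (Fin (M + 1)) ℂ →ₐ[ℂ] Algebra.adjoin ℂ (Set.range Y) :=
    (aeval Y).codRestrict _ (fun P => by rw [← hr]; exact ⟨P, rfl⟩)
  have hf : Function.Surjective f := by
    rintro ⟨a, ha⟩
    have ha' := ha
    rw [← hr] at ha'
    obtain ⟨P, hP⟩ := ha'
    exact ⟨P, Subtype.ext hP⟩
  have hfk : ∀ P, f P = 0 ↔ aeval Y P = 0 := fun P => by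
    rw [← Subtype.coe_inj]; rfl
  let ψ := AlgHom.liftOfSurjective f hf
    (aeval (fun l => ((u⁻¹ : Bˣ) : B) * W l)) (fun P hP => by
      rw [RingHom.mem_ker] at hP ⊢
      exact hker P ((hfk P).1 hP))
  refine ⟨ψ, fun P h => ?_⟩
  have h1 : f P = ⟨aeval Y P, h⟩ := rfl
  rw [← h1]
  exact AlgHom.liftOfSurjective_apply f hf _ _ P

end Pool.Agent.Lib.MP_410da7_agV
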