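import Pool.Agent.Lib.MP_410da7_agV.Line

/-!
# MP_410da7_ag, version 3 (C46): from a curve through the generic point to a covering family
-/

set_option autoImplicit false

namespace Pool.Agent.Lib.MP_410da7_agV

open Cardinal
open MvPolynomial (aeval IsHomogeneous)
open Pool.Agent.Lib.MP_410da7_agA (h1Aux.exists_quot)

variable {K : Type} [Field K] [Algebra ℂ K] {M s : ℕ}

/-- The quotients of polynomials in the coordinates. -/
theorem isFractionRing_adjoin {S : Set K} (hS : IntermediateField.adjoin ℂ S = ⊤) :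
    IsFractionRing (Algebra.adjoin ℂ S) K := by
  refine IsFractionRing.of_field _ _ fun z => ?_
  have hz : z ∈ IntermediateField.adjoin ℂ S := by rw [hS]; trivial
  obtain ⟨a, ha, b, hb, h⟩ := IntermediateField.mem_adjoin_iff_div.1 hz
  exact ⟨⟨a, ha⟩, ⟨b, hb⟩, h⟩

/-- Descent to a finitely generated algebra. -/
theorem Line.descend {Ω' : Type} [Field Ω'] [Algebra ℂ Ω'] {Y : Fin (M + 1) → K}
    {PE : Fin (s + 1) → MvPolynomial (Fin (M + 1)) ℂ} {W : Fin (M + 1) → Polynomial Ω'}
    (h : Line Ω' Y PE W) : ∃ A : Subalgebra ℂ Ω', Algebra.FiniteType ℂ A ∧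
      ∃ WA : Fin (M + 1) → Polynomial A, Line A Y PE WA ∧ ∀ l, (WA l).map A.val.toRingHom = W l := by
  classical
  obtain ⟨l₀, i₀, hu1⟩ := h.nonconst
  obtain ⟨c, hc⟩ := h.miss
  set b : Ω' := (W l₀).coeff i₀ * (W 0).coeff 0 - (W 0).coeff i₀ * (W l₀).coeff 0 with hb
  let T : Finset Ω' := (Finset.univ.biUnion fun l => (W l).coeffs) ∪
    (Finset.univ.biUnion fun j => (c j).coeffs) ∪ {((W 0).coeff 0)⁻¹, b⁻¹}
  let A := Algebra.adjoin ℂ (T : Set Ω')
  have hA : Algebra.FiniteType ℂ A :=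
    (Subalgebra.fg_iff_finiteType _).mp (Subalgebra.fg_adjoin_finset T)
  have hT : ∀ a ∈ T, a ∈ A := fun a ha => Algebra.subset_adjoin ha
  have hlift : ∀ p : Polynomial Ω', (∀ i, p.coeff i ≠ 0 → p.coeff i ∈ A) →
      ∃ q : Polynomial A, q.map A.val.toRingHom = p := by
    intro p hp
    have h2 : p ∈ Polynomial.lifts A.val.toRingHom := by
      rw [Polynomial.lifts_iff_coeff_lifts]
      intro i
      by_cases hi : p.coeff i = 0
      · exact ⟨0, by rw [hi, map_zero]⟩
      · exact ⟨⟨p.coeff i, hp i hi⟩, rfl⟩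
    obtain ⟨q, hq⟩ := h2
    exact ⟨q, hq⟩
  have hW : ∀ l, ∃ q : Polynomial A, q.map A.val.toRingHom = W l := fun l =>
    hlift _ fun i hi => hT _ (Finset.mem_union_left _ (Finset.mem_union_left _
      (Finset.mem_biUnion.2 ⟨l, Finset.mem_univ _, Polynomial.coeff_mem_coeffs hi⟩)))
  have hc' : ∀ j, ∃ q : Polynomial A, q.map A.val.toRingHom = c j := fun j =>
    hlift _ fun i hi => hT _ (Finset.mem_union_left _ (Finset.mem_union_right _
      (Finset.mem_biUnion.2 ⟨j, Finset.mem_univ _, Polynomial.coeff_mem_coeffs hi⟩)))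
  choose WA hWA using hW
  choose cA hcA using hc'
  have hinj : Function.Injective (Polynomial.map A.val.toRingHom) :=
    Polynomial.map_injective _ Subtype.coe_injective
  have hae : ∀ P : MvPolynomial (Fin (M + 1)) ℂ,
      (aeval WA P).map A.val.toRingHom = aeval W P := by
    intro P
    have h1 := MvPolynomial.comp_aeval_apply (R := ℂ) (Polynomial.mapAlgHom A.val) (f := WA) P
    have h2 : (fun l => (Polynomial.mapAlgHom A.val) (WA l)) = W := funext hWA
    rw [h2] at h1
    exact h1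
  have hcf : ∀ l i, (((WA l).coeff i : A) : Ω') = (W l).coeff i := by
    intro l i
    rw [← hWA l, Polynomial.coeff_map]
    rfl
  have hunit : ∀ a : A, (a : Ω')⁻¹ ∈ T → (a : Ω') ≠ 0 → IsUnit a := by
    intro a ha h0
    refine IsUnit.of_mul_eq_one ⟨_, hT _ ha⟩ (Subtype.ext ?_)
    exact mul_inv_cancel₀ h0
  refine ⟨A, hA, WA, ⟨?_, ?_, ⟨l₀, i₀, ?_⟩, ⟨cA, ?_⟩⟩, hWA⟩
  · intro d P hP h0
    apply hinj
    rw [hae, h.rel d P hP h0, Polynomial.map_zero]
  · apply hunit
    · rw [hcf]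
      exact Finset.mem_union_right _ (Finset.mem_insert_self _ _)
    · rw [hcf]
      exact h.unit.ne_zero
  · have h3 : (((WA l₀).coeff i₀ * (WA 0).coeff 0 - (WA 0).coeff i₀ * (WA l₀).coeff 0 : A) : Ω') =
        b := by
      rw [hb, ← hcf, ← hcf, ← hcf, ← hcf]
      rfl
    apply hunit
    · rw [h3]
      exact Finset.mem_union_right _ (Finset.mem_insert_of_mem (Finset.mem_singleton_self _))
    · rw [h3]
      exact hu1.ne_zero
  · apply hinj
    rw [Polynomial.map_sum, Polynomial.map_one, ← hc]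
    refine Finset.sum_congr rfl fun j _ => ?_
    rw [Polynomial.map_mul, hae, hcA]

end Pool.Agent.Lib.MP_410da7_agV
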