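import Pool.Agent.Lib.MP_410da7_agV.SpecE
import Pool.Agent.Lib.MP_410da7_agA.L.SpecDL

/-!
# MP_410da7_ag, version 3 (X projective over an affine variety): definitions over the function field

`K` is the function field of `X ⊆ 𝔸^N × ℙ^r`, `y : Ix N r → K` the bihomogeneous coordinates, normalized by
`x_0 = f_0 = 1`; `Xbar ⊆ ℙ^N × ℙ^r` is the closure of `X`, `D = Xbar ∖ X = {x_0 = 0}` (reduced), and `H` is
the restriction of `O(1, 1)`. A `ℤ`-valued valuation has a center on `X` if and only if the `x_l` are in its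
valuation ring.
-/

set_option autoImplicit false

namespace Pool.Agent.Lib.MP_410da7_agV

open MvPolynomial KaehlerDifferential WithZero Module
open Pool.Agent.Lib.MP_410da7_ag (regDiff logDiff)
open Pool.Agent.Lib.MP_410da7_agA (Triv size Cent Frame kSize)

section

variable {K : Type} [Field K] [Algebra ℂ K]

/-- The local ring at the center of `v` of the affine variety with coordinate functions `s`: the
quotients `P(s)/Q(s)`, `v(Q(s)) = 1`. -/
def locRing {ι : Type} (s : ι → K) (v : Valuation K ℤᵐ⁰) : Subalgebra ℂ K where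
  carrier := {f | ∃ P Q : MvPolynomial ι ℂ, v (aeval s Q) = 1 ∧ f * aeval s Q = aeval s P}
  mul_mem' := by
    rintro f g ⟨P, Q, hQ, hf⟩ ⟨P', Q', hQ', hg⟩
    refine ⟨P * P', Q * Q', by rw [map_mul, map_mul, hQ, hQ', one_mul], ?_⟩
    rw [map_mul, map_mul, ← hf, ← hg]
    ring
  add_mem' := by
    rintro f g ⟨P, Q, hQ, hf⟩ ⟨P', Q', hQ', hg⟩
    refine ⟨P * Q' + P' * Q, Q * Q', by rw [map_mul, map_mul, hQ, hQ', one_mul], ?_⟩
    rw [map_mul, map_add, map_mul, map_mul, ← hf, ← hg]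
    ring
  algebraMap_mem' := by
    intro c
    exact ⟨C c, 1, by rw [map_one, map_one], by rw [map_one, mul_one, aeval_C]⟩

variable {N r : ℕ}

/-- The coordinates `x_l`. -/
def xs (y : Ix N r → K) : Fin (N + 1) → K := fun l => y (Sum.inl l)

/-- The coordinates `f_l`. -/
def fs (y : Ix N r → K) : Fin (r + 1) → K := fun l => y (Sum.inr l)

/-- The affine coordinates `x_l/x_b`, `f_l/f_c` on the chart `x_b f_c ≠ 0`. -/
noncomputable def affC (y : Ix N r → K) (b : Fin (N + 1)) (c : Fin (r + 1)) : Ix N r → K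
  | Sum.inl l => y (Sum.inl l) / y (Sum.inl b)
  | Sum.inr l => y (Sum.inr l) / y (Sum.inr c)

/-- At the center of `v` the variety `Xbar ⊆ ℙ^N × ℙ^r` with bihomogeneous coordinates `y` is smooth of
dimension `n` with local coordinates `z_1, ..., z_n`, the divisor `x_0 = 0` is `∏ z_i^{λ_i} = 0`, and its
support `D` is defined by `∏_{λ_i ≥ 1} z_i`. (`|x_b|` and `|f_c|` are maximal.) -/
structure LSAt {n : ℕ} (y : Ix N r → K) (b : Fin (N + 1)) (c : Fin (r + 1))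
    (v : Valuation K ℤᵐ⁰) (z : Fin n → K) (lam : Fin n → ℕ) : Prop where
  neb : y (Sum.inl b) ≠ 0
  nec : y (Sum.inr c) ≠ 0
  maxb : ∀ l, v (y (Sum.inl l)) ≤ v (y (Sum.inl b))
  maxc : ∀ l, v (y (Sum.inr l)) ≤ v (y (Sum.inr c))
  mem : ∀ i, z i ∈ locRing (affC y b c) v
  coord : Submodule.span (locRing (affC y b c) v) {ω : Ω[locRing (affC y b c) v⁄ℂ] |
    ∃ i, ∃ h : z i ∈ locRing (affC y b c) v, ω = D ℂ (locRing (affC y b c) v) ⟨z i, h⟩} = ⊤
  bd : ∃ u ∈ locRing (affC y b c) v, v u = 1 ∧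
    y (Sum.inl 0) / y (Sum.inl b) = u * ∏ i, z i ^ lam i
  rad : ∀ f ∈ locRing (affC y b c) v, ∀ m : ℕ,
    (∃ g ∈ locRing (affC y b c) v, f ^ m = g * (y (Sum.inl 0) / y (Sum.inl b))) →
    ∃ g ∈ locRing (affC y b c) v, f = g * ∏ i, if lam i = 0 then 1 else z i

/-- `Xbar` is smooth and `D` has simple normal crossings. -/
def LogSmooth (n : ℕ) (y : Ix N r → K) : Prop :=
  ∀ v : Valuation K ℤᵐ⁰, Triv v → ∃ (b : Fin (N + 1)) (c : Fin (r + 1)) (z : Fin n → K)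
    (lam : Fin n → ℕ), LSAt y b c v z lam

/-- `max |x_l| max |f_l|`: the size of `H`. -/
noncomputable def sz (y : Ix N r → K) (v : Valuation K ℤᵐ⁰) : ℤᵐ⁰ := size (xs y) v * size (fs y) v

/-- The sections of `m (K + D) + e H`. -/
def Sec {n : ℕ} (Ψ : Ω[K⁄ℂ] [⋀^Fin n]→ₗ[K] K) (y : Ix N r → K) (m e : ℕ) : Set K :=
  {F | ∀ v : Valuation K ℤᵐ⁰, Triv v →
    ∃ θ : Fin n → Ω[K⁄ℂ], Frame (xs y) v θ ∧ v F ≤ sz y v ^ e * v (Ψ θ) ^ m}

/-- The setting. -/
structure Sit {n : ℕ} (Ψ : Ω[K⁄ℂ] [⋀^Fin n]→ₗ[K] K) (y : Ix N r → K) : Prop where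
  yx : y (Sum.inl 0) = 1
  yf : y (Sum.inr 0) = 1
  gen : IntermediateField.adjoin ℂ (Set.range y) = ⊤
  trdeg : Algebra.trdeg ℂ K = n
  Ψ0 : Ψ ≠ 0

/-- A covering family of curves on `Xbar` which is negative for `K + D` (the generic curve has function
field `Λ` over `L`): the section `a` of `m₀ (K + D) + e₀ H`, restricted to the curve, has no zero. -/
structure NegCurve {n : ℕ} (Ψ : Ω[K⁄ℂ] [⋀^Fin n]→ₗ[K] K) (y : Ix N r → K) (m₀ e₀ : ℕ)
    (L Λ : Type) [Field L] [Field Λ] [Algebra ℂ L] [Algebra L Λ] [Algebra K Λ] [Algebra ℂ Λ]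
    [IsScalarTower ℂ L Λ] [IsScalarTower ℂ K Λ] (a : Λ) : Prop where
  m0 : 1 ≤ m₀
  e0 : 1 ≤ e₀
  a0 : a ≠ 0
  trdeg : Algebra.trdeg L Λ = 1
  fg : ∃ T : Set Λ, T.Finite ∧ IntermediateField.adjoin L T = ⊤
  gen : IntermediateField.adjoin L (Set.range (algebraMap K Λ)) = ⊤
  neg : ∀ w : Valuation Λ ℤᵐ⁰, (∀ c : L, c ≠ 0 → w (algebraMap L Λ c) = 1) →
    ∀ (b : Fin (N + 1)) (c : Fin (r + 1)) (z : Fin n → K) (lam : Fin n → ℕ),
      LSAt y b c (w.comap (algebraMap K Λ)) z lam →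
      sz y (w.comap (algebraMap K Λ)) ^ e₀ * kSize Ψ (w.comap (algebraMap K Λ)) z lam ^ m₀ ≤ w a

/-- `K + D` is not pseudo-effective: for some `δ ≥ 1`, `m (K + D) + e H` has no sections for
`e δ < m`. -/
def NotPsef {n : ℕ} (Ψ : Ω[K⁄ℂ] [⋀^Fin n]→ₗ[K] K) (y : Ix N r → K) : Prop :=
  ∃ δ : ℕ, 1 ≤ δ ∧ ∀ m e : ℕ, e * δ < m → ∀ F ∈ Sec Ψ y m e, F = 0

/-- A curve `𝔸¹ → X` through the generic point, not constant, over an extension `Λ'` of `K`. -/
def GenCurve (y : Ix N r → K) : Prop :=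
  ∃ (Λ' : Type) (_ : Field Λ') (_ : Algebra ℂ Λ') (_ : Algebra K Λ') (_ : IsScalarTower ℂ K Λ')
    (Y : Ix N r → Polynomial Λ'), Y (Sum.inl 0) = 1 ∧ (∀ l, (Y l).coeff 0 = algebraMap K Λ' (y l)) ∧
    Moves Y ∧ ∀ (P : MvPolynomial (Ix N r) ℂ) (e : ℕ × ℕ), BiHom P e → aeval y P = 0 → aeval Y P = 0

/-- `X` is `𝔸¹`-uniruled: there are an affine variety with coordinate ring `B`, of dimension `n - 1`, and
a dominant morphism `g` from its product with `𝔸¹` to `X`, given by functions `g(x_l) ∈ B[t]` and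
functions `g(f_l) ∈ B[t]` which generate the unit ideal (a bihomogeneous polynomial vanishes on the image
if and only if it vanishes on `X`), not constant on the general line. -/
def A1UniruledV (n : ℕ) (y : Ix N r → K) : Prop :=
  ∃ (B : Type) (_ : CommRing B) (_ : IsDomain B) (_ : Algebra ℂ B),
    Algebra.FiniteType ℂ B ∧ Algebra.trdeg ℂ B + 1 = n ∧
    ∃ g : Ix N r → Polynomial B, g (Sum.inl 0) = 1 ∧
      Ideal.span (Set.range fun l => g (Sum.inr l)) = ⊤ ∧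
      (∀ (P : MvPolynomial (Ix N r) ℂ) (e : ℕ × ℕ), BiHom P e →
        (aeval g P = 0 ↔ aeval y P = 0)) ∧
      ∃ l l', wt l = wt l' ∧
        g l * Polynomial.C ((g l').coeff 0) ≠ g l' * Polynomial.C ((g l).coeff 0)

end

end Pool.Agent.Lib.MP_410da7_agV
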