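import Mathlib

/-!
# C46, version 3 (T1): the bubble block

A family of maps into projective space with an unbounded coordinate, expanded in a power series at a
point where the value is fixed, degenerates to a nonconstant rational curve through this value. The
result is `BubStmt`. `Ω` is an algebraically closed field with an archimedean valuation ring `𝒱`
(`G3RStmt`: existence). Notation in the docstrings: `|x| = 𝒱.valuation x`, `|x| = nrm x` for vectors.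

Vectors `c_0, c_1, ...` (the coefficient vectors of a polynomial vector at a center), radius `|τ|`: the
index `k` is dominating at the radius `|τ|` if `|c_k| |τ|^k` is maximal and not zero (`Dom`). A vector
`x` is good if its direction reduces to the direction of `y`: `|x ∧ y| < |x|` (`Good`).
-/

set_option autoImplicit false

namespace Pool.Agent.Lib.MP_410da7_agV

open Polynomial

section Defs

variable {Ω : Type} [Field Ω] (𝒱 : ValuationSubring Ω)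

/-- The norm of a vector. -/
noncomputable def nrm {ι : Type} [Fintype ι] (x : ι → Ω) : 𝒱.ValueGroup :=
  Finset.univ.sup fun l => 𝒱.valuation (x l)

/-- The `2 × 2` minors. -/
def wd {R : Type} [CommRing R] {N : ℕ} (x y : Fin N → R) (p : Fin N × Fin N) : R :=
  x p.1 * y p.2 - x p.2 * y p.1

/-- The vector `x` is good: it is not zero and its direction reduces to the one of `y`. -/
def Good {N : ℕ} (y x : Fin N → Ω) : Prop := nrm 𝒱 (wd x y) < nrm 𝒱 x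

/-- The index `k` dominates at the radius `|τ|`. -/
def Dom {N : ℕ} (c : ℕ → Fin N → Ω) (τ : Ω) (k : ℕ) : Prop :=
  nrm 𝒱 (c k) ≠ 0 ∧
    ∀ j, nrm 𝒱 (c j) * 𝒱.valuation τ ^ j ≤ nrm 𝒱 (c k) * 𝒱.valuation τ ^ k

/-- The coefficient vectors of a polynomial vector. -/
def co {N : ℕ} (p : Fin N → Polynomial Ω) (k : ℕ) : Fin N → Ω := fun l => (p l).coeff k

/-- The polynomial vector with the center `a`. -/
noncomputable def sh {N : ℕ} (a : Ω) (p : Fin N → Polynomial Ω) : Fin N → Polynomial Ω :=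
  fun l => (p l).comp (X + C a)

/-- The residue (`0` outside the valuation ring). -/
noncomputable def rd (x : Ω) : IsLocalRing.ResidueField 𝒱 := by
  classical
  exact if h : x ∈ 𝒱 then IsLocalRing.residue 𝒱 ⟨x, h⟩ else 0

/-- The residue map on the constants. -/
noncomputable def redk {k : Type} [Field k] [Algebra k Ω] (hk : ∀ c : k, algebraMap k Ω c ∈ 𝒱) :
    k →+* IsLocalRing.ResidueField 𝒱 :=
  (IsLocalRing.residue 𝒱).comp ((algebraMap k Ω).codRestrict 𝒱.toSubring hk)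

end Defs

/-! ## Tropical lemmas -/

/-- Trop. Vectors `c_0, ..., c_J`, a property `G` of indices. If at the radius `|τ₀|` all dominating
indices are in `G`, and at a larger radius `|τ₁|` some dominating index is not in `G`, then there is a
radius between with a dominating index `k` not in `G` such that the smallest dominating index `j` is in
`G` and is less than `k`.
PROOF. (U) If `k` dominates at the radius `|σ|` and `|τ| ≤ |σ|` then `|c_i| |τ|^i ≤ |c_k| |τ|^k` for all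
`i ≥ k`. Let `k` be the smallest index not in `G` which dominates at some radius `|σ|` with
`|τ₀| ≤ |σ| ≤ |τ₁|`. Some `c_i`, `i < k`, is not zero: otherwise `k` dominates at `|τ₀|` by (U), so
`G k`. For `i < k` with `c_i ≠ 0` choose `ρ_i ∈ Ω` with `ρ_i^(k-i)` = quotient of the entries of `c_i`
and `c_k` of maximal absolute value (`IsAlgClosed`), so `|ρ_i|^(k-i) = |c_i|/|c_k|`. Let `|ρ_{i₁}|` be
maximal, `τ = ρ_{i₁}`. (a) `|c_i| ≤ |c_k| |τ|^(k-i)` for `i < k`, equality for `i₁`. (b) `|τ| ≤ |σ|`: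
`|τ|^(k-i₁) = |c_{i₁}|/|c_k| ≤ |σ|^(k-i₁)`. (c) With (U): `k` and `i₁` dominate at `|τ|`. (d)
`|τ₀| ≤ |τ|`: if `|τ| < |τ₀|` then (a) holds for `τ₀` and (U) holds for `τ₀`, so `k` dominates at
`|τ₀|`, contradiction to `¬ G k`. (e) Let `j` be the smallest dominating index at `|τ|`: `j ≤ i₁ < k`,
and `G j` by the minimality of `k`. -/
def TropStmt : Prop :=
  ∀ (Ω : Type) [Field Ω] [IsAlgClosed Ω] (𝒱 : ValuationSubring Ω) (N J : ℕ) (c : ℕ → Fin N → Ω)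
    (G : ℕ → Prop) (τ₀ τ₁ : Ω), (∀ k, J < k → c k = 0) → τ₀ ≠ 0 →
    𝒱.valuation τ₀ ≤ 𝒱.valuation τ₁ → (∀ k, Dom 𝒱 c τ₀ k → G k) →
    (∃ k, Dom 𝒱 c τ₁ k ∧ ¬ G k) →
    ∃ (τ : Ω) (j k : ℕ), τ ≠ 0 ∧ 𝒱.valuation τ₀ ≤ 𝒱.valuation τ ∧
      𝒱.valuation τ ≤ 𝒱.valuation τ₁ ∧ j < k ∧ Dom 𝒱 c τ j ∧ Dom 𝒱 c τ k ∧ G j ∧ ¬ G k ∧
      ∀ i < j, ¬ Dom 𝒱 c τ i

/-- TropR. The same with decreasing radii and largest indices.
PROOF. `TropStmt` for `c'_i = c_{J-i}` (`i ≤ J`, and `0` for `i > J`), `G' i = G (J - i)`, and the radii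
`|τ₀⁻¹| ≤ |τ₁⁻¹|`: since `|c_{J-i}| |τ|^(J-i) = |τ|^J |c'_i| |τ⁻¹|^i`, `Dom c' τ⁻¹ i ↔ Dom c τ (J - i)`
for `i ≤ J` and `τ ≠ 0`, and no index `> J` dominates. -/
def TropRStmt : Prop :=
  ∀ (Ω : Type) [Field Ω] [IsAlgClosed Ω] (𝒱 : ValuationSubring Ω) (N J : ℕ) (c : ℕ → Fin N → Ω)
    (G : ℕ → Prop) (τ₀ τ₁ : Ω), (∀ k, J < k → c k = 0) → τ₁ ≠ 0 →
    𝒱.valuation τ₁ ≤ 𝒱.valuation τ₀ → (∀ k, Dom 𝒱 c τ₀ k → G k) →
    (∃ k, Dom 𝒱 c τ₁ k ∧ ¬ G k) →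
    ∃ (τ : Ω) (j k : ℕ), τ ≠ 0 ∧ 𝒱.valuation τ₁ ≤ 𝒱.valuation τ ∧
      𝒱.valuation τ ≤ 𝒱.valuation τ₀ ∧ k < j ∧ Dom 𝒱 c τ j ∧ Dom 𝒱 c τ k ∧ G j ∧ ¬ G k ∧
      ∀ i, j < i → ¬ Dom 𝒱 c τ i

/-- Root. A polynomial with `|g_m| > ...`: there is a root `a` with `|a|^m |g_m| ≤ |g_0|`.
PROOF. `ρ^m = g_0/g_m`. CLAIM: if `h` is a product of linear factors and a constant, `h_0 ≠ 0`, and all
roots `a` of `h` satisfy `|ρ| < |a|`, then `|h_i| |ρ|^i ≤ |h_0|` for all `i`, and `<` for `i ≥ 1`.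
Induction on the degree: `h = (X - a) q`, `h_0 = - a q_0`, `h_{i+1} = q_i - a q_{i+1}`:
`|q_i| |ρ|^(i+1) ≤ |q_0| |ρ| < |q_0| |a| = |h_0|` and `|a q_{i+1}| |ρ|^(i+1) < |a| |q_0| = |h_0|`. If
no root of `g` has `|a| ≤ |ρ|`, the claim for `i = m` contradicts `|g_m| |ρ|^m = |g_0|`. -/
def RootStmt : Prop :=
  ∀ (Ω : Type) [Field Ω] [IsAlgClosed Ω] (𝒱 : ValuationSubring Ω) (g : Polynomial Ω) (m : ℕ), 1 ≤ m →
    g.coeff 0 ≠ 0 → g.coeff m ≠ 0 →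
    ∃ a : Ω, g.eval a = 0 ∧
      𝒱.valuation a ^ m * 𝒱.valuation (g.coeff m) ≤ 𝒱.valuation (g.coeff 0)

/-! ## Change of center -/

/-- Rec. The Gauss norm at the radius `|τ|` is not increased by a change of the center by `a`,
`|a| ≤ |τ|` (also with strict inequalities).
PROOF. `taylor_coeff`, `hasseDeriv`: the coefficient of `X^k` of `g(X + a)` is
`∑_{j ≥ k} binom(j,k) g_j a^(j-k)`, and `|binom(j,k)| ≤ 1`, `|g_j a^(j-k)| |τ|^k ≤ |g_j| |τ|^j`. -/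
def RecStmt : Prop :=
  ∀ (Ω : Type) [Field Ω] (𝒱 : ValuationSubring Ω) (g : Polynomial Ω) (a τ : Ω) (M : 𝒱.ValueGroup),
    𝒱.valuation a ≤ 𝒱.valuation τ →
    ((∀ k, 𝒱.valuation (g.coeff k) * 𝒱.valuation τ ^ k ≤ M) →
      ∀ k, 𝒱.valuation ((g.comp (X + C a)).coeff k) * 𝒱.valuation τ ^ k ≤ M) ∧
    (0 < M → (∀ k, 𝒱.valuation (g.coeff k) * 𝒱.valuation τ ^ k < M) →
      ∀ k, 𝒱.valuation ((g.comp (X + C a)).coeff k) * 𝒱.valuation τ ^ k < M)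

/-- Idx. The maximum of the absolute values of the coefficients, and an index `m ≤ B` where it is
taken, for the center `a`, `|a| < 1`.
PROOF. The coefficient of `X^k` of `p_l(X + a)` is `∑_{j ≥ k} binom(j,k) p_{l,j} a^(j-k)`, absolute value
`≤ |θ|`. For `|p_{l,m}| = |θ|`: the terms with `j > m` have absolute value `≤ |θ| |a| < |θ|`, so the
coefficient of `X^m` of `p_l(X + a)` has the absolute value `|θ|`. -/
def IdxStmt : Prop :=
  ∀ (Ω : Type) [Field Ω] (𝒱 : ValuationSubring Ω) (ι : Type) (p : ι → Polynomial Ω) (θ a : Ω) (B : ℕ),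
    θ ≠ 0 → 𝒱.valuation a < 1 → (∀ l k, 𝒱.valuation ((p l).coeff k) ≤ 𝒱.valuation θ) →
    (∃ l, ∃ m ≤ B, 𝒱.valuation ((p l).coeff m) = 𝒱.valuation θ) →
    (∀ l k, 𝒱.valuation (((p l).comp (X + C a)).coeff k) ≤ 𝒱.valuation θ) ∧
      ∃ l, ∃ m ≤ B, 𝒱.valuation (((p l).comp (X + C a)).coeff m) = 𝒱.valuation θ

/-! ## The disc -/

/-- Disc. `p` is a polynomial vector with `p(0) = y`, `λ(y)` is a unit, `a` is a root of `λ(p)`,
`|a| < 1`, `p(a) ≠ 0`. There is a disc with center `0` or `a` and radius `|τ| ≤ |a|` where some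
dominating index is bad, and the smallest (center `0`) or largest (center `a`) dominating index is good.
PROOF. Let `J` be larger than all degrees. CASE 1: there is `τ₁ ≠ 0`, `|τ₁| ≤ |a|`, and an index
dominating at `|τ₁|` (for `co p`) which is not good. `τ₀ = τ₁/θ`: `|τ₀| |θ| = |τ₁| < 1`, so for `i ≥ 1`
`|p_i| |τ₀|^i ≤ |θ| |τ₀| < 1 = |y| = |p_0|` (`|y| = 1`: `1 = |λ(y)| ≤ |y| ≤ 1`): only `0` dominates at
`|τ₀|`, and it is good: `y ∧ y = 0`. `TropStmt` with `G k = Good y (co p k)`: the first alternative.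
CASE 2: all indices dominating at radii `≤ |a|` (center `0`) are good. Let `M = max |p_k| |a|^k`
(`≥ |p_0| = 1`). For all `k`, `|p_k ∧ y| |a|^k < M` (good if dominating, and `|p_k ∧ y| ≤ |p_k|`
otherwise). By `RecStmt` (strict form, for the polynomials `p_l y_{l'} - p_{l'} y_l`, center `a`,
`τ = a`): `|P_k ∧ y| |a|^k < M`, `P = sh a p`; and `max |P_k| |a|^k = M` (`RecStmt` for `a` and `- a`).
So all indices dominating at `|a|` for `co P` are good. `P_0 = p(a) ≠ 0` and `λ(P_0) = 0`, so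
`λ(y) P_{0,l} = ∑_i λ_i (y_i P_{0,l} - P_{0,i} y_l)`: `|P_0| ≤ |P_0 ∧ y|`: `P_0` is not good. It
dominates at the radius of `τ₁ = a P_{0,l}/θ`, `|P_{0,l}| = |P_0| (≤ |θ|)`: `|τ₁| ≤ |a| < 1`, and
`|P_i| |τ₁|^i ≤ |θ| |τ₁| = |a| |P_0| < |P_0|` for `i ≥ 1` (`|P_i| ≤ |θ|` as in `IdxStmt`).
`TropRStmt` with `τ₀ = a`: the second alternative. -/
def DiscStmt : Prop :=
  ∀ (Ω : Type) [Field Ω] [IsAlgClosed Ω] (𝒱 : ValuationSubring Ω) (N : ℕ) (p : Fin N → Polynomial Ω)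
    (y lam : Fin N → Ω) (θ a : Ω), (∀ l, (p l).coeff 0 = y l) → (∀ l, 𝒱.valuation (y l) ≤ 1) →
    (∀ l, 𝒱.valuation (lam l) ≤ 1) → 𝒱.valuation (∑ l, lam l * y l) = 1 →
    1 < 𝒱.valuation θ → (∀ l k, 𝒱.valuation ((p l).coeff k) ≤ 𝒱.valuation θ) →
    a ≠ 0 → 𝒱.valuation a < 1 → ∑ l, lam l * (p l).eval a = 0 → (∃ l, (p l).eval a ≠ 0) →
    (∃ (τ : Ω) (j k : ℕ), τ ≠ 0 ∧ 𝒱.valuation τ ≤ 𝒱.valuation a ∧ j < k ∧
      Dom 𝒱 (co p) τ j ∧ Dom 𝒱 (co p) τ k ∧ Good 𝒱 y (co p j) ∧ ¬ Good 𝒱 y (co p k) ∧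
      ∀ i < j, ¬ Dom 𝒱 (co p) τ i) ∨
    (∃ (τ : Ω) (j k : ℕ), τ ≠ 0 ∧ 𝒱.valuation τ ≤ 𝒱.valuation a ∧ k < j ∧
      Dom 𝒱 (co (sh a p)) τ j ∧ Dom 𝒱 (co (sh a p)) τ k ∧ Good 𝒱 y (co (sh a p) j) ∧
      ¬ Good 𝒱 y (co (sh a p) k) ∧ ∀ i, j < i → ¬ Dom 𝒱 (co (sh a p)) τ i)

/-! ## The linear form, the certificate, the equations -/

/-- Lam. A linear form over an infinite field which does not vanish at `y` and at `ρ`.
PROOF. `y_l ≠ 0`, `ρ_{l'} ≠ 0`. If `ρ_l ≠ 0` take the coordinate `l`; if `y_{l'} ≠ 0` take the coordinate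
`l'`; otherwise (`ρ_l = 0`, `y_{l'} = 0`) take the sum of the two coordinates. (So infinite is not even
needed.) -/
def LamStmt : Prop :=
  ∀ (k κ : Type) [Field k] [Field κ] (φ : k →+* κ) (N : ℕ) (y : Fin N → k) (ρ : Fin N → κ),
    (∃ l, y l ≠ 0) → (∃ l, ρ l ≠ 0) →
    ∃ lam : Fin N → k, ∑ l, lam l * y l ≠ 0 ∧ ∑ l, φ (lam l) * ρ l ≠ 0

/-- Cert. The choice of the truncation. `H`, `u` are vectors of power series with bounded
coefficients and `∑ u_l H_l = Δ ≠ 0`. For a suitable `J`, for all `a` with `|a|^B |θ| ≤ 1`: the value at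
`a` of the truncation `p` of `H` to the degrees `≤ J` is bounded from below by `|δ|`, with
`|θ|^D |a|^(J+1) < |δ|^D`.
PROOF. May assume `U ≠ 0` (else all `u_l = 0`, `Δ = 0`). Let `δ = Δ/U` if `|Δ| ≤ |U|`, else `δ = 1`.
By the archimedean property there is `K` with `|U| < |θ|^(K-1) |Δ|` and `1 < |θ|^(K-D) |δ|^D`
(`K > D`). `J = B K + B`. For `|a|^B |θ| ≤ 1` (so `B ≥ 1`, `|a| < 1`): `|a|^(J+1) |θ|^K ≤ 1`. So
`|θ|^D |a|^(J+1) ≤ |θ|^D / |θ|^K < |δ|^D`. Let `p_l`, `v_l` be the truncations of `H_l`, `u_l` to the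
degrees `≤ J`. `∑ v_l p_l = Δ + e`, `e` a polynomial with coefficients only in the degrees `> J`,
bounded by `|U| |θ|` (compare the coefficients of degree `≤ J` with those of `∑ u_l H_l`). So
`|e(a)| ≤ |U| |θ| |a|^(J+1) ≤ |U| |θ| / |θ|^K < |Δ|`, `|∑ v_l(a) p_l(a)| = |Δ|`, and some
`|p_l(a)| ≥ |Δ|/|U|` since `|v_l(a)| ≤ |U|`. -/
def CertStmt : Prop :=
  ∀ (Ω : Type) [Field Ω] (𝒱 : ValuationSubring Ω),
    (∀ x y : Ω, 1 < 𝒱.valuation x → ∃ n : ℕ, 𝒱.valuation y ≤ 𝒱.valuation x ^ n) →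
    ∀ (N B D : ℕ) (H u : Fin N → PowerSeries Ω) (θ U Δ : Ω), 1 < 𝒱.valuation θ →
    (∀ l m, 𝒱.valuation (PowerSeries.coeff m (H l)) ≤ 𝒱.valuation θ) →
    (∀ l m, 𝒱.valuation (PowerSeries.coeff m (u l)) ≤ 𝒱.valuation U) → Δ ≠ 0 →
    ∑ l, u l * H l = PowerSeries.C Δ →
    ∃ J : ℕ, B ≤ J ∧ ∀ a : Ω, 𝒱.valuation a ^ B * 𝒱.valuation θ ≤ 1 →
      ∃ δ : Ω, δ ≠ 0 ∧ 𝒱.valuation δ ≤ 1 ∧
        (∃ l, 𝒱.valuation δ ≤ 𝒱.valuation ((PowerSeries.trunc (J + 1) (H l)).eval a)) ∧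
        𝒱.valuation θ ^ D * 𝒱.valuation a ^ (J + 1) < 𝒱.valuation δ ^ D

/-- EqB. The equations for the truncation. `F` is homogeneous of degree `d` and `F(H) = 0`; then for
the truncation `p` of `H` the Gauss norm of `F(p)` on discs of center `c` and radius `|τ|`,
`|c|, |τ| ≤ |a| ≤ 1`, is at most `|θ|^d |a|^(J+1)`.
PROOF. `G = F(p) ∈ Polynomial Ω`. (1) `G ≡ F(H) = 0` modulo `X^(J+1)` in `Ω[[X]]` (`p_l ≡ H_l`): the
coefficients of degree `≤ J` are `0`. (2) All coefficients have absolute value `≤ |θ|^d`: a product of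
`d` polynomials with coefficients `≤ |θ|`, times constants of `k`. (3) So `|G_i| |a|^i ≤ |θ|^d |a|^(J+1)`
for all `i`. (4) `RecStmt` with the radius `|a|` and the center `c`, and `|τ| ≤ |a|`. -/
def EqBStmt : Prop :=
  ∀ (k Ω : Type) [Field k] [Field Ω] [Algebra k Ω] (𝒱 : ValuationSubring Ω),
    (∀ c : k, algebraMap k Ω c ∈ 𝒱) → ∀ (N d J : ℕ) (F : MvPolynomial (Fin N) k),
    F.IsHomogeneous d → ∀ (H : Fin N → PowerSeries Ω) (θ a c τ : Ω), 1 ≤ 𝒱.valuation θ →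
    (∀ l m, 𝒱.valuation (PowerSeries.coeff m (H l)) ≤ 𝒱.valuation θ) →
    MvPolynomial.eval₂ ((PowerSeries.C : Ω →+* PowerSeries Ω).comp (algebraMap k Ω)) H F = 0 →
    𝒱.valuation a ≤ 1 → 𝒱.valuation c ≤ 𝒱.valuation a → 𝒱.valuation τ ≤ 𝒱.valuation a →
    ∀ i, 𝒱.valuation ((MvPolynomial.aeval
      (fun l => (PowerSeries.trunc (J + 1) (H l)).comp (X + C c)) F : Polynomial Ω).coeff i) *
      𝒱.valuation τ ^ i ≤ 𝒱.valuation θ ^ d * 𝒱.valuation a ^ (J + 1)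

/-! ## Reduction -/

/-- Red. Reduction of a polynomial vector on a disc. `|n|` is a bound for `P` on the disc of radius
`|τ|`, and the homogeneous equations `F_j` of degree `d_j` hold for `P` up to terms `< |n|^(d_j)`.
PROOF. `Q_l = P_l(τ X)/n ∈ 𝒱[X]` (coefficients `P_{l,i} τ^i/n`), `F_j(Q) = F_j(P)(τ X)/n^(d_j)` by
homogeneity, with coefficients in the maximal ideal. `E_l` = coefficientwise residue of `Q_l`; residue
is a ring homomorphism `𝒱[X] → κ[X]`, so `F_j(E) = 0`. -/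
def RedStmt : Prop :=
  ∀ (k Ω : Type) [Field k] [Field Ω] [Algebra k Ω] (𝒱 : ValuationSubring Ω)
    (hk : ∀ c : k, algebraMap k Ω c ∈ 𝒱) (N κ : ℕ) (F : Fin κ → MvPolynomial (Fin N) k)
    (d : Fin κ → ℕ), (∀ j, (F j).IsHomogeneous (d j)) → ∀ (P : Fin N → Polynomial Ω) (τ n : Ω), n ≠ 0 →
    (∀ l i, 𝒱.valuation ((P l).coeff i * τ ^ i) ≤ 𝒱.valuation n) →
    (∀ j i, 𝒱.valuation ((MvPolynomial.aeval P (F j) : Polynomial Ω).coeff i * τ ^ i) <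
      𝒱.valuation n ^ d j) →
    ∃ E : Fin N → (IsLocalRing.ResidueField 𝒱)[X],
      (∀ j, MvPolynomial.eval₂ (Polynomial.C.comp (redk 𝒱 hk)) E (F j) = 0) ∧
      ∀ l i, (E l).coeff i = rd 𝒱 ((P l).coeff i * τ ^ i / n)

/-- RdGood. Residues of good and bad vectors. `|x| = |n|`, `n ≠ 0`, `|y| ≤ 1`: `x/n` has a nonzero
residue, and the residue is proportional to the residue of `y` iff `x` is good (`|y| = 1`).
PROOF. (1) some `|x_l| = |n|`, so `x_l/n` is a unit of `𝒱`. (2) `|x ∧ y| < |x| = |n|` iff all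
`(x_l y_{l'} - x_{l'} y_l)/n` are in the maximal ideal iff their residues
`rd(x_l/n) rd(y_{l'}) - rd(x_{l'}/n) rd(y_l)` vanish (`rd` is additive and multiplicative on `𝒱`). -/
def RdGoodStmt : Prop :=
  ∀ (Ω : Type) [Field Ω] (𝒱 : ValuationSubring Ω) (N : ℕ) (x y : Fin N → Ω) (n : Ω), n ≠ 0 →
    nrm 𝒱 x = 𝒱.valuation n → (∀ l, 𝒱.valuation (y l) ≤ 1) →
    (∃ l, rd 𝒱 (x l / n) ≠ 0) ∧
    (Good 𝒱 y x ↔ ∀ q, wd (fun l => rd 𝒱 (x l / n)) (fun l => rd 𝒱 (y l)) q = 0)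

/-- Low. Normalisation at `s = 0`: divide by `s^j` and by a constant.
PROOF. All `E_l` are divisible by `X^j`: `E_l = X^j E''_l` (`Polynomial.divX` or `X_pow_dvd_iff`),
`E' = μ⁻¹ E''`. `F(E) = X^(jd) μ^d F(E')` for `F` homogeneous of degree `d`, and `κ[X]` is a domain.
`wd` is homogeneous of degree one in `E`. -/
def LowStmt : Prop :=
  ∀ (k κ : Type) [Field k] [Field κ] (φ : k →+* κ) (N ν : ℕ) (F : Fin ν → MvPolynomial (Fin N) k)
    (d : Fin ν → ℕ), (∀ j, (F j).IsHomogeneous (d j)) → ∀ (E : Fin N → κ[X]) (y : Fin N → κ)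
    (j : ℕ) (μ : κ), (∀ i, MvPolynomial.eval₂ (Polynomial.C.comp φ) E (F i) = 0) →
    (∀ l, ∀ i < j, (E l).coeff i = 0) → μ ≠ 0 → (∀ l, (E l).coeff j = μ * y l) →
    (∃ q, wd E (fun l => C (y l)) q ≠ 0) →
    ∃ E' : Fin N → κ[X], (∀ i, MvPolynomial.eval₂ (Polynomial.C.comp φ) E' (F i) = 0) ∧
      (∀ l, (E' l).coeff 0 = y l) ∧ (∀ l, (E' l).natDegree ≤ (E l).natDegree) ∧
      ∃ q, wd E' (fun l => C (y l)) q ≠ 0

/-- Rev. Normalisation at `s = ∞`: `E'(s) = μ⁻¹ s^j E(1/s)`.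
PROOF. `E' l = C μ⁻¹ * reflect j (E l)`. For `F` homogeneous of degree `d`:
`F(reflect j E) = reflect (d j) (F(E))` (`reflect_mul` for monomials, additivity), so `F(E') = 0`.
`wd (reflect j E) y = reflect j (wd E y)` and `reflect` is injective. -/
def RevStmt : Prop :=
  ∀ (k κ : Type) [Field k] [Field κ] (φ : k →+* κ) (N ν : ℕ) (F : Fin ν → MvPolynomial (Fin N) k)
    (d : Fin ν → ℕ), (∀ j, (F j).IsHomogeneous (d j)) → ∀ (E : Fin N → κ[X]) (y : Fin N → κ)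
    (j : ℕ) (μ : κ), (∀ i, MvPolynomial.eval₂ (Polynomial.C.comp φ) E (F i) = 0) →
    (∀ l, ∀ i, j < i → (E l).coeff i = 0) → μ ≠ 0 → (∀ l, (E l).coeff j = μ * y l) →
    (∃ q, wd E (fun l => C (y l)) q ≠ 0) →
    ∃ E' : Fin N → κ[X], (∀ i, MvPolynomial.eval₂ (Polynomial.C.comp φ) E' (F i) = 0) ∧
      (∀ l, (E' l).coeff 0 = y l) ∧ (∀ l, (E' l).natDegree ≤ j) ∧
      ∃ q, wd E' (fun l => C (y l)) q ≠ 0

/-! ## The end of the block -/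

/-- Bub. THE BUBBLE LEMMA.
PROOF. `θ`, `m ≤ B` with `|coeff_m(H_l)| = |θ|` for some `l`. `m ≥ 1` because the constant terms have
absolute value `≤ 1`. `ρ_l = rd(coeff_m(H_l)/θ)`, not all zero. `LamStmt`: `lam` with `λ(y) ≠ 0`,
`λ(ρ) ≠ 0`. `CertStmt` with `D` = maximum of the `d_j` (or their sum): `J`. `p_l = trunc_{J+1} H_l`,
`g = ∑ lam_l p_l`: `|g_0| = |λ(y)| = 1`, `|g_m| = |θ|` (as `λ(ρ) ≠ 0`). `RootStmt`: `a` with `g(a) = 0`
and `|a|^m |θ| ≤ 1`, so `|a| < 1`, `|a|^B |θ| ≤ |a|^m |θ| ≤ 1`, and `a ≠ 0` as `g_0 ≠ 0`. `CertStmt`: `δ`.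
`DiscStmt` (`lam`, `y` mapped to `Ω`): a center `c = 0` or `c = a`, `P = sh c p` (`sh 0 p = p`), `τ`,
`j`, `k`. Choose `n ∈ Ω` with `|n| = |P_j| |τ|^j = |P_k| |τ|^k` = the maximum of the `|P_i| |τ|^i`
(`n` = entry of `P_j` of maximal absolute value times `τ^j`). `|n| ≥ |P_0| ≥ |δ|` (center `a`:
`P_0 = p(a)`; center `0`: `|P_0| = |y| = 1 ≥ |δ|`). `EqBStmt` with `θ`, `a`, `c`, `τ`: the equations hold
up to `|θ|^(d_j) |a|^(J+1) ≤ |θ|^D |a|^(J+1) < |δ|^D ≤ |δ|^(d_j) ≤ |n|^(d_j)` (`|δ| ≤ 1 ≤ |θ|`).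
`RedStmt`: `E`. `RdGoodStmt` for `x = P_j τ^j` and `x = P_k τ^k` (good is invariant under scaling):
the coefficient vector `E_j` of `X^j` is nonzero and proportional to `ȳ = red(y)`, so `= μ ȳ`, `μ ≠ 0`;
`E_k` is not proportional to `ȳ`, so some `wd E ȳ ≠ 0`. The coefficients of `E` at non-dominating
indices vanish. DEGREES (`IdxStmt` for the center `a`; for the center `0` they are the hypotheses,
`trunc` with `B ≤ J`): for `i > B`, `|P_i| |τ|^i ≤ |θ| |τ|^i < |θ| |τ|^m ≤ |n|` (`0 < |τ| < 1`), so the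
coefficient `i` of `E_l` is zero: `deg E_l ≤ B`. For `l ∈ A`, `i > B'`: `|P_{l,i}| |τ|^i ≤ |θ'| |τ|^i <
|θ'| |τ|^(m') ≤ |n|`: `deg E_l ≤ B'`. Center `0`: `LowStmt`. Center `a`: `RevStmt`, with
`j ≤ B` and `j ≤ B'` because the coefficient `j` of `E_l` is `μ ȳ_l ≠ 0` for the `l ∈ A` with
`y_l ≠ 0`. If `𝒱.valuation θ' = 1` nothing changes (`B' = 0` is allowed). -/
def BubStmt : Prop :=
  ∀ (k Ω : Type) [Field k] [Field Ω] [Algebra k Ω] [IsAlgClosed Ω] (𝒱 : ValuationSubring Ω)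
    (hk : ∀ c : k, algebraMap k Ω c ∈ 𝒱),
    (∀ x y : Ω, 1 < 𝒱.valuation x → ∃ n : ℕ, 𝒱.valuation y ≤ 𝒱.valuation x ^ n) →
    ∀ (N ν : ℕ) (A : Set (Fin N)) (F : Fin ν → MvPolynomial (Fin N) k) (d : Fin ν → ℕ),
    (∀ j, (F j).IsHomogeneous (d j)) → ∀ (y : Fin N → k), (∃ l ∈ A, y l ≠ 0) →
    ∀ (H : Fin N → PowerSeries Ω),
    (∀ l, PowerSeries.coeff 0 (H l) = algebraMap k Ω (y l)) →
    (∀ j, MvPolynomial.eval₂ ((PowerSeries.C : Ω →+* PowerSeries Ω).comp (algebraMap k Ω)) H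
      (F j) = 0) →
    ∀ (θ : Ω) (B : ℕ), 1 < 𝒱.valuation θ →
    (∀ l m, 𝒱.valuation (PowerSeries.coeff m (H l)) ≤ 𝒱.valuation θ) →
    (∃ l, ∃ m ≤ B, 𝒱.valuation (PowerSeries.coeff m (H l)) = 𝒱.valuation θ) →
    ∀ (θ' : Ω) (B' : ℕ), θ' ≠ 0 →
    (∀ l ∈ A, ∀ m, 𝒱.valuation (PowerSeries.coeff m (H l)) ≤ 𝒱.valuation θ') →
    (∃ l ∈ A, ∃ m ≤ B', 𝒱.valuation (PowerSeries.coeff m (H l)) = 𝒱.valuation θ') →
    ∀ (u : Fin N → PowerSeries Ω) (U Δ : Ω), Δ ≠ 0 →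
    (∀ l m, 𝒱.valuation (PowerSeries.coeff m (u l)) ≤ 𝒱.valuation U) →
    ∑ l, u l * H l = PowerSeries.C Δ →
    ∃ E : Fin N → (IsLocalRing.ResidueField 𝒱)[X],
      (∀ j, MvPolynomial.eval₂ (Polynomial.C.comp (redk 𝒱 hk)) E (F j) = 0) ∧
      (∀ l, (E l).natDegree ≤ B) ∧ (∀ l ∈ A, (E l).natDegree ≤ B') ∧
      (∀ l, (E l).coeff 0 = redk 𝒱 hk (y l)) ∧
      ∃ q, wd E (fun l => C (redk 𝒱 hk (y l))) q ≠ 0

/-- G3R. Existence of an archimedean valuation ring (compare `G3Stmt`).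
PROOF. As `g3` (G3.lean): `S = k[a]/𝔓`, `Ω` an algebraic closure of `Frac S`, `s_v` transcendental over
`k`. Extend `{s_v}` to a transcendence basis `T` of `Ω` over `k`, `k₁ = k(T \ {s_v})`: `s_v` is
transcendental over `k₁`, `Ω` is algebraic over `k₁(s_v)`. `s_v` is not integral over `k₁`:
`Subring.exists_le_valuationSubring_of_isIntegrallyClosedIn` for the integral closure of `k₁` in `Ω`
gives `𝒱 ⊇ k₁`, `s_v ∉ 𝒱`. ARCHIMEDEAN: for `c ∈ k₁[s_v]` nonzero `|c| = |s_v|^(deg c)` (`k₁^*` are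
units, `|s_v| > 1`). A nonzero `y ∈ Ω` satisfies `∑ c_i y^i = 0`, `c_i ∈ k₁[s_v]` not all zero; two
nonzero terms have the same absolute value, so `|y|^n = |s_v|^e` with `n ≥ 1`, `e ∈ ℤ`. If `|x| > 1`,
`|x|^n = |s_v|^e`, then `e ≥ 1`, `|s_v| ≤ |x|^n`; and `|y|^(n') = |s_v|^(e')` gives `|y| ≤ 1` or
`|y| ≤ |y|^(n') = |s_v|^(e') ≤ |x|^(n e')`. -/
def G3RStmt : Prop :=
  ∀ (k V : Type) [Field k] [Fintype V] (𝔓 : Ideal (MvPolynomial V k)), 𝔓.IsPrime →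
    𝔓 ≤ RingHom.ker (MvPolynomial.constantCoeff : MvPolynomial V k →+* k) →
    𝔓 ≠ RingHom.ker (MvPolynomial.constantCoeff : MvPolynomial V k →+* k) →
    ∃ (Ω : Type) (_ : Field Ω) (_ : IsAlgClosed Ω) (_ : Algebra k Ω) (s : V → Ω)
      (𝒱 : ValuationSubring Ω), (∀ p, p ∈ 𝔓 ↔ MvPolynomial.aeval s p = 0) ∧
      (∀ c : k, algebraMap k Ω c ∈ 𝒱) ∧ (∃ v, s v ∉ 𝒱) ∧
      ∀ x y : Ω, 1 < 𝒱.valuation x → ∃ n : ℕ, 𝒱.valuation y ≤ 𝒱.valuation x ^ n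

end Pool.Agent.Lib.MP_410da7_agV
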