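import Pool.Agent.Lib.MP_410da7_agV.Defs

/-!
# MP_410da7_ag, version 3: blocks F and G

As `Pool.Agent.Lib.MP_410da7_agA.SpecF` (V2 below), for bihomogeneous coordinates. Every statement is a
`def ... : Prop`; a task proves `theorem <name> : <Stmt>` (or `theorem <name> (h : <OtherStmt>) : <Stmt>`)
in its own module. The theorems of V2 (f1, f2, f4, f5, f6, f8, ...; files `MP_410da7_agA/F1.lean`, ...) can
be imported and used, and their proofs can be copied and adapted.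
-/

set_option autoImplicit false

namespace Pool.Agent.Lib.MP_410da7_agV

open MvPolynomial Module
open Pool.Agent.Lib.MP_410da7_agA (Curve ptDiv mx ext push FixedBy)

/-! ## Block F: the dimension count -/

/-- FV7. As F7 (`MP_410da7_agA/F7.lean`).
PROOF. It is `- (g(h) - g(Y)) F_j(h) + ∑ (A_{j,i}(h) - A_{j,i}(Y)) F_{J₀ i}(h)`, and
`g(h) - g(Y) ∈ mx Λ[a]`. -/
def FV7Stmt : Prop :=
  ∀ (k Λ : Type) [Field k] [Field Λ] [Algebra k Λ] (N r κ ρ : ℕ) (D : Ix N r → ℕ)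
    (F : Fin κ → MvPolynomial (Ix N r) k) (J₀ : Fin ρ → Fin κ) (g : MvPolynomial (Ix N r) k)
    (A : Fin κ → Fin ρ → MvPolynomial (Ix N r) k), (∀ j, g * F j = ∑ i, A j i * F (J₀ i)) →
    ∀ (Y : Ix N r → Λ) (ω : (l : Ix N r) → Fin (D l) → Λ) (J : Ideal (MvPolynomial (Vr D) k)),
    (∀ j, hval Y ω (F j) ∈ ext Λ J) →
    ∀ j, C (aeval Y g) * hval Y ω (F j) - ∑ i, C (aeval Y (A j i)) * hval Y ω (F (J₀ i)) ∈
      ext Λ (mx (Vr D) k * J)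

/-- FV9. The dimension of the space of equations, with a divisor `E_l` for every column `l` of the matrix:
`Jac_{j,l} ∈ L(W - E_l)`, `u` runs through the solutions in `L(W)^κ` of
`g₀ u_j = ∑_i A₀_{j,i} u_{J₀ i}`.
PROOF. As F9 (`MP_410da7_agA/F9.lean`): every `u` is `Jac ξ`, `ξ ∈ Λ^ρ`, and at a point `w` F8 is used for
the matrix over `k((t))` with the columns multiplied by `t^{-E_l(w)}` and for `t^{E_l(w)} ξ_l`, `δ = 0`,
`s = W_w`: the determinant is multiplied by `t^{-∑ E_l(w)}`, so the codimension of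
`{ξ : ord_w ξ_l ≥ - E_l(w)}` is at most `ord_w det - ∑ E_l(w) + ρ W_w ≤ ν_w`. -/
def FV9Stmt : Prop :=
  ∀ (k Λ : Type) [Field k] [Field Λ] [Algebra k Λ] (C : Curve k Λ) (κ ρ : ℕ)
    (Jac : Fin κ → Fin ρ → Λ) (E : Fin ρ → C.pt → ℤ) (W ν : C.pt → ℤ),
    (∀ j l, Jac j l ∈ C.L (W - E l)) →
    (∀ l, FiniteDimensional k (C.L (E l))) → {w | ν w ≠ 0}.Finite →
    (∀ w, ∃ J : Fin ρ → Fin κ, (Matrix.of fun i l => Jac (J i) l).det ≠ 0 ∧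
      C.ord w (Matrix.of fun i l => Jac (J i) l).det + ρ * W w - ∑ l, E l w ≤ ν w) →
    ∀ (g₀ : Λ) (A₀ : Fin κ → Fin ρ → Λ) (J₀ : Fin ρ → Fin κ), g₀ ≠ 0 →
    (Matrix.of fun i l => Jac (J₀ i) l).det ≠ 0 →
    (∀ j l, g₀ * Jac j l = ∑ i, A₀ j i * Jac (J₀ i) l) →
    ∀ (T : Submodule k (Fin κ → Λ)),
    (∀ u, u ∈ T ↔ (∀ j, u j ∈ C.L W) ∧ ∀ j, g₀ * u j = ∑ i, A₀ j i * u (J₀ i)) →
    (finrank k T : ℤ) ≤ ∑ l, (finrank k (C.L (E l)) : ℤ) + ∑ᶠ w, ν w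

/-- FV10. As F10 (`F10.lean`).
PROOF. `G(h) = ∑_e coeff_e(G) ∏_l h_l^{e_l}`, the coefficients of `h_l` are in `L(wt(l))`; a product of
polynomials with coefficients in `L(A)`, `L(B)` has its coefficients in `L(A + B)`, and the sum of the
weights of the factors of a monomial of `G` is the bidegree of `G`. -/
def FV10Stmt : Prop :=
  ∀ (k Λ : Type) [Field k] [Field Λ] [Algebra k Λ] (C : Curve k Λ) (N r : ℕ) (D : Ix N r → ℕ)
    (P Q : C.pt → ℤ) (Y : Ix N r → Λ) (ω : (l : Ix N r) → Fin (D l) → Λ),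
    (∀ l, Y l ∈ C.L (dv P Q (wt l))) → (∀ l j, ω l j ∈ C.L (dv P Q (wt l))) →
    ∀ (G : MvPolynomial (Ix N r) k) (d : ℕ × ℕ), BiHom G d →
    ∀ m, coeff m (hval Y ω G) ∈ C.L (dv P Q d)

/-- FV11. As F11 (`F11.lean`). -/
def FV11Stmt : Prop :=
  ∀ (k Λ : Type) [Field k] [Field Λ] [Algebra k Λ] (C : Curve k Λ) (N r b : ℕ) (D : Ix N r → ℕ)
    (P Q : C.pt → ℤ) (c : Fin b → C.pt), Function.Injective c →
    (∀ w, 0 ≤ P w) → (∀ w, 0 ≤ Q w) → (∀ i, P (c i) = 0) → (∀ i, Q (c i) = 0) →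
    ∀ (Y : Ix N r → Λ) (ω : (l : Ix N r) → Fin (D l) → Λ), (∀ l, Y l ∈ C.L (dv P Q (wt l))) →
    (∀ l j, ω l j ∈ C.L (dv P Q (wt l) - ptDiv c)) →
    ∀ (F : MvPolynomial (Ix N r) k) (d : ℕ × ℕ), BiHom F d → aeval Y F = 0 →
    ∀ m, coeff m (hval Y ω F) ∈ C.L (dv P Q d - ptDiv c)

/-- FV12. As F12 (`F12.lean`). -/
def FV12Stmt : Prop :=
  ∀ (k Λ : Type) [Field k] [Field Λ] [Algebra k Λ] (C : Curve k Λ) (N r μ : ℕ) (D : Ix N r → ℕ)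
    (P Q : C.pt → ℤ) (Y : Ix N r → Λ) (ω : (l : Ix N r) → Fin (D l) → Λ),
    (∀ l, Y l ∈ C.L (dv P Q (wt l))) → (∀ l j, ω l j ∈ C.L (dv P Q (wt l))) →
    ∀ (a : MvPolynomial (Ix N r) k) (e : ℕ × ℕ), BiHom a e → ∀ w : C.pt,
    (∀ i < (μ : ℤ) - dv P Q e w, C.cf w i (aeval Y a) = 0) →
    ∃ G : Set (MvPolynomial (Vr D) k), G.Finite ∧ G.ncard ≤ μ ∧ G ⊆ mx (Vr D) k ∧
      ∀ P' : Ideal (MvPolynomial (Vr D) k), G ⊆ P' →
        ∀ i < (μ : ℤ) - dv P Q e w, push (C.cf w i) (hval Y ω a) ∈ P'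

/-- FV13. The coordinate `x_0` stays equal to `1`.
PROOF. As F13L (`MP_410da7_agA/L/F13L.lean`), simpler. `S = k[a]/𝔓`, `Ω = Frac S`, `ev_w : Λ[a] → Ω((t))`
(`y ↦` expansion at `w`, `a_v ↦` its class). Let `P_w > 0`. From the relation
`ev(x_0(h)) ev(χ(h)) = ∏ ev(a_i(h))^{λ_i} ev(q(h))`. `ev(χ(h))` has order exactly `- dv(e₁)_w`: the lower
coefficients vanish (FV10) and the coefficient in degree `- dv(e₁)_w` is the class of a polynomial whose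
constant term is not zero; `ev(a_i(h))` has order `≥ μ'_i - dv(e_i)_w`, `ev(q(h))` order `≥ - dv(e₂)_w`.
By the degree relation `ev(x_0(h))` has order `≥ ∑ λ_i μ'_i - P_w ≥ 0` (or it is `0`). For `P_w = 0` the
`ω_{0,j}` are regular at `w`. Hence `∑_j cf_w^i(ω_{0,j}) [a_{0,j}] = 0` for all `w`, `i < 0`, and for
`w = c_0`, `i = 0`; conclude as in F13 (linear algebra, F1). -/
def FV13Stmt : Prop :=
  ∀ (k Λ : Type) [Field k] [Field Λ] [Algebra k Λ] (C : Curve k Λ) (N r κ ρ b : ℕ) (d : ℕ × ℕ)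
    (S : System k N r κ ρ d) (Y : Ix N r → Λ) (P Q ℓ μ : C.pt → ℤ) (c₀ : Fin (r + 1)),
    PtData C S Y P Q ℓ μ c₀ → ∀ (c : Fin b → C.pt), Function.Injective c → 0 < b →
    (∀ i, P (c i) = 0) → (∀ i, Q (c i) = 0) →
    ∀ (D : Ix N r → ℕ) (ω : (l : Ix N r) → Fin (D l) → Λ), (∀ l, LinearIndependent k (ω l)) →
    (∀ l j, ω l j ∈ C.L (dv P Q (wt l) - ptDiv c)) →
    ∀ (𝔓 : Ideal (MvPolynomial (Vr D) k)), 𝔓.IsPrime → 𝔓 ≤ mx (Vr D) k →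
    (∀ j, hval Y ω (S.F j) ∈ ext Λ 𝔓) →
    (∀ w, 0 < P w → ∃ (T : LogRel S.F) (μ' : Fin T.s → ℕ), aeval Y T.χ ≠ 0 ∧
      C.ord w (aeval Y T.χ) = - dv P Q T.e₁ w ∧ P w ≤ ∑ i, (T.lam i : ℤ) * μ' i ∧
      ∀ i, ∀ j < (μ' i : ℤ) - dv P Q (T.e i) w, push (C.cf w j) (hval Y ω (T.a i)) ∈ 𝔓) →
    ∀ j, X ⟨Sum.inl 0, j⟩ ∈ 𝔓

/-- FV14. THE FAMILY. `D_l = dim L(wt(l) - c_1 - ... - c_b)`, `ω_l` a basis.
PROOF. As F14L (`MP_410da7_agA/L/F14L.lean`). `U = L(dv(d) - ∑ c_i)` (FV11, F2), `F6` with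
`g₀ = g(Y)`, `A₀ = A(Y)` and `V = Vr D` (FV7); FV9 with `Jac = jac F I₀ Y`, `W = dv(d) - ∑ c_i`,
`E_l = dv(wt(I₀ l)) - ∑ c_i`, `ν = ℓ` (`∂_l F_j` is bihomogeneous of bidegree `d - wt(l)`, or zero, so
`Jac_{j,l} ∈ L(dv(d) - dv(wt(I₀ l)))`, compare FV10 without `h`; the columns satisfy the relations by
differentiating `g F_j = ∑ A F_{J₀}`). The number of equations is `≤ ∑_i D_{I₀ i} + ∑ ℓ`, and FV12 adds at
most `∑ μ` for the finitely many `w` with `P_w > 0`. F5 (`#V = ∑_l D_l`) gives `𝔓`, FV13 the last claim. -/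
def FV14Stmt : Prop :=
  ∀ (k Λ : Type) [Field k] [Field Λ] [Algebra k Λ] (C : Curve k Λ) (N r κ ρ b : ℕ) (d : ℕ × ℕ)
    (S : System k N r κ ρ d) (Y : Ix N r → Λ) (P Q ℓ μ : C.pt → ℤ) (c₀ : Fin (r + 1)),
    PtData C S Y P Q ℓ μ c₀ → ∀ (c : Fin b → C.pt), Function.Injective c → 0 < b →
    (∀ i, P (c i) = 0) → (∀ i, Q (c i) = 0) →
    ∀ (D : Ix N r → ℕ) (ω : (l : Ix N r) → Fin (D l) → Λ), (∀ l, LinearIndependent k (ω l)) →
    (∀ l, Submodule.span k (Set.range (ω l)) = C.L (dv P Q (wt l) - ptDiv c)) →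
    ∑ᶠ w, ℓ w + ∑ᶠ w, μ w + ∑ i, (D (S.I₀ i) : ℤ) < ∑ l, (D l : ℤ) →
    ∃ 𝔓 : Ideal (MvPolynomial (Vr D) k), 𝔓.IsPrime ∧ 𝔓 ≤ mx (Vr D) k ∧ 𝔓 ≠ mx (Vr D) k ∧
      (∀ j, hval Y ω (S.F j) ∈ ext Λ 𝔓) ∧ ∀ j, X ⟨Sum.inl 0, j⟩ ∈ 𝔓

/-- FV15. Frobenius. As FG15L (`MP_410da7_agA/L/FG15L.lean`). -/
def FV15Stmt : Prop :=
  ∀ (k Λ : Type) [Field k] [Field Λ] [Algebra k Λ] (p e₀ : ℕ) [Fact p.Prime] [CharP k p]
    (C : Curve k Λ) (N r κ ρ : ℕ) (d : ℕ × ℕ) (S : System k N r κ ρ d) (y : Ix N r → Λ)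
    (P Q ℓ μ : C.pt → ℤ) (c₀ : Fin (r + 1)) (m : ℕ), 0 < e₀ →
    (∀ j, FixedBy (p ^ e₀) (S.F j)) → FixedBy (p ^ e₀) S.g → PtData C S y P Q ℓ μ c₀ →
    (∀ w, 0 < P w → ∃ (T : LogRel S.F) (μ' : Fin T.s → ℕ), (∀ i, FixedBy (p ^ e₀) (T.a i)) ∧
      FixedBy (p ^ e₀) T.χ ∧ ∑ i, (μ' i : ℤ) ≤ μ w ∧
      aeval y T.χ ≠ 0 ∧ C.ord w (aeval y T.χ) = - dv P Q T.e₁ w ∧
      (∀ i, ∀ j < (μ' i : ℤ) - dv P Q (T.e i) w, C.cf w j (aeval y (T.a i)) = 0) ∧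
      P w ≤ ∑ i, (T.lam i : ℤ) * μ' i) →
    PtData C S (fun l => y l ^ (p ^ e₀) ^ m) (((p ^ e₀) ^ m : ℤ) • P) (((p ^ e₀) ^ m : ℤ) • Q)
      (((p ^ e₀) ^ m : ℤ) • ℓ) (((p ^ e₀) ^ m : ℤ) • μ) c₀

/-! ## No common zeros -/

/-- NC1. Two sections of `O(Q)` without common zeros, `1` and `z`, generate the sections of high
multiples: `L((m+1) Q) = L(m Q) + z L(m Q)` for some `m`.
PROOF. `a_m = dim L(m Q)`. The kernel of `(u, u') ↦ u + u' z`, `L((m+1) Q)² → L((m+2) Q)`, is isomorphic to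
`L(m Q)` (`u' ∈ L((m+1) Q)` with `u' z ∈ L((m+1) Q)`: at the `w` with `Q_w > 0` the order of `u'` is
`≥ - m Q_w`, at the other `w` it is `≥ 0`). `a_{m+1} ≤ a_m + ∑ Q` (`FF8`, `MP_410da7_agA/FF8.lean`), so
`a_m - m ∑ Q` is nonincreasing, and it is bounded below by `- γ`; so it is constant for `m ≥ m₀`, and then
the image of this map has dimension `2 a_{m+1} - a_m = a_{m+2}`. Finite dimensionality: F2. -/
def NC1Stmt : Prop :=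
  ∀ (k Λ : Type) [Field k] [Field Λ] [Algebra k Λ] (C : Curve k Λ) (_w₀ : C.pt) (Q : C.pt → ℤ)
    (z : Λ) (γ : ℤ), (∀ w, 0 ≤ Q w) → {w | Q w ≠ 0}.Finite → z ∈ C.L Q →
    (∀ w, 0 < Q w → z ≠ 0 ∧ C.ord w z = - Q w) →
    (∀ D : C.pt → ℤ, {w | D w ≠ 0}.Finite → ∑ᶠ w, D w ≤ finrank k (C.L D) + γ) →
    ∃ m : ℕ, ∀ y ∈ C.L (((m + 1 : ℕ) : ℤ) • Q), ∃ u ∈ C.L ((m : ℤ) • Q), ∃ u' ∈ C.L ((m : ℤ) • Q),
      y = u + u' * z

/-- NC2. The `f`-part of the generic point of the family has no common zeros: a certificate, in terms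
of the expansions at the points `w` with `Q_w = 0`.
PROOF. NC1 for `z = Y_{c₀}`: `m`. Let `β_i` be a basis of `L(m Q)` and `e_j` a basis of `L((m+1) Q)` (finite
dimensional: F2). For `l` in the `f`-group, `β_i h_l = β_i Y_l + ∑_j β_i ω_{l,j} a_{l,j}` has coefficients in
`L((m+1) Q)`: it is `∑_j M_{(l,i),j} e_j`, `M_{(l,i),j} ∈ k[a]`. The rows with `l = 0, c₀` of the matrix
`M(0)` over `k` span `k^R`, `R = dim L((m+1) Q)` (NC1, `Y_0 = 1`), so some `R × R` minor of `M` has a nonzero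
constant term, is not in `mx ⊇ 𝔓`, and does not vanish at `s`. So the rows of `M(s)` span `Ω^R`: for
the coordinates of `1 ∈ L((m+1) Q)` (`1 = 1 + 0 z`, `Q ≥ 0`) there are `c'_{l,i} ∈ Ω` with
`∑ c'_{l,i} M_{(l,i),j}(s) = (coordinates of 1)_j`. Take expansions at `w` (all functions are regular at
`w`): the coefficient of `t^a` of a product is the convolution. -/
def NC2Stmt : Prop :=
  ∀ (k Λ : Type) [Field k] [Field Λ] [Algebra k Λ] (C : Curve k Λ) (_w₀ : C.pt) (N r : ℕ)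
    (Q : C.pt → ℤ) (Y : Ix N r → Λ) (c₀ : Fin (r + 1)) (γ : ℤ), (∀ w, 0 ≤ Q w) →
    {w | Q w ≠ 0}.Finite → Y (Sum.inr 0) = 1 → (∀ l, Y (Sum.inr l) ∈ C.L Q) →
    (∀ w, 0 < Q w → Y (Sum.inr c₀) ≠ 0 ∧ C.ord w (Y (Sum.inr c₀)) = - Q w) →
    (∀ D : C.pt → ℤ, {w | D w ≠ 0}.Finite → ∑ᶠ w, D w ≤ finrank k (C.L D) + γ) →
    ∀ (D : Ix N r → ℕ) (ω : (l : Ix N r) → Fin (D l) → Λ), (∀ l j, ω (Sum.inr l) j ∈ C.L Q) →
    ∀ (𝔓 : Ideal (MvPolynomial (Vr D) k)), 𝔓.IsPrime → 𝔓 ≤ mx (Vr D) k →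
    ∀ (Ω : Type) [Field Ω] [Algebra k Ω] (s : Vr D → Ω), (∀ p, p ∈ 𝔓 ↔ aeval s p = 0) →
    ∃ (t : ℕ) (β : Fin t → Λ) (c' : Fin (r + 1) → Fin t → Ω),
      (∀ i w, Q w = 0 → 0 ≤ C.ord w (β i)) ∧
      ∀ w, Q w = 0 → ∑ l, (PowerSeries.mk fun m => ∑ i, c' l i * algebraMap k Ω (C.cf w m (β i))) *
        hser C w Y ω s (Sum.inr l) = 1

/-! ## Block G: degeneration -/

/-- The valuation ring has rank at most one. -/
def RankOne {Ω : Type} [Field Ω] (𝒱 : ValuationSubring Ω) : Prop :=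
  ∀ x y : Ω, 𝒱.valuation x < 1 → y ≠ 0 → ∃ K : ℕ, 𝒱.valuation (x ^ K) ≤ 𝒱.valuation y

/-- GV3. As G3 (`MP_410da7_agA/G3.lean`), with a valuation ring of rank one.
PROOF. `S = k[a]/𝔓`, `F₀ = Frac S`, `Ω` an algebraic closure of `F₀`, `s_v` the class of `a_v`. Some
`s_v =: τ ≠ 0` (otherwise `𝔓 = mx`), and `τ` is transcendental over `k` (see G3). Let `k₁ ⊆ Ω` be the
algebraic closure in `Ω` of `k(T)`, where `T ∪ {τ}` is a transcendence basis of `Ω/k`; `τ` is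
transcendental over `k₁` and `Ω` is algebraic over `E = k₁(τ)`. `O_E` = the local ring
`k₁[1/τ]_{(1/τ)}`, a discrete valuation ring with uniformizer `ϖ = 1/τ`; let `𝒱` be a valuation ring of
`Ω` dominating it; `𝒱 ∩ E = O_E` (valuation rings of `E` dominating a discrete valuation ring are equal
to it). RANK ONE: (1) for `0 ≠ y ∈ Ω` there is `j` with `v(y) ≥ v(ϖ^j)`: `1/y` is algebraic over `E`, so
`ϖ^j/y` is integral over `O_E` for large `j`, hence in `𝒱`. (2) for `v(x) < 1`, `x ≠ 0`, there is `K` with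
`v(x^K) ≤ v(ϖ)`: otherwise let `∑ c_i x^i = 0`, `c_i ∈ O_E`, not all in `(ϖ)` (clear the denominators); the
terms with `c_i ∈ (ϖ)` have value `≤ v(ϖ) < v(x^j)` for all `j`, and among the terms with `c_i` a unit the
one with the smallest `i` is larger than all the others (`v(x) < 1`), so the sum is not `0`. -/
def GV3Stmt : Prop :=
  ∀ (k V : Type) [Field k] [Fintype V] (𝔓 : Ideal (MvPolynomial V k)), 𝔓.IsPrime →
    𝔓 ≤ mx V k → 𝔓 ≠ mx V k →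
    ∃ (Ω : Type) (_ : Field Ω) (_ : IsAlgClosed Ω) (_ : Algebra k Ω) (s : V → Ω)
      (𝒱 : ValuationSubring Ω), (∀ p, p ∈ 𝔓 ↔ aeval s p = 0) ∧
      (∀ c : k, algebraMap k Ω c ∈ 𝒱) ∧ RankOne 𝒱 ∧ ∃ v, s v ∉ 𝒱

/-- GV1. As G1 (`MP_410da7_agA/G1.lean`), for two families at the same point.
PROOF. If `ρ ≠ 0` let `m_i ≥ 1` be the smallest `m` with `∑_j ρ_j cf^m_{c i}(ω_j) ≠ 0` (the coefficient of
`t^0` vanishes; it exists because the expansions at `c i` of the `ω_j` are linearly independent over `k`,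
so the linear system `∑_j ρ_j cf^m_{c i}(ω_j) = 0`, all `m`, with coefficients in `k`, has no nonzero
solution over `k'`). CLAIM `∑ m_i ≤ ∑ P`: the linear system `∑_j x_j cf^m_{c i}(ω_j) = 0`, `m < m_i`,
has the nonzero solution `ρ` over `k'`, hence one over `k`: `0 ≠ y = ∑ x_j ω_j ∈ L(P)` with
`ord_{c i} y ≥ m_i`, and `∑ ord y = 0` (`C.sum`). The same for `ρ'`: `m'_i`, `∑ m'_i ≤ ∑ Q`. (If `ρ = 0` put
`m_i = 0`.) `∑ (m_i + m'_i) < (B + 1) b`, so `m_i + m'_i ≤ B` for some `i`. -/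
def GV1Stmt : Prop :=
  ∀ (k Λ k' : Type) [Field k] [Field Λ] [Algebra k Λ] [Field k'] [Algebra k k'] (C : Curve k Λ)
    (D D' b B : ℕ) (P Q : C.pt → ℤ), (∀ w, 0 ≤ P w) → (∀ w, 0 ≤ Q w) → {w | P w ≠ 0}.Finite →
    {w | Q w ≠ 0}.Finite → ∀ (c : Fin b → C.pt), Function.Injective c → (∀ i, P (c i) = 0) →
    (∀ i, Q (c i) = 0) → ∑ᶠ w, P w + ∑ᶠ w, Q w < (B + 1) * b →
    ∀ (ω : Fin D → Λ) (ω' : Fin D' → Λ), LinearIndependent k ω → LinearIndependent k ω' →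
    (∀ j, ω j ∈ C.L (P - ptDiv c)) → (∀ j, ω' j ∈ C.L (Q - ptDiv c)) →
    ∀ (ρ : Fin D → k') (ρ' : Fin D' → k'), ∃ (i : Fin b) (m m' : ℕ), m + m' ≤ B ∧
      (ρ ≠ 0 → 1 ≤ m ∧ ∑ j, ρ j * algebraMap k k' (C.cf (c i) m (ω j)) ≠ 0) ∧
      (ρ' ≠ 0 → 1 ≤ m' ∧ ∑ j, ρ' j * algebraMap k k' (C.cf (c i) m' (ω' j)) ≠ 0)

/-- The power series of a group of coordinates (`I` = the set of indices) are bounded by `θ` in
positive degrees, and either all the coefficients are in `𝒱`, or `|θ| > 1` is attained in degree `m`. -/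
def GrowthAt {Ω ι : Type} [Field Ω] (𝒱 : ValuationSubring Ω) (H : ι → PowerSeries Ω)
    (θ : Ω) (m : ℕ) : Prop :=
  (∀ l i, 1 ≤ i → 𝒱.valuation (PowerSeries.coeff i (H l)) ≤ 𝒱.valuation θ) ∧
    1 < 𝒱.valuation θ ∧ 1 ≤ m ∧
    ∃ l, 𝒱.valuation (PowerSeries.coeff m (H l)) = 𝒱.valuation θ

/-- BUBBLE (the end of block B, `SpecB.lean`). `H^x_l` (`H^x_0 = 1`) and `H^f_j` are power series over
`Ω` with constant terms in `k` (`v`, with `v_{f_0} = 1`); each of the two groups is bounded or grows with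
its maximum in degree `m_x` resp. `m_f`, not both are bounded, `m_x + m_f ≤ B` (`m = 0` for a bounded
group); the `H^f_j` have no common zeros (`∑ u_j H^f_j = 1`, `u` bounded); the bihomogeneous polynomials
`F_j` vanish at `H`. Then there is a curve `𝔸¹ → X` of degree at most `B` through `v`, not constant, over an
extension of `k`. -/
def BubbleStmt : Prop :=
  ∀ (k Ω : Type) [Field k] [Field Ω] [IsAlgClosed Ω] [Algebra k Ω] (𝒱 : ValuationSubring Ω),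
    (∀ c : k, algebraMap k Ω c ∈ 𝒱) → RankOne 𝒱 → ∀ (N r κ B mx mf : ℕ) (d : ℕ × ℕ)
    (F : Fin κ → MvPolynomial (Ix N r) k), (∀ j, BiHom (F j) d) →
    ∀ (H : Ix N r → PowerSeries Ω) (v : Ix N r → k), H (Sum.inl 0) = 1 → v (Sum.inr 0) = 1 →
    (∀ l, PowerSeries.coeff 0 (H l) = algebraMap k Ω (v l)) → (∀ j, aeval H (F j) = 0) →
    mx + mf ≤ B →
    ((∀ l i, PowerSeries.coeff i (H (Sum.inl l)) ∈ 𝒱) ∨
      ∃ θ, GrowthAt 𝒱 (fun l => H (Sum.inl l)) θ mx) →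
    ((∀ l i, PowerSeries.coeff i (H (Sum.inr l)) ∈ 𝒱) ∨
      ∃ θ, GrowthAt 𝒱 (fun l => H (Sum.inr l)) θ mf) →
    (¬ ∀ l i, PowerSeries.coeff i (H l) ∈ 𝒱) →
    (∃ (u : Fin (r + 1) → PowerSeries Ω) (θ' : Ω),
      (∀ j i, 𝒱.valuation (PowerSeries.coeff i (u j)) ≤ 𝒱.valuation θ') ∧
      ∑ j, u j * H (Sum.inr j) = 1) →
    ∃ (k' : Type) (_ : Field k') (_ : Algebra k k') (Y : Ix N r → Polynomial k'),
      IsCurve F (fun l => algebraMap k k' (v l)) B Y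

/-- FV16. THE THEOREM IN CHARACTERISTIC `p` (the end of blocks F and G).
PROOF. As FG16 (`MP_410da7_agA/FG16.lean`). `q = (p^e₀)^m`, `m` large; `b` = the largest integer with
`(n + 2)(b + γ) < q a'`; then `q (∑ P + ∑ Q) < (B + 1) b` and `0 < b` for large `m`. Choose `b` distinct
points `c_i` of `U`. FV15: `PtData` for `Y = y^q`, `q P`, `q Q`, `q ℓ`, `q μ`. `D_l = dim L(dv(qP, qQ)(wt l)
- ∑ c_i)`, `ω_l` a basis; by the hypothesis on `γ` and F4: `D_l ≥ q ∑ P - γ - b` resp. `q ∑ Q - γ - b`.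
`I₀` is injective (the minor `J₀` is not zero) and there are `n + 2` indices `l ∉ range I₀`, so
`∑_l D_l - ∑_i D_{I₀ i} = ∑_{l ∉ I₀} D_l ≥ q ((N+1) ∑P + (r+1) ∑Q - ∑_i ∑ dv(wt(I₀ i))) - (n+2)(γ + b)
> q (∑ ℓ + ∑ μ)`. FV14: `𝔓`. GV3: `Ω, s, 𝒱`. If some `s_{l,j}` with `l` in the `x`-group is not in `𝒱` let
`θ_x = s_{l*,j*}` be one of maximal value in this group and `ρ_j =` residue of `s_{l*,j}/θ_x`; otherwise
`ρ = 0`; similarly `θ_f`, `ρ'`. GV1 with `B`: `i`, `m_x`, `m_f`. `H = hser C (c i) Y ω s`: the constant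
terms are `Y_l(c_i) ∈ k` (the `ω` vanish at `c_i`); the coefficients of positive degree of the group are
bounded by `|θ|` and the coefficient of degree `m` of `H_{l*}` has absolute value `|θ|` (its residue
after division by `θ` is `∑ ρ_j cf^m(ω_{l*,j}) ≠ 0`, the part `cf^m(Y)/θ` is in the maximal ideal); if all
the `s` of the group are in `𝒱` then so are the coefficients. `H_{x_0} = 1`: `X ⟨inl 0, j⟩ ∈ 𝔓` gives
`s = 0`. `F_j(H) = 0`: the ring homomorphism `Λ[a] → Ω((t))` kills `𝔓 Λ[a]` (see the proof of G4,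
`MP_410da7_agA/G4.lean`). Not all coefficients of all `H_l` are in `𝒱` (some `s_v ∉ 𝒱`). NC2: `u` with
bounded coefficients (`θ'` = the largest of the `c'_{l,i}`, or `1`). BUBBLE with `v_l = Y_l(c_i) =
cf_{c i}^0(y_l)^q`. -/
def FV16Stmt : Prop :=
  ∀ (k Λ : Type) [Field k] [Field Λ] [Algebra k Λ] (p e₀ : ℕ) [Fact p.Prime] [CharP k p]
    (C : Curve k Λ) (N r κ ρ n : ℕ) (d : ℕ × ℕ) (S : System k N r κ ρ d) (y : Ix N r → Λ)
    (P Q ℓ μ : C.pt → ℤ) (c₀ : Fin (r + 1)), N + r = n + ρ → 0 < e₀ →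
    (∀ j, FixedBy (p ^ e₀) (S.F j)) → FixedBy (p ^ e₀) S.g → PtData C S y P Q ℓ μ c₀ →
    (∀ w, 0 < P w → ∃ (T : LogRel S.F) (μ' : Fin T.s → ℕ), (∀ i, FixedBy (p ^ e₀) (T.a i)) ∧
      FixedBy (p ^ e₀) T.χ ∧ ∑ i, (μ' i : ℤ) ≤ μ w ∧
      aeval y T.χ ≠ 0 ∧ C.ord w (aeval y T.χ) = - dv P Q T.e₁ w ∧
      (∀ i, ∀ j < (μ' i : ℤ) - dv P Q (T.e i) w, C.cf w j (aeval y (T.a i)) = 0) ∧
      P w ≤ ∑ i, (T.lam i : ℤ) * μ' i) →
    ∀ (a' γ : ℤ) (B : ℕ), 1 ≤ a' →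
    ∑ᶠ w, ℓ w + ∑ᶠ w, μ w + a' + ∑ i, ∑ᶠ w, dv P Q (wt (S.I₀ i)) w ≤
      (N + 1) * ∑ᶠ w, P w + (r + 1) * ∑ᶠ w, Q w →
    (n + 2) * (∑ᶠ w, P w + ∑ᶠ w, Q w) < (B + 1) * a' →
    (∀ D : C.pt → ℤ, {w | D w ≠ 0}.Finite → ∑ᶠ w, D w ≤ finrank k (C.L D) + γ) →
    ∀ (U : Set C.pt), U.Infinite → (∀ w ∈ U, P w = 0) → (∀ w ∈ U, Q w = 0) →
    ∃ (m : ℕ) (w : C.pt) (_ : w ∈ U) (k' : Type) (_ : Field k') (_ : Algebra k k')
      (Yp : Ix N r → Polynomial k'),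
      IsCurve S.F (fun l => algebraMap k k' (C.cf w 0 (y l) ^ (p ^ e₀) ^ m)) B Yp

end Pool.Agent.Lib.MP_410da7_agV
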